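import Mathlib.Analysis.Complex.Exponential
import Mathlib.Analysis.Complex.Trigonometric
import Mathlib.Analysis.SpecialFunctions.Trigonometric.Bounds
import Mathlib.Tactic

-- part Pool.Agent.Lib.MP_f2f914_nt.Trig
section

/-!
A kernel-friendly verified evaluator giving upper bounds for exponential sums
`y ↦ ∑ Re (α · exp (i (n/10) y))` on an interval `[0, J/512]`.
-/

set_option autoImplicit false

namespace Pool.Agent.Lib.MP_f2f914_nt

open Complex

/-- force evaluation of a natural number before passing it on -/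
noncomputable def fN {β : Type} (n : Nat) (k : Nat → β) : β :=
  Nat.rec (k 0) (fun m _ => k (Nat.succ m)) n

theorem fN_eq {β : Type} (n : Nat) (k : Nat → β) : fN n k = k n := by
  cases n <;> rfl

/-- force evaluation of an integer before passing it on -/
noncomputable def fI {β : Type} (x : Int) (k : Int → β) : β :=
  Int.rec (fun a => fN a (fun a' => k (Int.ofNat a')))
    (fun a => fN a (fun a' => k (Int.negSucc a'))) x

theorem fI_eq {β : Type} (x : Int) (k : Int → β) : fI x k = k x := by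
  cases x <;> simp [fI, fN_eq]

structure St where
  n : Nat
  w1 : Nat
  w2 : Nat
  c1 : Nat
  c2 : Nat
  s1 : Nat
  s2 : Nat

def St.next (t : St) : St :=
  ⟨t.n, t.w1, t.w2, t.c1, t.c2,
    (t.s1 * t.w1 + t.c1 - t.s2 * t.w2) / 2 ^ 50, (t.s1 * t.w2 + t.s2 * t.w1 - t.c2) / 2 ^ 50⟩

noncomputable def nextAll (L : List St) : Nat → Nat → (List St → Nat → Nat → Nat) → Nat :=
  List.rec (motive := fun _ => Nat → Nat → (List St → Nat → Nat → Nat) → Nat)
  (fun v d k => k [] v d)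
  (fun t _ ih v d k =>
    St.casesOn t fun n w1 w2 c1 c2 s1 s2 =>
    fN (Nat.shiftRight (Nat.sub (Nat.add (Nat.mul s1 w1) c1) (Nat.mul s2 w2)) 50) fun a =>
    fN (Nat.shiftRight (Nat.sub (Nat.add (Nat.mul s1 w2) (Nat.mul s2 w1)) c2) 50) fun b =>
    fN (Nat.add v s1) fun v' =>
    fN (Nat.add d (Nat.mul n s2)) fun d' =>
    ih v' d' fun L' v'' d'' => k (⟨n, w1, w2, c1, c2, a, b⟩ :: L') v'' d'') L

theorem nextAll_eq (L : List St) : ∀ (v d : Nat) (k : List St → Nat → Nat → Nat),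
    nextAll L v d k = k (L.map St.next) (v + (L.map St.s1).sum)
      (d + (L.map fun t => t.n * t.s2).sum) := by
  induction L with
  | nil => intro v d k; rfl
  | cons t L ih =>
    intro v d k
    obtain ⟨n, w1, w2, c1, c2, s1, s2⟩ := t
    have h : nextAll (⟨n, w1, w2, c1, c2, s1, s2⟩ :: L) v d k =
      fN (Nat.shiftRight (Nat.sub (Nat.add (Nat.mul s1 w1) c1) (Nat.mul s2 w2)) 50) fun a =>
      fN (Nat.shiftRight (Nat.sub (Nat.add (Nat.mul s1 w2) (Nat.mul s2 w1)) c2) 50) fun b =>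
      fN (Nat.add v s1) fun v' =>
      fN (Nat.add d (Nat.mul n s2)) fun d' =>
      nextAll L v' d' fun L' v'' d'' => k (⟨n, w1, w2, c1, c2, a, b⟩ :: L') v'' d'' := rfl
    rw [h]
    simp only [fN_eq, ih, List.map_cons, List.sum_cons, St.next]
    have e1 : ∀ a : Nat, Nat.shiftRight a 50 = a / 2 ^ 50 := fun a => Nat.shiftRight_eq_div_pow a 50
    simp only [e1, Nat.add_eq, Nat.mul_eq, Nat.sub_eq, Nat.add_assoc]

/-- the quantity maximised by `run` -/
def xval (z : Nat) (L : List St) : Nat :=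
  5120 * (L.map St.s1).sum + (z - (L.map fun t => t.n * t.s2).sum)

noncomputable def run (z : Nat) (j : Nat) : List St → Nat → Nat :=
  Nat.rec (motive := fun _ => List St → Nat → Nat) (fun _ acc => acc)
   (fun _ ih L acc =>
    nextAll L 0 0 fun L' v d =>
    fN (Nat.add (Nat.mul 5120 v) (Nat.sub z d)) fun x =>
      Bool.rec (ih L' acc) (ih L' x) (Nat.ble acc x)) j

theorem run_succ (z j : Nat) (L : List St) (acc : Nat) :
    run z (j + 1) L acc = run z j (L.map St.next) (max acc (xval z L)) := by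
  have h : run z (j + 1) L acc = nextAll L 0 0 fun L' v d =>
    fN (Nat.add (Nat.mul 5120 v) (Nat.sub z d)) fun x =>
      Bool.rec (run z j L' acc) (run z j L' x) (Nat.ble acc x) := rfl
  rw [h, nextAll_eq, fN_eq]
  simp only [Nat.zero_add, Nat.add_eq, Nat.mul_eq, Nat.sub_eq]
  change Bool.rec (motive := fun _ => Nat) (run z j _ acc) (run z j _ (xval z L))
    (Nat.ble acc (xval z L)) = _
  by_cases hh : acc ≤ xval z L
  · rw [Nat.ble_eq_true_of_le hh, max_eq_right hh]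
  · have : Nat.ble acc (xval z L) = false := by
      cases hb : Nat.ble acc (xval z L)
      · rfl
      · exact absurd (Nat.le_of_ble_eq_true hb) hh
    rw [this, max_eq_left (le_of_lt (not_le.mp hh))]

theorem run_ge (z : Nat) : ∀ (j : Nat) (L : List St) (acc : Nat),
    acc ≤ run z j L acc ∧ ∀ i < j, xval z (L.map (St.next^[i])) ≤ run z j L acc := by
  intro j
  induction j with
  | zero => intro L acc; exact ⟨le_refl _, fun i hi => absurd hi (Nat.not_lt_zero i)⟩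
  | succ j ih =>
    intro L acc
    rw [run_succ]
    obtain ⟨h1, h2⟩ := ih (L.map St.next) (max acc (xval z L))
    refine ⟨le_trans (le_max_left _ _) h1, ?_⟩
    intro i hi
    cases i with
    | zero => simpa using le_trans (le_max_right _ _) h1
    | succ i =>
      have := h2 i (by omega)
      rw [List.map_map] at this
      simpa [Function.iterate_succ] using this

/-- fixed point approximation of `cos (n/5120)` -/
def om1 (n : Nat) : Nat :=
  2 ^ 50 * (720 * 5120 ^ 6 + 30 * n ^ 4 * 5120 ^ 2 - (360 * n ^ 2 * 5120 ^ 4 + n ^ 6)) /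
    (720 * 5120 ^ 6)

/-- fixed point approximation of `sin (n/5120)` -/
def om2 (n : Nat) : Nat :=
  2 ^ 50 * (5040 * n * 5120 ^ 6 + 42 * n ^ 5 * 5120 ^ 2 - (840 * n ^ 3 * 5120 ^ 4 + n ^ 7)) /
    (5040 * 5120 ^ 7)

theorem natdiv_approx (a b : Nat) (hb : 0 < b) : |((a / b : Nat) : ℝ) - (a : ℝ) / b| ≤ 1 := by
  have h1 : ((a / b : Nat) : ℝ) ≤ (a : ℝ) / b := Nat.cast_div_le
  have hb' : (0 : ℝ) < b := by exact_mod_cast hb
  have h2 : (a : ℝ) / b < ((a / b : Nat) : ℝ) + 1 := by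
    rw [div_lt_iff₀ hb']
    have := Nat.lt_mul_div_succ a hb
    have h3 : (a : ℝ) < (b : ℝ) * (((a / b : Nat) : ℝ) + 1) := by exact_mod_cast this
    linarith
  rw [abs_le]; constructor <;> linarith

theorem om_approx (n : Nat) (hn : n ≤ 320) :
    ‖((om1 n : ℝ) / 2 ^ 50 + ((om2 n : ℝ) / 2 ^ 50 : ℝ) * I : ℂ) - exp (I * ((n : ℝ) / 5120 : ℝ))‖
      ≤ 1 / 10 ^ 14 := by
  set θ : ℝ := (n : ℝ) / 5120 with hθ
  have hn' : (n : ℝ) ≤ 320 := by exact_mod_cast hn
  have hn0 : (0 : ℝ) ≤ n := Nat.cast_nonneg n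
  have hθ0 : 0 ≤ θ := by positivity
  have hθ1 : θ ≤ 1 / 16 := by rw [hθ]; linarith
  have hnorm : ‖I * (θ : ℂ)‖ = θ := by simp [abs_of_nonneg hθ0]
  have hb := Complex.exp_bound (x := I * (θ : ℂ)) (by rw [hnorm]; linarith) (n := 8) (by norm_num)
  rw [hnorm] at hb
  have hsum : ∑ m ∈ Finset.range 8, (I * (θ : ℂ)) ^ m / (m.factorial : ℂ) =
      ((1 - θ ^ 2 / 2 + θ ^ 4 / 24 - θ ^ 6 / 720 : ℝ) : ℂ) +
        ((θ - θ ^ 3 / 6 + θ ^ 5 / 120 - θ ^ 7 / 5040 : ℝ) : ℂ) * I := by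
    simp only [Finset.sum_range_succ, Finset.sum_range_zero, Nat.factorial]
    push_cast
    have h2 : I ^ 2 = -1 := I_sq
    have h3 : I ^ 3 = -I := by rw [pow_succ, h2]; ring
    have h4 : I ^ 4 = 1 := I_pow_four
    have h5 : I ^ 5 = I := by rw [pow_succ, h4]; ring
    have h6 : I ^ 6 = -1 := by rw [pow_succ, h5]; simp
    have h7 : I ^ 7 = -I := by rw [pow_succ, h6]; ring
    simp only [mul_pow, h2, h3, h4, h5, h6, h7]
    ring
  rw [hsum] at hb
  have hle1 : 360 * n ^ 2 * 5120 ^ 4 + n ^ 6 ≤ 720 * 5120 ^ 6 + 30 * n ^ 4 * 5120 ^ 2 := by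
    have a1 : n ^ 2 ≤ 320 ^ 2 := Nat.pow_le_pow_left hn 2
    have a2 : n ^ 6 ≤ 320 ^ 6 := Nat.pow_le_pow_left hn 6
    omega
  have hle2 : 840 * n ^ 3 * 5120 ^ 4 + n ^ 7 ≤ 5040 * n * 5120 ^ 6 + 42 * n ^ 5 * 5120 ^ 2 := by
    have a1 : n ^ 2 ≤ 320 ^ 2 := Nat.pow_le_pow_left hn 2
    have a2 : n ^ 6 ≤ 320 ^ 6 := Nat.pow_le_pow_left hn 6
    have a3 : n ^ 3 ≤ n * 320 ^ 2 := by
      calc n ^ 3 = n * n ^ 2 := by ring
        _ ≤ n * 320 ^ 2 := Nat.mul_le_mul_left n a1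
    have a4 : n ^ 7 ≤ n * 320 ^ 6 := by
      calc n ^ 7 = n * n ^ 6 := by ring
        _ ≤ n * 320 ^ 6 := Nat.mul_le_mul_left n a2
    have a5 : 840 * n ^ 3 * 5120 ^ 4 ≤ 840 * (n * 320 ^ 2) * 5120 ^ 4 := by gcongr
    have a6 : 840 * (n * 320 ^ 2) * 5120 ^ 4 + n * 320 ^ 6 ≤ 5040 * n * 5120 ^ 6 := by
      have : 840 * (n * 320 ^ 2) * 5120 ^ 4 + n * 320 ^ 6 =
        n * (840 * 320 ^ 2 * 5120 ^ 4 + 320 ^ 6) := by ring
      have h2 : 5040 * n * 5120 ^ 6 = n * (5040 * 5120 ^ 6) := by ring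
      have h3 : 840 * 320 ^ 2 * 5120 ^ 4 + 320 ^ 6 ≤ 5040 * 5120 ^ 6 := by norm_num
      rw [this, h2]
      exact Nat.mul_le_mul_left n h3
    exact le_trans (add_le_add a5 a4) (le_trans a6 (Nat.le_add_right _ _))
  have e1 := natdiv_approx
    (2 ^ 50 * (720 * 5120 ^ 6 + 30 * n ^ 4 * 5120 ^ 2 - (360 * n ^ 2 * 5120 ^ 4 + n ^ 6)))
    (720 * 5120 ^ 6) (by norm_num)
  have e2 := natdiv_approx
    (2 ^ 50 * (5040 * n * 5120 ^ 6 + 42 * n ^ 5 * 5120 ^ 2 - (840 * n ^ 3 * 5120 ^ 4 + n ^ 7)))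
    (5040 * 5120 ^ 7) (by norm_num)
  change |(om1 n : ℝ) - _| ≤ 1 at e1
  change |(om2 n : ℝ) - _| ≤ 1 at e2
  rw [Nat.cast_mul, Nat.cast_sub hle1] at e1
  rw [Nat.cast_mul, Nat.cast_sub hle2] at e2
  have f1 : |(om1 n : ℝ) / 2 ^ 50 - (1 - θ ^ 2 / 2 + θ ^ 4 / 24 - θ ^ 6 / 720)| ≤ 1 / 2 ^ 50 := by
    have : (om1 n : ℝ) / 2 ^ 50 - (1 - θ ^ 2 / 2 + θ ^ 4 / 24 - θ ^ 6 / 720) =
        ((om1 n : ℝ) - ((2 ^ 50 : ℕ) : ℝ) * (((720 * 5120 ^ 6 + 30 * n ^ 4 * 5120 ^ 2 : ℕ) : ℝ) -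
          ((360 * n ^ 2 * 5120 ^ 4 + n ^ 6 : ℕ) : ℝ)) / ((720 * 5120 ^ 6 : ℕ) : ℝ)) / 2 ^ 50 := by
      rw [hθ]; push_cast; field_simp; ring
    rw [this, abs_div, abs_of_pos (by positivity : (0 : ℝ) < 2 ^ 50)]
    exact div_le_div_of_nonneg_right e1 (by positivity)
  have f2 : |(om2 n : ℝ) / 2 ^ 50 - (θ - θ ^ 3 / 6 + θ ^ 5 / 120 - θ ^ 7 / 5040)| ≤ 1 / 2 ^ 50 := by
    have : (om2 n : ℝ) / 2 ^ 50 - (θ - θ ^ 3 / 6 + θ ^ 5 / 120 - θ ^ 7 / 5040) =
        ((om2 n : ℝ) - ((2 ^ 50 : ℕ) : ℝ) *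
          (((5040 * n * 5120 ^ 6 + 42 * n ^ 5 * 5120 ^ 2 : ℕ) : ℝ) -
          ((840 * n ^ 3 * 5120 ^ 4 + n ^ 7 : ℕ) : ℝ)) / ((5040 * 5120 ^ 7 : ℕ) : ℝ)) / 2 ^ 50 := by
      rw [hθ]; push_cast; field_simp; ring
    rw [this, abs_div, abs_of_pos (by positivity : (0 : ℝ) < 2 ^ 50)]
    exact div_le_div_of_nonneg_right e2 (by positivity)
  set A : ℝ := 1 - θ ^ 2 / 2 + θ ^ 4 / 24 - θ ^ 6 / 720
  set B : ℝ := θ - θ ^ 3 / 6 + θ ^ 5 / 120 - θ ^ 7 / 5040
  have g1 : ‖((om1 n : ℝ) / 2 ^ 50 + ((om2 n : ℝ) / 2 ^ 50 : ℝ) * I : ℂ) - ((A : ℂ) + (B : ℂ) * I)‖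
      ≤ 2 / 2 ^ 50 := by
    refine le_trans (Complex.norm_le_abs_re_add_abs_im _) ?_
    have r1 : (((om1 n : ℝ) / 2 ^ 50 + ((om2 n : ℝ) / 2 ^ 50 : ℝ) * I : ℂ) -
        ((A : ℂ) + (B : ℂ) * I)).re = (om1 n : ℝ) / 2 ^ 50 - A := by
      have : ((om1 n : ℝ) / 2 ^ 50 : ℂ) = (((om1 n : ℝ) / 2 ^ 50 : ℝ) : ℂ) := by push_cast; rfl
      rw [this]; simp only [sub_re, add_re, ofReal_re, mul_re, I_re, I_im, ofReal_im]; ring
    have r2 : (((om1 n : ℝ) / 2 ^ 50 + ((om2 n : ℝ) / 2 ^ 50 : ℝ) * I : ℂ) -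
        ((A : ℂ) + (B : ℂ) * I)).im = (om2 n : ℝ) / 2 ^ 50 - B := by
      have : ((om1 n : ℝ) / 2 ^ 50 : ℂ) = (((om1 n : ℝ) / 2 ^ 50 : ℝ) : ℂ) := by push_cast; rfl
      rw [this]; simp only [sub_im, add_im, ofReal_re, mul_im, I_re, I_im, ofReal_im]; ring
    rw [r1, r2]; linarith
  have g2 : θ ^ 8 * ((Nat.succ 8 : ℝ) * ((Nat.factorial 8 : ℝ) * (8 : ℕ))⁻¹) ≤ 7 / 10 ^ 15 := by
    have : θ ^ 8 ≤ (1 / 16) ^ 8 := pow_le_pow_left₀ hθ0 hθ1 8
    simp only [Nat.factorial]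
    norm_num at this ⊢
    linarith
  calc _ = ‖(((om1 n : ℝ) / 2 ^ 50 + ((om2 n : ℝ) / 2 ^ 50 : ℝ) * I : ℂ) - ((A : ℂ) + (B : ℂ) * I))
        - (exp (I * (θ : ℂ)) - ((A : ℂ) + (B : ℂ) * I))‖ := by congr 1; ring
    _ ≤ 2 / 2 ^ 50 + 7 / 10 ^ 15 := le_trans (norm_sub_le _ _) (add_le_add g1 (le_trans hb g2))
    _ ≤ 1 / 10 ^ 14 := by norm_num

end Pool.Agent.Lib.MP_f2f914_nt
end

-- part Pool.Agent.Lib.MP_f2f914_nt.Box
section

/-!
A kernel-friendly verified quadtree checker for a lower bound of a quadratic function on the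
intersection of a Cassini oval with half planes.
-/

set_option autoImplicit false

namespace Pool.Agent.Lib.MP_f2f914_nt

noncomputable def ab (x : Int) : Int := Int.ofNat (Int.natAbs x)

theorem ab_eq (x : Int) : ab x = |x| := by simp [ab]

noncomputable def hpOut (hps : List (Int × Int × Int)) (x y s : Int) : Bool :=
  List.rec (motive := fun _ => Bool) false
    (fun hp _ ih => Prod.casesOn hp fun p r => Prod.casesOn r fun q c =>
      Bool.rec ih true (Int.blt' (Int.add c (Int.mul (Int.add (ab p) (ab q)) s))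
        (Int.add (Int.mul p x) (Int.mul q y)))) hps

theorem hpOut_sound (x y s : Int) (X Y : ℝ) (hX : |X - x| ≤ s) (hY : |Y - y| ≤ s) :
    ∀ hps : List (Int × Int × Int), hpOut hps x y s = true →
      ¬ ∀ hp ∈ hps, (hp.1 : ℝ) * X + hp.2.1 * Y ≤ hp.2.2 := by
  intro hps
  induction hps with
  | nil => intro h; exact absurd h (by simp [hpOut])
  | cons hp L ih =>
    obtain ⟨p, q, c⟩ := hp
    intro h hall
    have e : hpOut ((p, q, c) :: L) x y s = Bool.rec (motive := fun _ => Bool) (hpOut L x y s) true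
      (Int.blt' (Int.add c (Int.mul (Int.add (ab p) (ab q)) s))
        (Int.add (Int.mul p x) (Int.mul q y))) := rfl
    rw [e] at h
    cases hb : (Int.blt' (Int.add c (Int.mul (Int.add (ab p) (ab q)) s))
        (Int.add (Int.mul p x) (Int.mul q y)))
    · rw [hb] at h
      exact ih h (fun hp hhp => hall hp (List.mem_cons_of_mem _ hhp))
    · rw [Int.blt'_eq_true] at hb
      simp only [Int.add_def, Int.mul_def, ab_eq] at hb
      have h1 := hall (p, q, c) List.mem_cons_self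
      simp only at h1
      have hb' : (c : ℝ) + (|(p : ℝ)| + |(q : ℝ)|) * s < p * x + q * y := by exact_mod_cast hb
      have a1 : -(|(p : ℝ)| * s) ≤ p * (X - x) := by
        have := abs_mul (p : ℝ) (X - x)
        have h2 : |(p : ℝ)| * |X - x| ≤ |(p : ℝ)| * s := mul_le_mul_of_nonneg_left hX (abs_nonneg _)
        linarith [neg_abs_le ((p : ℝ) * (X - x))]
      have a2 : -(|(q : ℝ)| * s) ≤ q * (Y - y) := by
        have := abs_mul (q : ℝ) (Y - y)
        have h2 : |(q : ℝ)| * |Y - y| ≤ |(q : ℝ)| * s := mul_le_mul_of_nonneg_left hY (abs_nonneg _)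
        linarith [neg_abs_le ((q : ℝ) * (Y - y))]
      linarith

noncomputable def box (a1 a2 b1 b2 W D2 h bb : Int) (hps : List (Int × Int × Int)) (k : Nat) :
    Int → Int → Int → Bool :=
  Nat.rec (motive := fun _ => Int → Int → Int → Bool) (fun _ _ _ => false)
   (fun _ ih x y s =>
     Bool.rec
     (fI (Int.sub (Int.sub (Int.mul x x) (Int.mul y y)) W) fun u1 =>
      fI (Int.mul 2 (Int.mul x y)) fun u2 =>
      fI (Int.mul s s) fun s2 =>
      Bool.rec
       (fI (Int.add (Int.mul u1 u1) (Int.mul u2 u2)) fun uu =>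
        fI (Int.sub uu (Int.add (Int.mul (Int.mul 2 s)
            (Int.add (ab (Int.add (Int.mul u1 x) (Int.mul u2 y)))
              (ab (Int.sub (Int.mul u1 y) (Int.mul u2 x)))))
          (Int.mul s2 (Int.add (ab u1) (Int.mul 2 (ab u2)))))) fun A =>
        Bool.rec
         (fI (Int.ediv s 2) fun s' =>
          fI (Int.add x s') fun xp => fI (Int.sub x s') fun xm =>
          fI (Int.add y s') fun yp => fI (Int.sub y s') fun ym =>
          Bool.and (Bool.and (ih xp yp s') (ih xp ym s')) (Bool.and (ih xm yp s') (ih xm ym s')))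
         true
         (Bool.and (Int.blt' 0 A) (Int.blt' (Int.mul D2 uu) (Int.mul A A))))
       true
       (Int.ble' (Int.add (Int.add h (Int.mul bb s2))
           (Int.mul s (Int.add (ab (Int.add a1 (Int.mul 2 (Int.sub (Int.mul b1 x) (Int.mul b2 y)))))
             (ab (Int.add a2 (Int.mul 2 (Int.add (Int.mul b1 y) (Int.mul b2 x))))))))
         (Int.add (Int.sub (Int.mul a1 x) (Int.mul a2 y))
           (Int.sub (Int.mul b1 u1) (Int.mul b2 u2)))))
     true (hpOut hps x y s)) k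

theorem bool_rec_true {a c : Bool} :
    (Bool.rec (motive := fun _ => Bool) a true c = true) ↔ (c = true ∨ a = true) := by
  cases c <;> simp

theorem lin_lower (p d s : ℝ) (hd : |d| ≤ s) : -(|p| * s) ≤ p * d := by
  have := abs_mul p d
  have h2 : |p| * |d| ≤ |p| * s := mul_le_mul_of_nonneg_left hd (abs_nonneg _)
  linarith [neg_abs_le (p * d)]

theorem quad_lower (p q dx dy s : ℝ) (hx : |dx| ≤ s) (hy : |dy| ≤ s) :
    -((|p| + 2 * |q|) * (s * s)) ≤ p * (dx * dx - dy * dy) + q * (2 * dx * dy) := by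
  have hs : 0 ≤ s := le_trans (abs_nonneg _) hx
  have x2 : dx * dx ≤ s * s := by
    rw [← abs_mul_abs_self dx]; exact mul_le_mul hx hx (abs_nonneg _) hs
  have y2 : dy * dy ≤ s * s := by
    rw [← abs_mul_abs_self dy]; exact mul_le_mul hy hy (abs_nonneg _) hs
  have h1 : |dx * dx - dy * dy| ≤ s * s := by
    rw [abs_le]; constructor <;> nlinarith [mul_self_nonneg dx, mul_self_nonneg dy]
  have h2 : |dx * dy| ≤ s * s := by
    rw [abs_mul]; exact mul_le_mul hx hy (abs_nonneg _) hs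
  have a1 := lin_lower p _ _ h1
  have a2 := lin_lower q _ _ h2
  linarith

theorem box_sound (a1 a2 b1 b2 W D2 h bb : Int) (hps : List (Int × Int × Int))
    (hbb : bb = |b1| + 2 * |b2|) (X Y : ℝ)
    (hhp : ∀ hp ∈ hps, (hp.1 : ℝ) * X + hp.2.1 * Y ≤ hp.2.2)
    (hov : (X * X - Y * Y - W) ^ 2 + (2 * X * Y) ^ 2 ≤ D2) :
    ∀ (k : Nat) (x y s : Int), s = 2 ^ k → box a1 a2 b1 b2 W D2 h bb hps k x y s = true →
      |X - x| ≤ s → |Y - y| ≤ s →
      (h : ℝ) ≤ a1 * X - a2 * Y + (b1 * (X * X - Y * Y - W) - b2 * (2 * X * Y)) := by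
  intro k
  induction k with
  | zero => intro x y s _ hb; exact absurd hb (by simp [box])
  | succ k ih =>
    intro x y s hs hb hX hY
    have e : box a1 a2 b1 b2 W D2 h bb hps (k + 1) x y s =
     Bool.rec (motive := fun _ => Bool)
     (fI (Int.sub (Int.sub (Int.mul x x) (Int.mul y y)) W) fun u1 =>
      fI (Int.mul 2 (Int.mul x y)) fun u2 =>
      fI (Int.mul s s) fun s2 =>
      Bool.rec (motive := fun _ => Bool)
       (fI (Int.add (Int.mul u1 u1) (Int.mul u2 u2)) fun uu =>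
        fI (Int.sub uu (Int.add (Int.mul (Int.mul 2 s)
            (Int.add (ab (Int.add (Int.mul u1 x) (Int.mul u2 y)))
              (ab (Int.sub (Int.mul u1 y) (Int.mul u2 x)))))
          (Int.mul s2 (Int.add (ab u1) (Int.mul 2 (ab u2)))))) fun A =>
        Bool.rec (motive := fun _ => Bool)
         (fI (Int.ediv s 2) fun s' =>
          fI (Int.add x s') fun xp => fI (Int.sub x s') fun xm =>
          fI (Int.add y s') fun yp => fI (Int.sub y s') fun ym =>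
          Bool.and (Bool.and (box a1 a2 b1 b2 W D2 h bb hps k xp yp s')
            (box a1 a2 b1 b2 W D2 h bb hps k xp ym s'))
            (Bool.and (box a1 a2 b1 b2 W D2 h bb hps k xm yp s')
              (box a1 a2 b1 b2 W D2 h bb hps k xm ym s')))
         true
         (Bool.and (Int.blt' 0 A) (Int.blt' (Int.mul D2 uu) (Int.mul A A))))
       true
       (Int.ble' (Int.add (Int.add h (Int.mul bb s2))
           (Int.mul s (Int.add (ab (Int.add a1 (Int.mul 2 (Int.sub (Int.mul b1 x) (Int.mul b2 y)))))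
             (ab (Int.add a2 (Int.mul 2 (Int.add (Int.mul b1 y) (Int.mul b2 x))))))))
         (Int.add (Int.sub (Int.mul a1 x) (Int.mul a2 y))
           (Int.sub (Int.mul b1 u1) (Int.mul b2 u2)))))
     true (hpOut hps x y s) := rfl
    rw [e] at hb
    clear e
    have hsub : ∀ a b : Int, Int.sub a b = a - b := fun _ _ => rfl
    have hdiv : Int.ediv s 2 = 2 ^ k := by
      change s / 2 = _
      rw [hs, pow_succ]; omega
    simp only [fI_eq, bool_rec_true, Bool.and_eq_true, Int.blt'_eq_true, Int.ble'_eq_true,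
      Int.add_def, Int.mul_def, hsub, ab_eq, hdiv] at hb
    obtain ⟨dx, rfl⟩ : ∃ dx, X = x + dx := ⟨X - x, by ring⟩
    obtain ⟨dy, rfl⟩ : ∃ dy, Y = y + dy := ⟨Y - y, by ring⟩
    have hX' : |dx| ≤ s := by simpa using hX
    have hY' : |dy| ≤ s := by simpa using hY
    rcases hb with hb | hb | hb | hb
    · exact absurd hhp (hpOut_sound x y s _ _ hX hY hps hb)
    · have hb' : (h : ℝ) + (|(b1 : ℝ)| + 2 * |(b2 : ℝ)|) * (s * s) +
          s * (|(a1 : ℝ) + 2 * (b1 * x - b2 * y)| + |(a2 : ℝ) + 2 * (b1 * y + b2 * x)|) ≤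
          a1 * x - a2 * y + (b1 * (x * x - y * y - W) - b2 * (2 * (x * y))) := by
        rw [hbb] at hb; exact_mod_cast hb
      have q1 := lin_lower ((a1 : ℝ) + 2 * (b1 * x - b2 * y)) dx s hX'
      have q2 := lin_lower ((a2 : ℝ) + 2 * (b1 * y + b2 * x)) (-dy) s (by rwa [abs_neg])
      have q3 := quad_lower (b1 : ℝ) (-b2) dx dy s hX' hY'
      rw [abs_neg] at q3
      have e : (a1 : ℝ) * (x + dx) - a2 * (y + dy) + (b1 * ((x + dx) * (x + dx) -
          (y + dy) * (y + dy) - W) - b2 * (2 * (x + dx) * (y + dy))) =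
          (a1 * x - a2 * y + (b1 * (x * x - y * y - W) - b2 * (2 * (x * y)))) +
          ((a1 : ℝ) + 2 * (b1 * x - b2 * y)) * dx + ((a2 : ℝ) + 2 * (b1 * y + b2 * x)) * (-dy) +
          (b1 * (dx * dx - dy * dy) + -b2 * (2 * dx * dy)) := by ring
      rw [e]
      linarith
    · exfalso
      obtain ⟨h1, h2⟩ := hb
      set u1 : ℝ := x * x - y * y - W with hu1
      set u2 : ℝ := 2 * (x * y) with hu2
      set A : ℝ := u1 * u1 + u2 * u2 - (2 * s * (|u1 * x + u2 * y| + |u1 * y - u2 * x|) +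
        s * s * (|u1| + 2 * |u2|)) with hA
      have h1' : 0 < A := by rw [hA, hu1, hu2]; exact_mod_cast h1
      have h2' : D2 * (u1 * u1 + u2 * u2) < A * A := by rw [hA, hu1, hu2]; exact_mod_cast h2
      have q1 := lin_lower (u1 * x + u2 * y) dx s hX'
      have q2 := lin_lower (u1 * y - u2 * x) (-dy) s (by rwa [abs_neg])
      have q3 := quad_lower u1 u2 dx dy s hX' hY'
      set U1 : ℝ := (x + dx) * (x + dx) - (y + dy) * (y + dy) - W with hU1
      set U2 : ℝ := 2 * (x + dx) * (y + dy) with hU2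
      have k1 : A ≤ u1 * U1 + u2 * U2 := by
        have : u1 * U1 + u2 * U2 = u1 * u1 + u2 * u2 + 2 * ((u1 * x + u2 * y) * dx) +
            2 * ((u1 * y - u2 * x) * (-dy)) + (u1 * (dx * dx - dy * dy) + u2 * (2 * dx * dy)) := by
          rw [hU1, hU2, hu1, hu2]; ring
        rw [this, hA]; linarith
      have k2 : (u1 * U1 + u2 * U2) ^ 2 ≤ (u1 * u1 + u2 * u2) * (U1 ^ 2 + U2 ^ 2) := by
        have : (u1 * u1 + u2 * u2) * (U1 ^ 2 + U2 ^ 2) =
          (u1 * U1 + u2 * U2) ^ 2 + (u1 * U2 - u2 * U1) ^ 2 := by ring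
        rw [this]
        exact le_add_of_nonneg_right (sq_nonneg _)
      have k3 : (u1 * u1 + u2 * u2) * (U1 ^ 2 + U2 ^ 2) ≤ (u1 * u1 + u2 * u2) * D2 :=
        mul_le_mul_of_nonneg_left hov (add_nonneg (mul_self_nonneg _) (mul_self_nonneg _))
      have k4 : A ^ 2 ≤ (u1 * U1 + u2 * U2) ^ 2 := pow_le_pow_left₀ h1'.le k1 2
      have k5 : A ^ 2 ≤ (u1 * u1 + u2 * u2) * D2 := le_trans k4 (le_trans k2 k3)
      rw [sq, mul_comm _ (D2 : ℝ)] at k5
      exact absurd h2' (not_lt.mpr k5)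
    · obtain ⟨⟨c1, c2⟩, c3, c4⟩ := hb
      have hs' : (s : ℝ) = 2 * 2 ^ k := by rw [hs]; push_cast; ring
      rw [abs_le] at hX' hY'
      rcases le_total 0 dx with hx | hx <;> rcases le_total 0 dy with hy | hy
      · refine ih _ _ _ rfl c1 ?_ ?_ <;> push_cast <;> rw [abs_le] <;> constructor <;> linarith
      · refine ih _ _ _ rfl c2 ?_ ?_ <;> push_cast <;> rw [abs_le] <;> constructor <;> linarith
      · refine ih _ _ _ rfl c3 ?_ ?_ <;> push_cast <;> rw [abs_le] <;> constructor <;> linarith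
      · refine ih _ _ _ rfl c4 ?_ ?_ <;> push_cast <;> rw [abs_le] <;> constructor <;> linarith

end Pool.Agent.Lib.MP_f2f914_nt
end
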