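import Pool.Agent.Lib.MP_f2f914_nt.Trig2
import Pool.Agent.Lib.MP_f2f914_nt.Box
import Mathlib.Analysis.Convex.SpecificFunctions.Deriv
import Mathlib.Analysis.Real.Pi.Bounds

-- part Pool.Agent.Lib.MP_f2f914_nt.Trig3
section

set_option autoImplicit false

namespace Pool.Agent.Lib.MP_f2f914_nt

open Complex

noncomputable def mkAll {β : Type} (L : List (Nat × Int × Int)) : (List St → β) → β :=
  List.rec (motive := fun _ => (List St → β) → β) (fun k => k [])
    (fun p _ ih k =>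
      fN p.1 fun n => fN (om1 n) fun w1 => fN (om2 n) fun w2 =>
      fN (2 ^ 52 * (w2 + 2 ^ 50 - w1)) fun c1 => fN (2 ^ 52 * (w1 + w2 - 2 ^ 50)) fun c2 =>
      fN (2 ^ 52 + p.2.1 * 2 ^ 36).toNat fun s1 => fN (2 ^ 52 + p.2.2 * 2 ^ 36).toNat fun s2 =>
      ih fun L' => k (⟨n, w1, w2, c1, c2, s1, s2⟩ :: L')) L

theorem mkAll_eq {β : Type} (L : List (Nat × Int × Int)) :
    ∀ k : List St → β, mkAll L k = k (L.map mkSt) := by
  induction L with
  | nil => intro k; rfl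
  | cons p L ih =>
    intro k
    have h : mkAll (p :: L) k =
      fN p.1 fun n => fN (om1 n) fun w1 => fN (om2 n) fun w2 =>
      fN (2 ^ 52 * (w2 + 2 ^ 50 - w1)) fun c1 => fN (2 ^ 52 * (w1 + w2 - 2 ^ 50)) fun c2 =>
      fN (2 ^ 52 + p.2.1 * 2 ^ 36).toNat fun s1 => fN (2 ^ 52 + p.2.2 * 2 ^ 36).toNat fun s2 =>
      mkAll L fun L' => k (⟨n, w1, w2, c1, c2, s1, s2⟩ :: L') := rfl
    rw [h]
    simp only [fN_eq, ih, List.map_cons, mkSt]

/-- upper bound (scaled by `5120^2 * 2^52`) of the exponential sum on `[0, J/512]` -/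
noncomputable def tb (L : List (Nat × Int × Int)) (J : Nat) : Int :=
  mkAll L fun S => fN (2 ^ 52 * (L.map fun p => p.1).sum) fun z =>
    ((run z J S 0 : Nat) - 5120 * (L.length : Int) * 2 ^ 52) * 20480
      + 3 * 2 ^ 36 * (((L.map fun p => (p.2.1.natAbs + p.2.2.natAbs) * p.1 ^ 2).sum : Nat) : Int)
      + 2 * 10 ^ 15

/-- the exponential sum attached to a list of triples -/
noncomputable def esum (L : List (Nat × Int × Int)) (y : ℝ) : ℝ :=
  (L.map fun p => (coef p * exp (I * ((p.1 : ℝ) / 10 * y : ℝ))).re).sum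

theorem sum_cell (j : Nat) (hj : j ≤ 1000) (u : ℝ) (hu0 : 0 ≤ u) (hu1 : u ≤ 1)
    (L : List (Nat × Int × Int)) (hL : ∀ p ∈ L, Adm p) :
    esum L (((j : ℝ) + u) / 512) ≤
      (((((L.map mkSt).map (St.next^[j])).map St.s1).sum : Nat) - (L.length : ℝ) * 2 ^ 52) / 2 ^ 50
      + u * (((2 ^ 52 * (L.map fun p => p.1).sum : Nat) -
          (((((L.map mkSt).map (St.next^[j])).map fun t => t.n * t.s2).sum : Nat) : ℝ))
            / (5120 * 2 ^ 50))
      + L.length * (2 / 10 ^ 10)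
      + 3 / 4 * (((L.map fun p => (p.2.1.natAbs + p.2.2.natAbs) * p.1 ^ 2).sum : Nat) : ℝ)
          / (16384 * 5120 ^ 2) := by
  induction L with
  | nil => simp [esum]
  | cons p L ih =>
    have ih := ih (fun q hq => hL q (List.mem_cons_of_mem _ hq))
    have h := term_cell p (hL p List.mem_cons_self) j hj u hu0 hu1
    have hn : (St.next^[j] (mkSt p)).n = p.1 := (iter_fields (mkSt p) j).1
    simp only [esum, List.map_cons, List.sum_cons, List.length_cons, hn] at ih ⊢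
    push_cast at ih h ⊢
    have e : u * ((2 ^ 52 * ((p.1 : ℝ) + (List.map Nat.cast (List.map (fun p => p.1) L)).sum) -
        ((p.1 : ℝ) * (St.next^[j] (mkSt p)).s2 + (List.map Nat.cast (List.map (fun t => t.n * t.s2)
          (List.map St.next^[j] (List.map mkSt L)))).sum)) / (5120 * 2 ^ 50)) =
        u * (((p.1 : ℝ) * 2 ^ 52 - p.1 * (St.next^[j] (mkSt p)).s2) / (5120 * 2 ^ 50)) +
        u * ((2 ^ 52 * ((List.map Nat.cast (List.map (fun p => p.1) L)).sum : ℝ) -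
        ((List.map Nat.cast (List.map (fun t => t.n * t.s2)
          (List.map St.next^[j] (List.map mkSt L)))).sum)) / (5120 * 2 ^ 50)) := by ring
    linarith

theorem esum_le_tb (L : List (Nat × Int × Int)) (hL : ∀ p ∈ L, Adm p) (hlen : L.length ≤ 32)
    (J : Nat) (hJ0 : 0 < J) (hJ : J ≤ 1000) (y : ℝ) (hy0 : 0 ≤ y) (hy1 : y ≤ J / 512) :
    esum L y ≤ (tb L J : ℝ) / (5120 ^ 2 * 2 ^ 52) := by
  obtain ⟨j, hjJ, u, hu0, hu1, hy⟩ : ∃ j < J, ∃ u : ℝ, 0 ≤ u ∧ u ≤ 1 ∧ y = ((j : ℝ) + u) / 512 := by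
    by_cases hc : ⌊512 * y⌋₊ < J
    · refine ⟨⌊512 * y⌋₊, hc, 512 * y - ⌊512 * y⌋₊, ?_, ?_, by ring⟩
      · linarith [Nat.floor_le (by linarith : 0 ≤ 512 * y)]
      · linarith [Nat.lt_floor_add_one (512 * y)]
    · obtain ⟨J', rfl⟩ : ∃ J', J = J' + 1 := ⟨J - 1, by omega⟩
      refine ⟨J', by omega, 1, by norm_num, le_rfl, ?_⟩
      have h1 : ((J' + 1 : ℕ) : ℝ) ≤ ⌊512 * y⌋₊ := by exact_mod_cast (not_lt.mp hc)
      have h2 := Nat.floor_le (by linarith : 0 ≤ 512 * y)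
      push_cast at h1 hy1
      linarith
  have h := sum_cell j (by omega) u hu0 hu1 L hL
  rw [← hy] at h
  refine le_trans h ?_
  set z : Nat := 2 ^ 52 * (L.map fun p => p.1).sum with hz
  have hr := (run_ge z J (L.map mkSt) 0).2 j hjJ
  have htb : tb L J = ((run z J (L.map mkSt) 0 : Nat) - 5120 * (L.length : Int) * 2 ^ 52) * 20480
      + 3 * 2 ^ 36 * (((L.map fun p => (p.2.1.natAbs + p.2.2.natAbs) * p.1 ^ 2).sum : Nat) : Int)
      + 2 * 10 ^ 15 := by
    rw [tb, mkAll_eq, fN_eq]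
  rw [htb]
  set A : Nat := (((L.map mkSt).map (St.next^[j])).map St.s1).sum
  set B : Nat := (((L.map mkSt).map (St.next^[j])).map fun t => t.n * t.s2).sum
  set C : Nat := (L.map fun p => (p.2.1.natAbs + p.2.2.natAbs) * p.1 ^ 2).sum
  set R : Nat := run z J (L.map mkSt) 0
  have hr' : 5120 * A + (z - B) ≤ R := hr
  have hsub : u * ((z : ℝ) - B) ≤ ((z - B : Nat) : ℝ) := by
    by_cases hzb : B ≤ z
    · rw [Nat.cast_sub hzb]
      have : (B : ℝ) ≤ z := by exact_mod_cast hzb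
      nlinarith
    · have : (z : ℝ) ≤ B := by exact_mod_cast (le_of_lt (not_le.mp hzb))
      have h0 : (0 : ℝ) ≤ ((z - B : Nat) : ℝ) := Nat.cast_nonneg _
      nlinarith
  have hr'' : 5120 * (A : ℝ) + ((z - B : Nat) : ℝ) ≤ R := by exact_mod_cast hr'
  have hl : (L.length : ℝ) ≤ 32 := by exact_mod_cast hlen
  simp only [Int.cast_add, Int.cast_mul, Int.cast_sub, Int.cast_natCast, Int.cast_pow,
    Int.cast_ofNat]
  have e : u * (((z : ℝ) - B) / (5120 * 2 ^ 50)) = u * ((z : ℝ) - B) / (5120 * 2 ^ 50) := by ring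
  rw [e]
  linarith

noncomputable def iterL (j : Nat) : List St → (List St → Nat) → Nat :=
  Nat.rec (motive := fun _ => List St → (List St → Nat) → Nat) (fun L k => k L)
    (fun _ ih L k => nextAll L 0 0 fun L' _ _ => ih L' k) j

theorem iterL_eq (j : Nat) : ∀ (L : List St) (k : List St → Nat),
    iterL j L k = k (L.map (St.next^[j])) := by
  induction j with
  | zero => intro L k; simp [iterL]
  | succ j ih =>
    intro L k
    have h : iterL (j + 1) L k = nextAll L 0 0 fun L' _ _ => iterL j L' k := rfl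
    rw [h, nextAll_eq, ih, List.map_map, Function.iterate_succ]

/-- check that `W / 2^28` approximates `(8/9) sin (n/20) / (n/20)` -/
noncomputable def wchk (p : Nat × Int) : Bool :=
  Nat.ble 1 p.1 && Nat.ble p.1 320 &&
  mkAll [(p.1, 16384, 0)] fun S => Nat.beq 1 (iterL 256 S fun S' =>
    (S'.map fun t => if (9 * (p.1 : Int) * p.2 * 2 ^ 22 - 160 * ((t.s2 : Int) - 2 ^ 52)).natAbs ≤
      9 * p.1 * 2 ^ 30 then 1 else 0).sum)

theorem wchk_sound (p : Nat × Int) (h : wchk p = true) :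
    |(p.2 : ℝ) / 2 ^ 28 - 8 / 9 * (Real.sin ((p.1 : ℝ) / 10 / 2) / ((p.1 : ℝ) / 10 / 2))|
      ≤ 1 / 10 ^ 6 := by
  simp only [wchk, Bool.and_eq_true, mkAll_eq, iterL_eq, Nat.ble_eq, Nat.beq_eq, List.map_cons,
    List.map_nil, List.sum_cons, List.sum_nil, Nat.add_zero] at h
  obtain ⟨⟨h1, h2⟩, h3⟩ := h
  have hA : Adm (p.1, 16384, 0) := ⟨h1, h2, by norm_num, by norm_num⟩
  have h4 := iter_approx (p.1, 16384, 0) hA 256 (by norm_num)
  set t := St.next^[256] (mkSt (p.1, 16384, 0))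
  have h5 : (9 * (p.1 : Int) * p.2 * 2 ^ 22 - 160 * ((t.s2 : Int) - 2 ^ 52)).natAbs ≤
      9 * p.1 * 2 ^ 30 := by
    by_contra hc
    rw [if_neg hc] at h3
    exact absurd h3 (by norm_num)
  have h6 : |9 * (p.1 : ℝ) * p.2 * 2 ^ 22 - 160 * ((t.s2 : ℝ) - 2 ^ 52)|
      ≤ 9 * (p.1 : ℝ) * 2 ^ 30 := by
    have : (((9 * (p.1 : Int) * p.2 * 2 ^ 22 - 160 * ((t.s2 : Int) - 2 ^ 52)).natAbs : ℕ) : ℝ) ≤
      ((9 * p.1 * 2 ^ 30 : ℕ) : ℝ) := by exact_mod_cast h5
    rw [Nat.cast_natAbs] at this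
    push_cast at this
    norm_num at this ⊢
    exact this
  have hc : coef (p.1, 16384, 0) = 1 := by
    apply Complex.ext
    · rw [coef_re]; norm_num
    · rw [coef_im]; norm_num
  have h7 := abs_le.mp (le_trans (Complex.abs_im_le_norm _) h4)
  rw [hc, one_mul, sub_im, St.val_im, mul_comm I, Complex.exp_ofReal_mul_I_im] at h7
  have e : ((256 : ℕ) : ℝ) * ((p.1 : ℝ) / 5120) = (p.1 : ℝ) / 10 / 2 := by push_cast; ring
  simp only at h7
  rw [e] at h7
  set s := Real.sin ((p.1 : ℝ) / 10 / 2)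
  have hn : (1 : ℝ) ≤ p.1 := by exact_mod_cast h1
  have hpos : (0 : ℝ) < 9 * p.1 * 2 ^ 50 := by positivity
  have e2 : (p.2 : ℝ) / 2 ^ 28 - 8 / 9 * (s / ((p.1 : ℝ) / 10 / 2)) =
      (9 * (p.1 : ℝ) * p.2 * 2 ^ 22 - 160 * 2 ^ 50 * s) / (9 * p.1 * 2 ^ 50) := by
    field_simp; ring
  rw [e2, abs_div, abs_of_pos hpos, div_le_iff₀ hpos, abs_le]
  rw [abs_le] at h6
  push_cast at h7
  constructor <;> nlinarith [h6.1, h6.2, h7.1, h7.2]

end Pool.Agent.Lib.MP_f2f914_nt
end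

-- part Pool.Agent.Lib.MP_f2f914_nt.Leaf
section

set_option autoImplicit false

namespace Pool.Agent.Lib.MP_f2f914_nt

open Complex

/-- `(8/9) ∫_0^1 exp (i l (s - 1/2)) ds` -/
noncomputable def wv (l : ℝ) : ℝ := 8 / 9 * (Real.sin (l / 2) / (l / 2))

/-- The constraints satisfied by the centred Fourier transform `ζ` of a probability measure `p`
on `[0,1]` whose convolution square nearly dominates `8/9` of Lebesgue measure on `[0,1]`. -/
structure Config (ζ : ℝ → ℂ) : Prop where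
  cont : Continuous ζ
  zero : ζ 0 = 1
  norm_le : ∀ l, ‖ζ l‖ ≤ 1
  hG : ∀ (L : List (ℝ × ℂ)) (M : ℝ),
    (∀ x : ℝ, 0 ≤ x → x ≤ 1 →
      (L.map fun p => (p.2 * exp (I * (p.1 * (x - 1 / 4) : ℝ))).re).sum ≤ M) →
    (L.map fun p => (p.2 * ζ p.1).re).sum ≤ M
  hH : ∀ (L : List (ℝ × ℂ)) (M : ℝ), L.length ≤ 32 →
    (∀ p ∈ L, 0 < p.1 ∧ p.1 ≤ 32 ∧ ‖p.2‖ ≤ 2) → M ≤ 64 →
    (∀ s : ℝ, 0 ≤ s → s ≤ 2 →
      (L.map fun p => (p.2 * exp (I * (p.1 * (s - 1 / 2) : ℝ))).re).sum ≤ M) →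
    (L.map fun p => (p.2 * (ζ p.1 ^ 2 - (wv p.1 : ℂ))).re).sum ≤ M / 9 + 1 / 10 ^ 5

theorem Config.oval {ζ : ℝ → ℂ} (h : Config ζ) (l : ℝ) (h0 : 0 < l) (h1 : l ≤ 32) :
    ‖ζ l ^ 2 - (wv l : ℂ)‖ ≤ 1 / 9 + 1 / 10 ^ 5 := by
  set u := ζ l ^ 2 - (wv l : ℂ) with hu
  by_cases hz : u = 0
  · rw [hz, norm_zero]; norm_num
  have hn : ‖u‖ ≠ 0 := norm_ne_zero_iff.mpr hz
  have hb : ‖(starRingEnd ℂ) u / (‖u‖ : ℂ)‖ = 1 := by
    rw [norm_div, RCLike.norm_conj, Complex.norm_real, norm_norm, div_self hn]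
  have := h.hH [(l, (starRingEnd ℂ) u / (‖u‖ : ℂ))] 1 (by simp)
    (by intro p hp; rw [List.mem_singleton] at hp; subst hp; exact ⟨h0, h1, by rw [hb]; norm_num⟩)
    (by norm_num)
    (by
      intro s _ _
      simp only [List.map_cons, List.map_nil, List.sum_cons, List.sum_nil, add_zero]
      refine le_trans (Complex.re_le_norm _) ?_
      rw [norm_mul, hb, norm_exp_I_mul_ofReal, one_mul])
  simp only [List.map_cons, List.map_nil, List.sum_cons, List.sum_nil, add_zero] at this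
  rw [← hu] at this
  have e : (starRingEnd ℂ) u / (‖u‖ : ℂ) * u = (‖u‖ : ℂ) := by
    have hn' : (‖u‖ : ℂ) ≠ 0 := by exact_mod_cast hn
    rw [div_mul_eq_mul_div, Complex.conj_mul', div_eq_iff hn']; ring
  rw [e, ofReal_re] at this
  exact this

theorem wv_lower (l : ℝ) (h0 : 0 < l) (h1 : l ≤ 11 / 2) : 0.12 ≤ wv l := by
  have hpi1 := Real.pi_gt_d4
  have hpi2 := Real.pi_lt_d4
  have hs : (0.376 : ℝ) ≤ Real.sin (11 / 4) := by
    rw [← Real.sin_pi_sub]
    have a := Real.sin_gt_sub_cube (x := Real.pi - 11 / 4) (by linarith)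
    have b : (Real.pi - 11 / 4) ^ 3 ≤ 0.3916 ^ 3 := pow_le_pow_left₀ (by linarith) (by linarith) 3
    norm_num at a b hpi1 hpi2 ⊢
    linarith
  have m1 : (0 : ℝ) ∈ Set.Icc 0 Real.pi := ⟨le_rfl, Real.pi_pos.le⟩
  have m2 : (11 / 4 : ℝ) ∈ Set.Icc 0 Real.pi := ⟨by norm_num, by linarith⟩
  have m3 : (0 : ℝ) ≤ 1 - 2 * l / 11 := by linarith
  have m4 : (0 : ℝ) ≤ 2 * l / 11 := by linarith
  have hc := strictConcaveOn_sin_Icc.concaveOn.2 m1 m2 m3 m4 (by ring)
  simp only [Real.sin_zero, smul_eq_mul, mul_zero, zero_add] at hc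
  have e : 2 * l / 11 * (11 / 4) = l / 2 := by ring
  rw [e] at hc
  have h2 : 0.136 ≤ Real.sin (l / 2) / (l / 2) := by
    rw [le_div_iff₀ (by linarith)]
    nlinarith
  unfold wv
  linarith

theorem Config.comp {ζ : ℝ → ℂ} (h : Config ζ) (l : ℝ) (h0 : 0 < l) (h1 : l ≤ 11 / 2) :
    0 ≤ (ζ l).re := by
  by_contra hc
  have hcont : ContinuousOn (fun t => (ζ t).re) (Set.Icc 0 l) :=
    (Complex.continuous_re.comp h.cont).continuousOn
  have hmem : (0 : ℝ) ∈ Set.Icc ((fun t => (ζ t).re) l) ((fun t => (ζ t).re) 0) := by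
    simp only [h.zero, one_re]
    exact ⟨le_of_lt (not_le.mp hc), by norm_num⟩
  obtain ⟨t, ⟨ht0, ht1⟩, ht⟩ := intermediate_value_Icc' h0.le hcont hmem
  simp only at ht
  have htpos : 0 < t := by
    rcases eq_or_lt_of_le ht0 with h2 | h2
    · rw [← h2, h.zero] at ht; simp at ht
    · exact h2
  have h3 := h.oval t htpos (by linarith)
  have h4 := wv_lower t htpos (by linarith)
  have h5 := (abs_le.mp (le_trans (Complex.abs_re_le_norm _) h3)).1
  rw [sub_re, ofReal_re, sq, mul_re, ht] at h5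
  nlinarith [mul_self_nonneg (ζ t).im]

structure HP where
  n : Nat
  p : Int
  q : Int
  c : Int

structure Tm where
  n : Nat
  a1 : Int
  a2 : Int
  b1 : Int
  b2 : Int
  w : Int
  h : Int

def HP.neg (a : HP) : HP := ⟨a.n, -a.p, -a.q, -a.c⟩

def HP.holds (ζ : ℝ → ℂ) (a : HP) : Prop :=
  (a.p : ℝ) * (16384 * (ζ ((a.n : ℝ) / 10)).re) + a.q * (16384 * (ζ ((a.n : ℝ) / 10)).im) ≤ a.c

def Refutes (hps : List HP) : Prop := ∀ ζ : ℝ → ℂ, Config ζ → (∀ a ∈ hps, a.holds ζ) → False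

theorem Refutes.split {hps : List HP} (a : HP) (h1 : Refutes (a :: hps))
    (h2 : Refutes (a.neg :: hps)) : Refutes hps := by
  intro ζ hζ hh
  by_cases hc : a.holds ζ
  · exact h1 ζ hζ (by
      intro b hb
      rcases List.mem_cons.mp hb with rfl | hb
      · exact hc
      · exact hh b hb)
  · exact h2 ζ hζ (by
      intro b hb
      rcases List.mem_cons.mp hb with rfl | hb
      · unfold HP.holds at hc ⊢
        simp only [HP.neg]
        push_cast
        linarith [not_le.mp hc]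
      · exact hh b hb)

def hpsFor (n : Nat) (hps : List HP) : List (Int × Int × Int) :=
  (if n ≤ 55 then [(-1, 0, 0)] else []) ++
    (hps.filter fun a => Nat.beq a.n n).map fun a => (a.p, a.q, a.c)

noncomputable def fL (L : List (Int × Int × Int)) : (List (Int × Int × Int) → Bool) → Bool :=
  List.rec (motive := fun _ => (List (Int × Int × Int) → Bool) → Bool) (fun k => k [])
    (fun a _ ih k => fI a.1 fun p => fI a.2.1 fun q => fI a.2.2 fun c =>
      ih fun L' => k ((p, q, c) :: L')) L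

theorem fL_eq (L : List (Int × Int × Int)) : ∀ k, fL L k = k L := by
  induction L with
  | nil => intro k; rfl
  | cons a L ih =>
    intro k
    have h : fL (a :: L) k = fI a.1 fun p => fI a.2.1 fun q => fI a.2.2 fun c =>
      fL L fun L' => k ((p, q, c) :: L') := rfl
    rw [h]
    simp only [fI_eq, ih]

noncomputable def tmCheck (Wl : List (Nat × Int)) (hps : List HP) (t : Tm) : Bool :=
  (Wl.any fun p => Nat.beq p.1 t.n && Int.beq' p.2 t.w) &&
  Nat.ble 1 t.n && Nat.ble t.n 320 && Nat.ble t.a1.natAbs 16384 && Nat.ble t.a2.natAbs 16384 &&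
  Nat.ble t.b1.natAbs 16384 && Nat.ble t.b2.natAbs 16384 &&
  fI (t.a1 * 16384) fun a1 => fI (t.a2 * 16384) fun a2 => fI t.b1 fun b1 => fI t.b2 fun b2 =>
  fI t.w fun w => fI t.h fun h => fI (Int.add (ab t.b1) (Int.mul 2 (ab t.b2))) fun bb =>
  fL (hpsFor t.n hps) fun L => box a1 a2 b1 b2 w 889776101683225 h bb L 14 0 0 16384

theorem tmCheck_sound (Wl : List (Nat × Int)) (hW : Wl.all wchk = true) (hps : List HP) (t : Tm)
    (h : tmCheck Wl hps t = true) :
    Adm (t.n, t.a1, t.a2) ∧ Adm (t.n, t.b1, t.b2) ∧ ∀ ζ : ℝ → ℂ, Config ζ →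
      (∀ a ∈ hps, a.holds ζ) → (t.h : ℝ) / 2 ^ 42 ≤ (coef (t.n, t.a1, t.a2) * ζ ((t.n : ℝ) / 10)).re
        + (coef (t.n, t.b1, t.b2) * (ζ ((t.n : ℝ) / 10) ^ 2 - (wv ((t.n : ℝ) / 10) : ℂ))).re
        + 1 / 10 ^ 6 := by
  simp only [tmCheck, Bool.and_eq_true, Nat.ble_eq, fI_eq, fL_eq, List.any_eq_true, Nat.beq_eq,
    Int.beq'_eq] at h
  obtain ⟨⟨⟨⟨⟨⟨⟨⟨p, hp, hp1, hp2⟩, n1⟩, n2⟩, c1⟩, c2⟩, c3⟩, c4⟩, hbox⟩ := h
  have habs : ∀ a : Int, a.natAbs ≤ 16384 → |a| ≤ 16384 := by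
    intro a ha; rw [abs_le]; omega
  refine ⟨⟨n1, n2, habs _ c1, habs _ c2⟩, ⟨n1, n2, habs _ c3, habs _ c4⟩, ?_⟩
  intro ζ hζ hh
  have hw := wchk_sound p (List.all_eq_true.mp hW p hp)
  rw [hp1, hp2] at hw
  change |(t.w : ℝ) / 2 ^ 28 - wv ((t.n : ℝ) / 10)| ≤ _ at hw
  have hn1 : (1 : ℝ) ≤ t.n := by exact_mod_cast n1
  have hn2 : (t.n : ℝ) ≤ 320 := by exact_mod_cast n2
  have hov := hζ.oval ((t.n : ℝ) / 10) (by linarith) (by linarith)
  have hnorm := hζ.norm_le ((t.n : ℝ) / 10)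
  set z := ζ ((t.n : ℝ) / 10) with hz
  set w := wv ((t.n : ℝ) / 10)
  have hov2 : ‖z ^ 2 - (((t.w : ℝ) / 2 ^ 28 : ℝ) : ℂ)‖ ≤ 1 / 9 + 1 / 10 ^ 5 + 1 / 10 ^ 6 := by
    calc _ = ‖(z ^ 2 - (w : ℂ)) - ((((t.w : ℝ) / 2 ^ 28 - w : ℝ)) : ℂ)‖ := by
          congr 1; push_cast; ring
      _ ≤ _ := norm_sub_le _ _
      _ ≤ _ := by rw [Complex.norm_real, Real.norm_eq_abs]; linarith
  have hov3 : ((16384 * z.re) * (16384 * z.re) - (16384 * z.im) * (16384 * z.im) - t.w) ^ 2 +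
      (2 * (16384 * z.re) * (16384 * z.im)) ^ 2 ≤ ((889776101683225 : Int) : ℝ) := by
    have a := pow_le_pow_left₀ (norm_nonneg _) hov2 2
    rw [Complex.sq_norm, Complex.normSq_apply, sub_re, sub_im, ofReal_re, ofReal_im, sq, mul_re,
      mul_im] at a
    have e : ((16384 * z.re) * (16384 * z.re) - (16384 * z.im) * (16384 * z.im) - t.w) ^ 2 +
      (2 * (16384 * z.re) * (16384 * z.im)) ^ 2 = 2 ^ 56 *
        ((z.re * z.re - z.im * z.im - (t.w : ℝ) / 2 ^ 28) *
          (z.re * z.re - z.im * z.im - (t.w : ℝ) / 2 ^ 28) +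
          (z.re * z.im + z.im * z.re - 0) * (z.re * z.im + z.im * z.re - 0)) := by ring
    rw [e]
    push_cast
    linarith
  have hb := box_sound _ _ _ _ _ _ _ _ _ (by simp [ab_eq]) (16384 * z.re) (16384 * z.im)
    (by
      intro hp hhp
      rcases List.mem_append.mp hhp with h1 | h1
      · by_cases hn : t.n ≤ 55
        · rw [if_pos hn, List.mem_singleton] at h1
          subst h1
          have hn' : (t.n : ℝ) ≤ 55 := by exact_mod_cast hn
          have := hζ.comp ((t.n : ℝ) / 10) (by linarith) (by linarith)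
          rw [← hz] at this
          push_cast
          linarith
        · rw [if_neg hn] at h1; simp at h1
      · obtain ⟨a, ha, rfl⟩ := List.mem_map.mp h1
        obtain ⟨ha1, ha2⟩ := List.mem_filter.mp ha
        have := hh a ha1
        unfold HP.holds at this
        rw [Nat.eq_of_beq_eq_true ha2] at this
        exact this)
    hov3 14 0 0 16384 (by norm_num) hbox
    (by
      have := le_trans (Complex.abs_re_le_norm z) hnorm
      rw [abs_le] at this ⊢
      push_cast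
      constructor <;> linarith [this.1, this.2])
    (by
      have := le_trans (Complex.abs_im_le_norm z) hnorm
      rw [abs_le] at this ⊢
      push_cast
      constructor <;> linarith [this.1, this.2])
  rw [mul_re, mul_re, coef_re, coef_im, coef_re, coef_im, sub_re, sub_im, ofReal_re, ofReal_im, sq,
    mul_re, mul_im]
  push_cast at hb
  simp only
  have hb1 : |(t.b1 : ℝ)| ≤ 16384 := by exact_mod_cast habs _ c3
  have hq := lin_lower ((t.w : ℝ) / 2 ^ 28 - w) (-(t.b1 : ℝ)) 16384 (by rwa [abs_neg])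
  have e : (t.a1 : ℝ) * 16384 * (16384 * z.re) - t.a2 * 16384 * (16384 * z.im) +
      (t.b1 * (16384 * z.re * (16384 * z.re) - 16384 * z.im * (16384 * z.im) - t.w) -
        t.b2 * (2 * (16384 * z.re) * (16384 * z.im))) = 2 ^ 42 *
      ((t.a1 : ℝ) / 16384 * z.re - t.a2 / 16384 * z.im +
        (t.b1 / 16384 * (z.re * z.re - z.im * z.im - w) -
          t.b2 / 16384 * (z.re * z.im + z.im * z.re - 0)) +
        ((t.w : ℝ) / 2 ^ 28 - w) * (-(t.b1 : ℝ)) / 16384) := by ring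
  rw [e] at hb
  have hq2 := lin_lower ((t.w : ℝ) / 2 ^ 28 - w) ((t.b1 : ℝ)) 16384 hb1
  rw [div_le_iff₀ (by positivity)]
  nlinarith

noncomputable def leafCheck (Wl : List (Nat × Int)) (hps : List HP) (T : List Tm) : Bool :=
  Nat.ble T.length 32 && T.all (tmCheck Wl hps) &&
  fI (max (tb (T.map fun t => (t.n, t.b1, t.b2)) 768) (tb (T.map fun t => (t.n, t.b1, -t.b2)) 256))
    fun M =>
  Int.ble' M (64 * 5120 ^ 2 * 2 ^ 52) &&
  Int.blt' (9 * max (tb (T.map fun t => (t.n, t.a1, t.a2)) 384)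
      (tb (T.map fun t => (t.n, t.a1, -t.a2)) 128) + M + 54 * 10 ^ 18)
    (9 * (T.map fun t => t.h).sum * 5120 ^ 2 * 2 ^ 10)

theorem esum_neg (L : List (Nat × Int × Int)) (y : ℝ) :
    esum L y = esum (L.map fun p => (p.1, p.2.1, -p.2.2)) (-y) := by
  unfold esum
  rw [List.map_map]
  congr 1
  apply List.map_congr_left
  intro p _
  simp only [Function.comp, mul_re, coef_re, coef_im, mul_comm I, Complex.exp_ofReal_mul_I_re,
    Complex.exp_ofReal_mul_I_im, mul_neg, Real.cos_neg, Real.sin_neg]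
  push_cast
  ring

theorem esum_two (L : List (Nat × Int × Int)) (hL : ∀ p ∈ L, Adm p) (hlen : L.length ≤ 32)
    (J K : Nat) (hJ0 : 0 < J) (hJ : J ≤ 1000) (hK0 : 0 < K) (hK : K ≤ 1000) (y : ℝ)
    (hy0 : -((K : ℝ) / 512) ≤ y) (hy1 : y ≤ J / 512) :
    esum L y ≤ ((max (tb L J) (tb (L.map fun p => (p.1, p.2.1, -p.2.2)) K) : Int) : ℝ)
      / (5120 ^ 2 * 2 ^ 52) := by
  rcases le_total 0 y with h | h
  · refine le_trans (esum_le_tb L hL hlen J hJ0 hJ y h hy1) ?_
    exact div_le_div_of_nonneg_right (by exact_mod_cast le_max_left _ _) (by positivity)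
  · rw [esum_neg]
    refine le_trans (esum_le_tb _ ?_ (by simpa using hlen) K hK0 hK (-y) (by linarith)
      (by linarith)) ?_
    · intro p hp
      obtain ⟨q, hq, rfl⟩ := List.mem_map.mp hp
      obtain ⟨h1, h2, h3, h4⟩ := hL q hq
      exact ⟨h1, h2, h3, by simpa using h4⟩
    · exact div_le_div_of_nonneg_right (by exact_mod_cast le_max_right _ _) (by positivity)

theorem sum_h_le (f g : Tm → ℝ) (T : List Tm)
    (h : ∀ t ∈ T, (t.h : ℝ) / 2 ^ 42 ≤ f t + g t + 1 / 10 ^ 6) :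
    (((T.map fun t => t.h).sum : Int) : ℝ) / 2 ^ 42 ≤
      (T.map f).sum + (T.map g).sum + T.length / 10 ^ 6 := by
  induction T with
  | nil => simp
  | cons t T ih =>
    have ih := ih (fun q hq => h q (List.mem_cons_of_mem _ hq))
    have h1 := h t List.mem_cons_self
    simp only [List.map_cons, List.sum_cons, List.length_cons, Int.cast_add, Nat.cast_add,
      Nat.cast_one]
    linarith

theorem leaf_sound (Wl : List (Nat × Int)) (hW : Wl.all wchk = true) (hps : List HP) (T : List Tm)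
    (h : leafCheck Wl hps T = true) : Refutes hps := by
  intro ζ hζ hh
  simp only [leafCheck, Bool.and_eq_true, Nat.ble_eq, fI_eq, Int.ble'_eq_true, Int.blt'_eq_true,
    List.all_eq_true] at h
  obtain ⟨⟨hlen, hT⟩, hM, hfin⟩ := h
  have hs := fun t ht => tmCheck_sound Wl hW hps t (hT t ht)
  have hsum := sum_h_le _ _ T (fun t ht => (hs t ht).2.2 ζ hζ hh)
  set GA : Int := max (tb (T.map fun t => (t.n, t.a1, t.a2)) 384)
      (tb (T.map fun t => (t.n, t.a1, -t.a2)) 128) with hGA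
  set M : Int := max (tb (T.map fun t => (t.n, t.b1, t.b2)) 768)
      (tb (T.map fun t => (t.n, t.b1, -t.b2)) 256) with hMdef
  have h1 := hζ.hG (T.map fun t => ((t.n : ℝ) / 10, coef (t.n, t.a1, t.a2)))
    ((GA : ℝ) / (5120 ^ 2 * 2 ^ 52)) (by
      intro x hx0 hx1
      have := esum_two (T.map fun t => (t.n, t.a1, t.a2))
        (by intro p hp; obtain ⟨t, ht, rfl⟩ := List.mem_map.mp hp; exact (hs t ht).1)
        (by simpa using hlen) 384 128 (by norm_num) (by norm_num) (by norm_num) (by norm_num)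
        (x - 1 / 4) (by push_cast; linarith) (by push_cast; linarith)
      simp only [esum, List.map_map] at this ⊢
      exact this)
  have h2 := hζ.hH (T.map fun t => ((t.n : ℝ) / 10, coef (t.n, t.b1, t.b2)))
    ((M : ℝ) / (5120 ^ 2 * 2 ^ 52)) (by simpa using hlen)
    (by
      intro p hp
      obtain ⟨t, ht, rfl⟩ := List.mem_map.mp hp
      have hA := (hs t ht).2.1
      have hn1 : (1 : ℝ) ≤ t.n := by exact_mod_cast hA.1
      have hn2 : (t.n : ℝ) ≤ 320 := by exact_mod_cast hA.2.1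
      exact ⟨by simp only; linarith, by simp only; linarith, coef_norm_le_two _ hA⟩)
    (by
      have : (M : ℝ) ≤ 64 * 5120 ^ 2 * 2 ^ 52 := by exact_mod_cast hM
      rw [div_le_iff₀ (by positivity)]; linarith)
    (by
      intro x hx0 hx1
      have := esum_two (T.map fun t => (t.n, t.b1, t.b2))
        (by intro p hp; obtain ⟨t, ht, rfl⟩ := List.mem_map.mp hp; exact (hs t ht).2.1)
        (by simpa using hlen) 768 256 (by norm_num) (by norm_num) (by norm_num) (by norm_num)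
        (x - 1 / 2) (by push_cast; linarith) (by push_cast; linarith)
      simp only [esum, List.map_map] at this ⊢
      exact this)
  simp only [List.map_map] at h1 h2
  have hfin' : 9 * (GA : ℝ) + M + 54 * 10 ^ 18 <
      9 * (((T.map fun t => t.h).sum : Int) : ℝ) * 5120 ^ 2 * 2 ^ 10 := by exact_mod_cast hfin
  have hl : (T.length : ℝ) ≤ 32 := by exact_mod_cast hlen
  have h1' : (T.map fun t => (coef (t.n, t.a1, t.a2) * ζ ((t.n : ℝ) / 10)).re).sum ≤
    (GA : ℝ) / (5120 ^ 2 * 2 ^ 52) := h1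
  have h2' : (T.map fun t => (coef (t.n, t.b1, t.b2) *
    (ζ ((t.n : ℝ) / 10) ^ 2 - (wv ((t.n : ℝ) / 10) : ℂ))).re).sum ≤
    (M : ℝ) / (5120 ^ 2 * 2 ^ 52) / 9 + 1 / 10 ^ 5 := h2
  linarith

end Pool.Agent.Lib.MP_f2f914_nt
end

-- part Pool.Agent.Lib.MP_f2f914_nt.Fourier
section

set_option autoImplicit false

namespace Pool.Agent.Lib.MP_f2f914_nt

open Complex Finset

theorem abel_aux (Ψ ψ : ℕ → ℝ) (E V : ℝ) (hV : ∀ n, |ψ (n + 1) - ψ n| ≤ V) (N : ℕ)
    (hΨ0 : ∀ n ≤ N, 0 ≤ Ψ n) (hΨ1 : ∀ n ≤ N, Ψ n ≤ E) (h0 : 0 ≤ ψ 0) :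
    -(Ψ N * ψ N) - E * (N * V) ≤ ∑ n ∈ range N, (Ψ n - Ψ (n + 1)) * ψ (n + 1) := by
  induction N with
  | zero => simpa using mul_nonneg (hΨ0 0 le_rfl) h0
  | succ N ih =>
    have ih := ih (fun n hn => hΨ0 n (by omega)) (fun n hn => hΨ1 n (by omega))
    rw [sum_range_succ]
    have a := lin_lower (Ψ N) (ψ (N + 1) - ψ N) V (hV N)
    rw [abs_of_nonneg (hΨ0 N (by omega))] at a
    have hV0 : 0 ≤ V := le_trans (abs_nonneg _) (hV 0)
    have b : Ψ N * V ≤ E * V := mul_le_mul_of_nonneg_right (hΨ1 N (by omega)) hV0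
    push_cast
    linarith

theorem abel_lower (u Ψ ψ : ℕ → ℝ) (g E V : ℝ) (hV : ∀ n, |ψ (n + 1) - ψ n| ≤ V) (N : ℕ)
    (hΨ0 : ∀ n ≤ N, 0 ≤ Ψ n) (hΨ1 : ∀ n ≤ N, Ψ n ≤ E) (hψ : ∀ n ≤ N, 0 ≤ ψ n)
    (hu : ∀ n, g + Ψ n - Ψ (n + 1) ≤ u (n + 1)) :
    g * ∑ n ∈ range N, ψ (n + 1) - E * (ψ N + N * V) ≤ ∑ n ∈ range N, u (n + 1) * ψ (n + 1) := by
  have h1 := abel_aux Ψ ψ E V hV N hΨ0 hΨ1 (hψ 0 (by omega))
  have h2 : ∑ n ∈ range N, (g * ψ (n + 1) + (Ψ n - Ψ (n + 1)) * ψ (n + 1)) ≤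
      ∑ n ∈ range N, u (n + 1) * ψ (n + 1) := by
    apply sum_le_sum
    intro n hn
    have := mul_le_mul_of_nonneg_right (hu n) (hψ (n + 1) (by simp at hn; omega))
    linarith
  rw [sum_add_distrib, ← mul_sum] at h2
  have h3 : Ψ N * ψ N ≤ E * ψ N := mul_le_mul_of_nonneg_right (hΨ1 N le_rfl) (hψ N le_rfl)
  linarith

/-- number of ordered representations of `n` as a sum of two elements satisfying `P` -/
def rep (P : ℕ → Prop) [DecidablePred P] (n : ℕ) : ℕ :=
  ((antidiagonal n).filter fun p => P p.1 ∧ P p.2).card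

theorem pair_sum (P : ℕ → Prop) [DecidablePred P] (h0 : ¬ P 0) (ψ : ℕ → ℝ) (N : ℕ)
    (hψ : ∀ n ≤ 2 * N, 0 ≤ ψ n) :
    ∑ n ∈ range N, (rep P (n + 1) : ℝ) * ψ (n + 1) ≤
      ∑ i ∈ (Icc 1 N).filter P, ∑ j ∈ (Icc 1 N).filter P, ψ (i + j) := by
  set K := (Icc 1 N).filter P with hK
  rw [← sum_product']
  set S := (K ×ˢ K).filter fun p => p.1 + p.2 ≤ N with hS
  have h1 : ∑ p ∈ S, ψ (p.1 + p.2) ≤ ∑ p ∈ K ×ˢ K, ψ (p.1 + p.2) := by
    apply sum_le_sum_of_subset_of_nonneg (filter_subset _ _)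
    intro p hp _
    simp only [hK, mem_product, mem_filter, mem_Icc] at hp
    exact hψ _ (by omega)
  refine le_trans (le_of_eq ?_) h1
  rw [← sum_fiberwise_of_maps_to (s := S) (t := range N) (g := fun p => p.1 + p.2 - 1)]
  · apply sum_congr rfl
    intro n hn
    have e : S.filter (fun p => p.1 + p.2 - 1 = n) =
        (antidiagonal (n + 1)).filter fun p => P p.1 ∧ P p.2 := by
      ext p
      simp only [hS, hK, mem_filter, mem_product, mem_Icc, mem_antidiagonal]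
      simp only [mem_range] at hn
      constructor
      · rintro ⟨⟨⟨⟨a, b⟩, c, d⟩, e⟩, f⟩
        exact ⟨by omega, b, d⟩
      · rintro ⟨a, b, c⟩
        have p1 : p.1 ≠ 0 := fun h => h0 (h ▸ b)
        have p2 : p.2 ≠ 0 := fun h => h0 (h ▸ c)
        exact ⟨⟨⟨⟨by omega, b⟩, by omega, c⟩, by omega⟩, by omega⟩
    rw [e, rep, sum_congr rfl (g := fun _ => ψ (n + 1))]
    · simp
    · intro p hp
      simp only [mem_filter, mem_antidiagonal] at hp
      rw [hp.1]
  · intro p hp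
    simp only [hS, hK, mem_filter, mem_product, mem_Icc] at hp
    simp only [mem_range]
    omega

theorem exp_step (l a b : ℝ) : ‖exp (I * (l * a : ℝ)) - exp (I * (l * b : ℝ))‖ ≤ |l * (a - b)| := by
  have e : exp (I * (l * a : ℝ)) - exp (I * (l * b : ℝ)) =
      exp (I * (l * b : ℝ)) * (exp (I * (l * (a - b) : ℝ)) - 1) := by
    rw [mul_sub, ← Complex.exp_add, mul_one]; congr 2; push_cast; ring
  rw [e, norm_mul, norm_exp_I_mul_ofReal, one_mul]
  exact Real.norm_exp_I_mul_ofReal_sub_one_le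

theorem riemann_exp (l : ℝ) (N : ℕ) (hl : 0 < l) (hN : l ≤ N) :
    ‖∑ n ∈ range N, exp (I * (l * (((n + 1 : ℕ) : ℝ) / N - 1 / 2) : ℝ)) -
      (N * (Real.sin (l / 2) / (l / 2)) : ℝ)‖ ≤ l := by
  have hN0 : (0 : ℝ) < N := lt_of_lt_of_le hl hN
  set θ : ℝ := l / N with hθ
  have hθ0 : 0 < θ := by positivity
  have hθ1 : θ ≤ 1 := by rw [hθ, div_le_one hN0]; exact hN
  set E : ℕ → ℂ := fun n => exp (I * (l * ((n : ℝ) / N - 1 / 2) : ℝ)) with hE
  set R : ℂ := exp (-(I * θ)) - 1 - (-(I * θ)) with hR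
  have hRn : ‖R‖ ≤ θ ^ 2 := by
    have hn : ‖-(I * (θ : ℂ))‖ = θ := by simp [abs_of_pos hθ0]
    have := Complex.norm_exp_sub_one_sub_id_le (x := -(I * θ)) (by rw [hn]; exact hθ1)
    rwa [hn] at this
  have hstep : ∀ n : ℕ, E (n + 1) - E n = (I * θ - R) * E (n + 1) := by
    intro n
    have : E n = exp (-(I * θ)) * E (n + 1) := by
      simp only [hE]
      rw [← Complex.exp_add]; congr 1
      have hN' : (N : ℂ) ≠ 0 := by exact_mod_cast hN0.ne'
      rw [hθ]; push_cast; field_simp; ring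
    rw [this, hR]; ring
  have htel := sum_range_sub E N
  simp only [hstep] at htel
  rw [← mul_sum] at htel
  set S := ∑ n ∈ range N, E (n + 1) with hS
  have hSn : ‖S‖ ≤ N := by
    refine le_trans (norm_sum_le _ _) ?_
    simp only [hE, norm_exp_I_mul_ofReal]
    simp
  have hend : E N - E 0 = 2 * I * (Real.sin (l / 2) : ℝ) := by
    simp only [hE]
    have a : l * ((N : ℝ) / N - 1 / 2) = l / 2 := by rw [div_self hN0.ne']; ring
    have b : l * (((0 : ℕ) : ℝ) / N - 1 / 2) = -(l / 2) := by simp; ring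
    rw [a, b, mul_comm I, mul_comm I, Complex.exp_mul_I, Complex.exp_mul_I]
    push_cast
    rw [Complex.cos_neg, Complex.sin_neg]
    ring
  have key : (S - (N * (Real.sin (l / 2) / (l / 2)) : ℝ)) * (I * θ) = R * S := by
    have hN' : (N : ℂ) ≠ 0 := by exact_mod_cast hN0.ne'
    have hl' : (l : ℂ) ≠ 0 := by exact_mod_cast hl.ne'
    have : ((N * (Real.sin (l / 2) / (l / 2)) : ℝ) : ℂ) * (I * θ) =
        2 * I * (Real.sin (l / 2) : ℝ) := by
      rw [hθ]; push_cast; field_simp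
    rw [sub_mul, this, ← hend, ← htel]; ring
  have hn := congrArg norm key
  rw [norm_mul, norm_mul, norm_mul, norm_I, one_mul, Complex.norm_real, Real.norm_eq_abs,
    abs_of_pos hθ0] at hn
  have h2 : ‖R‖ * ‖S‖ ≤ θ ^ 2 * N := mul_le_mul hRn hSn (norm_nonneg _) (by positivity)
  have h3 : θ ^ 2 * N = l * θ := by rw [hθ]; field_simp
  exact le_of_mul_le_mul_right (by rw [hn]; linarith) hθ0

/-- the trigonometric sum attached to a list -/
noncomputable def Hs (L : List (ℝ × ℂ)) (s : ℝ) : ℝ :=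
  (L.map fun p => (p.2 * exp (I * (p.1 * s : ℝ))).re).sum

theorem Hs_abs (L : List (ℝ × ℂ)) (hL : ∀ p ∈ L, 0 < p.1 ∧ p.1 ≤ 32 ∧ ‖p.2‖ ≤ 2) (s : ℝ) :
    -(2 * L.length) ≤ Hs L s := by
  induction L with
  | nil => simp [Hs]
  | cons p L ih =>
    have ih := ih (fun q hq => hL q (List.mem_cons_of_mem _ hq))
    have h := (hL p List.mem_cons_self).2.2
    have a := (abs_le.mp (Complex.abs_re_le_norm (p.2 * exp (I * (p.1 * s : ℝ))))).1
    rw [norm_mul, norm_exp_I_mul_ofReal, mul_one] at a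
    simp only [Hs, List.map_cons, List.sum_cons, List.length_cons] at ih ⊢
    push_cast at ih a ⊢
    linarith

theorem Hs_lip (L : List (ℝ × ℂ)) (hL : ∀ p ∈ L, 0 < p.1 ∧ p.1 ≤ 32 ∧ ‖p.2‖ ≤ 2) (s t : ℝ) :
    |Hs L s - Hs L t| ≤ 64 * L.length * |s - t| := by
  induction L with
  | nil => simp [Hs]
  | cons p L ih =>
    have ih := ih (fun q hq => hL q (List.mem_cons_of_mem _ hq))
    obtain ⟨h1, h2, h3⟩ := hL p List.mem_cons_self
    have a := Complex.abs_re_le_norm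
      (p.2 * (exp (I * (p.1 * s : ℝ)) - exp (I * (p.1 * t : ℝ))))
    have b := exp_step p.1 s t
    rw [abs_mul, abs_of_pos h1] at b
    have c : ‖p.2 * (exp (I * (p.1 * s : ℝ)) - exp (I * (p.1 * t : ℝ)))‖ ≤ 2 * (32 * |s - t|) := by
      rw [norm_mul]
      exact mul_le_mul h3 (le_trans b (mul_le_mul_of_nonneg_right h2 (abs_nonneg _)))
        (norm_nonneg _) (by norm_num)
    rw [mul_sub, sub_re] at a
    rw [mul_sub] at c
    have e : Hs (p :: L) s - Hs (p :: L) t =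
        ((p.2 * exp (I * (p.1 * s : ℝ))).re - (p.2 * exp (I * (p.1 * t : ℝ))).re) +
          (Hs L s - Hs L t) := by
      simp only [Hs, List.map_cons, List.sum_cons]; ring
    rw [e]
    refine le_trans (abs_add_le _ _) ?_
    simp only [List.length_cons, Nat.cast_add, Nat.cast_one]
    linarith

theorem Hs_riemann (L : List (ℝ × ℂ)) (hL : ∀ p ∈ L, 0 < p.1 ∧ p.1 ≤ 32 ∧ ‖p.2‖ ≤ 2) (N : ℕ)
    (hN : 32 ≤ N) :
    ∑ n ∈ range N, Hs L (((n + 1 : ℕ) : ℝ) / N - 1 / 2) ≤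
      N * (L.map fun p => (p.2 * ((Real.sin (p.1 / 2) / (p.1 / 2) : ℝ) : ℂ)).re).sum
        + 64 * L.length := by
  induction L with
  | nil => simp [Hs]
  | cons p L ih =>
    have ih := ih (fun q hq => hL q (List.mem_cons_of_mem _ hq))
    obtain ⟨h1, h2, h3⟩ := hL p List.mem_cons_self
    have hN' : (32 : ℝ) ≤ N := by exact_mod_cast hN
    have a := riemann_exp p.1 N h1 (by linarith)
    set S := ∑ n ∈ range N, exp (I * (p.1 * (((n + 1 : ℕ) : ℝ) / N - 1 / 2) : ℝ)) with hS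
    have b := Complex.re_le_norm (p.2 * (S - (N * (Real.sin (p.1 / 2) / (p.1 / 2)) : ℝ)))
    have c : ‖p.2 * (S - (N * (Real.sin (p.1 / 2) / (p.1 / 2)) : ℝ))‖ ≤ 2 * 32 := by
      rw [norm_mul]
      exact mul_le_mul h3 (le_trans a h2) (norm_nonneg _) (by norm_num)
    have d : (p.2 * (S - (N * (Real.sin (p.1 / 2) / (p.1 / 2)) : ℝ))).re =
        ∑ n ∈ range N, (p.2 * exp (I * (p.1 * (((n + 1 : ℕ) : ℝ) / N - 1 / 2) : ℝ))).re -
          N * (p.2 * ((Real.sin (p.1 / 2) / (p.1 / 2) : ℝ) : ℂ)).re := by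
      rw [mul_sub, sub_re, hS, mul_sum, re_sum, re_mul_ofReal, re_mul_ofReal]; ring
    have e : ∀ s, Hs (p :: L) s = (p.2 * exp (I * (p.1 * s : ℝ))).re + Hs L s := by
      intro s; simp only [Hs, List.map_cons, List.sum_cons]
    simp only [e, sum_add_distrib, List.map_cons, List.sum_cons, List.length_cons, Nat.cast_add,
      Nat.cast_one] at ih d ⊢
    linarith

/-- centred normalised Fourier transform of a finite set of positions -/
noncomputable def zeta (K : Finset ℕ) (N : ℕ) (l : ℝ) : ℂ :=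
  (K.card : ℂ)⁻¹ * ∑ i ∈ K, exp (I * (l * ((i : ℝ) / N - 1 / 4) : ℝ))

theorem zeta_G (K : Finset ℕ) (N : ℕ) (hK : 0 < K.card) (L : List (ℝ × ℂ)) :
    K.card * (L.map fun p => (p.2 * zeta K N p.1).re).sum =
      ∑ i ∈ K, Hs L ((i : ℝ) / N - 1 / 4) := by
  induction L with
  | nil => simp [Hs]
  | cons p L ih =>
    have e : ∀ s, Hs (p :: L) s = (p.2 * exp (I * (p.1 * s : ℝ))).re + Hs L s := by
      intro s; simp only [Hs, List.map_cons, List.sum_cons]
    simp only [e, sum_add_distrib, List.map_cons, List.sum_cons, mul_add, ih]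
    congr 1
    have hk : (K.card : ℂ) ≠ 0 := by exact_mod_cast hK.ne'
    rw [← re_sum, ← mul_sum, ← re_ofReal_mul]
    congr 1
    rw [zeta]
    generalize ∑ i ∈ K, exp (I * (p.1 * ((i : ℝ) / N - 1 / 4) : ℝ)) = T
    push_cast; field_simp

theorem zeta_H (K : Finset ℕ) (N : ℕ) (hK : 0 < K.card) (L : List (ℝ × ℂ)) :
    (K.card : ℝ) ^ 2 * (L.map fun p => (p.2 * zeta K N p.1 ^ 2).re).sum =
      ∑ i ∈ K, ∑ j ∈ K, Hs L (((i + j : ℕ) : ℝ) / N - 1 / 2) := by
  induction L with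
  | nil => simp [Hs]
  | cons p L ih =>
    have e : ∀ s, Hs (p :: L) s = (p.2 * exp (I * (p.1 * s : ℝ))).re + Hs L s := by
      intro s; simp only [Hs, List.map_cons, List.sum_cons]
    simp only [e, sum_add_distrib, List.map_cons, List.sum_cons, mul_add, ih]
    congr 1
    have hk : (K.card : ℂ) ≠ 0 := by exact_mod_cast hK.ne'
    simp only [← re_sum, ← mul_sum]
    rw [← re_ofReal_mul]
    congr 1
    have : ∑ i ∈ K, ∑ j ∈ K, exp (I * (p.1 * (((i + j : ℕ) : ℝ) / N - 1 / 2) : ℝ)) =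
        (∑ i ∈ K, exp (I * (p.1 * ((i : ℝ) / N - 1 / 4) : ℝ))) ^ 2 := by
      rw [sq, sum_mul_sum]
      refine sum_congr rfl fun i _ => sum_congr rfl fun j _ => ?_
      rw [← Complex.exp_add]; congr 1; push_cast; ring
    rw [this, zeta]
    generalize ∑ i ∈ K, exp (I * (p.1 * ((i : ℝ) / N - 1 / 4) : ℝ)) = T
    push_cast; field_simp

theorem sum_split (f : ℝ → ℂ) (L : List (ℝ × ℂ)) :
    (L.map fun p => (p.2 * (f p.1 - (wv p.1 : ℂ))).re).sum =
      (L.map fun p => (p.2 * f p.1).re).sum -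
        8 / 9 * (L.map fun p => (p.2 * ((Real.sin (p.1 / 2) / (p.1 / 2) : ℝ) : ℂ)).re).sum := by
  induction L with
  | nil => simp
  | cons p L ih =>
    simp only [List.map_cons, List.sum_cons, ih]
    rw [mul_sub, sub_re, re_mul_ofReal, re_mul_ofReal, wv]
    ring

theorem config_of_potential (P : ℕ → Prop) [DecidablePred P] (h0 : ¬ P 0) (g E : ℝ)
    (Ψ : ℕ → ℝ) (N : ℕ) (hΨ0 : ∀ n ≤ N, 0 ≤ Ψ n) (hΨ1 : ∀ n ≤ N, Ψ n ≤ E)
    (hu : ∀ n, g + Ψ n - Ψ (n + 1) ≤ rep P (n + 1))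
    (hN : 10 ^ 9 ≤ N) (hk : 0 < ((Icc 1 N).filter P).card)
    (hE : E * 2176 ≤ (((Icc 1 N).filter P).card : ℝ) ^ 2 / 10 ^ 6)
    (hg : 8 * (((Icc 1 N).filter P).card : ℝ) ^ 2 ≤ 9 * g * N) :
    Config (zeta ((Icc 1 N).filter P) N) := by
  set K := (Icc 1 N).filter P with hK
  have hk' : (0 : ℝ) < K.card := by exact_mod_cast hk
  have hN' : (10 : ℝ) ^ 9 ≤ N := by exact_mod_cast hN
  have hN0 : (0 : ℝ) < N := by linarith [show (0 : ℝ) < 10 ^ 9 by norm_num]
  refine ⟨?_, ?_, ?_, ?_, ?_⟩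
  · unfold zeta; fun_prop
  · have : (K.card : ℂ) ≠ 0 := by exact_mod_cast hk.ne'
    simp [zeta, this]
  · intro l
    rw [zeta, norm_mul, norm_inv, Complex.norm_natCast, inv_mul_le_iff₀ hk']
    refine le_trans (norm_sum_le _ _) ?_
    simp only [norm_exp_I_mul_ofReal]
    simp
  · intro L M hM
    have h1 := zeta_G K N hk L
    have h2 : ∑ i ∈ K, Hs L ((i : ℝ) / N - 1 / 4) ≤ ∑ _i ∈ K, M := by
      apply sum_le_sum
      intro i hi
      simp only [hK, mem_filter, mem_Icc] at hi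
      have : (i : ℝ) ≤ N := by exact_mod_cast hi.1.2
      exact hM ((i : ℝ) / N) (by positivity) (by rwa [div_le_one hN0])
    rw [sum_const, nsmul_eq_mul] at h2
    exact le_of_mul_le_mul_left (by rw [h1]; exact h2) hk'
  · intro L M hlen hL hM64 hM
    have hl : (L.length : ℝ) ≤ 32 := by exact_mod_cast hlen
    have hl0 : (0 : ℝ) ≤ L.length := Nat.cast_nonneg _
    set ψ : ℕ → ℝ := fun n => M - Hs L ((n : ℝ) / N - 1 / 2) with hψ
    have hψ0 : ∀ n ≤ 2 * N, 0 ≤ ψ n := by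
      intro n hn
      have h1 : (n : ℝ) ≤ 2 * N := by exact_mod_cast hn
      have := hM ((n : ℝ) / N) (by positivity) (by rwa [div_le_iff₀ hN0])
      exact sub_nonneg.mpr this
    have hV : ∀ n, |ψ (n + 1) - ψ n| ≤ 2048 / N := by
      intro n
      have := Hs_lip L hL ((n : ℝ) / N - 1 / 2) (((n + 1 : ℕ) : ℝ) / N - 1 / 2)
      have e1 : ψ (n + 1) - ψ n =
        Hs L ((n : ℝ) / N - 1 / 2) - Hs L (((n + 1 : ℕ) : ℝ) / N - 1 / 2) := by
        simp only [hψ]; ring
      have e2 : |(n : ℝ) / N - 1 / 2 - (((n + 1 : ℕ) : ℝ) / N - 1 / 2)| = 1 / N := by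
        have : (n : ℝ) / N - 1 / 2 - (((n + 1 : ℕ) : ℝ) / N - 1 / 2) = -(1 / N) := by
          push_cast; ring
        rw [this, abs_neg, abs_of_pos (by positivity)]
      rw [e1]
      rw [e2] at this
      refine le_trans this ?_
      rw [mul_one_div]
      exact div_le_div_of_nonneg_right (by linarith) hN0.le
    have h1 := abel_lower (fun n => (rep P n : ℝ)) Ψ ψ g E _ hV N hΨ0 hΨ1
      (fun n hn => hψ0 n (by omega)) hu
    have h2 := pair_sum P h0 ψ N hψ0
    have h3 := zeta_H K N hk L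
    have h4 := Hs_riemann L hL N (by omega)
    rw [sum_split (fun l => zeta K N l ^ 2)]
    set A := (L.map fun p => (p.2 * zeta K N p.1 ^ 2).re).sum
    set B := (L.map fun p => (p.2 * ((Real.sin (p.1 / 2) / (p.1 / 2) : ℝ) : ℂ)).re).sum
    have e1 : ∑ i ∈ K, ∑ j ∈ K, ψ (i + j) = (K.card : ℝ) ^ 2 * (M - A) := by
      simp only [hψ, sum_sub_distrib, sum_const, nsmul_eq_mul]
      rw [← h3]; ring
    have e2 : N * (M - B) - 2048 ≤ ∑ n ∈ range N, ψ (n + 1) := by
      simp only [hψ, sum_sub_distrib, sum_const, nsmul_eq_mul, card_range]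
      linarith
    have e3 : 0 ≤ ∑ n ∈ range N, ψ (n + 1) :=
      sum_nonneg fun n hn => hψ0 _ (by simp at hn; omega)
    have e4 : ψ N + N * (2048 / N) ≤ 2176 := by
      have := Hs_abs L hL ((N : ℝ) / N - 1 / 2)
      rw [mul_div_cancel₀ _ hN0.ne']
      simp only [hψ]
      linarith
    have hE0 : 0 ≤ E := le_trans (hΨ0 0 (by omega)) (hΨ1 0 (by omega))
    have e5 : E * (ψ N + N * (2048 / N)) ≤ E * 2176 := mul_le_mul_of_nonneg_left e4 hE0
    set S := ∑ n ∈ range N, ψ (n + 1)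
    set k2 := (K.card : ℝ) ^ 2 with hk2
    have hk20 : 0 < k2 := by positivity
    have e6 : 8 / 9 * k2 * (S / N) ≤ g * S := by
      have : g * S = g * N * (S / N) := by field_simp
      rw [this]
      exact mul_le_mul_of_nonneg_right (by linarith) (by positivity)
    have e7 : M - B - 2048 / 10 ^ 9 ≤ S / N := by
      rw [le_div_iff₀ hN0]; nlinarith
    have e8 : 8 / 9 * k2 * (M - B - 2048 / 10 ^ 9) ≤ 8 / 9 * k2 * (S / N) :=
      mul_le_mul_of_nonneg_left e7 (by positivity)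
    have e9 : k2 * (8 / 9 * (M - B - 2048 / 10 ^ 9) - 1 / 10 ^ 6) ≤ k2 * (M - A) := by
      rw [← e1]; linarith
    have e10 := le_of_mul_le_mul_left e9 hk20
    linarith

end Pool.Agent.Lib.MP_f2f914_nt
end

-- part Pool.Agent.Lib.MP_f2f914_nt.Digits
section

set_option autoImplicit false

namespace Pool.Agent.Lib.MP_f2f914_nt

open Finset

theorem step1 (R T T' v : ℤ) (hR : 1 ≤ R) (hT' : 1 ≤ T') (hv : 0 ≤ v)
    (h : (R + 1) * T - R ^ 2 * v ≤ T') : 1 + (T - 1) / R - (T' - 1) / R ≤ v := by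
  set j := (T - 1) / R with hj
  have h1 : R * j ≤ T - 1 := Int.mul_ediv_self_le (by omega)
  have h0 : 0 ≤ (T' - 1) / R := Int.ediv_nonneg (by omega) (by omega)
  by_cases hc : j + 1 ≤ v
  · omega
  have h2 : j + 1 - v ≤ (T' - 1) / R := by
    apply Int.le_ediv_of_mul_le (by omega)
    have a : 0 ≤ R ^ 2 * (j - v) := mul_nonneg (by positivity) (by omega)
    have b : 0 ≤ R * v := mul_nonneg (by omega) hv
    have c : (R + 1) * (R * j + 1) ≤ (R + 1) * T :=
      mul_le_mul_of_nonneg_left (by omega) (by omega)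
    nlinarith
  omega

theorem step2 (R T T' w : ℤ) (hR : 1 ≤ R) (hT : 1 ≤ T) (hT' : 1 ≤ T') (hw : 0 ≤ w)
    (h : (R + 1) * T - 2 * R ^ 2 * w ≤ T') :
    1 + (T - 1) / (2 * R) - (T' - 1) / (2 * R) ≤ w + (if T = 1 then 1 else 0) := by
  set j := (T - 1) / (2 * R) with hj
  have h1 : 2 * R * j ≤ T - 1 := Int.mul_ediv_self_le (by omega)
  have h0 : 0 ≤ (T' - 1) / (2 * R) := Int.ediv_nonneg (by omega) (by omega)
  have hj0 : 0 ≤ j := Int.ediv_nonneg (by omega) (by omega)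
  by_cases hc : j + 1 ≤ w
  · split_ifs <;> omega
  by_cases hT1 : T = 1
  · rw [if_pos hT1]
    have : j = 0 := by rw [hj, hT1]; simp
    omega
  rw [if_neg hT1]
  have h2 : j + 1 - w ≤ (T' - 1) / (2 * R) := by
    apply Int.le_ediv_of_mul_le (by omega)
    rcases eq_or_lt_of_le hj0 with hj1 | hj1
    · have hw0 : w = 0 := by omega
      have c : (R + 1) * 2 ≤ (R + 1) * T := mul_le_mul_of_nonneg_left (by omega) (by omega)
      rw [← hj1, hw0]
      rw [hw0] at h
      nlinarith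
    · have a : 0 ≤ R ^ 2 * (j - w) := mul_nonneg (by positivity) (by omega)
      have b : R * 1 ≤ R * j := mul_le_mul_of_nonneg_left (by omega) (by omega)
      have c : (R + 1) * (2 * R * j + 1) ≤ (R + 1) * T :=
        mul_le_mul_of_nonneg_left (by omega) (by omega)
      have d : 0 ≤ (R ^ 2 - R) * (j - w) := mul_nonneg (by nlinarith) (by omega)
      nlinarith
  omega

/-- number of elements of `[1,n]` satisfying `P` -/
def cnt (P : ℕ → Prop) [DecidablePred P] (n : ℕ) : ℕ := ((Icc 1 n).filter P).card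

theorem cnt_succ (P : ℕ → Prop) [DecidablePred P] (n : ℕ) :
    cnt P (n + 1) = cnt P n + if P (n + 1) then 1 else 0 := by
  unfold cnt
  rw [← Finset.insert_Icc_right_eq_Icc_add_one (by omega), filter_insert]
  split_ifs
  · rw [card_insert_of_notMem (by simp)]
  · rfl

theorem cnt_mono (P : ℕ → Prop) [DecidablePred P] {m n : ℕ} (h : m ≤ n) : cnt P m ≤ cnt P n :=
  card_le_card (filter_subset_filter _ (Icc_subset_Icc_right h))

/-- convolution square -/
def conv (a : ℕ → ℕ) (n : ℕ) : ℕ := ∑ p ∈ antidiagonal n, a p.1 * a p.2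

theorem conv_even (a : ℕ → ℕ) (n : ℕ) (h : ¬ (Even n ∧ a (n / 2) ≠ 0)) : Even (conv a n) := by
  rw [← ZMod.natCast_eq_zero_iff_even, conv]
  push_cast
  apply sum_involution (fun p _ => p.swap)
  · intro p _
    simp only [Prod.fst_swap, Prod.snd_swap]
    rw [mul_comm (a p.2 : ZMod 2)]
    exact CharTwo.add_self_eq_zero _
  · intro p hp hne he
    simp only [mem_antidiagonal] at hp
    have h1 : p.2 = p.1 := congrArg Prod.fst he
    apply h
    refine ⟨⟨p.1, by omega⟩, ?_⟩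
    have : n / 2 = p.1 := by omega
    rw [this]
    intro h0
    apply hne
    simp [h0]
  · intro p _
    simp
  · intro p hp
    simp only [mem_antidiagonal, Prod.fst_swap, Prod.snd_swap] at hp ⊢
    omega

theorem rep_eq_conv (P : ℕ → Prop) [DecidablePred P] (n : ℕ) :
    rep P n = conv (fun i => if P i then 1 else 0) n := by
  rw [rep, conv, card_filter]
  apply sum_congr rfl
  intro p _
  by_cases h1 : P p.1 <;> by_cases h2 : P p.2 <;> simp [h1, h2]

theorem conv_le (a : ℕ → ℕ) (R : ℕ) (ha : ∀ i, a i ≤ R) (n : ℕ) :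
    conv a n ≤ R ^ 2 * rep (fun i => a i ≠ 0) n := by
  rw [rep_eq_conv, conv, conv, mul_sum]
  apply sum_le_sum
  intro p _
  by_cases h1 : a p.1 = 0
  · simp [h1]
  by_cases h2 : a p.2 = 0
  · simp [h2]
  simp only [ne_eq, h1, h2, not_false_eq_true, if_true, mul_one, sq]
  exact Nat.mul_le_mul (ha _) (ha _)

theorem exc_card (P : ℕ → Prop) [DecidablePred P] (h0 : ¬ P 0) (n : ℕ) :
    ((range (n + 1)).filter fun m => (Even m ∧ P (m / 2)) ∨ P m ∨ m = 0).card
      ≤ 2 * cnt P n + 1 := by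
  rw [filter_or, filter_or]
  refine le_trans (card_union_le _ _) ?_
  have h1 : ((range (n + 1)).filter fun m => Even m ∧ P (m / 2)).card ≤ cnt P n := by
    apply card_le_card_of_injOn (fun m => m / 2)
    · intro m hm
      simp only [coe_filter, mem_range, Set.mem_ofPred_eq, mem_Icc] at hm ⊢
      have : m / 2 ≠ 0 := fun h => h0 (h ▸ hm.2.2)
      exact ⟨⟨by omega, by omega⟩, hm.2.2⟩
    · intro m hm m' hm' he
      simp only [coe_filter, mem_range, Set.mem_ofPred_eq] at hm hm' he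
      obtain ⟨_, ⟨u, hu⟩, _⟩ := hm
      obtain ⟨_, ⟨u', hu'⟩, _⟩ := hm'
      omega
  have h2 : ((range (n + 1)).filter fun m => P m).card ≤ cnt P n := by
    apply card_le_card
    intro m hm
    simp only [mem_filter, mem_range, mem_Icc] at hm ⊢
    have : m ≠ 0 := fun h => h0 (h ▸ hm.2)
    exact ⟨⟨by omega, by omega⟩, hm.2⟩
  have h3 : ((range (n + 1)).filter fun m => m = 0).card ≤ 1 := by
    apply card_le_one.mpr
    intro a ha b hb
    simp only [mem_filter] at ha hb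
    omega
  refine le_trans (Nat.add_le_add h1 (le_trans (card_union_le _ _) (Nat.add_le_add h2 h3))) ?_
  omega

/-- The abstract carry structure gives a potential function. -/
theorem potential_of_carry (a : ℕ → ℕ) (r B : ℕ) (T : ℕ → ℤ) (hr : 2 ≤ r) (ha0 : a 0 = 0)
    (ha : ∀ i, a i ≤ r - 1) (hT1 : ∀ n, 1 ≤ T n)
    (hT2 : ∀ n, T n ≤ 1 + B + (r - 1) * cnt (fun i => a i ≠ 0) n)
    (hrec : ∀ n, T (n + 1) = r * T n - conv a (n + 1) - B * a (n + 1)) :
    ∃ Ψ : ℕ → ℤ, (∀ n, 0 ≤ Ψ n) ∧ (∀ n, Ψ n ≤ (2 * B + 8) * (cnt (fun i => a i ≠ 0) n + 1)) ∧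
      ∀ n, (Nat.gcd r 2 : ℤ) + Ψ n - Ψ (n + 1) ≤ rep (fun i => a i ≠ 0) (n + 1) := by
  set P : ℕ → Prop := fun i => a i ≠ 0 with hP
  obtain ⟨R, rfl⟩ : ∃ R, r = R + 1 := ⟨r - 1, by omega⟩
  have hR : (1 : ℤ) ≤ R := by omega
  simp only [Nat.add_sub_cancel] at ha
  have hkey : ∀ n, ((R : ℤ) + 1) * T n -
      (R : ℤ) ^ 2 * (rep P (n + 1) + B * (if P (n + 1) then 1 else 0)) ≤ T (n + 1) := by
    intro n
    have h1 : (conv a (n + 1) : ℤ) ≤ (R : ℤ) ^ 2 * rep P (n + 1) := by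
      exact_mod_cast conv_le a R ha (n + 1)
    have h2 : (a (n + 1) : ℤ) ≤ (R : ℤ) ^ 2 * (if P (n + 1) then 1 else 0) := by
      by_cases h : P (n + 1)
      · rw [if_pos h]
        have : (a (n + 1) : ℤ) ≤ R := by exact_mod_cast ha (n + 1)
        nlinarith
      · rw [if_neg h]
        simp only [hP, ne_eq, not_not] at h
        simp [h]
    have h3 := mul_le_mul_of_nonneg_left h2 (Int.natCast_nonneg B)
    rw [hrec]
    push_cast
    linarith
  have hΦ : ∀ (n : ℕ) (d : ℤ), 1 ≤ d → d * ((T n - 1) / (d * R)) ≤ B + cnt P n := by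
    intro n d hd
    have h1 : d * R * ((T n - 1) / (d * R)) ≤ T n - 1 :=
      Int.mul_ediv_self_le (by positivity)
    have h2 := hT2 n
    push_cast at h2
    have h3 : (B : ℤ) * 1 ≤ B * R := mul_le_mul_of_nonneg_left hR (Int.natCast_nonneg B)
    have : (R : ℤ) * (d * ((T n - 1) / (d * R))) ≤ R * (B + cnt P n) := by nlinarith
    exact le_of_mul_le_mul_left this (by omega)
  have hB0 : (0 : ℤ) ≤ B := Int.natCast_nonneg B
  rcases Nat.even_or_odd (R + 1) with he | ho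
  · have hg : Nat.gcd (R + 1) 2 = 2 := Nat.gcd_eq_right (even_iff_two_dvd.mp he)
    set Z : ℕ → Prop := fun m => (Even m ∧ P (m / 2)) ∨ P m ∨ m = 0 with hZ
    have h0 : ¬ P 0 := by simp [hP, ha0]
    set S : ℕ → ℕ := fun n => ((range n).filter Z).card with hS
    have hSs : ∀ n, S (n + 1) = S n + if Z n then 1 else 0 := by
      intro n
      simp only [hS]
      rw [range_add_one, filter_insert]
      split_ifs
      · rw [card_insert_of_notMem (by simp)]
      · rfl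
    have hSb : ∀ n, S (n + 1) ≤ 2 * cnt P n + 1 := fun n => exc_card P h0 n
    refine ⟨fun n => 2 * ((T n - 1) / (2 * R)) + B * cnt P n + S (n + 1) + 2 * S n, ?_, ?_, ?_⟩
    · intro n
      have : 0 ≤ (T n - 1) / (2 * R) := Int.ediv_nonneg (by linarith [hT1 n]) (by omega)
      positivity
    · intro n
      have h1 := hΦ n 2 (by norm_num)
      have h2 : (S (n + 1) : ℤ) ≤ 2 * cnt P n + 1 := by exact_mod_cast hSb n
      have h3 : (S n : ℤ) ≤ S (n + 1) := by rw [hSs]; push_cast; split_ifs <;> omega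
      have h4 : (0 : ℤ) ≤ cnt P n := Int.natCast_nonneg _
      have h5 := mul_nonneg hB0 h4
      simp only
      nlinarith
    · intro n
      set v : ℤ := rep P (n + 1) + B * (if P (n + 1) then 1 else 0) with hv
      have hv0 : 0 ≤ v := by positivity
      have hw : v ≤ 2 * ((v + 1) / 2) := by omega
      have h1 := step2 R (T n) (T (n + 1)) ((v + 1) / 2) hR (hT1 n) (hT1 _) (by omega) (by
        have := hkey n
        have h2 := mul_le_mul_of_nonneg_left hw (sq_nonneg (R : ℤ))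
        rw [← hv] at this
        linarith)
      have h2 : 2 * ((v + 1) / 2) ≤ v + if Z (n + 1) then 1 else 0 := by
        split_ifs with hz
        · omega
        · simp only [hZ, not_or] at hz
          have e1 : Even (rep P (n + 1)) := by
            rw [rep_eq_conv]
            apply conv_even
            intro hc
            apply hz.1
            refine ⟨hc.1, ?_⟩
            have h := hc.2
            by_cases h' : P ((n + 1) / 2)
            · exact h'
            · exact absurd (if_neg h') h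
          obtain ⟨u, hu⟩ := e1
          rw [hv, if_neg hz.2.1, hu]
          push_cast
          omega
      have h3 : (if T n = 1 then (1 : ℤ) else 0) ≤ if Z n then 1 else 0 := by
        by_cases hz : Z n
        · rw [if_pos hz]; split_ifs <;> omega
        · rw [if_neg hz, if_neg]
          simp only [hZ, not_or] at hz
          obtain ⟨m, rfl⟩ : ∃ m, n = m + 1 := ⟨n - 1, by omega⟩
          obtain ⟨u, hu⟩ := conv_even a (m + 1) hz.1
          obtain ⟨t, ht⟩ := he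
          have h4 : a (m + 1) = 0 := by simpa [hP] using hz.2.1
          rw [hrec, hu, h4, ht]
          push_cast
          have : ((t : ℤ) + t) * T m = 2 * (t * T m) := by ring
          omega
      simp only [hg]
      rw [hSs (n + 1), hSs n, cnt_succ]
      push_cast
      rw [mul_add (B : ℤ)]
      change _ ≤ (rep P (n + 1) : ℤ)
      linarith
  · have hg : Nat.gcd (R + 1) 2 = 1 := (Nat.coprime_two_right.mpr ho)
    refine ⟨fun n => (T n - 1) / R + B * cnt P n, ?_, ?_, ?_⟩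
    · intro n
      have : 0 ≤ (T n - 1) / R := Int.ediv_nonneg (by linarith [hT1 n]) (by omega)
      positivity
    · intro n
      have h1 := hΦ n 1 le_rfl
      simp only [one_mul] at h1
      have h4 : (0 : ℤ) ≤ cnt P n := Int.natCast_nonneg _
      have h5 := mul_nonneg hB0 h4
      simp only
      nlinarith
    · intro n
      have h1 := step1 R (T n) (T (n + 1)) _ hR (hT1 _) (by positivity) (hkey n)
      simp only [hg]
      rw [cnt_succ]
      push_cast
      rw [mul_add (B : ℤ)]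
      change _ ≤ (rep P (n + 1) : ℤ)
      linarith

/-- the base `r` digits of a number `y ∈ [0,1)` -/
noncomputable def dig (y : ℝ) (r : ℕ) : ℕ → ℕ
  | 0 => 0
  | n + 1 => ⌊(r : ℝ) * Int.fract (y * r ^ n)⌋₊

theorem fract_succ (y : ℝ) (r n : ℕ) :
    Int.fract (y * r ^ (n + 1)) = r * Int.fract (y * r ^ n) - dig y r (n + 1) := by
  have h0 : (0 : ℝ) ≤ r * Int.fract (y * r ^ n) :=
    mul_nonneg (Nat.cast_nonneg r) (Int.fract_nonneg _)
  have e : y * r ^ (n + 1) = r * Int.fract (y * r ^ n) + ((r * ⌊y * r ^ n⌋ : ℤ) : ℝ) := by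
    push_cast; rw [Int.fract]; ring
  rw [e, Int.fract_add_intCast, dig, Int.fract, ← Int.natCast_floor_eq_floor h0]
  simp

theorem dig_le (y : ℝ) (r : ℕ) (hr : 2 ≤ r) (i : ℕ) : dig y r i ≤ r - 1 := by
  cases i with
  | zero => simp [dig]
  | succ n =>
    have h0 : (0 : ℝ) ≤ r * Int.fract (y * r ^ n) :=
      mul_nonneg (Nat.cast_nonneg r) (Int.fract_nonneg _)
    have hr0 : (0 : ℝ) < r := by exact_mod_cast (by omega : 0 < r)
    have : dig y r (n + 1) < r := by
      rw [dig, Nat.floor_lt h0]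
      nlinarith [Int.fract_lt_one (y * r ^ n)]
    omega

theorem dig_ne_zero (y : ℝ) (r : ℕ) (hr : 2 ≤ r) (n : ℕ) :
    dig y r (n + 1) ≠ 0 ↔ 1 / (r : ℝ) ≤ Int.fract (y * r ^ n) := by
  have hr0 : (0 : ℝ) < r := by exact_mod_cast (by omega : 0 < r)
  rw [dig, ne_eq, Nat.floor_eq_zero, not_lt, div_le_iff₀ hr0, mul_comm]

theorem sum_dig_le (a : ℕ → ℕ) (R : ℕ) (ha0 : a 0 = 0) (ha : ∀ i, a i ≤ R) (n : ℕ) :
    ∑ i ∈ range (n + 1), a i ≤ R * cnt (fun i => a i ≠ 0) n := by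
  induction n with
  | zero => simp [ha0]
  | succ n ih =>
    rw [sum_range_succ, cnt_succ]
    by_cases h : a (n + 1) = 0
    · simp only [h, ne_eq, not_true_eq_false, if_false, add_zero]; exact ih
    · simp only [h, ne_eq, not_false_eq_true, if_true, mul_add, mul_one]
      exact Nat.add_le_add ih (ha _)

theorem exists_carry (y : ℝ) (hy0 : 0 ≤ y) (hy1 : y < 1) (hirr : Irrational y) (B : ℕ) (C : ℤ)
    (hq : y ^ 2 + B * y = C) (r : ℕ) (hr : 2 ≤ r) :
    ∃ T : ℕ → ℤ, (∀ n, 1 ≤ T n) ∧ (∀ n, T n ≤ 1 + B + (r - 1) * cnt (fun i => dig y r i ≠ 0) n) ∧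
      ∀ n, T (n + 1) = r * T n - conv (dig y r) (n + 1) - B * dig y r (n + 1) := by
  set f : ℕ → ℝ := fun n => Int.fract (y * r ^ n) with hf
  have hf0 : f 0 = y := by simp [hf, Int.fract_eq_self, hy0, hy1]
  have hfs : ∀ n, f (n + 1) = r * f n - dig y r (n + 1) := fun n => fract_succ y r n
  have hfn : ∀ n, 0 ≤ f n := fun n => Int.fract_nonneg _
  have hf1 : ∀ n, f n < 1 := fun n => Int.fract_lt_one _
  have hfp : ∀ n, 0 < f n := by
    intro n
    have h1 : Irrational (y * r ^ n) := by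
      have := hirr.mul_natCast (m := r ^ n) (pow_ne_zero n (by omega))
      simpa using this
    exact Int.fract_pos.mpr (h1.ne_int _)
  have hyp : 0 < y := hf0 ▸ hfp 0
  obtain ⟨T, hT0, hTs⟩ : ∃ T : ℕ → ℤ, T 0 = C ∧
      ∀ n, T (n + 1) = r * T n - conv (dig y r) (n + 1) - B * dig y r (n + 1) :=
    ⟨fun n => Nat.rec (motive := fun _ => ℤ) C
      (fun n t => r * t - conv (dig y r) (n + 1) - B * dig y r (n + 1)) n, rfl, fun _ => rfl⟩
  have hT : ∀ n : ℕ, ((T n : ℤ) : ℝ) =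
      (y + B) * f n + ∑ p ∈ antidiagonal n, (dig y r p.1 : ℝ) * f p.2 := by
    intro n
    induction n with
    | zero =>
      rw [hT0, ← hq, hf0]; simp [dig]; ring
    | succ n ih =>
      rw [hTs, conv, Finset.Nat.sum_antidiagonal_succ', Finset.Nat.sum_antidiagonal_succ']
      push_cast
      rw [ih, hf0, hfs]
      simp only [hfs, mul_sub, sum_sub_distrib, mul_add, mul_sum]
      have : dig y r 0 = 0 := rfl
      rw [this]
      have e : ∑ p ∈ antidiagonal n, (r : ℝ) * (dig y r p.1 * f p.2) =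
        ∑ p ∈ antidiagonal n, (dig y r p.1 : ℝ) * (r * f p.2) :=
        sum_congr rfl fun p _ => by ring
      rw [e]
      push_cast
      ring
  refine ⟨T, ?_, ?_, hTs⟩
  · intro n
    have h1 : (0 : ℝ) < T n := by
      rw [hT]
      have a : 0 < (y + B) * f n := mul_pos (by positivity) (hfp n)
      have b : 0 ≤ ∑ p ∈ antidiagonal n, (dig y r p.1 : ℝ) * f p.2 :=
        sum_nonneg fun p _ => mul_nonneg (Nat.cast_nonneg _) (hfn _)
      linarith
    have : 0 < T n := by exact_mod_cast h1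
    omega
  · intro n
    have h1 : ∑ p ∈ antidiagonal n, (dig y r p.1 : ℝ) * f p.2 ≤
        ∑ p ∈ antidiagonal n, (dig y r p.1 : ℝ) :=
      sum_le_sum fun p _ => mul_le_of_le_one_right (Nat.cast_nonneg _) (hf1 _).le
    have h2 : ∑ p ∈ antidiagonal n, (dig y r p.1 : ℝ) = ∑ i ∈ range (n + 1), (dig y r i : ℝ) :=
      Finset.Nat.sum_antidiagonal_eq_sum_range_succ (fun i _ => (dig y r i : ℝ)) n
    have h3 := sum_dig_le (dig y r) (r - 1) rfl (dig_le y r hr) n
    have h4 : ∑ i ∈ range (n + 1), (dig y r i : ℝ) ≤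
        ((r : ℝ) - 1) * cnt (fun i => dig y r i ≠ 0) n := by
      have : ((r - 1 : ℕ) : ℝ) = r - 1 := by rw [Nat.cast_sub (by omega)]; simp
      rw [← this]
      exact_mod_cast h3
    have h5 : (y + B) * f n ≤ 1 + B := by
      have := hf1 n
      have hB : (0 : ℝ) ≤ B := Nat.cast_nonneg B
      nlinarith [hfn n]
    have h6 : (T n : ℝ) ≤ 1 + B + ((r : ℝ) - 1) * cnt (fun i => dig y r i ≠ 0) n := by
      rw [hT]; linarith
    exact_mod_cast h6

end Pool.Agent.Lib.MP_f2f914_nt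
end
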