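import Pool.Agent.Lib.MP_f2f914_nt.WTab

set_option autoImplicit false

namespace Pool.Agent.Lib.MP_f2f914_nt

theorem leaf0 : Refutes [⟨240, 6, 19, -30950⟩, ⟨210, 8, 18, -6113⟩, ⟨155, 20, -2, -76022⟩, ⟨133, 1, 0, 0⟩, ⟨86, 1, 20, -88836⟩, ⟨155, 1, 0, 0⟩] :=
  leaf_sound Wl Wl_ok _ [
    ⟨14, -16384, -7313, 8642, 3957, 219594754, -3990158365140⟩,
    ⟨32, 16384, 4278, -11136, -1786, 149067220, 3251106881175⟩,
    ⟨42, 10776, -16384, -8284, 14979, 98080847, 1699878358593⟩,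
    ⟨50, -118, -145, 145, 169, 57120406, -15968155780⟩,
    ⟨86, -1852, 13560, 16384, 2137, -50838537, 1504638194170⟩,
    ⟨155, -8153, -3482, -10975, -6673, 30622002, 684042623661⟩,
    ⟨175, 325, -272, 338, -452, 17035993, -30473063842⟩,
    ⟨190, 6660, -3678, 3630, -6552, -1887553, -477311956764⟩,
    ⟨210, 485, 4025, 6766, 6574, -19990818, 118827605425⟩,
    ⟨240, -1966, 512, 1894, 2950, -10669274, -5929203171⟩] (by decide +kernel)

theorem leaf3 : Refutes [⟨210, 12, 16, 27528⟩, ⟨190, 7, 19, 2253⟩, ⟨116, -10, 17, -57031⟩, ⟨210, -8, -18, 6113⟩, ⟨155, 20, -2, -76022⟩, ⟨133, 1, 0, 0⟩, ⟨86, 1, 20, -88836⟩, ⟨155, 1, 0, 0⟩] :=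
  leaf_sound Wl Wl_ok _ [
    ⟨24, 2528, 16384, -2091, -9181, 185327657, 542622283926⟩,
    ⟨55, -6707, -9469, 6054, 12009, 33115585, -735480395810⟩,
    ⟨116, 4489, 1044, -510, -6673, -19113517, 41158157628⟩,
    ⟨155, -2764, -146, -3912, -233, 30622002, 233668936968⟩,
    ⟨190, 1127, 973, 4788, -2059, -1887553, -57069361005⟩,
    ⟨210, -400, -781, 6013, 6819, -19990818, 111025507298⟩] (by decide +kernel)

theorem leaf7 : Refutes [⟨133, 20, 1, -42161⟩, ⟨155, -20, 2, 76022⟩, ⟨133, 1, 0, 0⟩, ⟨86, 1, 20, -88836⟩, ⟨155, 1, 0, 0⟩] :=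
  leaf_sound Wl Wl_ok _ [
    ⟨32, 16384, 1567, -11049, 6, 149067220, 3250418670644⟩,
    ⟨50, -2459, -12521, 1845, 13246, 57120406, -360572748512⟩,
    ⟨86, 2332, 11898, 14078, -4687, -50838537, 1310399516801⟩,
    ⟨133, -6608, -2836, -12972, 650, 12868535, 280746993148⟩,
    ⟨155, 3204, -1502, -16384, -9903, 30622002, 44071399113⟩,
    ⟨210, 1359, 808, -559, 3481, -19990818, -122528027044⟩,
    ⟨240, -898, 91, 1176, -342, -10669274, -57771412860⟩] (by decide +kernel)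

theorem leaf9 : Refutes [⟨133, -1, 0, 0⟩, ⟨86, 1, 20, -88836⟩, ⟨155, 1, 0, 0⟩] :=
  leaf_sound Wl Wl_ok _ [
    ⟨32, 9911, 16384, -6846, -10750, 149067220, 1951904199173⟩,
    ⟨55, -10775, -10431, 9481, 12501, 33115585, -1165679101517⟩,
    ⟨133, 6937, -1605, -9238, 3297, 12868535, 79592547472⟩,
    ⟨155, -4605, 1976, -7490, -2877, 30622002, 269176253139⟩] (by decide +kernel)


end Pool.Agent.Lib.MP_f2f914_nt
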