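import Pool.Agent.Lib.MP_f2f914_nt.WTab

set_option autoImplicit false

namespace Pool.Agent.Lib.MP_f2f914_nt

theorem leaf2 : Refutes [⟨116, 10, -17, 57031⟩, ⟨210, -8, -18, 6113⟩, ⟨155, 20, -2, -76022⟩, ⟨133, 1, 0, 0⟩, ⟨86, 1, 20, -88836⟩, ⟨155, 1, 0, 0⟩] :=
  leaf_sound Wl Wl_ok _ [
    ⟨24, 7159, 16384, -4898, -8914, 185327657, 1572536424028⟩,
    ⟨42, 3126, -5321, -2368, 4856, 98080847, 490851135366⟩,
    ⟨50, -2474, -15293, 1906, 16384, 57120406, -373296101265⟩,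
    ⟨86, 1707, 13741, 16384, -3928, -50838537, 1518809050675⟩,
    ⟨116, -2174, -5605, 15382, -4378, -19113517, -231980126174⟩,
    ⟨190, 358, 614, -511, 801, -1887553, -48494841823⟩,
    ⟨210, 469, -470, 1007, 1300, -19990818, 13037753833⟩,
    ⟨240, -388, 224, 73, -440, -10669274, -26797233006⟩] (by decide +kernel)

theorem leaf4 : Refutes [⟨210, -12, -16, -27528⟩, ⟨190, 7, 19, 2253⟩, ⟨116, -10, 17, -57031⟩, ⟨210, -8, -18, 6113⟩, ⟨155, 20, -2, -76022⟩, ⟨133, 1, 0, 0⟩, ⟨86, 1, 20, -88836⟩, ⟨155, 1, 0, 0⟩] :=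
  leaf_sound Wl Wl_ok _ [
    ⟨24, 2623, 16384, -2149, -9176, 185327657, 564917712072⟩,
    ⟨55, -5843, -10344, 4250, 12569, 33115585, -658946626783⟩,
    ⟨116, 4543, 2318, 683, -5818, -19113517, 122038628949⟩,
    ⟨155, -2801, -1073, -3693, -2356, 30622002, 232106071286⟩,
    ⟨190, -643, 2113, 3506, -3330, -1887553, -7276493953⟩,
    ⟨210, 1703, -2276, 3452, 4533, -19990818, 118889178991⟩,
    ⟨240, -542, 630, -305, -656, -10669274, -58970913266⟩] (by decide +kernel)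

theorem leaf5 : Refutes [⟨210, 15, 14, 28944⟩, ⟨190, -7, -19, -2253⟩, ⟨116, -10, 17, -57031⟩, ⟨210, -8, -18, 6113⟩, ⟨155, 20, -2, -76022⟩, ⟨133, 1, 0, 0⟩, ⟨86, 1, 20, -88836⟩, ⟨155, 1, 0, 0⟩] :=
  leaf_sound Wl Wl_ok _ [
    ⟨32, 14492, 16384, -10017, -10475, 149067220, 2867554892764⟩,
    ⟨55, -14561, -12565, 15427, 16384, 33115585, -1536779618280⟩,
    ⟨116, 8598, 885, -7778, -11563, -19113517, -43882061334⟩,
    ⟨155, -7474, 2404, -10621, 3695, 30622002, 621510529853⟩,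
    ⟨190, 4247, -3333, 9530, 465, -1887553, -65087792771⟩,
    ⟨210, -1364, 1568, 8352, 13220, -19990818, 67110321035⟩] (by decide +kernel)

theorem leaf8 : Refutes [⟨133, -20, -1, 42161⟩, ⟨155, -20, 2, 76022⟩, ⟨133, 1, 0, 0⟩, ⟨86, 1, 20, -88836⟩, ⟨155, 1, 0, 0⟩] :=
  leaf_sound Wl Wl_ok _ [
    ⟨24, 16384, 9994, -10167, -4801, 185327657, 3625247451826⟩,
    ⟨50, -1704, -14936, 494, 15366, 57120406, -279255290953⟩,
    ⟨86, 831, 9700, 11550, -2565, -50838537, 1068443326616⟩,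
    ⟨133, -2140, -2303, -12444, 2875, 12868535, 127246085355⟩,
    ⟨155, 284, -878, -16384, -8239, 30622002, 224855342406⟩,
    ⟨210, 1441, 697, 352, 3802, -19990818, -130998349336⟩,
    ⟨240, -852, -58, 1034, 200, -10669274, -51802993492⟩] (by decide +kernel)


end Pool.Agent.Lib.MP_f2f914_nt
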