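import Pool.Agent.Lib.MP_f2f914_nt.Leaves0
import Pool.Agent.Lib.MP_f2f914_nt.Leaves1
import Pool.Agent.Lib.MP_f2f914_nt.Leaves2
import Pool.Agent.Lib.MP_f2f914_nt.Digits

-- part Pool.Agent.Lib.MP_f2f914_nt.Tree
section

set_option autoImplicit false

namespace Pool.Agent.Lib.MP_f2f914_nt

theorem refutes_nil : Refutes [] :=
  (Refutes.split ⟨155, 1, 0, 0⟩ (Refutes.split ⟨86, 1, 20, -88836⟩ (Refutes.split ⟨133, 1, 0, 0⟩
  (Refutes.split ⟨155, 20, -2, -76022⟩ (Refutes.split ⟨210, 8, 18, -6113⟩ (Refutes.split ⟨240, 6,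
  19, -30950⟩ leaf0 leaf1) (Refutes.split ⟨116, 10, -17, 57031⟩ leaf2 (Refutes.split ⟨190, 7, 19,
  2253⟩ (Refutes.split ⟨210, 12, 16, 27528⟩ leaf3 leaf4) (Refutes.split ⟨210, 15, 14, 28944⟩ leaf5
  leaf6)))) (Refutes.split ⟨133, 20, 1, -42161⟩ leaf7 leaf8)) leaf9) leaf10) leaf11)

theorem not_config (ζ : ℝ → ℂ) : ¬ Config ζ := fun h =>
  refutes_nil ζ h (fun _ ha => absurd ha List.not_mem_nil)

end Pool.Agent.Lib.MP_f2f914_nt
end

-- part Pool.Agent.Lib.MP_f2f914_nt.Core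
section

set_option autoImplicit false

namespace Pool.Agent.Lib.MP_f2f914_nt

open Finset

theorem bound_of_potential (P : ℕ → Prop) [DecidablePred P] (h0 : ¬ P 0) (g D : ℕ) (hg : 1 ≤ g)
    (Ψ : ℕ → ℤ) (hΨ0 : ∀ n, 0 ≤ Ψ n) (hΨ1 : ∀ n, Ψ n ≤ D * (cnt P n + 1))
    (hu : ∀ n, (g : ℤ) + Ψ n - Ψ (n + 1) ≤ rep P (n + 1)) :
    ∃ N₀ : ℕ, ∀ N, N₀ ≤ N → 9 * (g * N) ≤ 8 * cnt P N ^ 2 := by
  set K₀ : ℕ := 5 * 10 ^ 9 * D + 1 with hK₀
  refine ⟨10 ^ 9 + K₀ ^ 2 + D * (K₀ + 1) + 1, fun N hN => ?_⟩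
  by_contra hc
  have hΨ0' : ∀ n ≤ N, (0 : ℝ) ≤ (Ψ n : ℝ) := fun n _ => by exact_mod_cast hΨ0 n
  have hΨ1' : ∀ n ≤ N, (Ψ n : ℝ) ≤ D * (cnt P N + 1) := by
    intro n hn
    have h1 : (Ψ n : ℝ) ≤ D * (cnt P n + 1) := by exact_mod_cast hΨ1 n
    have h2 : (cnt P n : ℝ) ≤ cnt P N := by exact_mod_cast cnt_mono P hn
    exact le_trans h1 (mul_le_mul_of_nonneg_left (by linarith) (Nat.cast_nonneg D))
  have hu' : ∀ n, (g : ℝ) + (Ψ n : ℝ) - (Ψ (n + 1) : ℝ) ≤ (rep P (n + 1) : ℝ) :=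
    fun n => by exact_mod_cast hu n
  have hk : K₀ ≤ cnt P N := by
    by_contra hk
    have h1 := abel_lower (fun n => (rep P n : ℝ)) (fun n => (Ψ n : ℝ)) (fun _ => 1) g _ 0
      (by simp) N hΨ0' hΨ1' (by simp) hu'
    have h2 := pair_sum P h0 (fun _ => 1) N (by simp)
    simp only [sum_const, card_range, nsmul_eq_mul, mul_one, mul_zero, add_zero] at h1 h2
    change _ ≤ (cnt P N : ℝ) * cnt P N at h2
    have h3 : (g : ℝ) * N ≤ cnt P N * cnt P N + D * (cnt P N + 1) := by linarith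
    have h4 : g * N ≤ cnt P N * cnt P N + D * (cnt P N + 1) := by exact_mod_cast h3
    have h5 : cnt P N * cnt P N ≤ K₀ ^ 2 := by rw [sq]; exact Nat.mul_le_mul (by omega) (by omega)
    have h6 : D * (cnt P N + 1) ≤ D * (K₀ + 1) := Nat.mul_le_mul_left D (by omega)
    have h7 : 1 * N ≤ g * N := Nat.mul_le_mul_right N hg
    omega
  refine not_config _ (config_of_potential P h0 g _ (fun n => (Ψ n : ℝ)) N hΨ0' hΨ1' hu'
    (by omega) (by change 0 < cnt P N; omega) ?_ ?_)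
  · change _ ≤ (cnt P N : ℝ) ^ 2 / 10 ^ 6
    have h1 : ((5 * 10 ^ 9 * D + 1 : ℕ) : ℝ) ≤ cnt P N := by exact_mod_cast hk
    push_cast at h1
    have hD : (0 : ℝ) ≤ D := Nat.cast_nonneg D
    rw [le_div_iff₀ (by norm_num)]
    nlinarith
  · change 8 * (cnt P N : ℝ) ^ 2 ≤ _
    have : 8 * cnt P N ^ 2 ≤ 9 * g * N := by rw [mul_assoc]; omega
    exact_mod_cast this

theorem nonzero_digits (x : ℝ) (hx : Irrational x) (t s : ℤ) (hq : x ^ 2 = t * x + s)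
    (hconj : (t : ℝ) - x < x) (r : ℕ) (hr : 2 ≤ r) :
    ∃ N₀ : ℕ, ∀ N : ℕ, N₀ ≤ N → 9 * (Nat.gcd r 2 * N) ≤
      8 * ((Icc 1 N).filter fun n : ℕ => 1 / (r : ℝ) ≤ Int.fract (x * (r : ℝ) ^ n)).card ^ 2 := by
  have hr0 : (0 : ℝ) < r := by exact_mod_cast (by omega : 0 < r)
  set m : ℤ := ⌊x * r⌋ with hm
  set y : ℝ := Int.fract (x * r) with hy
  have hy0 : 0 ≤ y := Int.fract_nonneg _
  have hy1 : y < 1 := Int.fract_lt_one _
  have hxy : x * r = y + m := by rw [hy, hm, Int.fract]; ring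
  have hirr : Irrational y := by
    have := (hx.mul_natCast (m := r) (by omega)).sub_intCast m
    rwa [hxy, add_sub_cancel_right] at this
  have hyp : 0 < y := lt_of_le_of_ne hy0 (by simpa using (hirr.ne_int 0).symm)
  have hq' : y ^ 2 + ((2 * m - t * r : ℤ) : ℝ) * y = ((s * r ^ 2 + t * r * m - m ^ 2 : ℤ) : ℝ) := by
    have : (x * r) ^ 2 = t * r * (x * r) + s * r ^ 2 := by rw [mul_pow, hq]; ring
    rw [hxy] at this
    push_cast
    linarith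
  have hB : 0 ≤ 2 * m - t * r := by
    have h1 : (t : ℝ) * r < 2 * (y + m) := by rw [← hxy]; nlinarith
    have h2 : ((t * r : ℤ) : ℝ) < ((2 * m + 2 : ℤ) : ℝ) := by push_cast; linarith
    have h3 : t * r < 2 * m + 2 := by exact_mod_cast h2
    by_contra hc
    have h4 : 2 * m - t * r = -1 := by omega
    rw [h4] at hq'
    set C : ℤ := s * r ^ 2 + t * r * m - m ^ 2
    push_cast at hq'
    have h5 : (C : ℝ) < 0 := by nlinarith
    have h6 : (-1 : ℝ) < C := by nlinarith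
    have h7 : C < 0 := by exact_mod_cast h5
    have h8 : -1 < C := by exact_mod_cast h6
    omega
  obtain ⟨B, hBe⟩ := Int.eq_ofNat_of_zero_le hB
  rw [hBe, Int.cast_natCast] at hq'
  obtain ⟨T, hT1, hT2, hT3⟩ := exists_carry y hy0 hy1 hirr B _ hq' r hr
  obtain ⟨Ψ, h1, h2, h3⟩ := potential_of_carry (dig y r) r B T hr rfl (dig_le y r hr) hT1 hT2 hT3
  obtain ⟨N₀, hN₀⟩ := bound_of_potential (fun i => dig y r i ≠ 0) (by simp [dig]) (Nat.gcd r 2)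
    (2 * B + 8) (Nat.gcd_pos_of_pos_right r (by norm_num)) Ψ h1 (by push_cast; exact h2) h3
  refine ⟨N₀, fun N hN => ?_⟩
  have := hN₀ N hN
  unfold cnt at this
  rwa [filter_congr (q := fun n : ℕ => 1 / (r : ℝ) ≤ Int.fract (x * (r : ℝ) ^ n))] at this
  intro n hn
  obtain ⟨k, rfl⟩ : ∃ k, n = k + 1 := ⟨n - 1, by simp at hn; omega⟩
  rw [dig_ne_zero y r hr]
  have e : x * (r : ℝ) ^ (k + 1) = y * r ^ k + ((m * r ^ k : ℤ) : ℝ) := by
    rw [pow_succ', ← mul_assoc, hxy]; push_cast; ring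
  rw [e, Int.fract_add_intCast]

end Pool.Agent.Lib.MP_f2f914_nt
end
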