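import Mathlib

-- part Pool.Agent.Lib.MP_f2f914_nt.DCTree
section

/-!
Abstract trees of scales: geometry of generic tuples.
-/

namespace Pool.Agent.Lib.MP_f2f914_nt.DC

open Finset

/-- A family of points on the line organised in a tree of scales `ρ * M ^ l`. -/
structure Tr (Ω σ : Type) where
  st : Ω → ℕ → σ
  cp : σ → ℝ
  z0 : σ
  pr1 : σ → Finset ℕ
  pr2 : σ → Finset ℕ
  ρ : ℝ
  M : ℝ
  K : ℝ
  n : ℕ
  l0 : ℕ
  hρ : 0 < ρ
  hK : 1 ≤ K
  hM : 4 ≤ M
  hl0 : 1 ≤ l0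
  cp0 : cp z0 = 0
  nest : ∀ ω ω' l, st ω l = st ω' l → st ω (l + 1) = st ω' (l + 1)
  near : ∀ ω l, |cp (st ω l) - cp (st ω 0)| ≤ K * (ρ * M ^ l)
  sep : ∀ ω ω' l, st ω l ≠ st ω' l → ρ * M ^ l < |cp (st ω 0) - cp (st ω' 0)|
  sepE : ∀ ω l, st ω (l + 1) ≠ st ω l → ρ * M ^ l < |cp (st ω (l + 1)) - cp (st ω 0)|
  top : ∀ ω l, n ≤ l → st ω l = z0

namespace Tr

variable {Ω σ : Type} (t : Tr Ω σ)

/-- The scale of level `l`. -/
def r (l : ℕ) : ℝ := t.ρ * t.M ^ l

/-- The position of a point. -/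
def pos (ω : Ω) : ℝ := t.cp (t.st ω 0)

open Classical in
/-- Levels at which the point leaves the distinguished branch. -/
noncomputable def Ev (ω : Ω) : Finset ℕ := (range t.n).filter (fun l => t.st ω (l + 1) ≠ t.st ω l)

/-- Events together with the predictable levels. -/
noncomputable def Own (ω : Ω) : Finset ℕ :=
  t.Ev ω ∪ (range (t.n + 1)).biUnion (fun l => t.pr1 (t.st ω l))

/-- Diffuse events. -/
noncomputable def Dif (ω : Ω) : Finset ℕ := (t.Ev ω).filter (fun l => l ∉ t.pr1 (t.st ω (l + 1)))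

/-- Basic genericity of a tuple. -/
def G1 {ι : Type} (π : ι → Ω) : Prop :=
  (∀ a b, a ≠ b → ∀ l ∈ t.Ev (π a), ∀ m ∈ t.Own (π b), l + 3 < m ∨ m + 3 < l) ∧
    ∀ a, ∀ l ∈ t.Ev (π a), t.l0 ≤ l ∧ l + 2 < t.n

theorem r_pos (l : ℕ) : 0 < t.r l := mul_pos t.hρ (pow_pos (by linarith [t.hM]) _)

theorem r_succ (l : ℕ) : t.r (l + 1) = t.M * t.r l := by unfold r; ring

theorem r_mono {l m : ℕ} (h : l ≤ m) : t.r l ≤ t.r m :=
  mul_le_mul_of_nonneg_left (pow_le_pow_right₀ (by linarith [t.hM]) h) t.hρ.le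

theorem near' (ω : Ω) (l : ℕ) : |t.cp (t.st ω l) - t.pos ω| ≤ t.K * t.r l := t.near ω l

theorem mem_Ev {ω : Ω} {l : ℕ} : l ∈ t.Ev ω ↔ t.st ω (l + 1) ≠ t.st ω l := by
  classical
  simp only [Ev, mem_filter, mem_range, and_iff_right_iff_imp]
  intro h
  by_contra hl
  exact h (by rw [t.top ω l (by omega), t.top ω (l + 1) (by omega)])

theorem Ev_lt {ω : Ω} {l : ℕ} (h : l ∈ t.Ev ω) : l < t.n := by
  classical
  exact mem_range.1 (mem_filter.1 h).1

theorem quiet {ω : Ω} {a b : ℕ} (hab : a ≤ b) (h : ∀ m, a ≤ m → m < b → m ∉ t.Ev ω) :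
    t.st ω b = t.st ω a := by
  induction b, hab using Nat.le_induction with
  | base => rfl
  | succ b hab ih =>
    have h1 := h b hab (by omega)
    rw [mem_Ev, not_not] at h1
    rw [h1, ih fun m hm hm' => h m hm (by omega)]

theorem nest_le {ω ω' : Ω} {l m : ℕ} (hlm : l ≤ m) (h : t.st ω l = t.st ω' l) :
    t.st ω m = t.st ω' m := by
  induction m, hlm using Nat.le_induction with
  | base => exact h
  | succ m _ ih => exact t.nest _ _ _ ih

theorem Ev_sub_Own {ω : Ω} {l : ℕ} (h : l ∈ t.Ev ω) : l ∈ t.Own ω := mem_union_left _ h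

theorem pr1_sub_Own {ω : Ω} {l m : ℕ} (h : m ∈ t.pr1 (t.st ω l)) : m ∈ t.Own ω := by
  refine mem_union_right _ (mem_biUnion.2 ?_)
  rcases le_or_gt l t.n with hl | hl
  · exact ⟨l, mem_range.2 (by omega), h⟩
  · refine ⟨t.n, mem_range.2 (by omega), ?_⟩
    rw [t.top ω _ le_rfl, ← t.top ω l hl.le]; exact h

theorem mem_Dif {ω : Ω} {l : ℕ} : l ∈ t.Dif ω ↔ l ∈ t.Ev ω ∧ l ∉ t.pr1 (t.st ω (l + 1)) :=
  mem_filter

theorem G1.comp {ι κ : Type} {π : ι → Ω} (h : t.G1 π) {s : κ → ι} (hs : Function.Injective s) :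
    t.G1 (fun c => π (s c)) :=
  ⟨fun _ _ hab => h.1 _ _ (fun h' => hab (hs h')), fun _ => h.2 _⟩

theorem dist_le {ω ω' : Ω} {l : ℕ} (h : t.st ω l = t.st ω' l) :
    |t.pos ω - t.pos ω'| ≤ 2 * (t.K * t.r l) := by
  have h1 := t.near' ω l
  have h2 := t.near' ω' l
  rw [← h] at h2
  rw [abs_le] at *
  constructor <;> linarith [h1.1, h1.2, h2.1, h2.2]

variable {ι : Type} [Fintype ι] [DecidableEq ι]

/-- Determinism: two generic tuples with close sums can only branch through diffuse events. -/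
theorem det {π π' : ι → Ω} (h : t.G1 π) (h' : t.G1 π')
    (hM : 4 * Fintype.card ι * t.K ≤ t.M) {l : ℕ}
    (hsum : |∑ b, t.pos (π b) - ∑ b, t.pos (π' b)| ≤ t.r l / 4)
    (hag : ∀ b, t.st (π b) (l + 1) = t.st (π' b) (l + 1)) {a : ι} (hev : l ∈ t.Ev (π a))
    (hne : t.st (π a) l ≠ t.st (π' a) l) :
    l ∈ t.Dif (π a) ∧ ∃ b, b ≠ a ∧ ∃ m ∈ t.Dif (π' b),
      m = l ∨ (m + 1 = l ∧ l ∉ t.Ev (π' b)) := by
  obtain ⟨k, rfl⟩ : ∃ k, l = k + 1 := ⟨l - 1, by have := (h.2 a l hev).1; have := t.hl0; omega⟩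
  have hex : ∃ b, b ≠ a ∧ t.st (π b) k ≠ t.st (π' b) k := by
    by_contra hcon
    push Not at hcon
    have h1 : t.r (k + 1) < |t.pos (π a) - t.pos (π' a)| := t.sep _ _ _ hne
    have h2 : |∑ b ∈ univ.erase a, (t.pos (π b) - t.pos (π' b))| ≤
        Fintype.card ι * (2 * (t.K * t.r k)) := by
      refine (abs_sum_le_sum_abs _ _).trans ?_
      refine (sum_le_card_nsmul _ _ _ fun b hb => t.dist_le (hcon b (ne_of_mem_erase hb))).trans ?_
      rw [nsmul_eq_mul]
      have hK := t.hK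
      have := t.r_pos k
      gcongr
      exact card_le_univ _
    rw [← sum_sub_distrib, ← add_sum_erase _ _ (mem_univ a)] at hsum
    have h3 := t.r_pos k
    have h4 : 4 * Fintype.card ι * t.K * t.r k ≤ t.r (k + 1) := by
      rw [r_succ]; gcongr
    have h5 : |t.pos (π a) - t.pos (π' a)| ≤ t.r (k + 1) / 4 +
        Fintype.card ι * (2 * (t.K * t.r k)) := by
      rw [abs_le] at *
      constructor <;> linarith [hsum.1, hsum.2, h2.1, h2.2]
    have := t.r_pos (k + 1)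
    nlinarith
  obtain ⟨b, hba, hb⟩ := hex
  have hq : t.st (π b) (k + 1 + 1) = t.st (π b) k := by
    refine t.quiet (by omega) fun m h1 h2 hm => ?_
    have := h.1 a b hba.symm _ hev m (t.Ev_sub_Own hm)
    omega
  have hm : ∃ m ∈ t.Ev (π' b), t.st (π' b) (m + 1) = t.st (π b) (k + 1 + 1) ∧
      (m = k + 1 ∨ (m + 1 = k + 1 ∧ k + 1 ∉ t.Ev (π' b))) := by
    by_cases h1 : k + 1 ∈ t.Ev (π' b)
    · exact ⟨k + 1, h1, (hag b).symm, Or.inl rfl⟩
    · have h2 := h1
      rw [mem_Ev, not_not] at h2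
      refine ⟨k, ?_, by rw [← h2, hag b], Or.inr ⟨rfl, h1⟩⟩
      rw [mem_Ev, ← h2, ← hag b, hq]
      exact hb
  obtain ⟨m, hm1, hm2, hm3⟩ := hm
  refine ⟨t.mem_Dif.2 ⟨hev, fun hp => ?_⟩, b, hba, m, t.mem_Dif.2 ⟨hm1, fun hp => ?_⟩, hm3⟩
  · rw [hag a] at hp
    have := h'.1 b a hba _ hm1 _ (t.pr1_sub_Own hp)
    omega
  · rw [hm2] at hp
    have := h.1 a b hba.symm _ hev _ (t.pr1_sub_Own hp)
    omega

/-- Number of diffuse events of the tuple above level `l`. -/
noncomputable def cnt (π : ι → Ω) (l : ℕ) : ℕ := ∑ a, ((t.Dif (π a)).filter (fun m => l < m)).card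

/-- The code of a tuple, truncated at level `v`. -/
noncomputable def code (D : ℕ) (π : ι → Ω) (v : ℕ) : Finset (ι × ℕ) :=
  (univ ×ˢ range (Fintype.card ι * D + 1)).filter
    (fun x => ∃ m ∈ t.Dif (π x.1), v ≤ m ∧ t.cnt π m = x.2)

omit [DecidableEq ι] in
theorem cnt_lt {π : ι → Ω} {x y : ℕ} (hxy : x < y) {a : ι} (hy : y ∈ t.Dif (π a)) :
    t.cnt π y < t.cnt π x := by
  refine sum_lt_sum (fun b _ => card_le_card fun m hm => ?_) ⟨a, mem_univ _, card_lt_card ?_⟩
  · simp only [mem_filter] at hm ⊢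
    exact ⟨hm.1, by omega⟩
  · refine ⟨fun m hm => ?_, fun hcon => ?_⟩
    · simp only [mem_filter] at hm ⊢
      exact ⟨hm.1, by omega⟩
    · have := hcon (mem_filter.2 ⟨hy, hxy⟩)
      simp at this

theorem code_ne {D : ℕ} (hD : ∀ ω, (t.Dif ω).card ≤ D) {π π' : ι → Ω} (h : t.G1 π)
    (h' : t.G1 π') (hM : 4 * Fintype.card ι * t.K ≤ t.M) {l v v' : ℕ} (hv : v ≤ l)
    (hsum : |∑ b, t.pos (π b) - ∑ b, t.pos (π' b)| ≤ t.r l / 4)
    (hag : ∀ b, t.st (π b) (l + 1) = t.st (π' b) (l + 1)) {a : ι} (hev : l ∈ t.Ev (π a))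
    (hne : t.st (π a) l ≠ t.st (π' a) l) : t.code D π v ≠ t.code D π' v' := by
  obtain ⟨h1, b, hba, m, hm, hml⟩ := t.det h h' hM hsum hag hev hne
  intro heq
  have hc : t.cnt π l = t.cnt π' l := by
    refine sum_congr rfl fun c _ => congrArg _ ?_
    ext k
    simp only [mem_filter, mem_Dif, mem_Ev]
    refine and_congr_left fun hk => ?_
    rw [t.nest_le (show l + 1 ≤ k + 1 by omega) (hag c), t.nest_le (show l + 1 ≤ k by omega) (hag c)]
  have hin : (a, t.cnt π l) ∈ t.code D π v := by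
    refine mem_filter.2 ⟨mem_product.2 ⟨mem_univ _, mem_range.2 (Nat.lt_succ_of_le ?_)⟩,
      l, h1, hv, rfl⟩
    refine (sum_le_card_nsmul _ _ D fun c _ => (card_filter_le _ _).trans (hD _)).trans ?_
    simp
  rw [heq] at hin
  obtain ⟨k, hk, -, hk2⟩ := (mem_filter.1 hin).2
  simp only at hk hk2
  have hmc : t.cnt π' m = t.cnt π' l := by
    rcases hml with rfl | ⟨rfl, hnot⟩
    · rfl
    · refine sum_congr rfl fun c _ => congrArg _ ?_
      ext k
      simp only [mem_filter]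
      refine and_congr_right fun hk => ⟨fun hlt => ?_, fun hlt => by omega⟩
      rcases (show m + 1 < k ∨ k = m + 1 by omega) with h2 | rfl
      · exact h2
      · exfalso
        by_cases hcb : c = b
        · exact hnot (hcb ▸ (t.mem_Dif.1 hk).1)
        · have := h'.1 c b hcb _ (t.mem_Dif.1 hk).1 _ (t.Ev_sub_Own (t.mem_Dif.1 hm).1)
          omega
  have hkm : k = m := by
    rcases lt_trichotomy k m with h2 | h2 | h2
    · have := t.cnt_lt h2 hm; omega
    · exact h2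
    · have := t.cnt_lt h2 hk; omega
  subst hkm
  have := h'.1 a b hba.symm _ (t.mem_Dif.1 hk).1 _ (t.Ev_sub_Own (t.mem_Dif.1 hm).1)
  omega

theorem code_agree {D : ℕ} (hD : ∀ ω, (t.Dif ω).card ≤ D) {π π' : ι → Ω} (h : t.G1 π)
    (h' : t.G1 π') (hM : 4 * Fintype.card ι * t.K ≤ t.M) {l v v' : ℕ} (hv : v ≤ l) (hv' : v' ≤ l)
    (hsum : |∑ b, t.pos (π b) - ∑ b, t.pos (π' b)| ≤ t.r l / 4)
    (hc : t.code D π v = t.code D π' v') : ∀ b, t.st (π b) l = t.st (π' b) l := by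
  have key : ∀ d k, l ≤ k → t.n ≤ k + d → ∀ b, t.st (π b) k = t.st (π' b) k := by
    intro d
    induction d with
    | zero => intro k _ hk b; rw [t.top _ k hk, t.top _ k hk]
    | succ d ih =>
      intro k hlk hk a
      have hag := ih (k + 1) (by omega) (by omega)
      have hs : |∑ b, t.pos (π b) - ∑ b, t.pos (π' b)| ≤ t.r k / 4 :=
        hsum.trans (by linarith [t.r_mono hlk])
      by_contra hne
      by_cases hev : k ∈ t.Ev (π a)
      · exact t.code_ne hD h h' hM (hv.trans hlk) hs hag hev hne hc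
      · have hev' : k ∈ t.Ev (π' a) := by
          rw [mem_Ev] at hev ⊢
          rw [not_not] at hev
          rw [← hag a, hev]; exact hne
        exact t.code_ne hD h' h hM (hv'.trans hlk) (by rw [abs_sub_comm]; exact hs)
          (fun b => (hag b).symm) hev' (Ne.symm hne) hc.symm
  exact key t.n l le_rfl (by omega)

/-- Bound for the number of codes. -/
def Rmax (j D : ℕ) : ℕ := 2 ^ (j * (j * D + 1))

theorem Rmax_mono {j j' : ℕ} (h : j ≤ j') (D : ℕ) : Rmax j D ≤ Rmax j' D := by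
  unfold Rmax
  gcongr
  omega

omit [DecidableEq ι] in
theorem code_mem (D : ℕ) (π : ι → Ω) (v : ℕ) :
    t.code D π v ∈ ((univ : Finset ι) ×ˢ range (Fintype.card ι * D + 1)).powerset :=
  mem_powerset.2 (filter_subset _ _)

omit [DecidableEq ι] in
theorem card_codes (D : ℕ) :
    (((univ : Finset ι) ×ˢ range (Fintype.card ι * D + 1)).powerset).card =
      Rmax (Fintype.card ι) D := by
  simp [Rmax]

/-- Few generic tuples have their sum in a short window. -/
theorem count_window {D : ℕ} (hD : ∀ ω, (t.Dif ω).card ≤ D)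
    (hM : 4 * Fintype.card ι * t.K ≤ t.M) {U : Type} (f : U → Ω)
    (hf : ∀ u u', t.st (f u) 0 = t.st (f u') 0 → u = u') (A : Finset (ι → U)) (y τ : ℝ)
    (hτ : 8 * τ ≤ t.r t.l0)
    (hA : ∀ π ∈ A, t.G1 (fun a => f (π a)) ∧ |∑ a, t.pos (f (π a)) - y| ≤ τ) :
    A.card ≤ Rmax (Fintype.card ι) D := by
  rw [← card_codes]
  refine card_le_card_of_injOn (fun π => t.code D (fun a => f (π a)) 0)
    (fun π _ => t.code_mem D _ _) fun π hπ π' hπ' hc => ?_
  obtain ⟨g, s⟩ := hA π hπ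
  obtain ⟨g', s'⟩ := hA π' hπ'
  have := t.code_agree hD g g' hM (l := t.l0) (Nat.zero_le _) (Nat.zero_le _)
    (by rw [abs_le] at *; constructor <;> linarith [s.1, s.2, s'.1, s'.2]) hc
  funext b
  refine hf _ _ ?_
  rw [← t.quiet (Nat.zero_le t.l0) (fun m _ hm hev => by have := (g.2 b m hev).1; omega),
    ← t.quiet (Nat.zero_le t.l0) (fun m _ hm hev => by have := (g'.2 b m hev).1; omega)]
  exact this b

/-- All approximate generic representations of `x` follow boundedly many paths. -/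
theorem exists_paths {D : ℕ} (hD : ∀ ω, (t.Dif ω).card ≤ D)
    (hM : 4 * Fintype.card ι * t.K ≤ t.M) (x : ℝ) :
    ∃ P : Finset (ι → Ω), P.card ≤ Rmax (Fintype.card ι) D ∧
      ∀ (π : ι → Ω) (l : ℕ), t.G1 π → |∑ b, t.pos (π b) - x| ≤ t.r l / 8 →
        ∃ π' ∈ P, ∀ b, t.st (π b) l = t.st (π' b) l := by
  classical
  set W : Finset (ι × ℕ) → ℕ → Prop := fun κ l => ∃ π : ι → Ω, t.G1 π ∧
    |∑ b, t.pos (π b) - x| ≤ t.r l / 8 ∧ t.code D π l = κ with hW
  set C := (((univ : Finset ι) ×ˢ range (Fintype.card ι * D + 1)).powerset).filter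
    (fun κ => ∃ l, W κ l) with hC
  have hch : ∀ κ : C, ∃ π : ι → Ω, ∃ l, t.G1 π ∧ |∑ b, t.pos (π b) - x| ≤ t.r l / 8 ∧
      t.code D π l = κ ∧ ∀ l', W κ l' → l ≤ l' := by
    intro κ
    have hκ := (mem_filter.1 κ.2).2
    obtain ⟨π, h1, h2, h3⟩ := Nat.find_spec hκ
    exact ⟨π, Nat.find hκ, h1, h2, h3, fun l' hl' => Nat.find_min' hκ hl'⟩
  choose F hF using hch
  refine ⟨univ.image F, ?_, fun π l hπ hs => ?_⟩
  · refine card_image_le.trans ?_
    rw [card_univ, Fintype.card_coe, ← card_codes]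
    exact card_filter_le _ _
  · have hw : W (t.code D π l) l := ⟨π, hπ, hs, rfl⟩
    set κ : C := ⟨t.code D π l, mem_filter.2 ⟨t.code_mem D π l, l, hw⟩⟩ with hκ
    obtain ⟨l', h1, h2, h3, h4⟩ := hF κ
    have hl := h4 l hw
    refine ⟨F κ, mem_image_of_mem _ (mem_univ _), ?_⟩
    have := t.r_mono hl
    exact t.code_agree hD hπ h1 hM le_rfl hl
      (by rw [abs_le] at *; constructor <;> linarith [hs.1, hs.2, h2.1, h2.2]) h3.symm

end Tr

end Pool.Agent.Lib.MP_f2f914_nt.DC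
end

-- part Pool.Agent.Lib.MP_f2f914_nt.DCCrit
section

/-!
Critical levels, covering of diffuse events and context independence.
-/

namespace Pool.Agent.Lib.MP_f2f914_nt.DC

open Finset

namespace Tr

variable {Ω σ : Type} (t : Tr Ω σ)

/-- `y` has roughly the size of level `l`. -/
def Lv (y : ℝ) (l : ℕ) : Prop := t.r l / 2 ≤ |y| ∧ |y| ≤ t.r (l + 3)

open Classical in
theorem card_Lv (y : ℝ) : ((range t.n).filter (t.Lv y)).card ≤ 4 := by
  rcases ((range t.n).filter (t.Lv y)).eq_empty_or_nonempty with h | h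
  · simp [h]
  · set l := ((range t.n).filter (t.Lv y)).min' h with hl
    have hl1 := (mem_filter.1 (min'_mem _ h)).2
    rw [← hl] at hl1
    have : (range t.n).filter (t.Lv y) ⊆ Icc l (l + 3) := by
      intro m hm
      refine mem_Icc.2 ⟨min'_le _ _ hm, ?_⟩
      by_contra hcon
      have h1 := (mem_filter.1 hm).2.1
      have h2 := t.r_mono (show l + 3 + 1 ≤ m by omega)
      rw [r_succ] at h2
      have h3 := t.r_pos (l + 3)
      have h4 := t.hM
      nlinarith [hl1.2]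
    have h2 := card_le_card this
    rw [Nat.card_Icc] at h2
    omega

variable {ι : Type} [Fintype ι] [DecidableEq ι]

/-- Sum of the centres at level `l`. -/
def H (π : ι → Ω) (l : ℕ) : ℝ := ∑ a, t.cp (t.st (π a) l)

/-- All values of `H`. -/
noncomputable def HV (π : ι → Ω) : Finset ℝ :=
  (insert t.n (univ.biUnion (fun a => t.Ev (π a)))).image (t.H π)

omit [DecidableEq ι] in
theorem H_mem (π : ι → Ω) (l : ℕ) : t.H π l ∈ t.HV π := by
  classical
  have key : ∀ d k, t.n ≤ k + d → t.H π k ∈ t.HV π := by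
    intro d
    induction d with
    | zero =>
      intro k hk
      refine mem_image.2 ⟨t.n, mem_insert_self _ _, sum_congr rfl fun a _ => ?_⟩
      rw [t.top _ k hk, t.top _ _ le_rfl]
    | succ d ih =>
      intro k hk
      by_cases h : ∃ a, k ∈ t.Ev (π a)
      · obtain ⟨a, ha⟩ := h
        exact mem_image.2 ⟨k, mem_insert_of_mem (mem_biUnion.2 ⟨a, mem_univ _, ha⟩), rfl⟩
      · push Not at h
        have : t.H π k = t.H π (k + 1) := sum_congr rfl fun a _ => by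
          have := h a
          rw [mem_Ev, not_not] at this
          rw [this]
        rw [this]
        exact ih _ (by omega)
  exact key t.n l (by omega)

omit [DecidableEq ι] in
theorem card_HV {E : ℕ} (hE : ∀ ω, (t.Ev ω).card ≤ E) (π : ι → Ω) :
    (t.HV π).card ≤ Fintype.card ι * E + 1 := by
  refine card_image_le.trans ((card_insert_le _ _).trans (Nat.succ_le_succ ?_))
  refine card_biUnion_le.trans ((sum_le_card_nsmul _ _ E fun a _ => hE _).trans ?_)
  simp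

omit [DecidableEq ι] in
theorem H_near (π : ι → Ω) (l : ℕ) :
    |t.H π l - ∑ a, t.pos (π a)| ≤ Fintype.card ι * (t.K * t.r l) := by
  unfold H
  rw [← sum_sub_distrib]
  refine (abs_sum_le_sum_abs _ _).trans ?_
  refine (sum_le_card_nsmul _ _ _ fun b _ => t.near' _ _).trans ?_
  simp

/-- Some predictable level of `π` (seen from level `l + 2`) is next to `l`. -/
def NearPr (π : ι → Ω) (l : ℕ) : Prop :=
  ∃ b, ∃ m ∈ t.pr1 (t.st (π b) (l + 2)), m ≤ l + 1 ∧ l ≤ m + 1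

open Classical in
/-- Critical levels. -/
noncomputable def Crit (π : ι → Ω) : Finset ℕ :=
  (range t.n).filter (fun l => ∃ π' : ι → Ω, t.G1 π' ∧
    |∑ b, t.pos (π' b) - ∑ b, t.pos (π b)| ≤ t.r (l + 2) / 8 ∧
      ((∃ v, t.Lv (t.H π v - t.H π' (l + 2)) l) ∨ t.NearPr π' l))

/-- Bound for the number of critical levels. -/
def Bc (j D E O : ℕ) : ℕ := Rmax j D * ((j * E + 1) ^ 2 * 4 + j * O * 3)

theorem card_Crit {D E O j : ℕ} (hD : ∀ ω, (t.Dif ω).card ≤ D) (hE : ∀ ω, (t.Ev ω).card ≤ E)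
    (hO : ∀ ω, (t.Own ω).card ≤ O) (hj : Fintype.card ι ≤ j) (hM : 4 * j * t.K ≤ t.M)
    (π : ι → Ω) : (t.Crit π).card ≤ Bc j D E O := by
  classical
  have hM' : 4 * Fintype.card ι * t.K ≤ t.M := by
    refine le_trans ?_ hM
    have := t.hK
    gcongr
  obtain ⟨P, hP, hP2⟩ := t.exists_paths hD hM' (∑ b, t.pos (π b))
  have hsub : t.Crit π ⊆ P.biUnion (fun π' =>
      ((t.HV π ×ˢ t.HV π').biUnion (fun y => (range t.n).filter (t.Lv (y.1 - y.2)))) ∪
      (univ.biUnion (fun b => (t.Own (π' b)).biUnion (fun m => Icc (m - 1) (m + 1))))) := by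
    intro l hl
    obtain ⟨hl1, π', h1, h2, h3⟩ := mem_filter.1 hl
    obtain ⟨π'', hπ, hag⟩ := hP2 π' (l + 2) h1 h2
    refine mem_biUnion.2 ⟨π'', hπ, ?_⟩
    rcases h3 with ⟨v, hv⟩ | ⟨b, m, hm, hm1, hm2⟩
    · refine mem_union_left _ (mem_biUnion.2 ⟨(t.H π v, t.H π'' (l + 2)),
        mem_product.2 ⟨t.H_mem _ _, t.H_mem _ _⟩, mem_filter.2 ⟨hl1, ?_⟩⟩)
      have : t.H π'' (l + 2) = t.H π' (l + 2) := sum_congr rfl fun b _ => by rw [hag b]
      simpa [this] using hv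
    · refine mem_union_right _ (mem_biUnion.2 ⟨b, mem_univ _, mem_biUnion.2 ⟨m, ?_,
        mem_Icc.2 ⟨by omega, by omega⟩⟩⟩)
      rw [hag b] at hm
      exact t.pr1_sub_Own hm
  refine (card_le_card hsub).trans (card_biUnion_le.trans ?_)
  refine (sum_le_card_nsmul _ _ ((j * E + 1) ^ 2 * 4 + j * O * 3) fun π' _ => ?_).trans ?_
  · refine (card_union_le _ _).trans (add_le_add ?_ ?_)
    · refine card_biUnion_le.trans ((sum_le_card_nsmul _ _ 4 fun y _ => t.card_Lv _).trans ?_)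
      rw [card_product, smul_eq_mul, sq]
      have h1 := t.card_HV hE π
      have h2 := t.card_HV hE π'
      have h3 : Fintype.card ι * E + 1 ≤ j * E + 1 := by gcongr
      gcongr <;> omega
    · refine card_biUnion_le.trans ((sum_le_card_nsmul _ _ (O * 3) fun b _ => ?_).trans ?_)
      · refine card_biUnion_le.trans ((sum_le_card_nsmul _ _ 3 fun m _ => ?_).trans ?_)
        · simp only [Nat.card_Icc]; omega
        · rw [smul_eq_mul]; gcongr; exact hO _
      · rw [card_univ, smul_eq_mul, mul_assoc]; gcongr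
  · rw [smul_eq_mul, Bc]
    gcongr
    exact hP.trans (Rmax_mono hj D)

/-- Levels that are bad for a partial sum of centres `y`. -/
def bad (ι : Type) [Fintype ι] (y : ℝ) (l : ℕ) : Prop :=
  ∃ π' : ι → Ω, t.G1 π' ∧
    |∑ b, t.pos (π' b) - y| ≤ (Fintype.card ι * t.K + 1) * t.r (l + 1) ∧
      (t.Lv (y - t.H π' (l + 2)) l ∨ t.NearPr π' l)

omit [DecidableEq ι] in
theorem bad_mem_Crit (hM : 8 * (2 * Fintype.card ι * t.K + 1) ≤ t.M) {π : ι → Ω} {l : ℕ}
    (hl : l < t.n) (h : t.bad ι (t.H π (l + 1)) l) : l ∈ t.Crit π := by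
  classical
  obtain ⟨π', h1, h2, h3⟩ := h
  refine mem_filter.2 ⟨mem_range.2 hl, π', h1, ?_, h3.imp (fun h => ⟨_, h⟩) id⟩
  have h4 := t.H_near π (l + 1)
  have h5 : 8 * (2 * Fintype.card ι * t.K + 1) * t.r (l + 1) ≤ t.r (l + 2) := by
    rw [t.r_succ (l + 1)]
    have := t.r_pos (l + 1)
    gcongr
  rw [abs_le] at *
  constructor <;> nlinarith [h2.1, h2.2, h4.1, h4.2]

/-- A diffuse event at a good level is matched by a diffuse event of any other representation. -/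
theorem cover (hM : 8 * (2 * Fintype.card ι * t.K + 1) ≤ t.M) {π π' : ι → Ω} (h : t.G1 π)
    (h' : t.G1 π') (hsum : |∑ b, t.pos (π b) - ∑ b, t.pos (π' b)| ≤ t.r t.l0 / 4) {a : ι}
    {l : ℕ} (hev : l ∈ t.Ev (π a)) (hbad : ¬ t.bad ι (t.H π (l + 1)) l) :
    ∃ b, ∃ m ∈ t.Dif (π' b), m ≤ l + 1 ∧ l ≤ m + 1 := by
  have hl0 := (h.2 a l hev).1
  obtain ⟨k, rfl⟩ : ∃ k, l = k + 1 := ⟨l - 1, by have := t.hl0; omega⟩
  have hK := t.hK
  have hk := t.r_pos k
  have hk1 := t.r_pos (k + 1)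
  have hk2 := t.r_pos (k + 2)
  have hk3 := t.r_pos (k + 3)
  have hj : (0 : ℝ) ≤ Fintype.card ι := Nat.cast_nonneg _
  have hs1 : 8 * (2 * Fintype.card ι * t.K + 1) * t.r k ≤ t.r (k + 1) := by
    rw [t.r_succ k]; gcongr
  have hs3 : 8 * (2 * Fintype.card ι * t.K + 1) * t.r (k + 3) ≤ t.r (k + 1 + 3) := by
    rw [show k + 1 + 3 = k + 3 + 1 by ring, t.r_succ (k + 3)]; gcongr
  have hm01 := t.r_mono hl0
  have hm12 := t.r_mono (show k + 1 ≤ k + 2 by omega)
  have hm23 := t.r_mono (show k + 2 ≤ k + 3 by omega)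
  have hn2 := t.H_near π (k + 2)
  have hwit : |∑ b, t.pos (π' b) - t.H π (k + 1 + 1)| ≤
      (Fintype.card ι * t.K + 1) * t.r (k + 1 + 1) := by
    change |_ - t.H π (k + 2)| ≤ _ * t.r (k + 2)
    rw [abs_le] at *
    constructor <;> nlinarith [hn2.1, hn2.2, hsum.1, hsum.2]
  unfold bad at hbad
  push Not at hbad
  obtain ⟨hLv, hNP⟩ := hbad π' h' hwit
  by_cases hq : ∃ b m, m ∈ t.Ev (π' b) ∧ k ≤ m ∧ m ≤ k + 2
  · obtain ⟨b, m0, hm0⟩ := hq
    classical
    set A := (t.Ev (π' b)).filter (fun m => k ≤ m ∧ m ≤ k + 2) with hA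
    have hAne : A.Nonempty := ⟨m0, mem_filter.2 hm0⟩
    have hmA := mem_filter.1 (A.max'_mem hAne)
    refine ⟨b, A.max' hAne, t.mem_Dif.2 ⟨hmA.1, fun hp => hNP ⟨b, A.max' hAne, ?_,
      by omega, by omega⟩⟩, by omega, by omega⟩
    rw [t.quiet (show A.max' hAne + 1 ≤ k + 1 + 2 by omega) fun m h1 h2 hm => ?_]
    · exact hp
    · have := A.le_max' m (mem_filter.2 ⟨hm, by omega, by omega⟩)
      omega
  · exfalso
    push Not at hq
    have e1 : t.H π' (k + 1 + 2) = t.H π' k := sum_congr rfl fun b _ => by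
      rw [t.quiet (show k ≤ k + 1 + 2 by omega) fun m h1 h2 hm => ?_]
      have := hq b m hm h1
      omega
    have hn1 := t.H_near π' k
    have hn3 := t.H_near π' (k + 3)
    have e2 : t.H π (k + 2) - ∑ b, t.pos (π b) = (t.cp (t.st (π a) (k + 2)) - t.pos (π a)) +
        ∑ b ∈ univ.erase a, (t.cp (t.st (π b) k) - t.pos (π b)) := by
      unfold H
      rw [← sum_sub_distrib, ← add_sum_erase _ _ (mem_univ a)]
      congr 1
      refine sum_congr rfl fun b hb => ?_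
      rw [t.quiet (show k ≤ k + 2 by omega) fun m h1 h2 hm => ?_]
      have := h.1 a b (ne_of_mem_erase hb).symm _ hev m (t.Ev_sub_Own hm)
      omega
    have e3 : |∑ b ∈ univ.erase a, (t.cp (t.st (π b) k) - t.pos (π b))| ≤
        Fintype.card ι * (t.K * t.r k) := by
      refine (abs_sum_le_sum_abs _ _).trans ?_
      refine (sum_le_card_nsmul _ _ _ fun b _ => t.near' _ _).trans ?_
      rw [nsmul_eq_mul]
      gcongr
      exact card_le_univ _
    have e4 : t.r (k + 1) < |t.cp (t.st (π a) (k + 2)) - t.pos (π a)| :=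
      t.sepE _ _ (t.mem_Ev.1 hev)
    refine hLv ⟨?_, ?_⟩
    · rw [e1]
      change _ ≤ |t.H π (k + 2) - _|
      by_contra hcon
      push Not at hcon
      have : |t.cp (t.st (π a) (k + 2)) - t.pos (π a)| ≤ t.r (k + 1) := by
        rw [abs_lt] at hcon
        rw [abs_le] at *
        constructor <;> nlinarith [hcon.1, hcon.2, hn1.1, hn1.2, e3.1, e3.2, hsum.1, hsum.2]
      linarith
    · change |t.H π (k + 2) - t.H π' (k + 3)| ≤ _
      have h1 : Fintype.card ι * (t.K * t.r (k + 2)) ≤ Fintype.card ι * (t.K * t.r (k + 3)) := by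
        gcongr
      rw [abs_le] at *
      constructor <;> nlinarith [hn2.1, hn2.2, hn3.1, hn3.2, hsum.1, hsum.2]

/-- The tuple without slot `a`. -/
def rest (π : ι → Ω) (a : ι) : {b // b ≠ a} → Ω := fun b => π b.1

theorem sum_rest (π : ι → Ω) (a : ι) (F : Ω → ℝ) :
    ∑ b, F (π b) = F (π a) + ∑ b, F (rest π a b) := by
  rw [← add_sum_erase _ _ (mem_univ a)]
  congr 1
  exact sum_subtype _ (by simp) (fun b => F (π b))

/-- If two representations differ in slot `a` while all other slots are quiet, the level is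
critical for the remaining slots. -/
theorem defect (hM : 8 * (2 * Fintype.card ι * t.K + 1) ≤ t.M) {π π' : ι → Ω} (h : t.G1 π)
    (h' : t.G1 π') (hsum : |∑ b, t.pos (π b) - ∑ b, t.pos (π' b)| ≤ t.r t.l0 / 4) {a : ι}
    {l : ℕ} (hev : l ∈ t.Ev (π a)) (hne : t.st (π a) l ≠ t.st (π' a) l)
    (hag : t.st (π a) (l + 1) = t.st (π' a) (l + 1))
    (hq : ∀ b, b ≠ a → ∀ m ∈ t.Ev (π' b), m + 1 < l ∨ l + 1 < m) : l ∈ t.Crit (rest π a) := by
  classical
  have hl0 := (h.2 a l hev).1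
  obtain ⟨k, rfl⟩ : ∃ k, l = k + 1 := ⟨l - 1, by have := t.hl0; omega⟩
  have hK := t.hK
  have hk := t.r_pos k
  have hk1 := t.r_pos (k + 1)
  have hk2 := t.r_pos (k + 2)
  have hk3 := t.r_pos (k + 3)
  have hj1 : (1 : ℝ) ≤ Fintype.card ι := by
    exact_mod_cast Fintype.card_pos_iff.2 ⟨a⟩
  have hc : (Fintype.card {b // b ≠ a} : ℝ) ≤ Fintype.card ι := by
    exact_mod_cast Fintype.card_subtype_le _
  have hs1 : 8 * (2 * Fintype.card ι * t.K + 1) * t.r k ≤ t.r (k + 1) := by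
    rw [t.r_succ k]; gcongr
  have hs2 : 8 * (2 * Fintype.card ι * t.K + 1) * t.r (k + 2) ≤ t.r (k + 3) := by
    rw [t.r_succ (k + 2)]; gcongr
  have hm01 := t.r_mono hl0
  have hm12 := t.r_mono (show k + 1 ≤ k + 2 by omega)
  have hm34 := t.r_mono (show k + 3 ≤ k + 1 + 3 by omega)
  have hmk := t.r_mono (show k ≤ k + 2 by omega)
  have d1 : t.r (k + 1) < |t.pos (π a) - t.pos (π' a)| := t.sep _ _ _ hne
  have d2 : |t.pos (π a) - t.pos (π' a)| ≤ 2 * (t.K * t.r (k + 2)) := t.dist_le hag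
  rw [sum_rest π a t.pos, sum_rest π' a t.pos] at hsum
  have hKr : t.K * t.r (k + 2) ≤ Fintype.card ι * t.K * t.r (k + 2) := by
    rw [mul_assoc]; exact le_mul_of_one_le_left (by positivity) hj1
  have e1 : t.H (rest π' a) (k + 1 + 2) = t.H (rest π' a) k := sum_congr rfl fun b _ => by
    rw [t.quiet (show k ≤ k + 1 + 2 by omega) fun m h1 h2 hm => ?_]
    have := hq b.1 b.2 m hm
    omega
  have hn1 := t.H_near (rest π a) k
  have hn2 := t.H_near (rest π' a) k
  have hb : (Fintype.card {b // b ≠ a} : ℝ) * (t.K * t.r k) ≤ Fintype.card ι * (t.K * t.r k) := by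
    gcongr
  have hb2 : Fintype.card ι * (t.K * t.r k) ≤ Fintype.card ι * (t.K * t.r (k + 2)) := by
    gcongr
  refine mem_filter.2 ⟨mem_range.2 (t.Ev_lt hev), rest π' a, G1.comp t h' Subtype.val_injective,
    ?_, Or.inl ⟨k, ?_, ?_⟩⟩
  · change _ ≤ t.r (k + 3) / 8
    rw [abs_le] at *
    constructor <;> nlinarith [hsum.1, hsum.2, d2.1, d2.2]
  · rw [e1]
    by_contra hcon
    push Not at hcon
    have : |t.pos (π a) - t.pos (π' a)| ≤ t.r (k + 1) := by
      rw [abs_lt] at hcon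
      rw [abs_le] at *
      constructor <;> nlinarith [hcon.1, hcon.2, hn1.1, hn1.2, hn2.1, hn2.2, hsum.1, hsum.2]
    linarith
  · rw [e1]
    have hX : Fintype.card ι * (t.K * t.r (k + 2)) = Fintype.card ι * t.K * t.r (k + 2) := by ring
    have hs2' : 16 * (Fintype.card ι * t.K * t.r (k + 2)) + 8 * t.r (k + 2) ≤ t.r (k + 3) := by
      linarith
    rw [abs_le] at *
    constructor <;> linarith [hn1.1, hn1.2, hn2.1, hn2.2, hsum.1, hsum.2, d2.1, d2.2]

end Tr

end Pool.Agent.Lib.MP_f2f914_nt.DC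
end

-- part Pool.Agent.Lib.MP_f2f914_nt.DCCount
section

/-!
Counting non-generic tuples.
-/

namespace Pool.Agent.Lib.MP_f2f914_nt.DC

open Finset

/-- Number of elements satisfying a predicate, as a real number. -/
noncomputable def cn {X : Type} [Fintype X] (Q : X → Prop) : ℝ :=
  ((@Finset.filter X Q (Classical.decPred Q) univ).card : ℝ)

theorem cn_eq {X : Type} [Fintype X] (Q : X → Prop) [DecidablePred Q] :
    cn Q = ((univ.filter Q).card : ℝ) := by
  unfold cn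
  congr

theorem cn_nonneg {X : Type} [Fintype X] (Q : X → Prop) : 0 ≤ cn Q := Nat.cast_nonneg _

theorem cn_true {X : Type} [Fintype X] : cn (fun _ : X => True) = Fintype.card X := by
  simp [cn_eq]

theorem cn_mono {X : Type} [Fintype X] {Q Q' : X → Prop} (h : ∀ x, Q x → Q' x) :
    cn Q ≤ cn Q' := by
  classical
  rw [cn_eq, cn_eq]
  exact Nat.cast_le.2 (card_le_card fun x hx => by
    simp only [mem_filter, mem_univ, true_and] at hx ⊢; exact h x hx)

theorem cn_or {X : Type} [Fintype X] (Q Q' : X → Prop) :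
    cn (fun x => Q x ∨ Q' x) ≤ cn Q + cn Q' := by
  classical
  rw [cn_eq, cn_eq, cn_eq, filter_or]
  exact_mod_cast card_union_le _ _

theorem cn_sum {X : Type} [Fintype X] (Q : X → Prop) [DecidablePred Q] :
    cn Q = ∑ x, if Q x then (1 : ℝ) else 0 := by
  rw [cn_eq, card_filter]; push_cast; rfl

theorem cn_inj {X Y : Type} [Fintype X] [Fintype Y] (f : X → Y) (hf : Function.Injective f)
    {Q : X → Prop} {Q' : Y → Prop} (h : ∀ x, Q x → Q' (f x)) : cn Q ≤ cn Q' := by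
  classical
  rw [cn_eq, cn_eq]
  refine Nat.cast_le.2 (card_le_card_of_injOn f (fun x hx => ?_) hf.injOn)
  simp only [coe_filter, mem_univ, true_and, Set.mem_ofPred_eq] at hx ⊢
  exact h x hx

theorem exists_of_cn_lt {X : Type} [Fintype X] (Q : X → Prop) (h : cn Q < Fintype.card X) :
    ∃ x, ¬ Q x := by
  by_contra hcon
  push Not at hcon
  have := cn_mono (Q := fun _ : X => True) (Q' := Q) fun x _ => hcon x
  rw [cn_true] at this
  linarith

theorem sum_update {ι Ω : Type} [Fintype ι] [DecidableEq ι] [Fintype Ω] (a : ι)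
    (Q : (ι → Ω) → Prop) :
    ∑ π : ι → Ω, cn (fun ω => Q (Function.update π a ω)) = Fintype.card Ω * cn Q := by
  classical
  have hinv : Function.Involutive
      (fun x : (ι → Ω) × Ω => (Function.update x.1 a x.2, x.1 a)) := by
    rintro ⟨π, ω⟩
    simp
  have h1 := Equiv.sum_comp hinv.toPerm (fun x : (ι → Ω) × Ω => if Q x.1 then (1 : ℝ) else 0)
  simp only [Function.Involutive.coe_toPerm] at h1
  rw [Fintype.sum_prod_type, Fintype.sum_prod_type_right] at h1
  simp only [cn_sum]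
  refine Eq.trans (by congr!) (h1.trans ?_)
  simp

theorem count_le {ι Ω : Type} [Fintype ι] [DecidableEq ι] [Fintype Ω] (a : ι)
    (Q Q' : (ι → Ω) → Prop) (c : ℝ)
    (h : ∀ π : ι → Ω, cn (fun ω => Q (Function.update π a ω)) ≤
      c * cn (fun ω => Q' (Function.update π a ω))) : cn Q ≤ c * cn Q' := by
  rcases isEmpty_or_nonempty Ω with hΩ | hΩ
  · have : IsEmpty (ι → Ω) := ⟨fun π => hΩ.false (π a)⟩
    simp [cn, univ_eq_empty]
  · have h1 := sum_le_sum (s := univ) fun π _ => h π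
    rw [← mul_sum, sum_update, sum_update] at h1
    have hp : (0 : ℝ) < Fintype.card Ω := by exact_mod_cast Fintype.card_pos
    refine le_of_mul_le_mul_left ?_ hp
    linarith

theorem count_le' {ι Ω : Type} [Fintype ι] [DecidableEq ι] [Fintype Ω] (a : ι)
    (Q : (ι → Ω) → Prop) (c : ℝ)
    (h : ∀ π : ι → Ω, cn (fun ω => Q (Function.update π a ω)) ≤ c * Fintype.card Ω) :
    cn Q ≤ c * (Fintype.card Ω : ℝ) ^ Fintype.card ι := by
  have := count_le a Q (fun _ => True) c (by simpa [cn_true] using h)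
  simpa [cn_true] using this

theorem fiber_le {Ω σ : Type} [Fintype Ω] (f : Ω → σ) (P : Ω → Prop) (B : σ → Prop) (c : ℝ)
    (h : ∀ y, cn (fun ω => f ω = y ∧ P ω) ≤ c * cn (fun ω => f ω = y)) :
    cn (fun ω => P ω ∧ B (f ω)) ≤ c * cn (fun ω => B (f ω)) := by
  classical
  set Y := (univ.image f).filter B with hY
  rw [cn_eq, cn_eq, card_eq_sum_card_fiberwise (f := f) (t := Y)
      (s := univ.filter (fun ω => P ω ∧ B (f ω))) (fun ω hω => by
        simp only [coe_filter, mem_univ, true_and, Set.mem_ofPred_eq, hY, mem_image] at hω ⊢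
        exact ⟨⟨ω, rfl⟩, hω.2⟩),
    card_eq_sum_card_fiberwise (f := f) (t := Y) (s := univ.filter (fun ω => B (f ω)))
      (fun ω hω => by
        simp only [coe_filter, mem_univ, true_and, Set.mem_ofPred_eq, hY, mem_image] at hω ⊢
        exact ⟨⟨ω, rfl⟩, hω⟩)]
  push_cast
  rw [mul_sum]
  refine sum_le_sum fun y hy => ?_
  have hB := (mem_filter.1 hy).2
  have h1 := h y
  rw [cn_eq, cn_eq] at h1
  have e1 : (univ.filter (fun ω => P ω ∧ B (f ω))).filter (fun a => f a = y) =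
      univ.filter (fun ω => f ω = y ∧ P ω) := by
    ext ω
    simp only [mem_filter, mem_univ, true_and]
    constructor
    · rintro ⟨⟨h1, -⟩, h2⟩; exact ⟨h2, h1⟩
    · rintro ⟨h1, h2⟩; exact ⟨⟨h2, h1 ▸ hB⟩, h1⟩
  have e2 : (univ.filter (fun ω => B (f ω))).filter (fun a => f a = y) =
      univ.filter (fun ω => f ω = y) := by
    ext ω
    simp only [mem_filter, mem_univ, true_and]
    exact ⟨fun h => h.2, fun h => ⟨h ▸ hB, h⟩⟩
  rw [e1, e2]
  exact h1

theorem cn_exists_le_sum {X Y : Type} [Fintype X] (s : Finset Y) (Q : Y → X → Prop) :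
    cn (fun x => ∃ y ∈ s, Q y x) ≤ ∑ y ∈ s, cn (Q y) := by
  classical
  have : univ.filter (fun x => ∃ y ∈ s, Q y x) = s.biUnion (fun y => univ.filter (Q y)) := by
    ext x; simp
  rw [cn_eq, this]
  refine (Nat.cast_le.2 card_biUnion_le).trans ?_
  push_cast
  exact le_of_eq (sum_congr rfl fun y _ => (cn_eq _).symm)

theorem cn_exists_le {X Y : Type} [Fintype X] (s : Finset Y) (Q : Y → X → Prop) (c : ℝ)
    (h : ∀ y ∈ s, cn (Q y) ≤ c) : cn (fun x => ∃ y ∈ s, Q y x) ≤ s.card * c := by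
  refine (cn_exists_le_sum s Q).trans ((sum_le_card_nsmul _ _ c h).trans ?_)
  rw [nsmul_eq_mul]

namespace Tr

variable {Ω σ : Type} (t : Tr Ω σ) {ι : Type} [Fintype ι] [DecidableEq ι]

/-- Levels that slot `b` has to avoid. -/
noncomputable def Av (π : ι → Ω) (b : ι) : Finset ℕ :=
  (univ.erase b).biUnion (fun a => (t.Ev (π a)).biUnion (fun l => Icc (l - 3) (l + 3))) ∪
    range t.l0 ∪ Icc (t.n - 2) t.n ∪ t.Crit (rest π b)

theorem Av_update (π : ι → Ω) (b : ι) (ω : Ω) : t.Av (Function.update π b ω) b = t.Av π b := by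
  have h1 : rest (Function.update π b ω) b = rest π b := by
    funext c
    exact Function.update_of_ne c.2 _ _
  unfold Av
  rw [h1, biUnion_congr rfl fun a ha => by rw [Function.update_of_ne (ne_of_mem_erase ha)]]

theorem card_Av {D E O : ℕ} (hD : ∀ ω, (t.Dif ω).card ≤ D) (hE : ∀ ω, (t.Ev ω).card ≤ E)
    (hO : ∀ ω, (t.Own ω).card ≤ O) (hM : 4 * Fintype.card ι * t.K ≤ t.M) (π : ι → Ω) (b : ι) :
    (t.Av π b).card ≤ Fintype.card ι * (E * 7) + t.l0 + 3 + Bc (Fintype.card ι) D E O := by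
  refine (card_union_le _ _).trans (add_le_add ((card_union_le _ _).trans (add_le_add
    ((card_union_le _ _).trans (add_le_add ?_ (by simp))) ?_)) ?_)
  · refine card_biUnion_le.trans ((sum_le_card_nsmul _ _ (E * 7) fun a _ => ?_).trans ?_)
    · refine card_biUnion_le.trans ((sum_le_card_nsmul _ _ 7 fun m _ => ?_).trans ?_)
      · simp only [Nat.card_Icc]; omega
      · rw [smul_eq_mul]; gcongr; exact hE _
    · rw [smul_eq_mul]; gcongr; exact card_le_univ _
  · simp only [Nat.card_Icc]; omega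
  · exact t.card_Crit hD hE hO (Fintype.card_subtype_le _) hM _

/-- Full genericity. -/
def Gen (π : ι → Ω) : Prop :=
  t.G1 π ∧ (∀ a, ∀ l ∈ t.Dif (π a), l ∉ t.pr2 (t.st (π a) (l + 1))) ∧
    (∀ a, ∀ l ∈ t.Ev (π a), l ∉ t.pr2 (t.st (π a) (l + 1)) → ¬ t.bad ι (t.H π (l + 1)) l) ∧
    ∀ a, ∀ l ∈ t.Ev (π a), l ∉ t.Crit (rest π a)

theorem gen_of {π : ι → Ω} (h1 : ¬ ∃ b ∈ (univ : Finset ι), ∃ s ∈ t.Av π b, s ∈ t.Own (π b))
    (h2 : ¬ ∃ a ∈ (univ : Finset ι), ∃ l ∈ t.Dif (π a), l ∈ t.pr2 (t.st (π a) (l + 1)))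
    (h3 : ¬ ∃ a ∈ (univ : Finset ι), ∃ l ∈ range t.n, t.l0 ≤ l ∧
      (l ∈ t.Ev (π a) ∧ l ∉ t.pr2 (t.st (π a) (l + 1))) ∧ t.bad ι (t.H π (l + 1)) l) :
    t.Gen π := by
  push Not at h1 h2 h3
  have hG : t.G1 π := by
    refine ⟨fun a b hab l hl m hm => ?_, fun a l hl => ⟨?_, ?_⟩⟩
    · by_contra hcon
      refine h1 b (mem_univ _) m ?_ hm
      refine mem_union_left _ (mem_union_left _ (mem_union_left _ (mem_biUnion.2
        ⟨a, mem_erase.2 ⟨hab, mem_univ _⟩, mem_biUnion.2 ⟨l, hl, mem_Icc.2 ?_⟩⟩)))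
      omega
    · by_contra hcon
      refine h1 a (mem_univ _) l ?_ (t.Ev_sub_Own hl)
      exact mem_union_left _ (mem_union_left _ (mem_union_right _ (mem_range.2 (by omega))))
    · by_contra hcon
      refine h1 a (mem_univ _) l ?_ (t.Ev_sub_Own hl)
      have := t.Ev_lt hl
      exact mem_union_left _ (mem_union_right _ (mem_Icc.2 (by omega)))
  refine ⟨hG, fun a l hl => h2 a (mem_univ _) l hl, fun a l hl hp => h3 a (mem_univ _) l
    (mem_range.2 (t.Ev_lt hl)) (hG.2 a l hl).1 ⟨hl, hp⟩, fun a l hl hc => ?_⟩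
  exact h1 a (mem_univ _) l (mem_union_right _ hc) (t.Ev_sub_Own hl)

variable [Fintype Ω]

theorem count_hit {D E O : ℕ} (hD : ∀ ω, (t.Dif ω).card ≤ D) (hE : ∀ ω, (t.Ev ω).card ≤ E)
    (hO : ∀ ω, (t.Own ω).card ≤ O) (hM : 4 * Fintype.card ι * t.K ≤ t.M) {ε : ℝ} (hε : 0 ≤ ε)
    (hs : ∀ s, cn (fun ω => s ∈ t.Own ω) ≤ ε * Fintype.card Ω) :
    cn (fun π : ι → Ω => ∃ b ∈ (univ : Finset ι), ∃ s ∈ t.Av π b, s ∈ t.Own (π b)) ≤
      Fintype.card ι * (((Fintype.card ι * (E * 7) + t.l0 + 3 + Bc (Fintype.card ι) D E O : ℕ) * ε)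
        * (Fintype.card Ω : ℝ) ^ Fintype.card ι) := by
  refine cn_exists_le univ _ _ fun b _ => count_le' b _ _ fun π => ?_
  simp only [Av_update, Function.update_self]
  refine (cn_exists_le _ _ _ fun s _ => hs s).trans ?_
  rw [mul_assoc]
  gcongr
  exact t.card_Av hD hE hO hM π b

theorem count_bad {D E O : ℕ} (hD : ∀ ω, (t.Dif ω).card ≤ D) (hE : ∀ ω, (t.Ev ω).card ≤ E)
    (hO : ∀ ω, (t.Own ω).card ≤ O) (hM : 8 * (2 * Fintype.card ι * t.K + 1) ≤ t.M) {ϑ : ℝ}
    (hϑ : 0 ≤ ϑ)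
    (hd : ∀ l, t.l0 ≤ l → ∀ y, cn (fun ω => t.st ω (l + 1) = y ∧
      (l ∈ t.Ev ω ∧ l ∉ t.pr2 (t.st ω (l + 1)))) ≤ ϑ * cn (fun ω => t.st ω (l + 1) = y)) :
    cn (fun π : ι → Ω => ∃ a ∈ (univ : Finset ι), ∃ l ∈ range t.n, t.l0 ≤ l ∧
      (l ∈ t.Ev (π a) ∧ l ∉ t.pr2 (t.st (π a) (l + 1))) ∧ t.bad ι (t.H π (l + 1)) l) ≤
      Fintype.card ι * (ϑ * Bc (Fintype.card ι) D E O * (Fintype.card Ω : ℝ) ^ Fintype.card ι) := by
  classical
  refine cn_exists_le univ _ _ fun a _ => ?_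
  have hM' : 4 * Fintype.card ι * t.K ≤ t.M := by
    have := t.hK
    have : (0 : ℝ) ≤ Fintype.card ι * t.K := by positivity
    nlinarith
  have h1 : ∀ l ∈ range t.n, cn (fun π : ι → Ω => t.l0 ≤ l ∧
      (l ∈ t.Ev (π a) ∧ l ∉ t.pr2 (t.st (π a) (l + 1))) ∧ t.bad ι (t.H π (l + 1)) l) ≤
      ϑ * cn (fun π : ι → Ω => t.bad ι (t.H π (l + 1)) l) := by
    intro l _
    by_cases hl : t.l0 ≤ l
    · refine count_le a _ _ _ fun π => ?_
      have hH : ∀ ω, t.H (Function.update π a ω) (l + 1) =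
          t.cp (t.st ω (l + 1)) + t.H (rest π a) (l + 1) := by
        intro ω
        unfold H
        rw [sum_rest _ a (fun ω => t.cp (t.st ω (l + 1))), Function.update_self]
        congr 1
        refine sum_congr rfl fun b _ => ?_
        simp only [rest, Function.update_of_ne b.2]
      simp only [hl, true_and, Function.update_self, hH]
      exact fiber_le (fun ω => t.st ω (l + 1)) _
        (fun y => t.bad ι (t.cp y + t.H (rest π a) (l + 1)) l) ϑ (hd l hl)
    · refine le_trans (cn_mono (Q' := fun _ => False) fun π h => hl h.1) ?_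
      have := cn_nonneg (fun π : ι → Ω => t.bad ι (t.H π (l + 1)) l)
      simp only [cn_eq, filter_false, card_empty, Nat.cast_zero]
      positivity
  refine (cn_exists_le_sum _ _).trans ((sum_le_sum h1).trans ?_)
  rw [← mul_sum, mul_assoc]
  gcongr
  have h3 : ∑ l ∈ range t.n, cn (fun π : ι → Ω => t.bad ι (t.H π (l + 1)) l) =
      ∑ π : ι → Ω, (((range t.n).filter (fun l => t.bad ι (t.H π (l + 1)) l)).card : ℝ) := by
    simp only [cn_sum, card_filter]
    push_cast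
    exact sum_comm
  rw [h3]
  refine (sum_le_card_nsmul _ _ (Bc (Fintype.card ι) D E O : ℝ) fun π _ => ?_).trans ?_
  · refine Nat.cast_le.2
      (le_trans (card_le_card fun l hl => ?_) (t.card_Crit hD hE hO le_rfl hM' π))
    exact t.bad_mem_Crit hM (mem_range.1 (mem_filter.1 hl).1) (mem_filter.1 hl).2
  · simp [mul_comm]

end Tr

end Pool.Agent.Lib.MP_f2f914_nt.DC
end
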