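import Mathlib

-- part Pool.Agent.Lib.MP_f2f914_nt.DCSparse
section

/-!
Polynomials whose partial sums of coefficients vanish at most places.
-/

namespace Pool.Agent.Lib.MP_f2f914_nt.DC

open Finset Polynomial

variable {K : Type} [CommRing K]

/-- Sum of the coefficients up to degree `R`. -/
def ps (G : K[X]) (R : ℕ) : K := ∑ i ∈ range (R + 1), G.coeff i

open Classical in
/-- The sums `ps G R`, `R < N`, vanish with at most `l` exceptions. -/
def Sp (N l : ℕ) (G : K[X]) : Prop := ((range N).filter fun R => ps G R ≠ 0).card ≤ l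

theorem ps_add (G H : K[X]) (R : ℕ) : ps (G + H) R = ps G R + ps H R := by
  simp [ps, sum_add_distrib]

theorem ps_sub (G H : K[X]) (R : ℕ) : ps (G - H) R = ps G R - ps H R := by
  simp [ps, sum_sub_distrib]

theorem ps_C_mul (a : K) (G : K[X]) (R : ℕ) : ps (C a * G) R = a * ps G R := by
  simp [ps, mul_sum]

theorem ps_C (a : K) (R : ℕ) : ps (C a) R = a := by
  simp [ps, coeff_C]

theorem ps_X_pow (i R : ℕ) : ps (X ^ i : K[X]) R = if i ≤ R then 1 else 0 := by
  simp [ps, coeff_X_pow]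

theorem ps_succ (G : K[X]) (R : ℕ) : ps G (R + 1) = ps G R + G.coeff (R + 1) :=
  sum_range_succ _ _

theorem ps_congr {G H : K[X]} {R : ℕ} (h : ∀ i ≤ R, G.coeff i = H.coeff i) : ps G R = ps H R :=
  sum_congr rfl fun i hi => h i (Nat.lt_succ_iff.1 (mem_range.1 hi))

theorem ps_eq_of_le {G : K[X]} {R R' : ℕ} (hR : R ≤ R')
    (h : ∀ i, R < i → i ≤ R' → G.coeff i = 0) : ps G R' = ps G R := by
  induction R', hR using Nat.le_induction with
  | base => rfl
  | succ R' hR ih =>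
    rw [ps_succ, h _ (by omega) le_rfl, add_zero, ih fun i h1 h2 => h i h1 (by omega)]

theorem ps_X_pow_mul (i : ℕ) (G : K[X]) (R : ℕ) :
    ps (X ^ i * G) R = if i ≤ R then ps G (R - i) else 0 := by
  split_ifs with h
  · induction R, h using Nat.le_induction with
    | base =>
      simp only [ps, coeff_X_pow_mul', Nat.sub_self, zero_add, range_one, sum_singleton]
      rw [sum_eq_single i]
      · simp
      · intro b hb hbi
        have := mem_range.1 hb
        rw [if_neg (by omega)]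
      · simp
    | succ R hR ih =>
      rw [ps_succ, ih, Nat.succ_sub hR, ps_succ, coeff_X_pow_mul', if_pos (by omega),
        Nat.succ_sub hR]
  · refine sum_eq_zero fun b hb => ?_
    have := mem_range.1 hb
    rw [coeff_X_pow_mul', if_neg (by omega)]

theorem ps_expand {q : ℕ} (hq : 0 < q) (G : K[X]) (R : ℕ) :
    ps (expand K q G) R = ps G (R / q) := by
  induction R with
  | zero => simp [ps, coeff_expand hq]
  | succ R ih =>
    rw [ps_succ, ih, coeff_expand hq, Nat.succ_div]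
    split_ifs with h
    · rw [ps_succ]
    · simp

theorem Sp_of_subset {N l : ℕ} {G : K[X]} (s : Finset ℕ) (h : ∀ R < N, ps G R ≠ 0 → R ∈ s)
    (hs : s.card ≤ l) : Sp N l G := by
  classical
  refine le_trans (card_le_card fun R hR => ?_) hs
  simp only [mem_filter, mem_range] at hR
  exact h R hR.1 hR.2

theorem Sp.exists_set {N l : ℕ} {G : K[X]} (h : Sp N l G) :
    ∃ s : Finset ℕ, s.card ≤ l ∧ ∀ R, R ∈ s ↔ R < N ∧ ps G R ≠ 0 := by
  classical
  exact ⟨_, h, fun R => by simp⟩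

theorem Sp.mono {N l N' l' : ℕ} {G : K[X]} (h : Sp N l G) (hN : N' ≤ N) (hl : l ≤ l') :
    Sp N' l' G := by
  obtain ⟨s, hs, h⟩ := h.exists_set
  exact Sp_of_subset s (fun R h1 h2 => (h R).2 ⟨by omega, h2⟩) (hs.trans hl)

theorem Sp.congr {N l : ℕ} {G H : K[X]} (h : Sp N l G) (e : ∀ i < N, H.coeff i = G.coeff i) :
    Sp N l H := by
  obtain ⟨s, hs, h⟩ := h.exists_set
  refine Sp_of_subset s (fun R h1 h2 => (h R).2 ⟨h1, ?_⟩) hs
  rwa [← ps_congr fun i hi => e i (by omega)]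

theorem Sp_zero (N : ℕ) : Sp N 0 (0 : K[X]) :=
  Sp_of_subset ∅ (fun R _ h => absurd (by simp [ps]) h) le_rfl

theorem Sp.add {N l l' : ℕ} {G H : K[X]} (h : Sp N l G) (h' : Sp N l' H) :
    Sp N (l + l') (G + H) := by
  obtain ⟨s, hs, h⟩ := h.exists_set
  obtain ⟨s', hs', h'⟩ := h'.exists_set
  refine Sp_of_subset (s ∪ s') (fun R h1 h2 => ?_) ((card_union_le _ _).trans (add_le_add hs hs'))
  rw [mem_union, h, h']
  by_contra hcon
  push Not at hcon
  exact h2 (by rw [ps_add, hcon.1 h1, hcon.2 h1, add_zero])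

theorem Sp.C_mul {N l : ℕ} {G : K[X]} (h : Sp N l G) (a : K) : Sp N l (C a * G) := by
  obtain ⟨s, hs, h⟩ := h.exists_set
  refine Sp_of_subset s (fun R h1 h2 => (h R).2 ⟨h1, fun h3 => h2 ?_⟩) hs
  rw [ps_C_mul, h3, mul_zero]

theorem Sp.neg {N l : ℕ} {G : K[X]} (h : Sp N l G) : Sp N l (-G) := by
  simpa using h.C_mul (-1)

theorem Sp.X_pow_mul {N l : ℕ} {G : K[X]} (h : Sp N l G) (i : ℕ) : Sp N l (X ^ i * G) := by
  obtain ⟨s, hs, h⟩ := h.exists_set
  refine Sp_of_subset (s.image (· + i)) (fun R h1 h2 => ?_) (card_image_le.trans hs)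
  rw [ps_X_pow_mul] at h2
  split_ifs at h2 with h3
  · exact mem_image.2 ⟨R - i, (h _).2 ⟨by omega, h2⟩, by omega⟩
  · exact absurd rfl h2

theorem Sp.sum {ι : Type} {N l : ℕ} (s : Finset ι) {G : ι → K[X]} (h : ∀ i ∈ s, Sp N l (G i)) :
    Sp N (s.card * l) (∑ i ∈ s, G i) := by
  classical
  induction s using Finset.induction_on with
  | empty => simpa using Sp_zero N
  | insert a s ha ih =>
    rw [sum_insert ha, card_insert_of_notMem ha, add_mul, one_mul, add_comm (_ * _)]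
    exact (h a (mem_insert_self _ _)).add (ih fun i hi => h i (mem_insert_of_mem hi))

theorem Sp.mul {N l k : ℕ} {G A : K[X]} (h : Sp N l G) (hA : A.support.card ≤ k) :
    Sp N (k * l) (A * G) := by
  rw [A.as_sum_support_C_mul_X_pow, sum_mul]
  refine (Sp.sum _ fun i _ => ?_).mono le_rfl (Nat.mul_le_mul_right _ hA)
  rw [mul_assoc]
  exact (h.X_pow_mul i).C_mul _

theorem Sp_X_pow_sub (N : ℕ) {a b r : ℕ} (h1 : a ≤ b + r) (h2 : b ≤ a + r) :
    Sp N r (X ^ a - X ^ b : K[X]) := by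
  refine Sp_of_subset (Ico (min a b) (max a b)) (fun R _ h => ?_) (by rw [Nat.card_Ico]; omega)
  rw [ps_sub, ps_X_pow, ps_X_pow] at h
  rw [mem_Ico]
  split_ifs at h <;> first | omega | simp at h

theorem Sp_sub_C (N : ℕ) {A : K[X]} {D : ℕ} (h : ∀ i, D < i → A.coeff i = 0) :
    Sp N D (A - C (ps A D)) := by
  refine Sp_of_subset (range D) (fun R _ hR => ?_) (by simp)
  by_contra hcon
  rw [mem_range, not_lt] at hcon
  exact hR (by rw [ps_sub, ps_C, ps_eq_of_le hcon fun i hi _ => h i hi, sub_self])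

theorem Sp.expand {N l q : ℕ} {G : K[X]} (h : Sp N l G) (hq : 0 < q) :
    Sp (q * N) (q * l) (expand K q G) := by
  obtain ⟨s, hs, h⟩ := h.exists_set
  refine Sp_of_subset ((range q ×ˢ s).image fun x => q * x.2 + x.1) (fun R h1 h2 => ?_)
    (card_image_le.trans (by rw [card_product, card_range]; gcongr))
  rw [ps_expand hq] at h2
  exact mem_image.2 ⟨(R % q, R / q), mem_product.2 ⟨mem_range.2 (Nat.mod_lt _ hq),
    (h _).2 ⟨Nat.div_lt_of_lt_mul h1, h2⟩⟩, Nat.div_add_mod _ _⟩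

theorem Sp.of_expand {N l q : ℕ} {G : K[X]} (hq : 0 < q)
    (h : Sp (q * N) l (Polynomial.expand K q G)) : Sp N l G := by
  obtain ⟨s, hs, h⟩ := h.exists_set
  refine Sp_of_subset (s.image (· / q)) (fun R h1 h2 => ?_) (card_image_le.trans hs)
  refine mem_image.2 ⟨q * R, (h _).2 ⟨Nat.mul_lt_mul_of_pos_left h1 hq, ?_⟩,
    Nat.mul_div_cancel_left _ hq⟩
  rwa [ps_expand hq, Nat.mul_div_cancel_left _ hq]

theorem Sp.exists_zero {N l a : ℕ} {G : K[X]} (h : Sp N l G) (ha : a + l < N) :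
    ∃ R, a ≤ R ∧ R ≤ a + l ∧ ps G R = 0 := by
  obtain ⟨s, hs, h⟩ := h.exists_set
  by_contra hcon
  push Not at hcon
  have : Icc a (a + l) ⊆ s := fun R hR => by
    rw [mem_Icc] at hR
    exact (h R).2 ⟨by omega, hcon R hR.1 hR.2⟩
  have := card_le_card this
  rw [Nat.card_Icc] at this
  omega

theorem card_support_pow_le {A : K[X]} {k : ℕ} (h : A.support.card ≤ k) (i : ℕ) :
    (A ^ i).support.card ≤ k ^ i := by
  induction i with
  | zero => simpa using card_support_C_mul_X_pow_le_one (c := (1 : K)) (n := 0)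
  | succ i ih =>
    rw [pow_succ, pow_succ]
    exact card_support_mul_le.trans (Nat.mul_le_mul ih h)

theorem card_support_add_le (A B : K[X]) :
    (A + B).support.card ≤ A.support.card + B.support.card :=
  (card_le_card support_add).trans (card_union_le _ _)

theorem card_support_sum_le {ι : Type} (s : Finset ι) {G : ι → K[X]} {k : ℕ}
    (h : ∀ i ∈ s, (G i).support.card ≤ k) : (∑ i ∈ s, G i).support.card ≤ s.card * k := by
  classical
  induction s using Finset.induction_on with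
  | empty => simp
  | insert a s ha ih =>
    rw [sum_insert ha, card_insert_of_notMem ha, add_mul, one_mul, add_comm (_ * _)]
    exact (card_support_add_le _ _).trans (add_le_add (h a (mem_insert_self _ _))
      (ih fun i hi => h i (mem_insert_of_mem hi)))

theorem card_support_C_mul_le (a : K) (A : K[X]) : (C a * A).support.card ≤ A.support.card :=
  card_le_card fun i hi => by
    rw [mem_support_iff] at hi ⊢
    intro h
    exact hi (by rw [coeff_C_mul, h, mul_zero])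

theorem card_support_expand_le {q : ℕ} (hq : 0 < q) (A : K[X]) :
    (expand K q A).support.card ≤ A.support.card := by
  refine le_trans (card_le_card (t := A.support.image (· * q)) fun i hi => ?_) card_image_le
  rw [mem_support_iff, coeff_expand hq] at hi
  split_ifs at hi with h
  · exact mem_image.2 ⟨i / q, mem_support_iff.2 hi, Nat.div_mul_cancel h⟩
  · exact absurd rfl hi

theorem comp_eq_sum (P A : K[X]) :
    P.comp A = ∑ i ∈ range (P.natDegree + 1), C (P.coeff i) * A ^ i := by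
  rw [comp, eval₂_eq_sum_range]

theorem card_support_comp_le (P : K[X]) {A : K[X]} {k : ℕ} (h : A.support.card ≤ k) (hk : 1 ≤ k) :
    (P.comp A).support.card ≤ (P.natDegree + 1) * k ^ P.natDegree := by
  rw [comp_eq_sum]
  refine (card_support_sum_le _ fun i hi => ?_).trans (by rw [card_range])
  exact (card_support_C_mul_le _ _).trans ((card_support_pow_le h i).trans
    (Nat.pow_le_pow_right hk (Nat.lt_succ_iff.1 (mem_range.1 hi))))

theorem Sp.pow_sub {N l k : ℕ} {A B : K[X]} (h : Sp N l (A - B)) (hA : A.support.card ≤ k)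
    (hB : B.support.card ≤ k) (hk : 1 ≤ k) (i : ℕ) : Sp N ((2 * k) ^ i * l) (A ^ i - B ^ i) := by
  induction i with
  | zero => simpa using (Sp_zero N).mono le_rfl (Nat.zero_le _)
  | succ i ih =>
    have e : A ^ (i + 1) - B ^ (i + 1) = A * (A ^ i - B ^ i) + B ^ i * (A - B) := by ring
    rw [e]
    refine ((ih.mul hA).add (h.mul (card_support_pow_le hB i))).mono le_rfl ?_
    have h1 : k ^ i ≤ k * (2 * k) ^ i :=
      (Nat.pow_le_pow_left (by omega) i).trans (Nat.le_mul_of_pos_left _ hk)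
    have h2 := Nat.mul_le_mul_right l h1
    calc _ ≤ k * ((2 * k) ^ i * l) + k * (2 * k) ^ i * l := by omega
      _ = _ := by ring

theorem Sp.comp_sub {N l k : ℕ} {A B : K[X]} (h : Sp N l (A - B)) (hA : A.support.card ≤ k)
    (hB : B.support.card ≤ k) (hk : 1 ≤ k) (P : K[X]) :
    Sp N ((P.natDegree + 1) * ((2 * k) ^ P.natDegree * l)) (P.comp A - P.comp B) := by
  rw [comp_eq_sum, comp_eq_sum, ← sum_sub_distrib]
  refine (Sp.sum _ fun i hi => ?_).mono le_rfl (by rw [card_range])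
  rw [← mul_sub]
  exact ((h.pow_sub hA hB hk i).C_mul _).mono le_rfl (Nat.mul_le_mul_right _
    (Nat.pow_le_pow_right (by omega) (Nat.lt_succ_iff.1 (mem_range.1 hi))))

theorem Sp.comp {N l l' k : ℕ} {A B P : K[X]} (h0 : Sp N l' (P.comp B)) (h : Sp N l (A - B))
    (hA : A.support.card ≤ k) (hB : B.support.card ≤ k) (hk : 1 ≤ k) :
    Sp N (l' + (P.natDegree + 1) * ((2 * k) ^ P.natDegree * l)) (P.comp A) := by
  simpa using h0.add (h.comp_sub hA hB hk P)

end Pool.Agent.Lib.MP_f2f914_nt.DC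
end

-- part Pool.Agent.Lib.MP_f2f914_nt.DCWindow
section

/-!
Window identities coming from a sparse composition.
-/

namespace Pool.Agent.Lib.MP_f2f914_nt.DC

open Finset Polynomial

theorem sum_coeff_pow {K U : Type} [CommRing K] [Fintype U] (val : U → K) (pos : U → ℕ)
    (Wn : Finset ℕ) (i : ℕ) :
    ∑ n ∈ Wn, ((∑ u, C (val u) * X ^ pos u) ^ i).coeff n =
      ∑ β ∈ univ.filter (fun β : Fin i → U => ∑ c, pos (β c) ∈ Wn), ∏ c, val (β c) := by
  rw [Fintype.sum_pow]
  simp only [prod_mul_distrib, ← map_prod, prod_pow_eq_pow_sum, finsetSum_coeff, coeff_C_mul,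
    coeff_X_pow, mul_ite, mul_one, mul_zero]
  rw [sum_comm, sum_filter]
  exact sum_congr rfl fun β _ => by rw [sum_ite_eq']

theorem Sp.exists_window {K : Type} [CommRing K] {N Z : ℕ} {G : K[X]} (h : Sp N Z G) (x : ℝ)
    (hx : x + Z + 1 ≤ N) : ∃ R1 R2 : ℝ, x - (Z + 2) ≤ R1 ∧ R1 < x ∧ x ≤ R2 ∧ R2 ≤ x + (Z + 2) ∧
      ∃ Wn : Finset ℕ, (∀ n, n ∈ Wn ↔ R1 < n ∧ n ≤ R2) ∧ ∑ n ∈ Wn, G.coeff n = 0 := by
  have hZ : (0 : ℝ) ≤ Z := Nat.cast_nonneg _
  rcases lt_or_ge x 0 with h0 | h0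
  · refine ⟨x - 1, x, by linarith, by linarith, le_rfl, by linarith, ∅, fun n => ?_, by simp⟩
    have : (0 : ℝ) ≤ n := Nat.cast_nonneg _
    simp only [notMem_empty, false_iff, not_and, not_le]
    intro _; linarith
  have h1 := Nat.le_ceil x
  have h2 := Nat.ceil_lt_add_one h0
  have h3 : ⌈x⌉₊ + Z < N := by
    have : ((⌈x⌉₊ + Z : ℕ) : ℝ) < N := by push_cast; linarith
    exact_mod_cast this
  obtain ⟨R, r1, r2, r3⟩ := h.exists_zero h3
  have r1' : (⌈x⌉₊ : ℝ) ≤ R := by exact_mod_cast r1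
  have r2' : (R : ℝ) ≤ ⌈x⌉₊ + Z := by exact_mod_cast r2
  obtain ⟨m, m1, m2, m3⟩ : ∃ m : ℕ, x - (Z + 2) ≤ m - 1 ∧ m - 1 < x ∧
      ∑ i ∈ range m, G.coeff i = 0 := by
    rcases le_or_gt ⌈x⌉₊ (Z + 1) with h4 | h4
    · have : (⌈x⌉₊ : ℝ) ≤ Z + 1 := by exact_mod_cast h4
      exact ⟨0, by push_cast; linarith, by push_cast; linarith, by simp⟩
    · obtain ⟨a, ha⟩ : ∃ a, ⌈x⌉₊ = a + Z + 1 := ⟨⌈x⌉₊ - Z - 1, by omega⟩
      obtain ⟨R', s1, s2, s3⟩ := h.exists_zero (a := a) (by omega)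
      have s1' : (a : ℝ) ≤ R' := by exact_mod_cast s1
      have s2' : (R' : ℝ) ≤ a + Z := by exact_mod_cast s2
      rw [ha] at h1 h2
      push_cast at h1 h2
      exact ⟨R' + 1, by push_cast; linarith, by push_cast; linarith, s3⟩
  have hm : m ≤ R + 1 := by
    have : (m : ℝ) < (R + 1 : ℕ) := by push_cast; linarith
    exact le_of_lt (by exact_mod_cast this)
  refine ⟨m - 1, R, m1, m2, by linarith, by linarith, Ico m (R + 1), fun n => ?_, ?_⟩
  · rw [mem_Ico, sub_lt_iff_lt_add]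
    norm_cast
    omega
  · rw [sum_Ico_eq_sub _ hm, m3, sub_zero]
    exact r3

theorem window {K U : Type} [Field K] [Fintype U] {P : K[X]} (hP : P.Monic) {e : ℕ}
    (he : P.natDegree = e) (c0 : K) (val : U → K) (pos : U → ℕ) {N Z : ℕ}
    (h : Sp N Z (P.comp (C c0 + ∑ u, C (val u) * X ^ pos u))) (x : ℝ) (hx : x + Z + 1 ≤ N) :
    ∃ R1 R2 : ℝ, x - (Z + 2) ≤ R1 ∧ R1 < x ∧ x ≤ R2 ∧ R2 ≤ x + (Z + 2) ∧
      ((∀ β : Fin e → Option U, (∃ c, β c = none) →
        ¬ (R1 < ∑ c, (β c).elim 0 (fun u => (pos u : ℝ)) ∧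
          ∑ c, (β c).elim 0 (fun u => (pos u : ℝ)) ≤ R2)) →
      ∀ B : Finset (Fin e → U),
        (∀ β, β ∈ B ↔ R1 < ∑ c, (pos (β c) : ℝ) ∧ ∑ c, (pos (β c) : ℝ) ≤ R2) →
        ∑ β ∈ B, ∏ c, val (β c) = 0) := by
  classical
  obtain ⟨R1, R2, r1, r2, r3, r4, Wn, hW, h0⟩ := h.exists_window x hx
  refine ⟨R1, R2, r1, r2, r3, r4, fun hs B hB => ?_⟩
  set F := ∑ u, C (val u) * X ^ pos u with hF
  have e1 : P.comp (C c0 + F) = (P.comp (X + C c0)).comp F := by
    rw [comp_assoc]; simp [add_comm]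
  have e2 : (P.comp (X + C c0)).natDegree = e := by rw [natDegree_comp]; simp [he]
  have e3 : (P.comp (X + C c0)).coeff e = 1 := by
    rw [← e2]; exact hP.comp_X_add_C c0
  rw [e1, comp_eq_sum, e2] at h0
  simp only [finsetSum_coeff, coeff_C_mul] at h0
  rw [sum_comm, sum_range_succ, sum_eq_zero, zero_add, ← mul_sum, e3, one_mul, hF,
    sum_coeff_pow] at h0
  · rw [← h0]
    congr 1
    ext β
    simp [hB, hW]
  · intro i hi
    rw [← mul_sum, hF, sum_coeff_pow, filter_eq_empty_iff.2, sum_empty, mul_zero]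
    intro β _ hβ
    have hi' := mem_range.1 hi
    have hsum : ∑ c : Fin e, (if h : (c : ℕ) < i then some (β ⟨c, h⟩) else none).elim 0
        (fun u => (pos u : ℝ)) = ∑ c, (pos (β c) : ℝ) := by
      have := Fin.sum_univ_eq_sum_range (fun c => (if h : c < i then some (β ⟨c, h⟩) else none).elim
        0 (fun u => (pos u : ℝ))) e
      rw [this, ← sum_range_add_sum_Ico _ hi'.le, ← Fin.sum_univ_eq_sum_range, sum_eq_zero
        (s := Ico i e), add_zero]
      · simp
      · intro c hc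
        rw [dif_neg (not_lt.2 (mem_Ico.1 hc).1)]
        rfl
    refine hs (fun c => if h : (c : ℕ) < i then some (β ⟨c, h⟩) else none)
      ⟨⟨i, hi'⟩, by simp⟩ ?_
    rw [hsum]
    simpa [hW] using hβ

end Pool.Agent.Lib.MP_f2f914_nt.DC
end

-- part Pool.Agent.Lib.MP_f2f914_nt.DCFrob
section

/-!
Frobenius makes a sparse approximate root self-similar.
-/

namespace Pool.Agent.Lib.MP_f2f914_nt.DC

open Finset Polynomial

theorem comp_expand {K : Type} [CommRing K] (P F : K[X]) (q : ℕ) :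
    P.comp (expand K q F) = expand K q (P.comp F) := by
  rw [expand_eq_comp_X_pow, expand_eq_comp_X_pow, comp_assoc]

theorem coeff_comp_congr {K : Type} [CommRing K] (P : K[X]) {F G : K[X]} {m : ℕ}
    (h : ∀ i < m, F.coeff i = G.coeff i) : ∀ i < m, (P.comp F).coeff i = (P.comp G).coeff i := by
  have h1 : X ^ m ∣ F - G := X_pow_dvd_iff.2 fun i hi => by rw [coeff_sub, h i hi, sub_self]
  have h2 := sub_dvd_eval_sub F G (P.map C)
  rw [eval_map, eval_map] at h2
  intro i hi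
  have := X_pow_dvd_iff.1 (h1.trans h2) i hi
  rwa [coeff_sub, sub_eq_zero] at this

theorem exists_frob (K : Type) [Field K] [Fintype K] (P : K[X]) (hP : P.Monic) :
    ∃ q q1 : ℕ, 2 ≤ q ∧ 1 ≤ q1 ∧ ∃ Q : K[X], ∀ F : K[X],
      expand K q1 (expand K q F - F) = Q.comp F * P.comp F := by
  have hexp : ∀ (i : ℕ) (F : K[X]), expand K (Fintype.card K ^ i) F = F ^ Fintype.card K ^ i := by
    intro i
    induction i with
    | zero => simp
    | succ i ih => intro F; rw [pow_succ', expand_mul, ih, FiniteField.expand_card, ← pow_mul,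
        mul_comm]
  have : Module.Finite K (AdjoinRoot P) := (AdjoinRoot.powerBasis' hP).finite
  have : Finite (AdjoinRoot P) := Module.finite_of_finite K
  have hq : 2 ≤ Fintype.card K := Fintype.one_lt_card
  obtain ⟨i, i', hlt, h⟩ : ∃ i i', i < i' ∧ AdjoinRoot.mk P (X ^ Fintype.card K ^ i') =
      AdjoinRoot.mk P (X ^ Fintype.card K ^ i) := by
    obtain ⟨i, i', hne, h⟩ := Finite.exists_ne_map_eq_of_infinite
      fun i : ℕ => AdjoinRoot.mk P (X ^ Fintype.card K ^ i)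
    rcases lt_or_gt_of_ne hne with h1 | h1
    · exact ⟨i, i', h1, h.symm⟩
    · exact ⟨i', i, h1, h⟩
  obtain ⟨Q, hQ⟩ := AdjoinRoot.mk_eq_mk.1 h
  obtain ⟨d, rfl⟩ := Nat.exists_eq_add_of_lt hlt
  refine ⟨Fintype.card K ^ (d + 1), Fintype.card K ^ i,
    hq.trans (Nat.le_self_pow (by omega) _), Nat.pow_pos (by omega), Q, fun F => ?_⟩
  rw [map_sub, ← expand_mul, ← pow_add, ← add_assoc, hexp, hexp, mul_comm, ← mul_comp, ← hQ]
  simp

/-- Truncation of a polynomial. -/
noncomputable def trn {K : Type} [CommRing K] (F : K[X]) (m : ℕ) : K[X] :=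
  ∑ i ∈ range (m + 1), monomial i (F.coeff i)

theorem coeff_trn {K : Type} [CommRing K] (F : K[X]) (m i : ℕ) :
    (trn F m).coeff i = if i ≤ m then F.coeff i else 0 := by
  simp [trn, coeff_monomial]

theorem ps_trn {K : Type} [CommRing K] (F : K[X]) (m R : ℕ) :
    ps (trn F m) R = ps F (min R m) := by
  rw [ps_eq_of_le (min_le_left R m) fun i h1 h2 => by rw [coeff_trn, if_neg (by omega)]]
  exact ps_congr fun i hi => by rw [coeff_trn, if_pos (by omega)]

theorem exists_good {K : Type} [CommRing K] {F : K[X]} {q k l g : ℕ} (hq : 0 < q)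
    (hk : F.support.card ≤ k) (h : Sp (q * (2 * (l + k * (g + 1))) + 1) l (expand K q F - F)) :
    ∃ u, l + k * (g + 1) ≤ u ∧ u ≤ 2 * (l + k * (g + 1)) ∧
      (∀ θ ∈ F.support, θ ≤ q * u → θ + q * g ≤ q * u) ∧
      ∀ N, Sp N l (expand K q (trn F u) - trn F (q * u)) := by
  obtain ⟨s, hs, h⟩ := h.exists_set
  set U := l + k * (g + 1) with hU
  have h1 : (s.image (· / q) ∪ F.support.biUnion fun θ => Icc (θ / q) (θ / q + g)).card <
      (Icc U (2 * U)).card := by
    have h2 := card_union_le (s.image (· / q)) (F.support.biUnion fun θ => Icc (θ / q) (θ / q + g))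
    have h3 := card_image_le (s := s) (f := (· / q))
    have h4 := card_biUnion_le_card_mul F.support (fun θ => Icc (θ / q) (θ / q + g)) (g + 1)
      fun θ _ => by rw [Nat.card_Icc]; omega
    have h5 := Nat.mul_le_mul_right (g + 1) hk
    rw [Nat.card_Icc]
    omega
  obtain ⟨u, hu, hu'⟩ := exists_mem_notMem_of_card_lt_card h1
  rw [mem_Icc] at hu
  rw [mem_union, not_or] at hu'
  have h2 := Nat.mul_le_mul_left q hu.2
  refine ⟨u, hu.1, hu.2, fun θ hθ h3 => ?_, fun N => Sp_of_subset s (fun R _ hR => ?_) hs⟩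
  · by_contra h4
    refine hu'.2 (mem_biUnion.2 ⟨θ, hθ, mem_Icc.2 ⟨Nat.div_le_of_le_mul h3, ?_⟩⟩)
    have : u - g ≤ θ / q := by
      rw [Nat.le_div_iff_mul_le hq, Nat.sub_mul, mul_comm u, mul_comm g]
      omega
    omega
  · rw [ps_sub, ps_expand hq, ps_trn, ps_trn] at hR
    rcases lt_or_ge R (q * u) with h3 | h3
    · rw [min_eq_left h3.le, min_eq_left (Nat.div_lt_of_lt_mul h3).le] at hR
      exact (h R).2 ⟨by omega, by rwa [ps_sub, ps_expand hq]⟩
    · rw [min_eq_right h3, min_eq_right ((Nat.le_div_iff_mul_le hq).2 (by rwa [mul_comm]))] at hR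
      refine (hu'.1 (mem_image.2 ⟨q * u, (h _).2 ⟨by omega, ?_⟩,
        Nat.mul_div_cancel_left u hq⟩)).elim
      rwa [ps_sub, ps_expand hq, Nat.mul_div_cancel_left _ hq]

theorem Sp_iter {K : Type} [CommRing K] {F1 F2 : K[X]} {q l : ℕ} (hq : 2 ≤ q)
    (h : ∀ N, Sp N l (expand K q F1 - F2)) (N i : ℕ) : Sp N (q ^ i * l)
      (expand K (q ^ i) F2 - (F1 + ∑ m ∈ range (i + 1), expand K (q ^ m) (F2 - F1))) := by
  induction i with
  | zero => simpa using (Sp_zero N).mono le_rfl (Nat.zero_le _)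
  | succ i ih =>
    have h1 : 0 < q ^ i := Nat.pow_pos (by omega)
    have h2 := (((h N).expand h1).mono (Nat.le_mul_of_pos_left _ h1) le_rfl).add ih
    rw [sum_range_succ]
    refine Sp.mono ?_ le_rfl (show q ^ i * l + q ^ i * l ≤ _ by
      rw [pow_succ, mul_right_comm, ← mul_two]; exact Nat.mul_le_mul_left _ hq)
    convert h2 using 1
    rw [map_sub, map_sub, ← expand_mul, ← pow_succ]
    ring

theorem sum_expand_group {K : Type} [CommRing K] (G : K[X]) (q a n : ℕ) :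
    ∑ m ∈ range (a * (n + 1)), expand K (q ^ m) G = ∑ m ∈ range a, expand K (q ^ m) G +
      ∑ t ∈ range n, expand K ((q ^ a) ^ (t + 1)) (∑ m ∈ range a, expand K (q ^ m) G) := by
  induction n with
  | zero => simp
  | succ n ih =>
    rw [mul_add a (n + 1), mul_one, sum_range_add, ih, sum_range_succ _ n, add_assoc, map_sum]
    simp only [← expand_mul, ← pow_mul, ← pow_add]

theorem exists_slice (K : Type) [Field K] [Fintype K] (P : K[X]) (hP : P.Monic) :
    ∃ q q1 d : ℕ, 2 ≤ q ∧ ∀ (F : K[X]) (N k l l2 g a : ℕ), F.support.card ≤ k → 1 ≤ k → 1 ≤ a →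
      Sp N l (P.comp F) → (d + 1) * k ^ d * l ≤ l2 →
      q1 * (q * (2 * (l2 + k * (g + 1))) + 1) ≤ N → q * (2 * (l2 + k * (g + 1))) + 1 ≤ N →
      ∃ (u : ℕ) (Θ : K[X]) (c0 : K), g ≤ u ∧ u ≤ 2 * (l2 + k * (g + 1)) ∧ Θ.support.card ≤ a * k ∧
        (∀ θ ∈ Θ.support, u < θ ∧ θ + q ^ a * g ≤ q ^ a * u) ∧ ∀ n, Sp ((q ^ a) ^ (n + 1) * u)
          ((q ^ a) ^ (n + 1) * l + (P.natDegree + 1) * ((2 * (1 + (n * a + 1) * k)) ^ P.natDegree *
            (q ^ a * u + (q ^ a) ^ (n + 1) * l2)))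
          (P.comp (C c0 + ∑ t ∈ range n, expand K ((q ^ a) ^ (t + 1)) Θ)) := by
  obtain ⟨q, q1, hq, hq1, Q, hQ⟩ := exists_frob K P hP
  refine ⟨q, q1, Q.natDegree, hq, fun F N k l l2 g a hk hk1 ha hF hl2 hN hN' => ?_⟩
  have hq0 : 0 < q := by omega
  have h1 := (hF.mul (card_support_comp_le Q hk hk1)).mono hN hl2
  rw [← hQ] at h1
  obtain ⟨u, u1, u2, u3, u4⟩ := exists_good hq0 hk (h1.of_expand hq1)
  have hgu : g ≤ u := by nlinarith
  have huq : u ≤ q * u := Nat.le_mul_of_pos_left _ hq0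
  set G := trn F (q * u) - trn F u with hG
  have hGs : ∀ θ ∈ G.support, θ ∈ F.support ∧ u < θ ∧ θ ≤ q * u := by
    intro θ hθ
    rw [mem_support_iff, hG, coeff_sub, coeff_trn, coeff_trn] at hθ
    split_ifs at hθ with h2 h3 h3
    · simp at hθ
    · exact ⟨mem_support_iff.2 (by simpa using hθ), by omega, h2⟩
    · omega
    · simp at hθ
  have hGk : G.support.card ≤ k := (card_le_card fun θ hθ => (hGs θ hθ).1).trans hk
  set Θ := ∑ m ∈ range a, expand K (q ^ m) G with hΘ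
  have hΘk : Θ.support.card ≤ a * k :=
    (card_support_sum_le _ fun m _ => (card_support_expand_le (Nat.pow_pos hq0) _).trans hGk).trans
      (by rw [card_range])
  have hΘs : ∀ θ ∈ Θ.support, u < θ ∧ θ + q ^ a * g ≤ q ^ a * u := by
    intro θ hθ
    rw [mem_support_iff, hΘ, finsetSum_coeff] at hθ
    obtain ⟨m, hm, h2⟩ := exists_ne_zero_of_sum_ne_zero hθ
    rw [coeff_expand (Nat.pow_pos hq0)] at h2
    split_ifs at h2 with h3
    swap
    · exact absurd rfl h2
    obtain ⟨y, rfl⟩ := h3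
    rw [Nat.mul_div_cancel_left _ (Nat.pow_pos hq0)] at h2
    obtain ⟨h4, h5, h6⟩ := hGs y (mem_support_iff.2 h2)
    have h7 := u3 y h4 h6
    refine ⟨h5.trans_le (Nat.le_mul_of_pos_left _ (Nat.pow_pos hq0)), ?_⟩
    obtain ⟨w, rfl⟩ := Nat.exists_eq_add_of_le hgu
    have h8 : y ≤ q * w := by rw [mul_add] at h7; omega
    have h9 : q ^ (m + 1) ≤ q ^ a := Nat.pow_le_pow_right hq0 (mem_range.1 hm)
    calc _ ≤ q ^ m * (q * w) + q ^ a * g := by gcongr
      _ = q ^ (m + 1) * w + q ^ a * g := by ring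
      _ ≤ q ^ a * w + q ^ a * g := by gcongr
      _ = _ := by ring
  refine ⟨u, Θ, ps (trn F u + Θ) (q ^ a * u), hgu, u2, hΘk, hΘs, fun n => ?_⟩
  obtain ⟨I, hI⟩ : ∃ I, I + 1 = a * (n + 1) := ⟨a * (n + 1) - 1, by
    have : 0 < a * (n + 1) := Nat.mul_pos ha (by omega)
    omega⟩
  have hI0 : 0 < q ^ I := Nat.pow_pos hq0
  have hIM : (q ^ a) ^ (n + 1) = q ^ I * q := by rw [← pow_mul, ← hI, pow_succ]
  have hIM' : q ^ I ≤ (q ^ a) ^ (n + 1) := hIM ▸ Nat.le_mul_of_pos_right _ hq0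
  have h2 : Sp ((q ^ a) ^ (n + 1) * u) ((q ^ a) ^ (n + 1) * l)
      (P.comp (expand K (q ^ I) (trn F (q * u)))) := by
    rw [comp_expand]
    have h3 : Sp (q * u + 1) l (P.comp (trn F (q * u))) :=
      (hF.mono (by have := Nat.mul_le_mul_left q u2; omega) le_rfl).congr
        (coeff_comp_congr P fun i hi => by rw [coeff_trn, if_pos (by omega)])
    refine (h3.expand hI0).mono ?_ (Nat.mul_le_mul_right _ hIM')
    rw [hIM, mul_assoc]
    exact Nat.mul_le_mul_left _ (by omega)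
  have h3 := Sp_sub_C ((q ^ a) ^ (n + 1) * u) (A := trn F u + Θ) (D := q ^ a * u) fun i hi => by
    have h4 : u ≤ q ^ a * u := Nat.le_mul_of_pos_left _ (Nat.pow_pos hq0)
    rw [coeff_add, coeff_trn, if_neg (by omega), zero_add]
    by_contra h5
    have := (hΘs i (mem_support_iff.2 h5)).2
    omega
  have h4 := Sp_iter hq u4 ((q ^ a) ^ (n + 1) * u) I
  rw [hI, sum_expand_group, ← hG, ← hΘ] at h4
  refine h2.comp (Sp.mono (G := _) ?_ le_rfl (add_le_add le_rfl (Nat.mul_le_mul_right _ hIM')))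
    ((card_support_add_le _ _).trans (add_le_add ?_ ?_)) ?_ (by omega)
  · convert (h3.add h4).neg using 1
    ring
  · simpa using card_support_C_mul_X_pow_le_one (c := ps (trn F u + Θ) (q ^ a * u)) (n := 0)
  · refine (card_support_sum_le _ fun t _ => (card_support_expand_le
      (Nat.pow_pos (Nat.pow_pos hq0)) _).trans hΘk).trans ?_
    rw [card_range]
    nlinarith
  · refine (card_support_expand_le hI0 _).trans (le_trans (card_le_card fun θ hθ => ?_)
      (hk.trans (by nlinarith)))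
    rw [mem_support_iff, coeff_trn] at hθ
    split_ifs at hθ
    · exact mem_support_iff.2 hθ
    · exact absurd rfl hθ

end Pool.Agent.Lib.MP_f2f914_nt.DC
end

-- part Pool.Agent.Lib.MP_f2f914_nt.DCHead
section

/-!
From a sparse expansion of an algebraic number to a sparse approximate root modulo `p`.
-/

namespace Pool.Agent.Lib.MP_f2f914_nt.DC

open Finset Polynomial

/-- The sum of the absolute values of the coefficients is at most `B`. -/
def L1 (G : ℤ[X]) (B : ℝ) : Prop := ∀ t : Finset ℕ, ∑ n ∈ t, |(G.coeff n : ℝ)| ≤ B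

theorem L1.mono {G : ℤ[X]} {B B' : ℝ} (h : L1 G B) (hB : B ≤ B') : L1 G B' :=
  fun t => (h t).trans hB

theorem L1.nonneg {G : ℤ[X]} {B : ℝ} (h : L1 G B) : 0 ≤ B := by simpa using h ∅

theorem L1.add {G H : ℤ[X]} {B B' : ℝ} (h : L1 G B) (h' : L1 H B') : L1 (G + H) (B + B') := by
  intro t
  refine le_trans ?_ (add_le_add (h t) (h' t))
  rw [← sum_add_distrib]
  exact sum_le_sum fun n _ => by rw [coeff_add, Int.cast_add]; exact abs_add_le _ _

theorem L1.sum {ι : Type} (s : Finset ι) {G : ι → ℤ[X]} {B : ι → ℝ} (h : ∀ i ∈ s, L1 (G i) (B i)) :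
    L1 (∑ i ∈ s, G i) (∑ i ∈ s, B i) := by
  classical
  induction s using Finset.induction_on with
  | empty => intro t; simp
  | insert a s ha ih =>
    rw [sum_insert ha, sum_insert ha]
    exact (h a (mem_insert_self _ _)).add (ih fun i hi => h i (mem_insert_of_mem hi))

theorem L1.C_mul {G : ℤ[X]} {B : ℝ} (h : L1 G B) (a : ℤ) : L1 (C a * G) (|(a : ℝ)| * B) := by
  intro t
  simp only [coeff_C_mul, Int.cast_mul, abs_mul, ← mul_sum]
  exact mul_le_mul_of_nonneg_left (h t) (abs_nonneg _)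

theorem L1.X_pow_mul {G : ℤ[X]} {B : ℝ} (h : L1 G B) (i : ℕ) : L1 (X ^ i * G) B := by
  intro t
  refine le_trans (le_of_eq ?_) (h ((t.filter (i ≤ ·)).image (· - i)))
  rw [sum_image, sum_filter]
  · refine sum_congr rfl fun n _ => ?_
    rw [coeff_X_pow_mul']
    split_ifs <;> simp
  · intro a ha b hb e
    simp only [coe_filter, Set.mem_ofPred_eq] at ha hb e
    omega

theorem L1.mul {G A : ℤ[X]} {B S : ℝ} {k : ℕ} (h : L1 G B) (hA : A.support.card ≤ k)
    (hS : ∀ n, |(A.coeff n : ℝ)| ≤ S) : L1 (A * G) (k * S * B) := by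
  have hB := h.nonneg
  have hS0 : 0 ≤ S := (abs_nonneg _).trans (hS 0)
  rw [A.as_sum_support_C_mul_X_pow, sum_mul]
  refine (L1.sum (B := fun _ => S * B) _ fun i _ => ?_).mono ?_
  · rw [mul_assoc]
    exact ((h.X_pow_mul i).C_mul _).mono (mul_le_mul_of_nonneg_right (hS i) hB)
  · rw [sum_const, nsmul_eq_mul, mul_assoc]
    gcongr

theorem L1_pow {A : ℤ[X]} {S : ℝ} {k : ℕ} (hA : A.support.card ≤ k)
    (hS : ∀ n, |(A.coeff n : ℝ)| ≤ S) (i : ℕ) : L1 (A ^ i) ((k * S) ^ i) := by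
  induction i with
  | zero =>
    intro t
    simp only [pow_zero, coeff_one, Int.cast_ite, Int.cast_one, Int.cast_zero, apply_ite abs,
      abs_one, abs_zero, sum_ite_eq']
    split_ifs <;> norm_num
  | succ i ih => rw [pow_succ', pow_succ']; exact ih.mul hA hS

theorem exists_small_value (b : ℕ) (hb : 2 ≤ b) (ξ : ℝ) (P : ℤ[X]) (hP : aeval ξ P = 0)
    (s : ℕ → ℤ) (S : ℝ) (hs : ∀ n, |(s n : ℝ)| ≤ S) (hsum : HasSum (fun n => (s n : ℝ) / b ^ n) ξ) :
    ∃ c : ℝ, ∀ N, |aeval (∑ n ∈ range N, (s n : ℝ) / b ^ n) P| ≤ c / b ^ N := by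
  have hbr : (2 : ℝ) ≤ b := by exact_mod_cast hb
  have hS0 : 0 ≤ S := (abs_nonneg _).trans (hs 0)
  have htail : ∀ N, |ξ - ∑ n ∈ range N, (s n : ℝ) / b ^ n| ≤ 2 * S / b ^ N := by
    intro N
    have h1 := (hasSum_nat_add_iff' N).2 hsum
    rw [← h1.tsum_eq, ← Real.norm_eq_abs]
    have h2 := hasSum_geometric_two.mul_left (S / b ^ N)
    refine (tsum_of_norm_bounded h2 fun n => ?_).trans (le_of_eq (by ring))
    rw [Real.norm_eq_abs, abs_div, abs_of_pos (a := (b : ℝ) ^ _) (by positivity), pow_add,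
      one_div, inv_pow, ← div_eq_mul_inv, div_div, mul_comm ((b : ℝ) ^ N)]
    gcongr
    exact hs _
  obtain ⟨Q, hQ⟩ : X - C ξ ∣ P.map (algebraMap ℤ ℝ) := by
    rw [dvd_iff_isRoot, IsRoot, eval_map_algebraMap, hP]
  obtain ⟨c, hc⟩ := (isCompact_closedBall ξ (2 * S)).exists_bound_of_continuousOn
    Q.continuous.continuousOn
  refine ⟨c * (2 * S), fun N => ?_⟩
  have h1 := htail N
  have h2 : 2 * S / b ^ N ≤ 2 * S := div_le_self (by positivity) (one_le_pow₀ (by linarith))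
  have h3 := hc (∑ n ∈ range N, (s n : ℝ) / b ^ n) (by
    rw [Metric.mem_closedBall, dist_comm, Real.dist_eq]; exact h1.trans h2)
  rw [← eval_map_algebraMap, hQ, eval_mul, eval_sub, eval_X, eval_C, abs_mul, abs_sub_comm,
    mul_comm, mul_div_assoc]
  exact mul_le_mul h3 h1 (abs_nonneg _) ((norm_nonneg _).trans h3)

theorem head_eq_zero {b : ℕ} (hb : 2 ≤ b) {G : ℤ[X]} {B c : ℝ} {N L R : ℕ} (hB : L1 G B)
    (hc : |aeval (1 / b : ℝ) G| ≤ c / b ^ N) (hL : c + B < 2 ^ L) (hR : R + L ≤ N)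
    (hG : ∀ n, R < n → n ≤ R + L → G.coeff n = 0) :
    ∑ n ∈ range (R + 1), G.coeff n * (b : ℤ) ^ (R - n) = 0 := by
  have hbr : (2 : ℝ) ≤ b := by exact_mod_cast hb
  have hb0 : (0 : ℝ) < b := by linarith
  set m := R + 1 + (G.natDegree + 1) with hm
  have h1 : aeval (1 / b : ℝ) G = ∑ n ∈ range (R + 1), (G.coeff n : ℝ) / b ^ n +
      ∑ n ∈ Ico (R + 1) m, (G.coeff n : ℝ) / b ^ n := by
    rw [sum_range_add_sum_Ico _ (by omega), aeval_eq_sum_range' (n := m) (by omega)]
    exact sum_congr rfl fun n _ => by simp [div_eq_mul_inv]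
  have h2 : |∑ n ∈ Ico (R + 1) m, (G.coeff n : ℝ) / b ^ n| ≤ B / b ^ (R + L) := by
    refine (abs_sum_le_sum_abs _ _).trans (le_trans (sum_le_sum
      (g := fun n => |(G.coeff n : ℝ)| / b ^ (R + L)) fun n hn => ?_) ?_)
    · rcases le_or_gt n (R + L) with h | h
      · simp [hG n (mem_Ico.1 hn).1 h]
      · rw [abs_div, abs_of_pos (a := (b : ℝ) ^ _) (by positivity)]
        gcongr
        linarith
    · rw [← sum_div]
      gcongr
      exact hB _
  have hc0 : 0 ≤ c := by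
    have := (abs_nonneg _).trans hc
    exact le_of_not_gt fun h => absurd (div_neg_of_neg_of_pos h (by positivity)) (not_lt.2 this)
  have h3 : c / b ^ N ≤ c / b ^ (R + L) := by gcongr; linarith
  have h4 : ((∑ n ∈ range (R + 1), G.coeff n * (b : ℤ) ^ (R - n) : ℤ) : ℝ) =
      b ^ R * ∑ n ∈ range (R + 1), (G.coeff n : ℝ) / b ^ n := by
    push_cast
    rw [mul_sum]
    refine sum_congr rfl fun n hn => ?_
    rw [pow_sub₀ _ hb0.ne' (Nat.lt_succ_iff.1 (mem_range.1 hn))]
    ring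
  have h5 : |∑ n ∈ range (R + 1), (G.coeff n : ℝ) / b ^ n| ≤ (c + B) / b ^ (R + L) := by
    rw [← sub_eq_iff_eq_add] at h1
    rw [← h1, add_div]
    exact (abs_sub _ _).trans (add_le_add (hc.trans h3) h2)
  rw [← Int.abs_lt_one_iff, ← Int.cast_lt (R := ℝ), Int.cast_abs, h4, abs_mul,
    abs_of_pos (a := (b : ℝ) ^ _) (by positivity), Int.cast_one]
  refine (mul_le_mul_of_nonneg_left h5 (by positivity)).trans_lt ?_
  rw [pow_add, ← mul_div_assoc, mul_div_mul_left _ _ (by positivity), div_lt_one (by positivity)]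
  exact hL.trans_le (by gcongr)

theorem exists_head (b : ℕ) (hb : 2 ≤ b) (ξ : ℝ) (P : ℤ[X]) (hP : aeval ξ P = 0)
    (s : ℕ → ℤ) (S : ℝ) (hs : ∀ n, |(s n : ℝ)| ≤ S) (hsum : HasSum (fun n => (s n : ℝ) / b ^ n) ξ) :
    ∃ c : ℕ, ∀ (K : Type) [CommRing K] (β : K), β * b = 1 → ∀ N k L : ℕ,
      ((range N).filter fun n => s n ≠ 0).card ≤ k → 1 ≤ k → c * k ^ P.natDegree < 2 ^ L →
      Sp N (L * ((P.natDegree + 1) * k ^ P.natDegree + 1)) ((P.map (Int.castRingHom K)).comp
        (∑ n ∈ range N, C ((s n : K) * β ^ n) * X ^ n)) := by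
  obtain ⟨c, hc⟩ := exists_small_value b hb ξ P hP s S hs hsum
  have hS0 : 0 ≤ S := (abs_nonneg _).trans (hs 0)
  obtain ⟨c', hc'⟩ := exists_nat_ge (|c| + ∑ i ∈ range (P.natDegree + 1),
    |(P.coeff i : ℝ)| * S ^ i)
  refine ⟨c', fun K _ β hβ N k L hk hk1 hL => ?_⟩
  set f : ℤ[X] := ∑ n ∈ range N, C (s n) * X ^ n with hf
  have hfc : ∀ n, f.coeff n = if n < N then s n else 0 := fun n => by
    simp [hf, coeff_X_pow]
  have hfk : f.support.card ≤ k := le_trans (card_le_card fun n hn => by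
    rw [mem_support_iff, hfc] at hn
    split_ifs at hn with h
    · exact mem_filter.2 ⟨mem_range.2 h, hn⟩
    · exact absurd rfl hn) hk
  have hfS : ∀ n, |(f.coeff n : ℝ)| ≤ S := fun n => by
    rw [hfc]
    split_ifs
    · exact hs n
    · simpa using hS0
  have hkr : (1 : ℝ) ≤ k := by exact_mod_cast hk1
  have hB : L1 (P.comp f) ((∑ i ∈ range (P.natDegree + 1), |(P.coeff i : ℝ)| * S ^ i) *
      k ^ P.natDegree) := by
    rw [comp_eq_sum]
    refine (L1.sum _ fun i _ => (L1_pow hfk hfS i).C_mul _).mono ?_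
    rw [sum_mul]
    refine sum_le_sum fun i hi => ?_
    rw [mul_pow, mul_comm (_ ^ i), mul_assoc]
    gcongr
    exact Nat.lt_succ_iff.1 (mem_range.1 hi)
  have hv : |aeval (1 / b : ℝ) (P.comp f)| ≤ |c| / b ^ N := by
    rw [aeval_comp]
    refine le_trans (le_of_eq ?_) ((hc N).trans (by gcongr; exact le_abs_self _))
    congr 3
    simp [hf, div_eq_mul_inv]
  have hL' : |c| + (∑ i ∈ range (P.natDegree + 1), |(P.coeff i : ℝ)| * S ^ i) *
      k ^ P.natDegree < 2 ^ L := by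
    have h1 : (c' : ℝ) * k ^ P.natDegree < 2 ^ L := by exact_mod_cast hL
    have h2 : (1 : ℝ) ≤ k ^ P.natDegree := one_le_pow₀ hkr
    have h3 := mul_le_mul_of_nonneg_right hc' (zero_le_one.trans h2)
    nlinarith [abs_nonneg c]
  have e : (P.map (Int.castRingHom K)).comp (∑ n ∈ range N, C ((s n : K) * β ^ n) * X ^ n) =
      ((P.comp f).map (Int.castRingHom K)).comp (C β * X) := by
    rw [map_comp, comp_assoc]
    congr 1
    simp [hf, Polynomial.map_sum, Polynomial.sum_comp, mul_pow, mul_assoc]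
  rw [e]
  refine Sp_of_subset ((P.comp f).support.biUnion (fun θ => Ico (θ - L) θ) ∪ Ico (N - L) N)
    (fun R hR h0 => ?_) ((card_union_le _ _).trans ?_)
  · by_contra hcon
    rw [mem_union, not_or, mem_Ico] at hcon
    have h1 := head_eq_zero hb hB hv hL' (R := R) (by omega) fun n h1 h2 => by
      by_contra h3
      exact hcon.1 (mem_biUnion.2 ⟨n, mem_support_iff.2 h3, mem_Ico.2 ⟨by omega, h1⟩⟩)
    refine h0 ?_
    have h2 := congrArg (fun z : ℤ => β ^ R * (z : K)) h1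
    simp only [Int.cast_zero, mul_zero] at h2
    rw [← h2]
    push_cast
    rw [ps, mul_sum]
    refine sum_congr rfl fun n hn => ?_
    obtain ⟨d, rfl⟩ := Nat.exists_eq_add_of_le (Nat.lt_succ_iff.1 (mem_range.1 hn))
    rw [comp_C_mul_X_coeff, coeff_map, Nat.add_sub_cancel_left, pow_add, eq_intCast]
    have h3 : β ^ d * (b : K) ^ d = 1 := by rw [← mul_pow, hβ, one_pow]
    linear_combination -(β ^ n * ((P.comp f).coeff n : K)) * h3
  · have h1 := card_biUnion_le_card_mul (P.comp f).support (fun θ => Ico (θ - L) θ) L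
      fun θ _ => by rw [Nat.card_Ico]; omega
    have h2 := Nat.mul_le_mul_right L (card_support_comp_le P hfk hk1)
    rw [Nat.card_Ico, mul_add, mul_one, mul_comm L]
    omega

end Pool.Agent.Lib.MP_f2f914_nt.DC
end

-- part Pool.Agent.Lib.MP_f2f914_nt.DCPrime
section

/-!
An irreducible polynomial of degree at least two has no root modulo infinitely many primes.
-/

namespace Pool.Agent.Lib.MP_f2f914_nt.DC

open Finset Polynomial Filter NumberField Topology

section Count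

variable (F : Type) [Field F] [NumberField F]

open Classical in
/-- Nonzero ideals of norm at most `x`. -/
noncomputable def idl (x : ℕ) : Finset (Ideal (𝓞 F)) :=
  (Ideal.finite_setOfPred_absNorm_le (S := 𝓞 F) x).toFinset.erase ⊥

variable {F} in
theorem mem_idl {x : ℕ} {I : Ideal (𝓞 F)} : I ∈ idl F x ↔ I ≠ ⊥ ∧ Ideal.absNorm I ≤ x := by
  simp [idl]

theorem tendsto_idl : ∃ c : ℝ, 0 < c ∧
    Tendsto (fun x : ℕ => (((idl F x).card : ℝ) + 1) / x) atTop (𝓝 c) := by
  classical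
  refine ⟨_, dedekindZeta_residue_pos F, ?_⟩
  rw [dedekindZeta_residue_def]
  refine ((Ideal.tendsto_norm_le_div_atTop F).comp tendsto_natCast_atTop_atTop).congr fun x => ?_
  simp only [Function.comp_apply, Nat.cast_le]
  congr 1
  norm_cast
  rw [idl, card_erase_add_one (by simp), ← Set.ncard_eq_toFinset_card _
    (Ideal.finite_setOfPred_absNorm_le (S := 𝓞 F) x)]
  rfl

theorem exists_idl_le : ∃ c : ℝ, 0 < c ∧ ∀ x : ℕ, ((idl F x).card : ℝ) ≤ c * x := by
  obtain ⟨c, -, h⟩ := tendsto_idl F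
  obtain ⟨B, hB⟩ := h.bddAbove_range
  refine ⟨|B| + 1, by positivity, fun x => ?_⟩
  rcases Nat.eq_zero_or_pos x with rfl | hx
  · have : idl F 0 = ∅ := eq_empty_of_forall_notMem fun I hI => by
      rw [mem_idl, Nat.le_zero, Ideal.absNorm_eq_zero_iff] at hI
      exact hI.1 hI.2
    simp [this]
  · have h1 := hB ⟨x, rfl⟩
    have h2 : (0 : ℝ) < x := by exact_mod_cast hx
    simp only at h1
    rw [div_le_iff₀ h2] at h1
    nlinarith [le_abs_self B]

variable {F} in
theorem two_le_absNorm {I : Ideal (𝓞 F)} (h : Prime I) : 2 ≤ Ideal.absNorm I := by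
  have h0 : Ideal.absNorm I ≠ 0 := fun e => h.ne_zero (Ideal.absNorm_eq_zero_iff.1 e)
  have h1 : Ideal.absNorm I ≠ 1 := fun e => h.not_isUnit
    (Ideal.isUnit_iff.2 (Ideal.absNorm_eq_one_iff.1 e))
  omega

open UniqueFactorizationMonoid in
theorem card_smooth (T : Finset (Ideal (𝓞 F))) (Y : ℕ) (s : Finset (Ideal (𝓞 F)))
    (hs : ∀ I ∈ s, I ∈ idl F (2 ^ Y) ∧ ∀ Q, Prime Q → Q ∣ I → Q ∈ T) :
    s.card ≤ (Y + 1) ^ T.card := by
  classical
  rw [← card_range (Y + 1), ← prod_const, ← card_pi]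
  refine card_le_card_of_injOn (fun I Q _ => (normalizedFactors I).count Q) (fun I hI => ?_)
    fun I hI J hJ e => ?_
  · obtain ⟨h1, h2⟩ := mem_idl.1 (hs I hI).1
    simp only [mem_coe, Finset.mem_pi, mem_range]
    intro Q _
    have h3 : 2 ^ (normalizedFactors I).card ≤ Ideal.absNorm I := by
      conv_rhs => rw [← Ideal.prod_normalizedFactors_eq_self h1, map_multiset_prod]
      rw [← Multiset.card_map Ideal.absNorm]
      refine Multiset.pow_card_le_prod fun a ha => ?_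
      obtain ⟨Q, hQ, rfl⟩ := Multiset.mem_map.1 ha
      exact two_le_absNorm (prime_of_normalized_factor Q hQ)
    have h4 := (Nat.pow_le_pow_iff_right (by norm_num)).1 (h3.trans h2)
    exact Nat.lt_succ_of_le ((Multiset.count_le_card _ _).trans h4)
  · rw [← Ideal.prod_normalizedFactors_eq_self (mem_idl.1 (hs I hI).1).1,
      ← Ideal.prod_normalizedFactors_eq_self (mem_idl.1 (hs J hJ).1).1]
    congr 1
    ext Q
    by_cases hQ : Q ∈ T
    · exact congrFun (congrFun e Q) hQ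
    · rw [Multiset.count_eq_zero.2 fun h => hQ ((hs I hI).2 Q (prime_of_normalized_factor Q h)
        (dvd_of_mem_normalizedFactors h)), Multiset.count_eq_zero.2 fun h => hQ ((hs J hJ).2 Q
        (prime_of_normalized_factor Q h) (dvd_of_mem_normalizedFactors h))]

open Classical in
theorem not_summable_primes : ¬ Summable fun Q : Ideal (𝓞 F) =>
    if Prime Q then (1 / Ideal.absNorm Q : ℝ) else 0 := by
  intro hs
  obtain ⟨c, hc, h1⟩ := tendsto_idl F
  obtain ⟨c2, hc2, h2⟩ := exists_idl_le F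
  obtain ⟨T, hT⟩ := hs.vanishing (gt_mem_nhds (show 0 < c / 2 / c2 by positivity))
  have key : ∀ Y : ℕ, ((idl F (2 ^ Y)).card : ℝ) ≤ (Y + 1) ^ T.card + c / 2 * 2 ^ Y := by
    intro Y
    set t := (idl F (2 ^ Y)).filter fun Q => Prime Q ∧ Q ∉ T with ht
    have h3 := card_smooth F T Y ((idl F (2 ^ Y)).filter fun I => ∀ Q, Prime Q → Q ∣ I → Q ∈ T)
      fun I hI => mem_filter.1 hI
    have h4 : (idl F (2 ^ Y)).filter (fun I => ¬ ∀ Q, Prime Q → Q ∣ I → Q ∈ T) ⊆
        t.biUnion fun Q => (idl F (2 ^ Y / Ideal.absNorm Q)).image (Q * ·) := by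
      intro I hI
      obtain ⟨h5, h6⟩ := mem_filter.1 hI
      push Not at h6
      obtain ⟨Q, hQ, ⟨J, rfl⟩, hQT⟩ := h6
      obtain ⟨h7, h8⟩ := mem_idl.1 h5
      have hJ : J ≠ ⊥ := fun e => h7 (by simp [e])
      have hJ1 : 0 < Ideal.absNorm J :=
        Nat.pos_of_ne_zero fun e => hJ (Ideal.absNorm_eq_zero_iff.1 e)
      have hQ2 := two_le_absNorm hQ
      rw [map_mul] at h8
      refine mem_biUnion.2 ⟨Q, mem_filter.2 ⟨mem_idl.2 ⟨hQ.ne_zero,
        (Nat.le_mul_of_pos_right _ hJ1).trans h8⟩, hQ, hQT⟩, mem_image.2 ⟨J, mem_idl.2 ⟨hJ, ?_⟩,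
        rfl⟩⟩
      rwa [Nat.le_div_iff_mul_le (by omega), mul_comm]
    have h5 : (((idl F (2 ^ Y)).filter (fun I => ¬ ∀ Q, Prime Q → Q ∣ I → Q ∈ T)).card : ℝ) ≤
        ∑ Q ∈ t, c2 * 2 ^ Y * if Prime Q then (1 / Ideal.absNorm Q : ℝ) else 0 := by
      refine (Nat.cast_le.2 ((card_le_card h4).trans card_biUnion_le)).trans ?_
      push_cast
      refine sum_le_sum fun Q hQ => ?_
      rw [if_pos (mem_filter.1 hQ).2.1]
      refine (Nat.cast_le.2 card_image_le).trans ((h2 _).trans ?_)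
      rw [mul_assoc, mul_one_div]
      gcongr
      exact Nat.cast_div_le.trans (by push_cast; rfl)
    have h6 := hT t (disjoint_left.2 fun Q hQ => (mem_filter.1 hQ).2.2)
    simp only [Set.mem_ofPred_eq] at h6
    rw [← mul_sum] at h5
    have h7 := h5.trans (mul_le_mul_of_nonneg_left h6.le (by positivity))
    rw [show c2 * 2 ^ Y * (c / 2 / c2) = c / 2 * 2 ^ Y by field_simp] at h7
    rw [← card_filter_add_card_filter_not (s := idl F (2 ^ Y))
      (fun I => ∀ Q, Prime Q → Q ∣ I → Q ∈ T)]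
    push_cast
    exact add_le_add (by exact_mod_cast h3) h7
  have h3 := h1.comp (tendsto_pow_atTop_atTop_of_one_lt (one_lt_two (α := ℕ)))
  have h4 : Tendsto (fun Y : ℕ => (((Y + 1 : ℕ) : ℝ) ^ T.card / 2 ^ (Y + 1)) * 4 + c / 2) atTop
      (𝓝 (0 * 4 + c / 2)) :=
    (((tendsto_pow_const_div_const_pow_of_one_lt T.card (r := 2) (by norm_num)).comp
      (tendsto_add_atTop_nat 1)).mul_const 4).add_const _
  have h5 := le_of_tendsto_of_tendsto' h3 h4 fun Y => by
    have h6 := key Y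
    have h7 : (1 : ℝ) ≤ (Y + 1) ^ T.card := one_le_pow₀ (by simp)
    simp only [Function.comp_apply]
    push_cast
    rw [div_le_iff₀ (by positivity), add_mul, pow_succ]
    rw [show ((Y : ℝ) + 1) ^ T.card / (2 ^ Y * 2) * 4 * 2 ^ Y = 2 * (Y + 1) ^ T.card by
      field_simp; ring]
    linarith
  linarith

theorem card_primes_le {p : ℕ} (hp : p.Prime) (t : Finset (Ideal (𝓞 F)))
    (ht : ∀ Q ∈ t, Prime Q ∧ (p : 𝓞 F) ∈ Q ∧ p ≤ Ideal.absNorm Q) :
    t.card ≤ Module.finrank ℤ (𝓞 F) := by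
  have h1 := prod_primes_dvd (Ideal.span {(p : 𝓞 F)}) (fun Q hQ => (ht Q hQ).1) fun Q hQ =>
    Ideal.dvd_span_singleton.2 (ht Q hQ).2.1
  have h2 := map_dvd Ideal.absNorm h1
  rw [Ideal.absNorm_span_natCast, map_prod] at h2
  have h3 := (pow_card_le_prod t _ p fun Q hQ => (ht Q hQ).2.2).trans
    (Nat.le_of_dvd (Nat.pow_pos hp.pos) h2)
  exact (Nat.pow_le_pow_iff_right hp.one_lt).1 h3

open Classical in
theorem not_summable_deg_one : ¬ Summable fun p : ℕ =>
    if p.Prime ∧ ∃ Q : Ideal (𝓞 F), Ideal.absNorm Q = p then (1 / p : ℝ) else 0 := by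
  intro hs
  have hg := hs.add (Real.summable_one_div_nat_pow.2 one_lt_two)
  set g := fun p : ℕ => (if p.Prime ∧ ∃ Q : Ideal (𝓞 F), Ideal.absNorm Q = p then (1 / p : ℝ)
    else 0) + 1 / (p : ℝ) ^ 2 with hgdef
  have hg0 : ∀ p, 0 ≤ g p := fun p => by simp only [hgdef]; positivity
  have hex : ∀ Q : Ideal (𝓞 F), Prime Q → ∃ p : ℕ, p.Prime ∧ (p : 𝓞 F) ∈ Q ∧
      p ≤ Ideal.absNorm Q ∧ (1 / Ideal.absNorm Q : ℝ) ≤ g p := by
    intro Q hQ
    have := (Ideal.isPrime_of_prime hQ).isMaximal hQ.ne_zero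
    obtain ⟨p, n, hn, h1, hp, h2⟩ := Ideal.exists_prime_and_absNorm_eq_pow Q
    refine ⟨p, hp, h1, h2 ▸ Nat.le_self_pow hn.ne' _, ?_⟩
    have hp1 : (1 : ℝ) ≤ p := by exact_mod_cast hp.one_lt.le
    rcases (show n = 1 ∨ 2 ≤ n by omega) with rfl | h3
    · rw [pow_one] at h2
      simp only [hgdef]
      rw [if_pos ⟨hp, Q, h2⟩, h2]
      exact le_add_of_nonneg_right (by positivity)
    · refine le_trans ?_ (le_add_of_nonneg_left (by positivity))
      rw [h2]
      push_cast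
      gcongr
  choose! π h1 h2 h3 h4 using hex
  refine not_summable_primes F (summable_of_sum_le (c := Module.finrank ℤ (𝓞 F) * ∑' p, g p)
    (fun Q => by positivity) fun u => ?_)
  rw [← sum_filter, ← sum_fiberwise_of_maps_to (t := (u.filter Prime).image π) (g := π)
    fun Q hQ => mem_image_of_mem _ hQ]
  refine le_trans (sum_le_sum (g := fun p => Module.finrank ℤ (𝓞 F) * g p) fun p hp => ?_) ?_
  · refine (sum_le_card_nsmul _ _ (g p) fun Q hQ => ?_).trans ?_
    · obtain ⟨h5, rfl⟩ := mem_filter.1 hQ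
      exact h4 Q (mem_filter.1 h5).2
    · rw [nsmul_eq_mul]
      refine mul_le_mul_of_nonneg_right (Nat.cast_le.2 ?_) (hg0 p)
      obtain ⟨Q, hQ, rfl⟩ := mem_image.1 hp
      refine card_primes_le F (h1 Q (mem_filter.1 hQ).2) _ fun Q' hQ' => ?_
      obtain ⟨h5, h6⟩ := mem_filter.1 hQ'
      have h7 := (mem_filter.1 h5).2
      exact ⟨h7, h6 ▸ h2 Q' h7, h6 ▸ h3 Q' h7⟩
  · rw [← mul_sum]
    exact mul_le_mul_of_nonneg_left (hg.sum_le_tsum _ fun p _ => hg0 p) (Nat.cast_nonneg _)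

variable {F} in
theorem prime_of_norm {Q : Ideal (𝓞 F)} {p : ℕ} (hp : p.Prime) (h : Ideal.absNorm Q = p) :
    Prime Q := Ideal.prime_of_isPrime
  (fun e => hp.ne_zero (by rw [← h, e]; simp)) (Ideal.isPrime_of_irreducible_absNorm (h ▸ hp))

open Classical in
theorem summable_split (B : ℕ) (hB : ∀ p : ℕ, p.Prime → B < p →
    ∃ Q : Ideal (𝓞 F), Ideal.absNorm Q = p) : Summable fun p : ℕ =>
    if p.Prime ∧ B < p ∧ ∃ Q Q' : Ideal (𝓞 F), Ideal.absNorm Q = p ∧ Ideal.absNorm Q' = p ∧ Q ≠ Q'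
    then (1 / p : ℝ) else 0 := by
  obtain ⟨c, hc, h2⟩ := exists_idl_le F
  choose! q hq using hB
  have hex : ∀ p : ℕ, (p.Prime ∧ B < p ∧ ∃ Q Q' : Ideal (𝓞 F), Ideal.absNorm Q = p ∧
      Ideal.absNorm Q' = p ∧ Q ≠ Q') → ∃ Q, Ideal.absNorm Q = p ∧ Q ≠ q p := by
    rintro p ⟨-, -, Q, Q', h1, h2, h3⟩
    by_cases h : Q = q p
    · exact ⟨Q', h2, fun e => h3 (h.trans e.symm)⟩
    · exact ⟨Q, h1, h⟩
  choose! q' hq1 hq2 using hex
  refine summable_of_sum_le (c := c * B.factorial) (fun p => by positivity) fun u => ?_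
  rw [← sum_filter]
  set T := u.filter fun p => p.Prime ∧ B < p ∧ ∃ Q Q' : Ideal (𝓞 F), Ideal.absNorm Q = p ∧
    Ideal.absNorm Q' = p ∧ Q ≠ Q' with hT
  have hTp : ∀ p ∈ T, p.Prime := fun p hp => (mem_filter.1 hp).2.1
  set N := ∏ p ∈ T, p with hN
  have hN0 : 0 < N := prod_pos fun p hp => (hTp p hp).pos
  set J : ℕ → Ideal (𝓞 F) := fun m => ((1 + B.factorial * m).primeFactorsList.map q).prod with hJ
  have hfac : ∀ m, ∀ r ∈ (1 + B.factorial * m).primeFactorsList, r.Prime ∧ B < r := by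
    intro m r hr
    have h1 := Nat.prime_of_mem_primeFactorsList hr
    refine ⟨h1, not_le.1 fun h3 => ?_⟩
    have h4 := Nat.dvd_of_mem_primeFactorsList hr
    exact h1.one_lt.ne' (Nat.dvd_one.1 ((Nat.dvd_add_left
      ((h1.dvd_factorial.2 h3).mul_right m)).1 h4))
  have hJn : ∀ m, Ideal.absNorm (J m) = 1 + B.factorial * m := by
    intro m
    simp only [hJ]
    rw [map_list_prod, List.map_map, List.map_congr_left (f := Ideal.absNorm ∘ q) (g := id)
      fun r hr => hq r (hfac m r hr).1 (hfac m r hr).2, List.map_id,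
      Nat.prod_primeFactorsList (by omega)]
  have hcard : (T.sigma fun p => range (N / p)).card ≤ (idl F (B.factorial * N)).card := by
    refine card_le_card_of_injOn (fun x => q' x.1 * J x.2) (fun x hx => ?_) fun x hx y hy e => ?_
    · obtain ⟨h1, h3⟩ := mem_sigma.1 hx
      have h4 := hq1 _ (mem_filter.1 h1).2
      have h5 := (hTp _ h1).pos
      refine mem_idl.2 ⟨fun e => ?_, ?_⟩
      · have := congrArg Ideal.absNorm e
        rw [map_mul, h4, hJn, Ideal.absNorm_bot] at this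
        exact absurd this (by positivity)
      · rw [map_mul, h4, hJn]
        have h6 : x.2 + 1 ≤ N / x.1 := mem_range.1 h3
        have h7 := Nat.factorial_pos B
        calc _ ≤ x.1 * (B.factorial * (x.2 + 1)) := by gcongr; nlinarith
          _ ≤ x.1 * (B.factorial * (N / x.1)) := by gcongr
          _ = B.factorial * (x.1 * (N / x.1)) := by ring
          _ ≤ _ := Nat.mul_le_mul_left _ (Nat.mul_div_le _ _)
    · obtain ⟨p, m⟩ := x
      obtain ⟨p', m'⟩ := y
      have h1 := (mem_sigma.1 hx).1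
      have h1' := (mem_sigma.1 hy).1
      simp only at e h1 h1'
      have h4 := hq1 _ (mem_filter.1 h1).2
      have h4' := hq1 _ (mem_filter.1 h1').2
      have h5 := prime_of_norm (hTp _ h1) h4
      have h6 : p = p' := by
        rcases h5.dvd_or_dvd (e ▸ dvd_mul_right _ _ : q' p ∣ q' p' * J m') with h7 | h7
        · rw [← h4, ← h4', associated_iff_eq.1
            (h5.associated_of_dvd (prime_of_norm (hTp _ h1') h4') h7)]
        · obtain ⟨Q, hQ, h8⟩ := h5.dvd_prod_iff.1 h7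
          obtain ⟨r, hr, rfl⟩ := List.mem_map.1 hQ
          have h9 := hq r (hfac _ r hr).1 (hfac _ r hr).2
          have h10 := associated_iff_eq.1
            (h5.associated_of_dvd (prime_of_norm (hfac _ r hr).1 h9) h8)
          have h11 : p = r := by rw [← h4, h10, h9]
          exact absurd (h11 ▸ h10) (hq2 _ (mem_filter.1 h1).2)
      subst h6
      have h7 := congrArg Ideal.absNorm (mul_left_cancel₀ h5.ne_zero e)
      rw [hJn, hJn] at h7
      rw [Nat.eq_of_mul_eq_mul_left (Nat.factorial_pos B) (Nat.add_left_cancel h7)]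
  have h3 := (Nat.cast_le.2 hcard).trans (h2 _)
  rw [card_sigma] at h3
  push_cast at h3
  have hN' : (0 : ℝ) < N := by exact_mod_cast hN0
  refine le_of_mul_le_mul_right ?_ hN'
  rw [sum_mul, mul_assoc]
  refine le_trans (le_of_eq (sum_congr rfl fun p hp => ?_)) h3
  rw [card_range, Nat.cast_div (dvd_prod_of_mem _ hp) (Nat.cast_ne_zero.2 (hTp p hp).ne_zero)]
  ring

end Count

theorem absNorm_ker {F : Type} [Field F] [NumberField F] {p : ℕ} [Fact p.Prime]
    (ψ : 𝓞 F →+* ZMod p) : Ideal.absNorm (RingHom.ker ψ) = p := by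
  rw [Ideal.absNorm_apply, Submodule.cardQuot_apply, Nat.card_congr
    (RingHom.quotientKerEquivOfSurjective (ZMod.ringHom_surjective ψ)).toEquiv, Nat.card_zmod]

theorem exists_prime_no_ideal (K : Type) [Field K] [NumberField K] (hK : 2 ≤ Module.finrank ℚ K)
    (B : ℕ) : ∃ p : ℕ, p.Prime ∧ B < p ∧ ∀ Q : Ideal (𝓞 K), Ideal.absNorm Q ≠ p := by
  classical
  by_contra hcon
  push Not at hcon
  have hs := summable_split K B hcon
  obtain ⟨σ, τ, hne⟩ := Fintype.exists_pair_of_one_lt_card (α := K →ₐ[ℚ] ℂ)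
    (by rw [AlgHom.card]; omega)
  have f1 : FiniteDimensional ℚ σ.fieldRange :=
    (AlgEquiv.ofInjectiveField σ).toLinearEquiv.finiteDimensional
  have f2 : FiniteDimensional ℚ τ.fieldRange :=
    (AlgEquiv.ofInjectiveField τ).toLinearEquiv.finiteDimensional
  set L := σ.fieldRange ⊔ τ.fieldRange with hL
  have : NumberField L := ⟨⟩
  let σ' : 𝓞 K →+* 𝓞 L := RingOfIntegers.mapRingHom ((σ : K →+* ℂ).codRestrict L fun x =>
    (le_sup_left : σ.fieldRange ≤ L) ⟨x, rfl⟩)
  let τ' : 𝓞 K →+* 𝓞 L := RingOfIntegers.mapRingHom ((τ : K →+* ℂ).codRestrict L fun x =>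
    (le_sup_right : τ.fieldRange ≤ L) ⟨x, rfl⟩)
  obtain ⟨z, hz⟩ : ∃ z, σ' z - τ' z ≠ 0 := by
    by_contra h
    push Not at h
    refine hne (AlgHom.coe_ringHom_injective (IsFractionRing.ringHom_ext (A := 𝓞 K) fun z => ?_))
    exact congrArg (fun y : 𝓞 L => ((y : L) : ℂ)) (sub_eq_zero.1 (h z))
  set D := Ideal.absNorm (Ideal.span {σ' z - τ' z}) with hD
  have hD0 : 0 < D := Nat.pos_of_ne_zero fun e => hz
    (Ideal.span_singleton_eq_bot.1 (Ideal.absNorm_eq_zero_iff.1 e))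
  refine not_summable_deg_one L ((summable_nat_add_iff (B + D + 1)).1 (Summable.of_nonneg_of_le
    (fun p => by positivity) (fun m => ?_) ((summable_nat_add_iff (B + D + 1)).2 hs)))
  generalize hp : m + (B + D + 1) = p
  split_ifs with h1 h2
  · exact le_rfl
  · exfalso
    obtain ⟨h1, Q, hQ⟩ := h1
    have : Fact p.Prime := ⟨h1⟩
    have hc : Nat.card (𝓞 L ⧸ Q) = p := by rw [← hQ, Ideal.absNorm_apply, Submodule.cardQuot_apply]
    have : Finite (𝓞 L ⧸ Q) := Nat.finite_of_card_ne_zero (hc ▸ h1.ne_zero)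
    have := Fintype.ofFinite (𝓞 L ⧸ Q)
    let e := ZMod.ringEquivOfPrime (𝓞 L ⧸ Q) h1 (by rw [← Nat.card_eq_fintype_card, hc])
    let φ : 𝓞 L →+* ZMod p := (e.symm : _ →+* _).comp (Ideal.Quotient.mk Q)
    refine h2 ⟨h1, by omega, _, _, absNorm_ker (φ.comp σ'), absNorm_ker (φ.comp τ'), fun h => ?_⟩
    have h3 := DFunLike.congr_fun (ZMod.ringHom_eq_of_ker_eq _ _ h) z
    have h4 : σ' z - τ' z ∈ Q := Ideal.Quotient.eq.1 (e.symm.injective h3)
    have h5 := Ideal.absNorm_dvd_absNorm_of_le ((Ideal.span_singleton_le_iff_mem _).2 h4)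
    have := Nat.le_of_dvd hD0 h5
    omega
  · positivity
  · exact le_rfl

theorem exists_prime_no_root {ξ : ℝ} (hξ : IsIntegral ℤ ξ) (hd : 2 ≤ (minpoly ℤ ξ).natDegree)
    (B : ℕ) : ∃ p : ℕ, p.Prime ∧ B < p ∧
      ∀ x : ZMod p, ((minpoly ℤ ξ).map (Int.castRingHom (ZMod p))).eval x ≠ 0 := by
  have hq : IsIntegral ℚ ξ := hξ.tower_top
  set K := IntermediateField.adjoin ℚ {ξ} with hK
  have : FiniteDimensional ℚ K := IntermediateField.adjoin.finiteDimensional hq
  have : NumberField K := ⟨⟩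
  have hi : Function.Injective (algebraMap K ℝ) := (algebraMap K ℝ).injective
  let θ : 𝓞 K := ⟨IntermediateField.AdjoinSimple.gen ℚ ξ,
    (isIntegral_algHom_iff (IsScalarTower.toAlgHom ℤ K ℝ) hi).1 hξ⟩
  have hm : minpoly ℤ θ = minpoly ℤ ξ := by
    rw [← RingOfIntegers.minpoly_coe]
    exact (minpoly.algHom_eq (IsScalarTower.toAlgHom ℤ K ℝ) hi _).symm
  have hrank : 2 ≤ Module.finrank ℚ K := by
    rw [IntermediateField.adjoin.finrank hq, minpoly.isIntegrallyClosed_eq_field_fractions' ℚ hξ,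
      (minpoly.monic hξ).natDegree_map]
    exact hd
  have htop : Algebra.adjoin ℚ {algebraMap (𝓞 K) K θ} = ⊤ :=
    (IntermediateField.adjoin.powerBasis hq).adjoin_gen_eq_top
  have hexp : RingOfIntegers.exponent θ ≠ 0 := by
    intro h
    refine Ideal.under_ne_bot ℤ (fun h0 => ?_) (Ideal.absNorm_eq_zero_iff.1 h)
    have h1 := conductor_mul_differentIdeal ℤ ℚ K θ htop
    rw [h0, Ideal.bot_mul, eq_comm, Ideal.span_singleton_eq_bot] at h1
    have h2 := minpoly.isIntegrallyClosed_dvd θ.isIntegral h1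
    have h3 : derivative (minpoly ℤ θ) ≠ 0 := fun e => by
      have := derivative_eq_zero.1 e
      rw [hm] at this
      omega
    have h4 := natDegree_le_of_dvd h2 h3
    have h5 := natDegree_derivative_lt (p := minpoly ℤ θ) (by rw [hm]; omega)
    omega
  obtain ⟨p, hp, h1, h2⟩ := exists_prime_no_ideal K hrank (B + RingOfIntegers.exponent θ)
  refine ⟨p, hp, by omega, fun x hx => ?_⟩
  have : Fact p.Prime := ⟨hp⟩
  have h3 : ¬ p ∣ RingOfIntegers.exponent θ := fun h =>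
    absurd (Nat.le_of_dvd (Nat.pos_of_ne_zero hexp) h) (by omega)
  refine h2 _ (absNorm_ker (((Ideal.Quotient.lift _ (evalRingHom x) fun a ha => ?_).comp
    (RingOfIntegers.ZModXQuotSpanEquivQuotSpan h3).symm.toRingHom).comp (Ideal.Quotient.mk _)))
  obtain ⟨c, rfl⟩ := Ideal.mem_span_singleton.1 ha
  rw [hm, map_mul, coe_evalRingHom, hx, zero_mul]

end Pool.Agent.Lib.MP_f2f914_nt.DC
end
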