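import Mathlib

-- part Pool.Agent.Lib.MP_f2f914_nt.DCRamsey
section

namespace Pool.Agent.Lib.MP_f2f914_nt.DC

open Finset

/-- Finite hypergraph Ramsey theorem. -/
theorem ramsey (κ : Type) [Finite κ] (k : ℕ) : ∀ m : ℕ, ∃ N : ℕ,
    ∀ (α : Type) [DecidableEq α] (X : Finset α) (χ : Finset α → κ), N ≤ X.card →
      ∃ Y ⊆ X, m ≤ Y.card ∧ ∀ A ⊆ Y, ∀ B ⊆ Y, A.card = k → B.card = k → χ A = χ B := by
  induction k with
  | zero =>
    intro m
    refine ⟨m, fun α _ X χ h => ⟨X, Subset.refl _, h, ?_⟩⟩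
    intro A _ B _ hA hB
    rw [card_eq_zero.mp hA, card_eq_zero.mp hB]
  | succ k ih =>
    have aux : ∀ t : ℕ, ∃ N : ℕ,
        ∀ (α : Type) [DecidableEq α] (X : Finset α) (χ : Finset α → κ), N ≤ X.card →
          ∃ T ⊆ X, T.card = t ∧ ∃ γ : α → Option κ, (∀ x ∈ T, γ x ≠ none) ∧
            ∀ A ⊆ T, A.card = k + 1 → ∃ x ∈ A, γ x = some (χ A) := by
      intro t
      induction t with
      | zero =>
        refine ⟨0, fun α _ X χ _ => ⟨∅, empty_subset _, rfl, fun _ => none, by simp, ?_⟩⟩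
        intro A hA hc
        rw [subset_empty.mp hA] at hc
        simp at hc
      | succ t iht =>
        obtain ⟨Nt, hNt⟩ := iht
        obtain ⟨R, hR⟩ := ih (max Nt k)
        refine ⟨R + 1, fun α _ X χ hX => ?_⟩
        obtain ⟨x, hx⟩ : X.Nonempty := card_pos.mp (by omega)
        obtain ⟨Y, hYX, hYc, hY⟩ := hR α (X.erase x) (fun A => χ (insert x A))
          (by rw [card_erase_of_mem hx]; omega)
        obtain ⟨T, hTY, hTc, γ, hγ0, hγ⟩ := hNt α Y χ (le_trans (le_max_left _ _) hYc)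
        obtain ⟨A0, hA0Y, hA0c⟩ := exists_subset_card_eq (le_trans (le_max_right Nt k) hYc)
        have hxT : x ∉ T := fun h => by simpa using hYX (hTY h)
        refine ⟨insert x T, ?_, by rw [card_insert_of_notMem hxT, hTc],
          Function.update γ x (some (χ (insert x A0))), ?_, ?_⟩
        · intro y hy
          rcases mem_insert.mp hy with rfl | hy
          · exact hx
          · exact mem_of_mem_erase (hYX (hTY hy))
        · intro y hy
          by_cases hyx : y = x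
          · subst hyx; simp
          · rw [Function.update_of_ne hyx]
            rcases mem_insert.mp hy with h | h
            · exact absurd h hyx
            · exact hγ0 y h
        · intro A hA hAc
          by_cases hxA : x ∈ A
          · refine ⟨x, hxA, ?_⟩
            have h1 : A.erase x ⊆ Y := by
              intro y hy
              rcases mem_insert.mp (hA (mem_of_mem_erase hy)) with h | h
              · exact absurd h (ne_of_mem_erase hy)
              · exact hTY h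
            have h2 : (A.erase x).card = k := by rw [card_erase_of_mem hxA]; omega
            have h3 := hY A0 hA0Y (A.erase x) h1 hA0c h2
            simp only [insert_erase hxA] at h3
            simp [h3]
          · have h1 : A ⊆ T := by
              intro y hy
              rcases mem_insert.mp (hA hy) with h | h
              · exact absurd (h ▸ hy) hxA
              · exact h
            obtain ⟨y, hy, hy2⟩ := hγ A h1 hAc
            refine ⟨y, hy, ?_⟩
            have : y ≠ x := fun h => hxA (h ▸ hy)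
            rw [Function.update_of_ne this, hy2]
    intro m
    classical
    have : Fintype κ := Fintype.ofFinite κ
    obtain ⟨N, hN⟩ := aux (Fintype.card (Option κ) * m)
    refine ⟨N, fun α _ X χ hX => ?_⟩
    obtain ⟨T, hTX, hTc, γ, _, hγ⟩ := hN α X χ hX
    obtain ⟨b, _, hb⟩ := exists_le_card_fiber_of_mul_le_card_of_maps_to
      (s := T) (t := (univ : Finset (Option κ))) (f := γ) (n := m)
      (fun a _ => mem_univ _) univ_nonempty (by rw [hTc, card_univ])
    refine ⟨T.filter (fun x => γ x = b), (filter_subset _ _).trans hTX, hb, ?_⟩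
    intro A hA B hB hAc hBc
    obtain ⟨x, hx, hx2⟩ := hγ A (hA.trans (filter_subset _ _)) hAc
    obtain ⟨y, hy, hy2⟩ := hγ B (hB.trans (filter_subset _ _)) hBc
    have h1 := (mem_filter.mp (hA hx)).2
    have h2 := (mem_filter.mp (hB hy)).2
    have : some (χ A) = some (χ B) := by rw [← hx2, ← hy2, h1, h2]
    exact Option.some.inj this

theorem ramsey_sm (κ : Type) [Finite κ] (k m : ℕ) : ∃ N : ℕ, ∀ χ : (Fin k → Fin N) → κ,
    ∃ e : Fin m → Fin N, StrictMono e ∧ ∀ s s' : Fin k → Fin m, StrictMono s → StrictMono s' →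
      χ (e ∘ s) = χ (e ∘ s') := by
  classical
  obtain ⟨N, hN⟩ := ramsey (Option κ) k m
  refine ⟨N, fun χ => ?_⟩
  obtain ⟨Y, -, hY, h⟩ := hN (Fin N) univ
    (fun A => if hA : A.card = k then some (χ (A.orderEmbOfFin hA)) else none) (by simp)
  obtain ⟨Y', hY', hc⟩ := exists_subset_card_eq hY
  refine ⟨Y'.orderEmbOfFin hc, (Y'.orderEmbOfFin hc).strictMono, ?_⟩
  have key : ∀ s : Fin k → Fin m, StrictMono s → ∃ A ⊆ Y, ∃ hA : A.card = k,
      (Y'.orderEmbOfFin hc) ∘ s = A.orderEmbOfFin hA := by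
    intro s hs
    have hm : StrictMono ((Y'.orderEmbOfFin hc) ∘ s) := (Y'.orderEmbOfFin hc).strictMono.comp hs
    refine ⟨univ.image ((Y'.orderEmbOfFin hc) ∘ s), ?_, ?_, ?_⟩
    · intro x hx
      obtain ⟨i, -, rfl⟩ := mem_image.1 hx
      exact hY' (orderEmbOfFin_mem _ _ _)
    · rw [card_image_of_injective _ hm.injective]; simp
    · exact orderEmbOfFin_unique _ (fun x => mem_image_of_mem _ (mem_univ x)) hm
  intro s s' hs hs'
  obtain ⟨A, hA, hAc, e⟩ := key s hs
  obtain ⟨A', hA', hAc', e'⟩ := key s' hs'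
  have := h A hA A' hA' hAc hAc'
  simp only [dif_pos hAc, dif_pos hAc', Option.some.injEq] at this
  rw [e, e', this]

/-- Ramsey theorem for all sizes up to a bound simultaneously. -/
theorem ramsey_multi (κ : ℕ → Type) [∀ J, Finite (κ J)] (Js : ℕ) : ∀ m : ℕ, ∃ N : ℕ,
    ∀ χ : (J : ℕ) → (Fin J → Fin N) → κ J, ∃ e : Fin m → Fin N, StrictMono e ∧
      ∀ J ≤ Js, ∀ s s' : Fin J → Fin m, StrictMono s → StrictMono s' →
        χ J (e ∘ s) = χ J (e ∘ s') := by
  induction Js with
  | zero =>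
    intro m
    obtain ⟨N, hN⟩ := ramsey_sm (κ 0) 0 m
    refine ⟨N, fun χ => ?_⟩
    obtain ⟨e, he, h⟩ := hN (χ 0)
    refine ⟨e, he, fun J hJ => ?_⟩
    obtain rfl : J = 0 := by omega
    exact h
  | succ Js ih =>
    intro m
    obtain ⟨N1, hN1⟩ := ih m
    obtain ⟨N, hN⟩ := ramsey_sm (κ (Js + 1)) (Js + 1) N1
    refine ⟨N, fun χ => ?_⟩
    obtain ⟨e2, he2, h2⟩ := hN (χ (Js + 1))
    obtain ⟨e1, he1, h1⟩ := hN1 (fun J f => χ J (e2 ∘ f))
    refine ⟨e2 ∘ e1, he2.comp he1, fun J hJ s s' hs hs' => ?_⟩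
    rcases Nat.lt_or_ge J (Js + 1) with hlt | hge
    · exact h1 J (by omega) s s' hs hs'
    · obtain rfl : J = Js + 1 := by omega
      exact h2 (e1 ∘ s) (e1 ∘ s') (he1.comp hs) (he1.comp hs')

/-- The word obtained by interleaving the words `u c` according to `φ`. -/
def sh {e r n : ℕ} {L : Type} (φ : Fin e × Fin r ≃ Fin n) (u : Fin e → Fin r → L) : Fin n → L :=
  fun k => u (φ.symm k).1 (φ.symm k).2

theorem sh_lt {e r n : ℕ} {L : Type} [LinearOrder L] (φ : Fin e × Fin r ≃ Fin n)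
    (hφ : ∀ c, StrictMono (fun ρ => φ (c, ρ))) (u : Fin e → Fin r → L) (w : Fin r → L)
    (hu : ∀ c, toLex (u c) ≤ toLex w) (hne : ∃ c, u c ≠ w) :
    toLex (sh φ u) < toLex (sh φ (fun _ => w)) := by
  classical
  obtain ⟨c0, hc0⟩ := hne
  obtain ⟨ρ0, hρ0⟩ := Function.ne_iff.1 hc0
  set A : Finset (Fin n) := univ.filter (fun k => sh φ u k ≠ sh φ (fun _ => w) k) with hA
  have hAne : A.Nonempty := ⟨φ (c0, ρ0), mem_filter.2 ⟨mem_univ _, by simpa [sh] using hρ0⟩⟩
  set k0 := A.min' hAne with hk0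
  have hk0A : k0 ∈ A := A.min'_mem hAne
  have hbelow : ∀ k < k0, sh φ u k = sh φ (fun _ => w) k := by
    intro k hk
    by_contra h
    have : k ∈ A := by simpa [hA] using h
    exact absurd (A.min'_le k this) (not_le.2 hk)
  obtain ⟨⟨c, ρ⟩, hcρ⟩ := φ.surjective k0
  have hne' : u c ρ ≠ w ρ := by
    have := (mem_filter.1 hk0A).2
    rw [← hcρ] at this
    simpa [sh] using this
  have hpre : ∀ ρ' < ρ, u c ρ' = w ρ' := by
    intro ρ' h
    have := hbelow (φ (c, ρ')) (by rw [← hcρ]; exact hφ c h)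
    simpa [sh] using this
  have hlt : toLex (u c) < toLex w :=
    lt_of_le_of_ne (hu c) (fun h => hne' (congrFun (toLex.injective h) ρ))
  obtain ⟨i, hi1, hi2⟩ := hlt
  have hiρ : i = ρ := by
    rcases lt_trichotomy i ρ with h | h | h
    · exact absurd (hpre i h) (ne_of_lt hi2)
    · exact h
    · exact absurd (hi1 ρ h) hne'
  subst hiρ
  refine ⟨k0, hbelow, ?_⟩
  rw [← hcρ]
  simpa [sh] using hi2

/-- Interleaving `e` copies of `Fin J` so that the marked positions `p` are arranged as `φ`. -/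
theorem exists_interleave {e r J : ℕ} (φ : Fin e × Fin r ≃ Fin (e * r))
    (hφ : ∀ c, StrictMono (fun ρ => φ (c, ρ))) (p : Fin r → Fin J) (hp : StrictMono p) :
    ∃ idx : Fin e × Fin J → Fin (e * J), Function.Injective idx ∧
      (∀ c, StrictMono (fun y => idx (c, y))) ∧
      StrictMono (fun k => idx ((φ.symm k).1, p (φ.symm k).2)) := by
  classical
  set rk : Fin J → ℕ := fun y => (univ.filter (fun ρ => p ρ < y)).card with hrk
  have hrkp : ∀ ρ0, rk (p ρ0) = ρ0 := by
    intro ρ0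
    have : univ.filter (fun ρ => p ρ < p ρ0) = Finset.Iio ρ0 := by
      ext ρ; simp [hp.lt_iff_lt]
    simp [hrk, this]
  have hrkmono : Monotone rk := by
    intro y y' h
    refine card_le_card fun ρ hρ => ?_
    simp only [mem_filter, mem_univ, true_and] at hρ ⊢
    exact lt_of_lt_of_le hρ h
  have hrkle : ∀ y, rk y ≤ r := fun y => by
    simpa using card_filter_le (univ : Finset (Fin r)) (fun ρ => p ρ < y)
  set posc : Fin e → ℕ → ℕ := fun c a =>
    if h : a < r then (φ (c, ⟨a, h⟩) : ℕ) else e * r + c with hposc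
  have hposmono : ∀ c a a', a < a' → a' ≤ r → posc c a < posc c a' := by
    intro c a a' h h'
    have ha : a < r := lt_of_lt_of_le h h'
    simp only [hposc, dif_pos ha]
    split_ifs with h2
    · exact hφ c (show (⟨a, ha⟩ : Fin r) < ⟨a', h2⟩ from h)
    · have := (φ (c, ⟨a, ha⟩)).2
      omega
  have hposinj : ∀ c c' a a', posc c a = posc c' a' → c = c' := by
    intro c c' a a' h
    simp only [hposc] at h
    split_ifs at h with h1 h2 h2
    · have := φ.injective (Fin.ext h)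
      exact (Prod.ext_iff.1 this).1
    · have := (φ (c, ⟨a, h1⟩)).2
      omega
    · have := (φ (c', ⟨a', h2⟩)).2
      omega
    · exact Fin.ext (by omega)
  set key : Fin e × Fin J → ℕ ×ₗ Fin J := fun x => toLex (posc x.1 (rk x.2), x.2) with hkey
  have hkinj : Function.Injective key := by
    rintro ⟨c, y⟩ ⟨c', y'⟩ h
    have h' := toLex.injective h
    simp only [Prod.mk.injEq] at h'
    exact Prod.ext (hposinj _ _ _ _ h'.1) h'.2
  set Y := univ.image key with hY
  have hYc : Y.card = e * J := by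
    rw [hY, card_image_of_injective _ hkinj]; simp
  set ψ := Y.orderIsoOfFin hYc with hψ
  have hmem : ∀ x, key x ∈ Y := fun x => mem_image_of_mem _ (mem_univ x)
  have hlt : ∀ x x', key x < key x' → ψ.symm ⟨key x, hmem x⟩ < ψ.symm ⟨key x', hmem x'⟩ :=
    fun x x' h => ψ.symm.strictMono (show (⟨key x, hmem x⟩ : Y) < ⟨key x', hmem x'⟩ from h)
  refine ⟨fun x => ψ.symm ⟨key x, hmem x⟩, ?_, ?_, ?_⟩
  · intro x x' h
    exact hkinj (congrArg Subtype.val (ψ.symm.injective h))
  · intro c y y' h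
    refine hlt _ _ ?_
    simp only [hkey, Prod.Lex.toLex_lt_toLex]
    rcases (hrkmono h.le).lt_or_eq with h1 | h1
    · exact Or.inl (hposmono c _ _ h1 (hrkle _))
    · exact Or.inr ⟨by rw [h1], h⟩
  · intro k k' h
    refine hlt _ _ ?_
    simp only [hkey, Prod.Lex.toLex_lt_toLex, hrkp]
    left
    simp only [hposc, Fin.is_lt, dif_pos, Fin.eta, Prod.mk.eta, Equiv.apply_symm_apply]
    exact h

end Pool.Agent.Lib.MP_f2f914_nt.DC
end

-- part Pool.Agent.Lib.MP_f2f914_nt.DCComb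
section

/-!
The combinatorial core: Ramsey homogeneity and the lexicographically largest shuffle.
-/

namespace Pool.Agent.Lib.MP_f2f914_nt.DC

open Finset

/-- Total displacement of the tuple `π` with respect to the tuple `α`. -/
def dev {Ω ι : Type} [Fintype ι] (pos : Ω → ℝ) (α π : ι → Ω) : ℝ :=
  ∑ i, (pos (π i) - pos (α i))

/-- The block with members `s ρ` and letters `w ρ`. -/
def blk {j D B r : ℕ} (dec : Fin B ≃ Finset (Fin D)) (s : Fin r → Fin j) (w : Fin r → Fin B) :
    Finset (Fin j × Fin D) :=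
  univ.filter (fun x => ∃ ρ, x.1 = s ρ ∧ x.2 ∈ dec (w ρ))

theorem mem_blk {j D B r : ℕ} (dec : Fin B ≃ Finset (Fin D)) {s : Fin r → Fin j}
    (hs : Function.Injective s) (w : Fin r → Fin B) (ρ : Fin r) (d : Fin D) :
    (s ρ, d) ∈ blk dec s w ↔ d ∈ dec (w ρ) := by
  simp only [blk, mem_filter, mem_univ, true_and]
  constructor
  · rintro ⟨ρ', h1, h2⟩
    rw [hs h1]; exact h2
  · intro h; exact ⟨ρ, rfl, h⟩

theorem image_blk {j D B r : ℕ} (dec : Fin B ≃ Finset (Fin D)) (s : Fin r → Fin j)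
    (w : Fin r → Fin B) (hw : ∀ ρ, (dec (w ρ)).Nonempty) :
    (blk dec s w).image Prod.fst = univ.image s := by
  ext i
  simp only [blk, mem_image, mem_filter, mem_univ, true_and]
  constructor
  · rintro ⟨x, ⟨ρ, h1, -⟩, rfl⟩
    exact ⟨ρ, h1.symm⟩
  · rintro ⟨ρ, rfl⟩
    obtain ⟨d, hd⟩ := hw ρ
    exact ⟨(s ρ, d), ⟨ρ, rfl, hd⟩, rfl⟩

theorem exists_blk {j D B J r : ℕ} (dec : Fin B ≃ Finset (Fin D)) (f : Fin J → Fin j)
    (hf : Function.Injective f) (S : Finset (Fin j × Fin D))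
    (hS : ∀ x ∈ S, x.1 ∈ Set.range f) (hr : (S.image Prod.fst).card = r) :
    ∃ (p : Fin r → Fin J) (w : Fin r → Fin B), StrictMono p ∧ (∀ ρ, (dec (w ρ)).Nonempty) ∧
      S = blk dec (f ∘ p) w := by
  classical
  set Y : Finset (Fin J) := univ.filter (fun y => f y ∈ S.image Prod.fst) with hY
  have hYc : Y.card = r := by
    rw [← hr, ← card_image_of_injective Y hf]
    congr 1
    ext i
    simp only [hY, mem_image, mem_filter, mem_univ, true_and]
    constructor
    · rintro ⟨y, hy, rfl⟩; exact hy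
    · rintro ⟨x, hx, rfl⟩
      obtain ⟨y, hy⟩ := hS x hx
      exact ⟨y, ⟨x, hx, hy.symm⟩, hy⟩
  refine ⟨Y.orderEmbOfFin hYc, fun ρ => dec.symm
    (univ.filter (fun d => (f (Y.orderEmbOfFin hYc ρ), d) ∈ S)),
    (Y.orderEmbOfFin hYc).strictMono, ?_, ?_⟩
  · intro ρ
    obtain ⟨x, hx, hx1⟩ := mem_image.1 (mem_filter.1 (orderEmbOfFin_mem Y hYc ρ)).2
    refine ⟨x.2, ?_⟩
    simp only [Equiv.apply_symm_apply, mem_filter, mem_univ, true_and]
    rw [← hx1]; exact hx
  · ext x
    simp only [blk, mem_filter, mem_univ, true_and, Function.comp, Equiv.apply_symm_apply]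
    constructor
    · intro hx
      obtain ⟨y, hy⟩ := hS x hx
      have hyY : y ∈ Y := by
        simp only [hY, mem_filter, mem_univ, true_and, mem_image]
        exact ⟨x, hx, hy.symm⟩
      have : y ∈ Set.range (Y.orderEmbOfFin hYc) := by
        rw [range_orderEmbOfFin]; exact hyY
      obtain ⟨ρ, hρ⟩ := this
      refine ⟨ρ, by rw [hρ, hy], ?_⟩
      rw [hρ, hy]; exact hx
    · rintro ⟨ρ, h1, h2⟩
      rw [← h1] at h2; exact h2

theorem sum_extend {ι κ Ω : Type} [Fintype ι] [Fintype κ] [DecidableEq ι] (σ : κ → ι)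
    (hσ : Function.Injective σ) (β : κ → Ω) (π : ι → Ω) (F : Ω → ℝ) :
    ∑ i, F (Function.extend σ β π i) = ∑ i, F (π i) + (∑ c, F (β c) - ∑ c, F (π (σ c))) := by
  classical
  have h1 : ∀ i, F (Function.extend σ β π i) - F (π i) =
      ∑ c, if σ c = i then F (β c) - F (π (σ c)) else 0 := by
    intro i
    by_cases h : ∃ c, σ c = i
    · obtain ⟨c, rfl⟩ := h
      rw [hσ.extend_apply, Finset.sum_eq_single c]
      · simp
      · intro c' _ hc'
        rw [if_neg (fun h => hc' (hσ h))]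
      · simp
    · rw [Function.extend_apply' _ _ _ h]
      push Not at h
      simp [h]
  have h2 : ∑ i, (F (Function.extend σ β π i) - F (π i)) =
      ∑ c, (F (β c) - F (π (σ c))) := by
    simp_rw [h1]
    rw [Finset.sum_comm]
    simp
  rw [Finset.sum_sub_distrib, Finset.sum_sub_distrib] at h2
  linarith

/-- A block occurs in a representation supported on the range of `f`. -/
def Occ {Ω : Type} {j D J : ℕ} (pos : Ω → ℝ) (Z : ℝ) (S : Ω → Finset (Fin j × Fin D))
    (α : Fin j → Ω) (f : Fin J → Fin j) (X : Finset (Fin j × Fin D)) : Prop :=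
  ∃ (π : Fin j → Ω) (a : Fin j), |dev pos α π| ≤ (J : ℝ) ^ 2 * Z ∧
    (∀ i, i ∉ Set.range f → π i = α i) ∧ a ∈ Set.range f ∧ S (π a) = X

theorem exists_stable {W : Type} [Fintype W] [LinearOrder W] (x : ℕ → W)
    (hx : ∀ i < Fintype.card W, x i ≤ x (i + 1)) : ∃ i < Fintype.card W, x (i + 1) = x i := by
  by_contra h
  push Not at h
  have hsm : StrictMono (fun i : Fin (Fintype.card W + 1) => x i) := by
    refine Fin.strictMono_iff_lt_succ.2 fun i => ?_
    exact lt_of_le_of_ne (hx i i.2) (h i i.2).symm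
  have := Fintype.card_le_of_injective _ hsm.injective
  simp at this

theorem comb (K : Type) [Field K] [Finite K] (e D : ℕ) (he : 2 ≤ e) : ∃ j : ℕ, 1 ≤ j ∧
    ∀ (Ω : Type) (pos : Ω → ℝ) (val : Ω → K) (Z : ℝ) (S : Ω → Finset (Fin j × Fin D))
      (T : Finset (Fin j × Fin D)) (α : Fin j → Ω), 0 ≤ Z → (∀ ω, val ω ≠ 0) →
      (∀ π, |dev pos α π| ≤ (j : ℝ) ^ 2 * Z → ∀ a b x, x ∈ S (π a) → x ∈ S (π b) → a = b) →
      (∀ π, |dev pos α π| ≤ (j : ℝ) ^ 2 * Z → ∀ x, x ∈ T ↔ ∃ a, x ∈ S (π a)) →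
      (∀ π π', |dev pos α π| ≤ (j : ℝ) ^ 2 * Z → |dev pos α π'| ≤ (j : ℝ) ^ 2 * Z →
        ∀ a b, S (π a) = S (π' b) → val (π a) = val (π' b)) →
      (∀ π, |dev pos α π| ≤ (j : ℝ) ^ 2 * Z → ∀ a, ((S (π a)).image Prod.fst).card ≤ D) →
      (∀ x ∈ T, x ∈ S (α x.1)) →
      (∀ π, |dev pos α π| + Z ≤ (j : ℝ) ^ 2 * Z → ∀ σ : Fin e → Fin j, Function.Injective σ →
        ∃ B : Finset (Fin e → Ω), (B.card : K) ≠ 0 ∧ ∑ β ∈ B, ∏ c, val (β c) = 0 ∧
          ∀ β ∈ B, |∑ c, pos (β c) - ∑ c, pos (π (σ c))| ≤ Z) → False := by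
  classical
  set B := Fintype.card (Finset (Fin D)) with hB
  set dec : Fin B ≃ Finset (Fin D) := (Fintype.equivFin _).symm with hdec
  set W := Σₗ r : Fin (D + 1), Lex (Fin r → Fin B) with hW
  have : Finite W := Finite.of_equiv (Σ r : Fin (D + 1), (Fin r → Fin B)) (Equiv.refl _)
  have : Fintype W := Fintype.ofFinite W
  set Js := e ^ Fintype.card W + D with hJs
  obtain ⟨j, hj⟩ := ramsey_multi
    (fun J => (r : Fin (D + 1)) → (Fin r → Fin J) → (Fin r → Fin B) → Prop × Option K) Js Js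
  have hepos : ∀ i, 1 ≤ e ^ i := fun i => Nat.one_le_pow _ _ (by omega)
  have hJj : Js ≤ j := by
    obtain ⟨E, hE, -⟩ := hj (fun J f r p w => (True, none))
    simpa using Fintype.card_le_of_injective _ hE.injective
  refine ⟨j, le_trans (by have := hepos (Fintype.card W); omega) hJj, ?_⟩
  intro Ω pos val Z S T α hZ hval P1 P2 P3 P4 P5 P6
  set g : Finset (Fin j × Fin D) → Option K := fun X =>
    if h : ∃ (π : Fin j → Ω) (a : Fin j), |dev pos α π| ≤ (j : ℝ) ^ 2 * Z ∧ S (π a) = X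
    then some (val (h.choose h.choose_spec.choose)) else none with hg
  have hgS : ∀ π a, |dev pos α π| ≤ (j : ℝ) ^ 2 * Z → g (S (π a)) = some (val (π a)) := by
    intro π a hπ
    have h : ∃ (π' : Fin j → Ω) (a' : Fin j), |dev pos α π'| ≤ (j : ℝ) ^ 2 * Z ∧
      S (π' a') = S (π a) := ⟨π, a, hπ, rfl⟩
    simp only [hg, dif_pos h]
    rw [P3 _ _ h.choose_spec.choose_spec.1 hπ _ _ h.choose_spec.choose_spec.2]
  obtain ⟨E, hE, hhom⟩ := hj (fun J f r p w =>
    (Occ pos Z S α f (blk dec (f ∘ p) w), g (blk dec (f ∘ p) w)))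
  have htol : ∀ J ≤ Js, ∀ y : ℝ, y ≤ (J : ℝ) ^ 2 * Z → y ≤ (j : ℝ) ^ 2 * Z := by
    intro J hJ y hy
    refine hy.trans (mul_le_mul_of_nonneg_right ?_ hZ)
    have : (J : ℝ) ≤ j := by exact_mod_cast hJ.trans hJj
    gcongr
  have hdev0 : dev pos α α = 0 := by simp [dev]
  have hα : |dev pos α α| ≤ (j : ℝ) ^ 2 * Z := by rw [hdev0, abs_zero]; positivity
  -- blocks of supported representations only use members in the support
  have hsupp : ∀ {J : ℕ} (f : Fin J → Fin j) (π : Fin j → Ω) (a : Fin j),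
      |dev pos α π| ≤ (j : ℝ) ^ 2 * Z → (∀ i, i ∉ Set.range f → π i = α i) →
      a ∈ Set.range f → ∀ x ∈ S (π a), x.1 ∈ Set.range f := by
    intro J f π a hπ hout ha x hx
    by_contra hx1
    have hT : x ∈ T := (P2 π hπ x).2 ⟨a, hx⟩
    have h2 : x ∈ S (π x.1) := by rw [hout _ hx1]; exact P5 x hT
    exact hx1 (P1 π hπ _ _ x h2 hx ▸ ha)
  set OccW : ℕ → W → Prop := fun J x => ∃ (hJ : J ≤ Js) (p : Fin x.1 → Fin J), StrictMono p ∧
    (∀ ρ, (dec (ofLex x.2 ρ)).Nonempty) ∧
    Occ pos Z S α (E ∘ Fin.castLE hJ) (blk dec ((E ∘ Fin.castLE hJ) ∘ p) (ofLex x.2)) with hOccW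
  have hmono : ∀ J J', J ≤ J' → J' ≤ Js → ∀ x, OccW J x → OccW J' x := by
    rintro J J' hJJ hJ' x ⟨hJ, p, hp, hne, π, a, h1, h2, h3, h4⟩
    have hr : Set.range (E ∘ Fin.castLE hJ) ⊆ Set.range (E ∘ Fin.castLE hJ') := by
      rintro _ ⟨y, rfl⟩
      exact ⟨Fin.castLE hJJ y, rfl⟩
    refine ⟨hJ', Fin.castLE hJJ ∘ p, (Fin.strictMono_castLE hJJ).comp hp, hne, π, a, ?_,
      fun i hi => h2 i (fun h => hi (hr h)), hr h3, h4⟩
    refine h1.trans (mul_le_mul_of_nonneg_right ?_ hZ)
    have : (J : ℝ) ≤ J' := by exact_mod_cast hJJ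
    gcongr
  have hextract : ∀ (J : ℕ) (hJ : J ≤ Js) (X : Finset (Fin j × Fin D)),
      Occ pos Z S α (E ∘ Fin.castLE hJ) X → ∀ r : Fin (D + 1), (X.image Prod.fst).card = r →
      ∃ (p : Fin r → Fin J) (w : Fin r → Fin B), StrictMono p ∧ (∀ ρ, (dec (w ρ)).Nonempty) ∧
        X = blk dec ((E ∘ Fin.castLE hJ) ∘ p) w ∧ OccW J ⟨r, toLex w⟩ := by
    intro J hJ X hX r hr
    obtain ⟨π, a, h1, h2, h3, h4⟩ := id hX
    obtain ⟨p, w, hp, hw, hXw⟩ := exists_blk dec (E ∘ Fin.castLE hJ)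
      (hE.injective.comp (Fin.castLE_injective hJ)) X
      (h4 ▸ hsupp _ π a (htol J hJ _ h1) h2 h3) hr
    exact ⟨p, w, hp, hw, hXw, hJ, p, hp, hw, hXw ▸ hX⟩
  have hcard : ∀ (J : ℕ) (hJ : J ≤ Js) (X : Finset (Fin j × Fin D)),
      Occ pos Z S α (E ∘ Fin.castLE hJ) X → (X.image Prod.fst).card < D + 1 := by
    rintro J hJ X ⟨π, a, h1, -, -, rfl⟩
    exact Nat.lt_succ_of_le (P4 π (htol J hJ _ h1) a)
  have hpowle : ∀ i ≤ Fintype.card W, e ^ i ≤ Js := fun i hi =>
    le_trans (Nat.pow_le_pow_right (by omega) hi) (Nat.le_add_right _ _)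
  have hex : ∀ i : ℕ, ∃ x : W, i ≤ Fintype.card W →
      OccW (e ^ i) x ∧ ∀ y, OccW (e ^ i) y → y ≤ x := by
    intro i
    by_cases hi : i ≤ Fintype.card W
    · have hJ := hpowle i hi
      have hO : Occ pos Z S α (E ∘ Fin.castLE hJ)
          (S (α ((E ∘ Fin.castLE hJ) ⟨0, hepos i⟩))) :=
        ⟨α, _, by rw [hdev0, abs_zero]; positivity, fun _ _ => rfl, ⟨_, rfl⟩, rfl⟩
      obtain ⟨p, w, -, -, -, hw⟩ := hextract _ hJ _ hO ⟨_, hcard _ hJ _ hO⟩ rfl
      obtain ⟨x, hx, hmax⟩ := Finset.exists_max_image (univ.filter (OccW (e ^ i))) id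
        ⟨_, mem_filter.2 ⟨mem_univ _, hw⟩⟩
      exact ⟨x, fun _ => ⟨(mem_filter.1 hx).2, fun y hy =>
        hmax y (mem_filter.2 ⟨mem_univ _, hy⟩)⟩⟩
    · exact ⟨⟨0, toLex Fin.elim0⟩, fun h => absurd h hi⟩
  choose xs hxs using hex
  obtain ⟨i, hi, hst⟩ := exists_stable xs (fun i hi =>
    (hxs (i + 1) hi).2 _ (hmono _ _ (Nat.pow_le_pow_right (by omega) (Nat.le_succ i))
      (hpowle _ hi) _ (hxs i hi.le).1))
  have hmax : ∀ y, OccW (e * e ^ i) y → y ≤ xs i := by
    intro y hy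
    rw [← hst]
    exact (hxs (i + 1) hi).2 y (by rw [pow_succ']; exact hy)
  have hU : e * e ^ i ≤ Js := by rw [← pow_succ']; exact hpowle _ hi
  have hJ1 := hepos i
  have hocc := (hxs i hi.le).1
  generalize e ^ i = J at hmax hU hJ1 hocc
  generalize xs i = x at hmax hocc
  obtain ⟨r, w⟩ := x
  obtain ⟨hJ, p, hp, hne, hO⟩ := hocc
  change Fin r → Fin J at p
  replace hne : ∀ ρ : Fin r, (dec (ofLex w ρ)).Nonempty := hne
  replace hO : Occ pos Z S α (E ∘ Fin.castLE hJ)
    (blk dec ((E ∘ Fin.castLE hJ) ∘ p) (ofLex w)) := hO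
  obtain ⟨w, rfl⟩ := toLex.surjective w
  simp only [ofLex_toLex] at hne hO
  -- the lexicographically largest interleaving
  obtain ⟨φ, hφ, hφmax⟩ := Finset.exists_max_image
    (univ.filter (fun φ : Fin e × Fin r ≃ Fin (e * r) => ∀ c, StrictMono (fun ρ => φ (c, ρ))))
    (fun φ => toLex (sh φ (fun _ => w))) ⟨finProdFinEquiv, by
      simp only [mem_filter, mem_univ, true_and]
      intro c ρ ρ' h
      simp only [Fin.lt_def, finProdFinEquiv_apply_val]
      have : (ρ : ℕ) < ρ' := h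
      omega⟩
  replace hφ := (mem_filter.1 hφ).2
  obtain ⟨idx, hidx, hidxm, hη⟩ := exists_interleave φ hφ p hp
  set fU : Fin (e * J) → Fin j := E ∘ Fin.castLE hU with hfU
  have hfUi : Function.Injective fU := hE.injective.comp (Fin.castLE_injective hU)
  set η : Fin (e * r) → Fin (e * J) := fun k => idx ((φ.symm k).1, p (φ.symm k).2) with hηdef
  have hηφ : ∀ c ρ, η (φ (c, ρ)) = idx (c, p ρ) := by intro c ρ; simp [hηdef]
  have hcopy : ∀ c, Occ pos Z S α (fun y => fU (idx (c, y)))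
      (blk dec (fun ρ => fU (idx (c, p ρ))) w) := by
    intro c
    have := hhom J hJ (Fin.castLE hJ) (fun y => Fin.castLE hU (idx (c, y)))
      (Fin.strictMono_castLE hJ) ((Fin.strictMono_castLE hU).comp (hidxm c))
    have h2 := congrArg Prod.fst (congrFun (congrFun (congrFun this r) p) w)
    exact h2.mp hO
  choose πc ac hc1 hc2 hc3 hc4 using hcopy
  have hdisj : ∀ c c' i, i ∈ Set.range (fun y => fU (idx (c, y))) →
      i ∈ Set.range (fun y => fU (idx (c', y))) → c = c' := by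
    rintro c c' i ⟨y, rfl⟩ ⟨y', h⟩
    exact (Prod.ext_iff.1 (hidx (hfUi h))).1.symm
  set π : Fin j → Ω := fun i =>
    if h : ∃ c, i ∈ Set.range (fun y => fU (idx (c, y))) then πc h.choose i else α i with hπ
  have hπc : ∀ c i, i ∈ Set.range (fun y => fU (idx (c, y))) → π i = πc c i := by
    intro c i hi
    have h : ∃ c, i ∈ Set.range (fun y => fU (idx (c, y))) := ⟨c, hi⟩
    simp only [hπ, dif_pos h]
    rw [hdisj _ _ i h.choose_spec hi]
  have hπout : ∀ i, i ∉ Set.range fU → π i = α i := by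
    intro i hi
    have h : ¬ ∃ c, i ∈ Set.range (fun y => fU (idx (c, y))) := by
      rintro ⟨c, y, hy⟩; exact hi ⟨_, hy⟩
    simp only [hπ, dif_neg h]
  have hdevπ : dev pos α π = ∑ c, dev pos α (πc c) := by
    simp only [dev]
    rw [Finset.sum_comm]
    refine Finset.sum_congr rfl fun i _ => ?_
    by_cases h : ∃ c, i ∈ Set.range (fun y => fU (idx (c, y)))
    · obtain ⟨c, hc⟩ := h
      rw [hπc c i hc, Finset.sum_eq_single c]
      · intro c' _ hc'
        rw [hc2 c' i (fun h => hc' (hdisj _ _ i h hc)), sub_self]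
      · simp
    · simp only [hπ, dif_neg h, sub_self]
      refine (Finset.sum_eq_zero fun c _ => ?_).symm
      rw [hc2 c i (fun h' => h ⟨c, h'⟩), sub_self]
  have hdevle : |dev pos α π| + Z ≤ ((e * J : ℕ) : ℝ) ^ 2 * Z := by
    have h1 : |dev pos α π| ≤ e * ((J : ℝ) ^ 2 * Z) := by
      rw [hdevπ]
      refine (Finset.abs_sum_le_sum_abs _ _).trans ?_
      refine (Finset.sum_le_sum fun c _ => hc1 c).trans ?_
      simp
    have h2 : (2 : ℝ) ≤ e := by exact_mod_cast he
    have h3 : (1 : ℝ) ≤ J := by exact_mod_cast hJ1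
    have h4 : (1 : ℝ) ≤ (J : ℝ) ^ 2 := one_le_pow₀ h3
    have h5 : (e : ℝ) * (J : ℝ) ^ 2 + 1 ≤ (e * J : ℝ) ^ 2 := by nlinarith
    push_cast
    nlinarith
  have hσ : Function.Injective ac := fun c c' h => hdisj c c' _ (hc3 c) (h ▸ hc3 c')
  have hπσ : ∀ c, S (π (ac c)) = blk dec (fun ρ => fU (idx (c, p ρ))) w := by
    intro c; rw [hπc c _ (hc3 c), hc4 c]
  have hπrep : |dev pos α π| ≤ (j : ℝ) ^ 2 * Z := htol _ hU _ (by linarith)
  obtain ⟨Bs, hB1, hB2, hB3⟩ := P6 π (htol _ hU _ hdevle) ac hσ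
  have hrJs : (r : ℕ) ≤ Js := by have := r.2; omega
  -- the common value
  have hvalw : ∀ s : Fin r → Fin (e * J), StrictMono s →
      g (blk dec (fU ∘ s) w) = g (blk dec (E ∘ Fin.castLE hrJs) w) := by
    intro s hs
    have := hhom r hrJs (Fin.castLE hU ∘ s) (Fin.castLE hrJs)
      ((Fin.strictMono_castLE hU).comp hs) (Fin.strictMono_castLE hrJs)
    exact congrArg Prod.snd (congrFun (congrFun (congrFun this r) id) w)
  set c0 : Fin e := ⟨0, by omega⟩ with hc0
  have hγ : g (blk dec (E ∘ Fin.castLE hrJs) w) = some (val (π (ac c0))) := by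
    rw [← hvalw (fun ρ => idx (c0, p ρ)) ((hidxm c0).comp hp), ← hgS π _ hπrep, hπσ]
    rfl
  have hall : ∀ β ∈ Bs, ∀ c, val (β c) = val (π (ac c0)) := by
    intro β hβ
    set π2 := Function.extend ac β π with hπ2
    have hπ2σ : ∀ c, π2 (ac c) = β c := fun c => hσ.extend_apply _ _ _
    have hπ2out : ∀ i, (¬ ∃ c, ac c = i) → π2 i = π i := fun i h =>
      Function.extend_apply' _ _ _ h
    have hdev2 : |dev pos α π2| ≤ ((e * J : ℕ) : ℝ) ^ 2 * Z := by
      have h1 : dev pos α π2 = dev pos α π + (∑ c, pos (β c) - ∑ c, pos (π (ac c))) := by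
        simp only [dev, Finset.sum_sub_distrib]
        rw [hπ2, sum_extend ac hσ β π pos]
        ring
      rw [h1]
      exact (abs_add_le _ _).trans (by linarith [hB3 β hβ])
    have hrep2 := htol _ hU _ hdev2
    have hacU : ∀ c, ac c ∈ Set.range fU := fun c => by
      obtain ⟨y, hy⟩ := hc3 c
      exact ⟨_, hy⟩
    have hOc : ∀ c, Occ pos Z S α fU (S (β c)) := by
      intro c
      refine ⟨π2, ac c, hdev2, fun i hi => ?_, hacU c, by rw [hπ2σ]⟩
      rw [hπ2out i (by rintro ⟨c, rfl⟩; exact hi (hacU c)), hπout i hi]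
    have hun : ∀ x, (∃ c, x ∈ S (β c)) ↔ ∃ c, x ∈ S (π (ac c)) := by
      intro x
      constructor
      · rintro ⟨c, hc⟩
        rw [← hπ2σ] at hc
        obtain ⟨a, ha⟩ := (P2 π hπrep x).1 ((P2 π2 hrep2 x).2 ⟨_, hc⟩)
        by_cases h : ∃ c, ac c = a
        · obtain ⟨c', rfl⟩ := h; exact ⟨c', ha⟩
        · rw [← hπ2out a h] at ha
          exact absurd ⟨c, P1 π2 hrep2 _ _ x hc ha⟩ h
      · rintro ⟨c, hc⟩
        obtain ⟨a, ha⟩ := (P2 π2 hrep2 x).1 ((P2 π hπrep x).2 ⟨_, hc⟩)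
        by_cases h : ∃ c, ac c = a
        · obtain ⟨c', rfl⟩ := h
          rw [hπ2σ] at ha; exact ⟨c', ha⟩
        · rw [hπ2out a h] at ha
          exact absurd ⟨c, P1 π hπrep _ _ x hc ha⟩ h
    have hle : ∀ c, ((S (β c)).image Prod.fst).card ≤ r := by
      intro c
      obtain ⟨p', w', -, -, -, hw'⟩ := hextract _ hU _ (hOc c) ⟨_, hcard _ hU _ (hOc c)⟩ rfl
      have := Sigma.Lex.le_def.1 (hmax _ hw')
      rcases this with h | ⟨h, -⟩
      · exact le_of_lt h
      · exact le_of_eq (congrArg Fin.val h)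
    have hcover : ∀ k, ∃ c, fU (η k) ∈ (S (β c)).image Prod.fst := by
      intro k
      obtain ⟨⟨c, ρ⟩, rfl⟩ := φ.surjective k
      obtain ⟨d, hd⟩ := hne ρ
      have h1 : (fU (idx (c, p ρ)), d) ∈ S (π (ac c)) := by
        rw [hπσ]
        exact (mem_blk dec (s := fun ρ => fU (idx (c, p ρ)))
          (hfUi.comp ((hidxm c).comp hp).injective) w ρ d).2 hd
      obtain ⟨c', hc'⟩ := (hun _).2 ⟨c, h1⟩
      exact ⟨c', mem_image.2 ⟨_, hc', by rw [hηφ]⟩⟩
    have heq : ∀ c, ((S (β c)).image Prod.fst).card = r := by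
      have h1 : e * r ≤ ∑ c, ((S (β c)).image Prod.fst).card := by
        refine le_trans ?_ (card_biUnion_le (s := univ)
          (t := fun c => (S (β c)).image Prod.fst))
        have : (univ.image (fun k => fU (η k))).card = e * r := by
          rw [card_image_of_injective _ (f := fun k => fU (η k)) (hfUi.comp hη.injective)]; simp
        rw [← this]
        refine card_le_card fun i hi => ?_
        obtain ⟨k, -, rfl⟩ := mem_image.1 hi
        obtain ⟨c, hc⟩ := hcover k
        exact mem_biUnion.2 ⟨c, mem_univ _, hc⟩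
      intro c
      by_contra hne'
      have : ∑ c, ((S (β c)).image Prod.fst).card < ∑ _c : Fin e, (r : ℕ) :=
        Finset.sum_lt_sum (fun c _ => hle c) ⟨c, mem_univ _, lt_of_le_of_ne (hle c) hne'⟩
      simp at this
      omega
    choose pc uc hpc huc hSc hOW using fun c => hextract _ hU _ (hOc c) r (heq c)
    have huw : ∀ c, toLex (uc c) ≤ toLex w := by
      intro c
      rcases Sigma.Lex.le_def.1 (hmax _ (hOW c)) with h | ⟨h, h2⟩
      · exact absurd h (lt_irrefl _)
      · exact h2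
    have hpre : ∀ c ρ, ∃ k, η k = pc c ρ := by
      intro c ρ
      obtain ⟨d, hd⟩ := huc c ρ
      have h1 : (fU (pc c ρ), d) ∈ S (β c) := by
        rw [hSc c]
        exact (mem_blk dec (s := fU ∘ pc c) (hfUi.comp (hpc c).injective) _ ρ d).2 hd
      obtain ⟨c', hc'⟩ := (hun _).1 ⟨c, h1⟩
      rw [hπσ] at hc'
      simp only [blk, mem_filter, mem_univ, true_and] at hc'
      obtain ⟨ρ', h2, -⟩ := hc'
      exact ⟨φ (c', ρ'), by rw [hηφ]; exact (hfUi h2).symm⟩
    choose ψ hψ using hpre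
    have hψsurj : Function.Surjective (fun x : Fin e × Fin r => ψ x.1 x.2) := by
      intro k
      obtain ⟨c, hc⟩ := hcover k
      rw [hSc c, image_blk dec _ _ (huc c)] at hc
      obtain ⟨ρ, -, hρ⟩ := mem_image.1 hc
      refine ⟨(c, ρ), hη.injective ?_⟩
      change η (ψ c ρ) = η k
      rw [hψ]; exact hfUi hρ
    have hψbij : Function.Bijective (fun x : Fin e × Fin r => ψ x.1 x.2) :=
      (Fintype.bijective_iff_surjective_and_card _).2 ⟨hψsurj, by simp⟩
    set φ' := Equiv.ofBijective _ hψbij with hφ'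
    have hφ'ap : ∀ c ρ, φ' (c, ρ) = ψ c ρ := fun c ρ => rfl
    have hφ'm : ∀ c, StrictMono (fun ρ => φ' (c, ρ)) := by
      intro c ρ ρ' h
      refine hη.lt_iff_lt.1 ?_
      change η (ψ c ρ) < η (ψ c ρ')
      rw [hψ, hψ]; exact hpc c h
    have hsh : sh φ' uc = sh φ (fun _ => w) := by
      funext k
      obtain ⟨⟨c, ρ⟩, rfl⟩ := φ'.surjective k
      obtain ⟨⟨c1, ρ1⟩, h1⟩ := φ.surjective (φ' (c, ρ))
      have e1 : sh φ' uc (φ' (c, ρ)) = uc c ρ := by simp [sh]
      have e2 : sh φ (fun _ => w) (φ' (c, ρ)) = w ρ1 := by rw [← h1]; simp [sh]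
      rw [e1, e2]
      have hi : pc c ρ = idx (c1, p ρ1) := by rw [← hψ, ← hφ'ap, ← h1, hηφ]
      refine dec.injective (Finset.ext fun d => ?_)
      rw [← mem_blk dec (s := fU ∘ pc c) (hfUi.comp (hpc c).injective) (uc c) ρ d, ← hSc c,
        ← mem_blk dec (s := fun ρ => fU (idx (c1, p ρ)))
          (hfUi.comp ((hidxm c1).comp hp).injective) w ρ1 d, ← hπσ]
      simp only [Function.comp, ← hi]
      constructor
      · intro h
        obtain ⟨c', hc'⟩ := (hun _).1 ⟨c, h⟩
        have hc'' := hc'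
        rw [hπσ] at hc''
        simp only [blk, mem_filter, mem_univ, true_and] at hc''
        obtain ⟨ρ', h2, -⟩ := hc''
        have h3 := hidx (hi ▸ hfUi h2)
        obtain rfl : c1 = c' := (Prod.ext_iff.1 h3).1
        exact hc'
      · intro h
        obtain ⟨c', hc'⟩ := (hun _).2 ⟨c1, h⟩
        have hc'' := hc'
        rw [hSc c'] at hc''
        simp only [blk, mem_filter, mem_univ, true_and] at hc''
        obtain ⟨ρ', h2, -⟩ := hc''
        have h3 : pc c ρ = pc c' ρ' := hfUi h2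
        rw [← hψ, ← hψ] at h3
        have h4 := hψbij.1 (a₁ := (c, ρ)) (a₂ := (c', ρ')) (hη.injective h3)
        obtain rfl : c = c' := (Prod.ext_iff.1 h4).1
        exact hc'
    have hucw : ∀ c, uc c = w := by
      by_contra hcon
      push Not at hcon
      have h1 := sh_lt φ' hφ'm uc w huw hcon
      have h2 := hφmax φ' (mem_filter.2 ⟨mem_univ _, hφ'm⟩)
      rw [hsh] at h1
      exact absurd h2 (not_le.2 h1)
    intro c
    have h1 : g (S (β c)) = some (val (β c)) := by rw [← hπ2σ]; exact hgS π2 _ hrep2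
    rw [hSc c, hucw c, hvalw _ (hpc c), hγ] at h1
    exact (Option.some.inj h1).symm
  have : ∑ β ∈ Bs, ∏ c, val (β c) = (Bs.card : K) * val (π (ac c0)) ^ e := by
    rw [Finset.sum_congr rfl (fun β hβ => Finset.prod_congr rfl (fun c _ => hall β hβ c))]
    simp
  rw [this] at hB2
  exact mul_ne_zero hB1 (pow_ne_zero _ (hval _)) hB2

end Pool.Agent.Lib.MP_f2f914_nt.DC
end

-- part Pool.Agent.Lib.MP_f2f914_nt.DCHeavy
section

/-!
Heavy paths in a hierarchy of partitions of a finite set.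
-/

namespace Pool.Agent.Lib.MP_f2f914_nt.DC

open Finset

theorem pow_card_mul_le (w : ℕ → ℝ) (c : ℝ) (hc : 0 ≤ c)
    (hw : ∀ d, w d ≤ w (d + 1)) (A : Finset ℕ) (hA : ∀ d ∈ A, c * w d ≤ w (d + 1)) (N : ℕ) :
    c ^ (A.filter (· < N)).card * w 0 ≤ w N := by
  induction N with
  | zero => simp
  | succ N ih =>
    by_cases h : N ∈ A
    · have : A.filter (· < N + 1) = insert N (A.filter (· < N)) := by
        ext d
        simp only [mem_filter, mem_insert]
        constructor
        · rintro ⟨h1, h2⟩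
          rcases Nat.lt_succ_iff_lt_or_eq.1 h2 with h3 | h3
          · exact Or.inr ⟨h1, h3⟩
          · exact Or.inl h3
        · rintro (rfl | ⟨h1, h2⟩)
          · exact ⟨h, by omega⟩
          · exact ⟨h1, by omega⟩
      rw [this, card_insert_of_notMem (by simp), pow_succ', mul_assoc]
      exact (mul_le_mul_of_nonneg_left ih hc).trans (hA N h)
    · have : A.filter (· < N + 1) = A.filter (· < N) := by
        ext d
        simp only [mem_filter, and_congr_right_iff]
        intro hd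
        have : d ≠ N := fun e => h (e ▸ hd)
        omega
      rw [this]
      exact ih.trans (hw N)

/-- A hierarchy of coarser and coarser partitions. -/
structure Hier (V Λ : Type) where
  lab : ℕ → V → Λ
  inj : ∀ v v', lab 0 v = lab 0 v' → v = v'
  nest : ∀ d v v', lab d v = lab d v' → lab (d + 1) v = lab (d + 1) v'

namespace Hier

variable {V Λ : Type} [Fintype V] (h : Hier V Λ)

omit [Fintype V] in
theorem nest_le {d d' : ℕ} (hd : d ≤ d') {v v' : V} (e : h.lab d v = h.lab d v') :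
    h.lab d' v = h.lab d' v' := by
  induction d', hd using Nat.le_induction with
  | base => exact e
  | succ d' _ ih => exact h.nest _ _ _ ih

open Classical in
/-- The number of points in the class of `v` at height `d`. -/
noncomputable def w (d : ℕ) (v : V) : ℕ := (univ.filter fun v' => h.lab d v' = h.lab d v).card

theorem w_congr {d : ℕ} {v v' : V} (e : h.lab d v = h.lab d v') : h.w d v = h.w d v' := by
  unfold w; rw [e]

theorem one_le_w (d : ℕ) (v : V) : 1 ≤ h.w d v := by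
  classical
  exact card_pos.2 ⟨v, by simp⟩

theorem w_le (d : ℕ) (v : V) : h.w d v ≤ Fintype.card V := by
  classical
  exact card_le_univ _

theorem w_succ (d : ℕ) (v : V) : h.w d v ≤ h.w (d + 1) v := by
  classical
  refine card_le_card fun x hx => ?_
  simp only [mem_filter, mem_univ, true_and] at hx ⊢
  exact h.nest _ _ _ hx

theorem w_add {d : ℕ} {v v' : V} (e : h.lab (d + 1) v = h.lab (d + 1) v')
    (ne : h.lab d v ≠ h.lab d v') : h.w d v + h.w d v' ≤ h.w (d + 1) v := by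
  classical
  unfold w
  rw [← card_union_of_disjoint]
  · refine card_le_card fun x hx => ?_
    simp only [mem_union, mem_filter, mem_univ, true_and] at hx ⊢
    rcases hx with hx | hx
    · exact h.nest _ _ _ hx
    · exact (h.nest _ _ _ hx).trans e.symm
  · rw [disjoint_left]
    intro x hx hx'
    simp only [mem_filter, mem_univ, true_and] at hx hx'
    exact ne (hx.symm.trans hx')

theorem pow_card_le (v : V) (c : ℝ) (hc : 0 ≤ c) (A : Finset ℕ)
    (hA : ∀ d ∈ A, c * h.w d v ≤ h.w (d + 1) v) : c ^ A.card ≤ Fintype.card V := by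
  have h1 := pow_card_mul_le (fun d => (h.w d v : ℝ)) c hc
    (fun d => Nat.cast_le.2 (h.w_succ d v)) A hA (A.sup id + 1)
  rw [filter_true_of_mem (p := (· < A.sup id + 1))
    fun d hd => Nat.lt_succ_of_le (le_sup (f := id) hd)] at h1
  have h2 : (1 : ℝ) ≤ h.w 0 v := by exact_mod_cast h.one_le_w 0 v
  have h3 : (h.w (A.sup id + 1) v : ℝ) ≤ Fintype.card V := by exact_mod_cast h.w_le _ v
  have h4 : 0 ≤ c ^ A.card := by positivity
  nlinarith

/-- A point of the heaviest child. -/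
noncomputable def hc (d : ℕ) (v : V) : V :=
  @Classical.epsilon V ⟨v⟩ fun x => h.lab (d + 1) x = h.lab (d + 1) v ∧
    ∀ y, h.lab (d + 1) y = h.lab (d + 1) v → h.w d y ≤ h.w d x

theorem hc_spec (d : ℕ) (v : V) : h.lab (d + 1) (h.hc d v) = h.lab (d + 1) v ∧
    ∀ y, h.lab (d + 1) y = h.lab (d + 1) v → h.w d y ≤ h.w d (h.hc d v) := by
  classical
  refine @Classical.epsilon_spec V (fun x => h.lab (d + 1) x = h.lab (d + 1) v ∧
    ∀ y, h.lab (d + 1) y = h.lab (d + 1) v → h.w d y ≤ h.w d x) ?_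
  obtain ⟨x, hx, hx'⟩ := exists_max_image
    (univ.filter fun x => h.lab (d + 1) x = h.lab (d + 1) v) (h.w d) ⟨v, by simp⟩
  exact ⟨x, (mem_filter.1 hx).2, fun y hy => hx' y (by simpa using hy)⟩

theorem hc_congr {d : ℕ} {v v' : V} (e : h.lab (d + 1) v = h.lab (d + 1) v') :
    h.hc d v = h.hc d v' := by
  unfold hc; rw [e]

/-- The centre of the class of `v` at height `d`: follow the heaviest children. -/
noncomputable def ctr : ℕ → V → V
  | 0, v => v
  | d + 1, v => ctr d (h.hc d v)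

theorem lab_ctr (d : ℕ) (v : V) : h.lab d (h.ctr d v) = h.lab d v := by
  induction d generalizing v with
  | zero => rfl
  | succ d ih => exact (h.nest _ _ _ (ih _)).trans (h.hc_spec d v).1

theorem ctr_congr {d : ℕ} {v v' : V} (e : h.lab d v = h.lab d v') : h.ctr d v = h.ctr d v' := by
  cases d with
  | zero => exact h.inj _ _ e
  | succ d => simp only [ctr, h.hc_congr e]

theorem ctr_eq_iff {d : ℕ} {v v' : V} : h.ctr d v = h.ctr d v' ↔ h.lab d v = h.lab d v' :=
  ⟨fun e => by rw [← h.lab_ctr d v, e, h.lab_ctr], h.ctr_congr⟩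

theorem ctr_ctr (d : ℕ) (v : V) : h.ctr d (h.ctr d v) = h.ctr d v := h.ctr_congr (h.lab_ctr d v)

theorem ctr_succ_eq_iff {d : ℕ} {v : V} :
    h.ctr (d + 1) v = h.ctr d v ↔ h.lab d (h.ctr (d + 1) v) = h.lab d v := by
  refine ⟨fun e => by rw [e, h.lab_ctr], fun e => ?_⟩
  refine h.ctr_congr (v := h.hc d v) ?_
  rw [← e]; exact (h.lab_ctr d _).symm

theorem w_event {d : ℕ} {v : V} (ne : h.ctr (d + 1) v ≠ h.ctr d v) :
    h.w d v + h.w d (h.ctr (d + 1) v) ≤ h.w (d + 1) v :=
  h.w_add (h.lab_ctr _ v).symm fun e => ne (h.ctr_succ_eq_iff.2 e.symm)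

theorem two_w {d : ℕ} {v : V} (ne : h.ctr (d + 1) v ≠ h.ctr d v) :
    2 * h.w d v ≤ h.w (d + 1) v := by
  have h1 := h.w_event ne
  have h2 := (h.hc_spec d v).2 v rfl
  have h3 : h.w d (h.ctr (d + 1) v) = h.w d (h.hc d v) := h.w_congr (h.lab_ctr d _)
  omega

/-- At height `d` the class of `v` loses more than a fraction `1 / T` of its points. -/
def Loss (T d : ℕ) (v : V) : Prop := h.w (d + 1) v + T * h.w d v < T * h.w (d + 1) v

theorem Loss.mono {T T' d : ℕ} {v : V} (hT : T ≤ T') (hl : h.Loss T d v) : h.Loss T' d v := by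
  unfold Loss at *
  obtain ⟨k, rfl⟩ := Nat.exists_eq_add_of_le hT
  have := Nat.mul_le_mul_left k (h.w_succ d v)
  nlinarith

theorem card_ev (v : V) {E : ℕ} (hE : Fintype.card V ≤ 2 ^ E) (A : Finset ℕ)
    (hA : ∀ d ∈ A, h.ctr (d + 1) v ≠ h.ctr d v) : A.card ≤ E := by
  have h1 := h.pow_card_le v 2 (by norm_num) A fun d hd => by exact_mod_cast h.two_w (hA d hd)
  have h2 : 2 ^ A.card ≤ 2 ^ E := le_trans (by exact_mod_cast h1) hE
  exact (Nat.pow_le_pow_iff_right (by norm_num)).1 h2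

theorem card_loss (v : V) {E T : ℕ} (hE : Fintype.card V ≤ 2 ^ E) (hT : 1 ≤ T) (A : Finset ℕ)
    (hA : ∀ d ∈ A, h.Loss T d v) : A.card ≤ T * (E + 1) := by
  have hT' : (1 : ℝ) ≤ T := by exact_mod_cast hT
  have h1 := h.pow_card_le v (1 + 1 / T) (by positivity) A fun d hd => by
    have h2 : (h.w (d + 1) v + T * h.w d v : ℝ) < T * h.w (d + 1) v := by exact_mod_cast hA d hd
    have h3 : (h.w d v : ℝ) ≤ h.w (d + 1) v := by exact_mod_cast h.w_succ d v
    rw [add_mul, one_mul, one_div, ← div_eq_inv_mul, ← le_sub_iff_add_le',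
      div_le_iff₀ (by linarith)]
    nlinarith
  by_contra hcon
  have h2 : (2 : ℝ) ≤ (1 + 1 / T) ^ T := by
    have := one_add_mul_le_pow (a := 1 / (T : ℝ)) (by have : (0 : ℝ) ≤ 1 / T := by positivity
                                                      linarith) T
    rwa [mul_one_div_cancel (by positivity), one_add_one_eq_two] at this
  have h3 : (2 : ℝ) ^ (E + 1) ≤ (1 + 1 / T) ^ A.card := by
    refine (pow_le_pow_left₀ (by norm_num) h2 _).trans ?_
    rw [← pow_mul]
    exact pow_le_pow_right₀ (by have : (0 : ℝ) ≤ 1 / T := by positivity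
                                linarith) (by omega)
  have h4 : (Fintype.card V : ℝ) ≤ 2 ^ E := by exact_mod_cast hE
  have h5 : (0 : ℝ) < 2 ^ E := by positivity
  rw [pow_succ] at h3
  linarith

theorem card_dif (v : V) {D T : ℕ} (hD : Fintype.card V < T ^ D) (hT : 1 ≤ T) (A : Finset ℕ)
    (hA : ∀ d ∈ A, h.ctr (d + 1) v ≠ h.ctr d v ∧ ¬ h.Loss T d (h.ctr (d + 1) v)) :
    A.card < D := by
  have h1 := h.pow_card_le v T (by positivity) A fun d hd => by
    have h2 := h.w_event (hA d hd).1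
    have h3 := (hA d hd).2
    unfold Loss at h3
    rw [h.w_congr (h.lab_ctr (d + 1) v)] at h3
    have h4 : T * h.w d v ≤ h.w (d + 1) v := by
      have := Nat.mul_le_mul_left T h2
      rw [mul_add] at this
      omega
    exact_mod_cast h4
  have h2 : T ^ A.card < T ^ D := lt_of_le_of_lt (by exact_mod_cast h1) hD
  by_contra hcon
  exact absurd (Nat.pow_le_pow_right hT (not_lt.1 hcon)) (not_le.2 h2)

open Classical in
theorem card_out (d : ℕ) (y : V) :
    (univ.filter fun v => h.ctr (d + 1) v = y ∧ h.ctr (d + 1) v ≠ h.ctr d v).card + h.w d y ≤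
      h.w (d + 1) y := by
  unfold w
  rw [← card_union_of_disjoint]
  · refine card_le_card fun x hx => ?_
    simp only [mem_union, mem_filter, mem_univ, true_and] at hx ⊢
    rcases hx with hx | hx
    · rw [← hx.1, h.lab_ctr]
    · exact h.nest _ _ _ hx
  · rw [disjoint_left]
    intro x hx hx'
    simp only [mem_filter, mem_univ, true_and] at hx hx'
    exact hx.2 (h.ctr_succ_eq_iff.2 (by rw [hx.1, hx']))

open Classical in
theorem w_le_card_ctr {d : ℕ} {y : V} (hy : h.ctr d y = y) :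
    h.w d y ≤ (univ.filter fun v => h.ctr d v = y).card := by
  refine card_le_card fun x hx => ?_
  simp only [mem_filter, mem_univ, true_and] at hx ⊢
  rw [h.ctr_congr hx, hy]

end Hier

end Pool.Agent.Lib.MP_f2f914_nt.DC
end
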