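import Mathlib
import Pool.Agent.Lib.MP_f2f914_nt.DCCount
import Pool.Agent.Lib.MP_f2f914_nt.DCHeavy
import Pool.Agent.Lib.MP_f2f914_nt.DCPrime

-- part Pool.Agent.Lib.MP_f2f914_nt.DCFalse
section

/-!
No tree of scales with small parameters supports a vanishing `e`-fold product.
-/

namespace Pool.Agent.Lib.MP_f2f914_nt.DC

open Finset

theorem exists_enum {D : ℕ} (A : Finset ℕ) (h : A.card ≤ D) :
    ∃ g : Fin D → ℕ, ∀ m ∈ A, ∃ s, g s = m := by
  classical
  obtain ⟨e⟩ : Nonempty (A ↪ Fin D) := Function.Embedding.nonempty_of_card_le (by simpa using h)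
  exact ⟨Function.extend e Subtype.val 0, fun m hm =>
    ⟨e ⟨m, hm⟩, e.injective.extend_apply _ _ _⟩⟩

theorem exists_split {Ω σ : Type} (t : Tr Ω σ) {ω ω' : Ω} (h : t.st ω 0 ≠ t.st ω' 0) :
    ∃ l, t.st ω l ≠ t.st ω' l ∧ t.st ω (l + 1) = t.st ω' (l + 1) := by
  by_contra hcon
  push Not at hcon
  have : ∀ l, t.st ω l ≠ t.st ω' l := fun l => by
    induction l with
    | zero => exact h
    | succ l ih => exact hcon l ih
  exact this t.n (by rw [t.top _ _ le_rfl, t.top _ _ le_rfl])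

theorem count_short (U : Type) [Fintype U] (j : ℕ) (hU : 0 < Fintype.card U) :
    cn (fun π : Fin j → Option U => ∃ a ∈ (univ : Finset (Fin j)), π a = none) ≤
      j * 2 ^ j / Fintype.card U * (Fintype.card U : ℝ) ^ j := by
  classical
  have hu : (1 : ℝ) ≤ Fintype.card U := by exact_mod_cast hU
  refine (cn_exists_le univ _ (1 / Fintype.card U * (2 * Fintype.card U) ^ j) fun a _ => ?_).trans
    (le_of_eq ?_)
  · refine (count_le' a _ (1 / Fintype.card U) fun π => ?_).trans ?_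
    · have h1 : cn (fun ω : Option U => ω = none) = 1 := by
        rw [cn_eq]
        have : (univ.filter fun ω : Option U => ω = none) = {none} := by ext; simp
        convert congrArg (fun s : Finset (Option U) => (s.card : ℝ)) this
        simp
      simp only [Function.update_self, h1, Fintype.card_option]
      push_cast
      rw [one_div, ← div_eq_inv_mul, le_div_iff₀ (by linarith)]
      linarith
    · simp only [Fintype.card_option, Fintype.card_fin]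
      push_cast
      gcongr
      linarith
  · simp only [card_univ, Fintype.card_fin, mul_pow]
    ring

theorem tree_false (K : Type) [Field K] [Finite K] (e D : ℕ) (he : 2 ≤ e)
    (hp : ∀ m : ℕ, 0 < m → m ≤ Tr.Rmax e D → (m : K) ≠ 0) : ∃ j : ℕ, 1 ≤ j ∧
    ∀ (Ω σ U : Type) [Fintype Ω] [Fintype U] (t : Tr Ω σ) (f : U → Ω) (val : U → K)
      (Z ε ϑ η K2 : ℝ) (E O : ℕ),
      (∀ u u', t.st (f u) 0 = t.st (f u') 0 → u = u') → (∀ u, val u ≠ 0) →
      0 ≤ Z → 0 ≤ ε → 0 ≤ ϑ →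
      (∀ ω, (t.Dif ω).card ≤ D) → (∀ ω, (t.Ev ω).card ≤ E) → (∀ ω, (t.Own ω).card ≤ O) →
      (∀ s, cn (fun ω => s ∈ t.Own ω) ≤ ε * Fintype.card Ω) →
      (∀ l, t.l0 ≤ l → ∀ y, cn (fun ω => t.st ω (l + 1) = y ∧
        (l ∈ t.Ev ω ∧ l ∉ t.pr2 (t.st ω (l + 1)))) ≤ ϑ * cn (fun ω => t.st ω (l + 1) = y)) →
      cn (fun u => ∃ l ∈ t.Dif (f u), l ∈ t.pr2 (t.st (f u) (l + 1))) ≤ η * Fintype.card U →
      (Fintype.card Ω : ℝ) ≤ K2 * Fintype.card U → 0 < Fintype.card U →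
      8 * (2 * j * t.K + 1) ≤ t.M → 8 * ((j : ℝ) ^ 2 * Z) ≤ t.r t.l0 →
      (∀ x : ℝ, x ≤ t.r t.n / 2 → ∃ R1 R2 : ℝ, x - Z ≤ R1 ∧ R1 < x ∧ x ≤ R2 ∧ R2 ≤ x + Z ∧
        ((∀ β : Fin e → Option U, (∃ c, β c = none) →
          ¬ (R1 < ∑ c, (β c).elim 0 (fun u => t.pos (f u)) ∧
            ∑ c, (β c).elim 0 (fun u => t.pos (f u)) ≤ R2)) →
        ∀ B : Finset (Fin e → U),
          (∀ β, β ∈ B ↔ R1 < ∑ c, t.pos (f (β c)) ∧ ∑ c, t.pos (f (β c)) ≤ R2) →
          ∑ β ∈ B, ∏ c, val (β c) = 0)) →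
      (Tr.Rmax j D + 1) * (K2 ^ j * (j * ((j * (E * 7) + t.l0 + 3 + Tr.Bc j D E O : ℕ) * ε) +
        j * (ϑ * Tr.Bc j D E O)) + j * η + j * 2 ^ j / Fintype.card U) < 1 → False := by
  classical
  obtain ⟨j, hj1, hj⟩ := comb K e D he
  refine ⟨j, hj1, ?_⟩
  intro Ω σ U _ _ t f val Z ε ϑ η K2 E O hf hval hZ hε hϑ hD hE hO hs hd hmed hK2 hU hM hZr hid
    hsmall
  have hK := t.hK
  have hjr : (1 : ℝ) ≤ j := by exact_mod_cast hj1
  have hM8 : 8 * (2 * Fintype.card (Fin j) * t.K + 1) ≤ t.M := by simpa using hM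
  have hM4 : 4 * Fintype.card (Fin j) * t.K ≤ t.M := by
    rw [Fintype.card_fin]; nlinarith
  set pf : U → ℝ := fun u => t.pos (f u) with hpf
  set u : ℝ := (Fintype.card U : ℝ) with hu
  have hu0 : 0 < u := by rw [hu]; exact_mod_cast hU
  set τ : ℝ := (j : ℝ) ^ 2 * Z with hτ
  set δ1 : ℝ := K2 ^ j * (j * ((j * (E * 7) + t.l0 + 3 + Tr.Bc j D E O : ℕ) * ε) +
        j * (ϑ * Tr.Bc j D E O)) + j * η with hδ1
  have hfi : Function.Injective f := fun a b h => hf a b (by rw [h])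
  have hNG : cn (fun π : Fin j → U => ¬ t.Gen (fun a => f (π a))) ≤ δ1 * u ^ j := by
    have h1 := t.count_hit (ι := Fin j) hD hE hO hM4 hε hs
    have h2 := t.count_bad (ι := Fin j) hD hE hO hM8 hϑ hd
    have h3 : cn (fun π : Fin j → U => ∃ a ∈ (univ : Finset (Fin j)),
        ∃ l ∈ t.Dif (f (π a)), l ∈ t.pr2 (t.st (f (π a)) (l + 1))) ≤ j * (η * u ^ j) := by
      refine (cn_exists_le univ _ (η * u ^ j) fun a _ => ?_).trans (by simp)
      refine (count_le' a _ η fun π => ?_).trans (by simp [hu])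
      simpa only [Function.update_self] using hmed
    have hinj : Function.Injective (fun (π : Fin j → U) a => f (π a)) :=
      fun π π' h => funext fun a => hfi (congrFun h a)
    have h1' := (cn_inj _ hinj fun _ h => h).trans h1
    have h2' := (cn_inj _ hinj fun _ h => h).trans h2
    have h4 := (cn_mono (Q := fun π : Fin j → U => ¬ t.Gen (fun a => f (π a))) fun π h => by
      by_contra hcon
      rw [not_or, not_or] at hcon
      exact h (t.gen_of hcon.1 hcon.2.2 hcon.2.1)).trans ((cn_or _ _).trans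
        (add_le_add h1' ((cn_or _ _).trans (add_le_add h2' h3))))
    refine h4.trans ?_
    simp only [Fintype.card_fin]
    have h5 : (Fintype.card Ω : ℝ) ^ j ≤ K2 ^ j * u ^ j := by
      rw [← mul_pow]; gcongr
    have h6 : (0 : ℝ) ≤ j * ((j * (E * 7) + t.l0 + 3 + Tr.Bc j D E O : ℕ) * ε) := by positivity
    have h7 : (0 : ℝ) ≤ j * (ϑ * Tr.Bc j D E O) := by positivity
    have h8 := mul_le_mul_of_nonneg_left h5 (add_nonneg h6 h7)
    rw [hδ1]
    nlinarith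
  have hwin : ∀ y : ℝ, cn (fun α : Fin j → U => t.G1 (fun a => f (α a)) ∧
      |∑ a, pf (α a) - y| ≤ τ) ≤ Tr.Rmax j D := by
    intro y
    rw [cn_eq]
    have := t.count_window (ι := Fin j) hD hM4 f hf (univ.filter (fun α : Fin j → U =>
      t.G1 (fun a => f (α a)) ∧ |∑ a, pf (α a) - y| ≤ τ)) y τ hZr fun π hπ => (mem_filter.1 hπ).2
    rw [Fintype.card_fin] at this
    exact_mod_cast this
  have hsp1 : cn (fun α : Fin j → U => ∃ π ∈ univ.filter
      (fun π : Fin j → U => ¬ t.Gen (fun a => f (π a))), t.G1 (fun a => f (α a)) ∧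
      |∑ a, pf (α a) - ∑ a, pf (π a)| ≤ τ) ≤ δ1 * u ^ j * Tr.Rmax j D := by
    refine (cn_exists_le _ _ _ fun π _ => hwin _).trans ?_
    rw [← cn_eq]
    gcongr
  have hsp2 : cn (fun α : Fin j → U => ∃ π ∈ univ.filter
      (fun π : Fin j → Option U => ∃ a ∈ (univ : Finset (Fin j)), π a = none),
      t.G1 (fun a => f (α a)) ∧ |∑ a, pf (α a) - ∑ a, (π a).elim 0 pf| ≤ τ) ≤
      j * 2 ^ j / u * u ^ j * Tr.Rmax j D := by
    refine (cn_exists_le _ _ _ fun π _ => hwin _).trans ?_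
    rw [← cn_eq]
    gcongr
    exact count_short U j hU
  obtain ⟨α, hα⟩ := exists_of_cn_lt _ (lt_of_le_of_lt ((cn_or _ _).trans
    (add_le_add hNG ((cn_or _ _).trans (add_le_add hsp1 hsp2)))) (by
      have h1 : (0 : ℝ) < u ^ j := by positivity
      have h2 : (0 : ℝ) ≤ j * 2 ^ j / u := by positivity
      have h3 := mul_lt_mul_of_pos_right hsmall h1
      simp only [Fintype.card_pi, prod_const, card_univ, Fintype.card_fin]
      push_cast
      rw [← hu]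
      nlinarith))
  rw [not_or, not_or, not_not] at hα
  obtain ⟨hαG, hα1, hα2⟩ := hα
  have hdev : ∀ π, dev pf α π = ∑ a, pf (π a) - ∑ a, pf (α a) := fun π => by
    simp [dev]
  have hall : ∀ π, |dev pf α π| ≤ τ → t.Gen (fun a => f (π a)) := by
    intro π hπ
    by_contra hcon
    exact hα1 ⟨π, mem_filter.2 ⟨mem_univ _, hcon⟩, hαG.1, by rwa [abs_sub_comm, ← hdev]⟩
  have hα0 : |dev pf α α| ≤ τ := by rw [hdev, sub_self, abs_zero]; positivity
  have hclose : ∀ π π', |dev pf α π| ≤ τ → |dev pf α π'| ≤ τ →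
      |∑ a, t.pos (f (π a)) - ∑ a, t.pos (f (π' a))| ≤ t.r t.l0 / 4 := by
    intro π π' h h'
    rw [hdev] at h h'
    rw [abs_le] at *
    constructor <;> linarith [h.1, h.2, h'.1, h'.2]
  have hcover : ∀ π π', |dev pf α π| ≤ τ → |dev pf α π'| ≤ τ → ∀ a, ∀ l ∈ t.Dif (f (π a)),
      ∃ b, ∃ m ∈ t.Dif (f (π' b)), m ≤ l + 1 ∧ l ≤ m + 1 := by
    intro π π' h h' a l hl
    have hG := hall π h
    exact t.cover hM8 hG.1 (hall π' h').1 (hclose π π' h h') (t.mem_Dif.1 hl).1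
      (hG.2.2.1 a l (t.mem_Dif.1 hl).1 (hG.2.1 a l hl))
  choose lev hlev using fun i => exists_enum (t.Dif (f (α i))) (hD _)
  set T : Finset (Fin j × Fin D) := univ.filter (fun x => lev x.1 x.2 ∈ t.Dif (f (α x.1))) with hT
  set S : U → Finset (Fin j × Fin D) := fun w => T.filter
    (fun x => ∃ v ∈ t.Ev (f w), v ≤ lev x.1 x.2 + 1 ∧ lev x.1 x.2 ≤ v + 1) with hS
  refine hj U pf val Z S T α hZ hval ?_ ?_ ?_ ?_ ?_ ?_
  · intro π hπ a b x ha hb
    by_contra hab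
    obtain ⟨v, hv, h1⟩ := (mem_filter.1 ha).2
    obtain ⟨v', hv', h2⟩ := (mem_filter.1 hb).2
    have := (hall π hπ).1.1 a b hab v hv v' (t.Ev_sub_Own hv')
    omega
  · intro π hπ x
    refine ⟨fun hx => ?_, fun ⟨a, ha⟩ => (mem_filter.1 ha).1⟩
    obtain ⟨b, m, hm, h⟩ := hcover α π hα0 hπ x.1 _ (mem_filter.1 hx).2
    exact ⟨b, mem_filter.2 ⟨hx, m, (t.mem_Dif.1 hm).1, h⟩⟩
  · have key : ∀ π π', |dev pf α π| ≤ τ → |dev pf α π'| ≤ τ → ∀ a, S (π a) = S (π' a) → ∀ l,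
        t.st (f (π a)) l ≠ t.st (f (π' a)) l → t.st (f (π a)) (l + 1) = t.st (f (π' a)) (l + 1) →
        l ∈ t.Ev (f (π a)) → False := by
      intro π π' h h' a hSa l hne hag hev
      have hG := hall π h
      have hG' := hall π' h'
      refine hG.2.2.2 a l hev (t.defect hM8 hG.1 hG'.1 (hclose π π' h h') hev hne hag ?_)
      intro b hba m hm
      by_cases hp1 : l ∈ t.pr1 (t.st (f (π a)) (l + 1))
      · rw [hag] at hp1
        have := hG'.1.1 b a hba m hm l (t.pr1_sub_Own hp1)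
        omega
      · obtain ⟨i, m', hm', h1⟩ := hcover π α h hα0 a l (t.mem_Dif.2 ⟨hev, hp1⟩)
        obtain ⟨s, rfl⟩ := hlev i m' hm'
        have h2 : (i, s) ∈ S (π a) :=
          mem_filter.2 ⟨mem_filter.2 ⟨mem_univ _, hm'⟩, l, hev, h1.2, h1.1⟩
        rw [hSa] at h2
        obtain ⟨v, hv, h3⟩ := (mem_filter.1 h2).2
        have := hG'.1.1 b a hba m hm v (t.Ev_sub_Own hv)
        simp only at h3
        omega
    intro π π' h h' a b hab
    have h'' : |dev pf α (π' ∘ Equiv.swap a b)| ≤ τ := by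
      rw [hdev] at h' ⊢
      rwa [show ∑ c, pf ((π' ∘ Equiv.swap a b) c) = ∑ c, pf (π' c) from
        Equiv.sum_comp (Equiv.swap a b) (fun c => pf (π' c))]
    have hb : (π' ∘ Equiv.swap a b) a = π' b := by simp
    rw [← hb] at hab ⊢
    congr 1
    refine hf _ _ ?_
    by_contra hne
    obtain ⟨l, h1, h2⟩ := exists_split t hne
    by_cases hev : l ∈ t.Ev (f (π a))
    · exact key _ _ h h'' a hab l h1 h2 hev
    · refine key _ _ h'' h a hab.symm l h1.symm h2.symm ?_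
      rw [t.mem_Ev] at hev ⊢
      rw [not_not] at hev
      rw [← h2, hev]; exact h1
  · intro π hπ a
    have hex : ∀ i ∈ (S (π a)).image Prod.fst, ∃ m ∈ t.Dif (f (π a)), ∃ l ∈ t.Ev (f (α i)),
        m ≤ l + 1 ∧ l ≤ m + 1 := by
      intro i hi
      obtain ⟨x, hx, rfl⟩ := mem_image.1 hi
      obtain ⟨hxT, v, hv, h1⟩ := mem_filter.1 hx
      have hxD := (mem_filter.1 hxT).2
      obtain ⟨b, m, hm, h⟩ := hcover α π hα0 hπ x.1 _ hxD
      have hba : b = a := by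
        by_contra hba
        have := (hall π hπ).1.1 b a hba m (t.mem_Dif.1 hm).1 v (t.Ev_sub_Own hv)
        omega
      exact ⟨m, hba ▸ hm, _, (t.mem_Dif.1 hxD).1, h⟩
    choose! g hg1 hg2 using hex
    refine le_trans (card_le_card_of_injOn g hg1 fun i hi i' hi' h => ?_) (hD _)
    by_contra hne
    obtain ⟨l, hl, h1⟩ := hg2 i hi
    obtain ⟨l', hl', h2⟩ := hg2 i' hi'
    have := hαG.1.1 i i' hne l hl l' (t.Ev_sub_Own hl')
    omega
  · intro x hx
    exact mem_filter.2 ⟨hx, _, (t.mem_Dif.1 (mem_filter.1 hx).2).1, by omega, by omega⟩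
  · intro π hπ s hs'
    have hπ' : |dev pf α π| ≤ τ := by linarith
    have hG := hall π hπ'
    have hej : e ≤ j := by simpa using Fintype.card_le_of_injective _ hs'
    have hejr : (e : ℝ) ≤ j := by exact_mod_cast hej
    have hx : ∑ c, pf (π (s c)) ≤ t.r t.n / 2 := by
      have h1 : ∀ a, pf (π a) ≤ t.K * t.r (t.n - 1) := by
        intro a
        have h2 : t.st (f (π a)) t.n = t.st (f (π a)) (t.n - 1) :=
          t.quiet (by omega) fun m h1 h2 hm => by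
            have := (hG.1.2 a m hm).2
            omega
        have h3 := t.near' (f (π a)) (t.n - 1)
        rw [← h2, t.top _ _ le_rfl, t.cp0, zero_sub, abs_neg] at h3
        exact le_of_abs_le h3
      rcases Nat.eq_zero_or_pos t.n with h0 | h0
      · have h2 : ∀ a, pf (π a) = 0 := fun a => by
          simp only [hpf, Tr.pos]
          rw [t.top _ _ (by omega), t.cp0]
        simp only [h2, sum_const_zero]
        linarith [t.r_pos t.n]
      · refine (sum_le_card_nsmul _ _ _ fun c _ => h1 _).trans ?_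
        have h2 : t.r t.n = t.M * t.r (t.n - 1) := by
          rw [← t.r_succ]; congr 1; omega
        have h3 := t.r_pos (t.n - 1)
        simp only [card_univ, Fintype.card_fin, nsmul_eq_mul]
        have h4 : (e : ℝ) * t.K ≤ j * t.K := by gcongr
        have h5 : (e : ℝ) * t.K ≤ t.M / 2 := by
          have h6 : (0 : ℝ) ≤ j * t.K := by positivity
          linarith
        rw [h2, ← mul_assoc, mul_div_right_comm]
        exact mul_le_mul_of_nonneg_right h5 h3.le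
    obtain ⟨R1, R2, r1, r2, r3, r4, hB⟩ := hid _ hx
    set B : Finset (Fin e → U) := univ.filter
      (fun β => R1 < ∑ c, pf (β c) ∧ ∑ c, pf (β c) ≤ R2) with hBdef
    have hBw : ∀ β ∈ B, |∑ c, pf (β c) - ∑ c, pf (π (s c))| ≤ Z := by
      intro β hβ
      obtain ⟨h1, h2⟩ := (mem_filter.1 hβ).2
      rw [abs_le]; constructor <;> linarith
    refine ⟨B, hp _ (card_pos.2 ⟨fun c => π (s c), mem_filter.2 ⟨mem_univ _, r2, r3⟩⟩) ?_,
      hB ?_ B (by simp [hBdef, hpf]), hBw⟩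
    · have := t.count_window (ι := Fin e) hD (by rw [Fintype.card_fin]; nlinarith) f hf B
        (∑ c, pf (π (s c))) Z (by
          have : Z ≤ τ := le_trans (by linarith [abs_nonneg (dev pf α π)]) hπ
          linarith) fun β hβ => ⟨?_, hBw β hβ⟩
      · rwa [Fintype.card_fin] at this
      · have h1 : |dev pf α (Function.extend s β π)| ≤ τ := by
          rw [hdev, sum_extend s hs' β π pf]
          have := hBw β hβ
          rw [hdev] at hπ
          rw [abs_le] at this ⊢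
          constructor <;> linarith [le_abs_self (∑ a, pf (π a) - ∑ a, pf (α a)),
            neg_abs_le (∑ a, pf (π a) - ∑ a, pf (α a))]
        have h2 := Tr.G1.comp t (hall _ h1).1 hs'
        simpa only [hs'.extend_apply] using h2
    · rintro β ⟨c, hc⟩ ⟨h1, h2⟩
      refine hα2 ⟨Function.extend s β (fun a => some (π a)), mem_filter.2 ⟨mem_univ _, s c,
        mem_univ _, by rw [hs'.extend_apply, hc]⟩, hαG.1, ?_⟩
      rw [sum_extend s hs' β _ (fun o => o.elim 0 pf)]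
      simp only [Option.elim_some]
      rw [hdev] at hπ
      rw [abs_le]
      constructor <;> linarith [le_abs_self (∑ a, pf (π a) - ∑ a, pf (α a)),
        neg_abs_le (∑ a, pf (π a) - ∑ a, pf (α a))]

end Pool.Agent.Lib.MP_f2f914_nt.DC
end

-- part Pool.Agent.Lib.MP_f2f914_nt.DCGeo
section

/-!
The self-similar tree attached to a hierarchy of points on the line.
-/

namespace Pool.Agent.Lib.MP_f2f914_nt.DC

open Finset

/-- A hierarchy of points of an interval `(W, M W)`, separated at the scales `ρ * M ^ d`. -/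
structure Geo (V Λ : Type) extends Hier V Λ where
  X : V → ℝ
  ρ : ℝ
  M : ℝ
  K : ℝ
  W : ℝ
  n : ℕ
  hρ : 0 < ρ
  hK : 1 ≤ K
  hM : 4 ≤ M
  sepV : ∀ d v v', d < n → lab d v ≠ lab d v' → ρ * M ^ d < |X v - X v'|
  nearV : ∀ d v v', d < n → lab d v = lab d v' → |X v - X v'| ≤ K * (ρ * M ^ d)
  lo : ∀ v, W < X v
  hi : ∀ v, X v ≤ M * W - ρ * M ^ n
  hW1 : ρ * M ^ n ≤ M * W
  hW2 : M * W ≤ K * (ρ * M ^ n)

namespace Geo

variable {V Λ : Type} [Fintype V] (G : Geo V Λ)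

/-- States of the tree. -/
noncomputable def st (ω : Fin G.n × V) (l : ℕ) : Option (ℕ × V) :=
  if ω.1 + l < G.n then some ((ω.1 : ℕ), G.ctr (ω.1 + l) ω.2) else none

/-- Positions of the states. -/
noncomputable def cp (y : Option (ℕ × V)) : ℝ := y.elim 0 fun y => G.X y.2 / G.M ^ y.1

open Classical in
/-- Predictable levels. -/
noncomputable def pr (T : ℕ) (y : Option (ℕ × V)) : Finset ℕ :=
  y.elim ∅ fun y => (range G.n).filter fun l => y.1 + l + 1 < G.n ∧ G.Loss T (y.1 + l) y.2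

theorem st_lt {ω : Fin G.n × V} {l : ℕ} (h : ω.1 + l < G.n) :
    G.st ω l = some ((ω.1 : ℕ), G.ctr (ω.1 + l) ω.2) := if_pos h

theorem st_ge {ω : Fin G.n × V} {l : ℕ} (h : G.n ≤ ω.1 + l) : G.st ω l = none :=
  if_neg (not_lt.2 h)

theorem st_zero (ω : Fin G.n × V) : G.st ω 0 = some ((ω.1 : ℕ), G.ctr ω.1 ω.2) :=
  G.st_lt (l := 0) ω.1.2

omit [Fintype V] in
theorem M_pos : 0 < G.M := by linarith [G.hM]

omit [Fintype V] in
theorem pow_le {a b : ℕ} (h : a ≤ b) : G.ρ * G.M ^ a ≤ G.ρ * G.M ^ b :=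
  mul_le_mul_of_nonneg_left (pow_le_pow_right₀ (by linarith [G.hM]) h) G.hρ.le

omit [Fintype V] in
theorem W_pos : 0 < G.W := by
  have h1 := G.hW1
  have h2 := mul_pos G.hρ (pow_pos G.M_pos G.n)
  exact (mul_pos_iff_of_pos_left G.M_pos).1 (lt_of_lt_of_le h2 h1)

omit [Fintype V] in
theorem lt_div {τ l : ℕ} (h : τ + l < G.n) (v : V) : G.ρ * G.M ^ l < G.X v / G.M ^ τ := by
  have hM := G.M_pos
  rw [lt_div_iff₀ (by positivity)]
  have h1 := G.pow_le (show l + τ + 1 ≤ G.n by omega)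
  have h2 := G.hW1
  have h3 := G.lo v
  have h4 : G.M * (G.ρ * G.M ^ l * G.M ^ τ) ≤ G.M * G.W := by
    refine le_trans (le_of_eq ?_) (h1.trans h2)
    ring
  have := le_of_mul_le_mul_left h4 hM
  linarith

omit [Fintype V] in
theorem sep_div {τ τ' l : ℕ} (h : τ' < τ) (hl : τ' + l < G.n) (v v' : V) :
    G.ρ * G.M ^ l < G.X v' / G.M ^ τ' - G.X v / G.M ^ τ := by
  have hM := G.M_pos
  have hX : 0 < G.X v := G.W_pos.trans (G.lo v)
  have h1 : G.X v / G.M ^ τ ≤ G.X v / G.M ^ (τ' + 1) :=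
    div_le_div_of_nonneg_left hX.le (by positivity) (pow_le_pow_right₀ (by linarith [G.hM]) h)
  have h2 : G.ρ * G.M ^ l < G.X v' / G.M ^ τ' - G.X v / G.M ^ (τ' + 1) := by
    have e : G.X v' / G.M ^ τ' - G.X v / G.M ^ (τ' + 1) =
        (G.M * G.X v' - G.X v) / G.M ^ (τ' + 1) := by
      field_simp
      ring
    rw [e, lt_div_iff₀ (by positivity)]
    have h3 := G.pow_le (show l + (τ' + 1) ≤ G.n by omega)
    have h4 := G.hi v
    have h5 := mul_lt_mul_of_pos_left (G.lo v') hM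
    rw [mul_assoc, ← pow_add]
    linarith
  linarith

omit [Fintype V] in
theorem sep_same {τ l : ℕ} (h : τ + l < G.n) {v v' : V} (ne : G.lab (τ + l) v ≠ G.lab (τ + l) v') :
    G.ρ * G.M ^ l < |G.X v / G.M ^ τ - G.X v' / G.M ^ τ| := by
  have hM := G.M_pos
  rw [← sub_div, abs_div, abs_of_pos (pow_pos hM τ), lt_div_iff₀ (by positivity)]
  refine lt_of_eq_of_lt ?_ (G.sepV _ _ _ h ne)
  ring

/-- The tree of scales. -/
noncomputable def tr (T1 T2 l0 : ℕ) (hl0 : 1 ≤ l0) : Tr (Fin G.n × V) (Option (ℕ × V)) where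
  st := G.st
  cp := G.cp
  z0 := none
  pr1 := G.pr T1
  pr2 := G.pr T2
  ρ := G.ρ
  M := G.M
  K := G.K
  n := G.n
  l0 := l0
  hρ := G.hρ
  hK := G.hK
  hM := G.hM
  hl0 := hl0
  cp0 := rfl
  nest := by
    intro ω ω' l h
    rcases lt_or_ge (ω.1 + l) G.n with h1 | h1 <;> rcases lt_or_ge (ω'.1 + l) G.n with h2 | h2
    · rw [G.st_lt h1, G.st_lt h2] at h
      simp only [Option.some.injEq, Prod.mk.injEq] at h
      obtain ⟨h3, h4⟩ := h
      rw [← h3] at h4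
      unfold st
      rw [← h3, ← add_assoc, G.ctr_congr (G.nest _ _ _ (G.ctr_eq_iff.1 h4))]
    · rw [G.st_lt h1, G.st_ge h2] at h; cases h
    · rw [G.st_ge h1, G.st_lt h2] at h; cases h
    · rw [G.st_ge (ω := ω) (by omega), G.st_ge (ω := ω') (by omega)]
  near := by
    intro ω l
    have hM := G.M_pos
    rw [G.st_zero]
    rcases lt_or_ge (ω.1 + l) G.n with h1 | h1
    · rw [G.st_lt h1]
      simp only [cp, Option.elim_some]
      rw [← sub_div, abs_div, abs_of_pos (pow_pos hM _), div_le_iff₀ (by positivity)]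
      refine (G.nearV _ _ _ h1 ?_).trans (le_of_eq (by ring))
      rw [G.lab_ctr, G.nest_le (Nat.le_add_right _ l) (G.lab_ctr _ _)]
    · rw [G.st_ge h1]
      simp only [cp, Option.elim_some, Option.elim_none]
      have hX : 0 < G.X (G.ctr ω.1 ω.2) := G.W_pos.trans (G.lo _)
      rw [zero_sub, abs_neg, abs_of_pos (by positivity), div_le_iff₀ (by positivity)]
      have h2 := G.hi (G.ctr ω.1 ω.2)
      have h3 := G.hW2
      have h4 := mul_le_mul_of_nonneg_left (G.pow_le h1) (le_trans zero_le_one G.hK)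
      have h5 := mul_pos G.hρ (pow_pos hM G.n)
      have e : G.K * (G.ρ * G.M ^ l) * G.M ^ (ω.1 : ℕ) = G.K * (G.ρ * G.M ^ (ω.1 + l)) := by ring
      linarith
  sep := by
    intro ω ω' l h
    rw [G.st_zero, G.st_zero]
    simp only [cp, Option.elim_some]
    rcases lt_trichotomy (ω.1 : ℕ) ω'.1 with h1 | h1 | h1
    · have h2 : ω.1 + l < G.n := by
        by_contra h2
        exact h (by rw [G.st_ge (ω := ω) (by omega), G.st_ge (by omega)])
      exact (G.sep_div h1 h2 _ _).trans_le (le_abs_self _)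
    · have h2 : ω.1 + l < G.n := by
        by_contra h2
        exact h (by rw [G.st_ge (ω := ω) (by omega), G.st_ge (by omega)])
      rw [← h1]
      refine G.sep_same h2 fun e => h ?_
      rw [G.nest_le (Nat.le_add_right _ l) (G.lab_ctr _ _),
        G.nest_le (Nat.le_add_right _ l) (G.lab_ctr _ _)] at e
      rw [G.st_lt h2, G.st_lt (h1 ▸ h2), ← h1, G.ctr_congr e]
    · have h2 : ω'.1 + l < G.n := by
        by_contra h2
        exact h (by rw [G.st_ge (ω := ω) (by omega), G.st_ge (by omega)])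
      rw [abs_sub_comm]
      exact (G.sep_div h1 h2 _ _).trans_le (le_abs_self _)
  sepE := by
    intro ω l h
    rw [G.st_zero]
    have h2 : ω.1 + l < G.n := by
      by_contra h2
      exact h (by rw [G.st_ge (ω := ω) (by omega), G.st_ge (by omega)])
    rcases lt_or_ge (ω.1 + (l + 1)) G.n with h1 | h1
    · rw [G.st_lt h1, G.st_lt h2] at h
      rw [G.st_lt h1]
      simp only [cp, Option.elim_some]
      refine G.sep_same h2 fun e => h ?_
      rw [G.nest_le (Nat.le_add_right _ l) (G.lab_ctr _ _)] at e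
      rw [← add_assoc] at e ⊢
      rw [G.ctr_succ_eq_iff.2 e]
    · rw [G.st_ge h1]
      simp only [cp, Option.elim_some, Option.elim_none]
      rw [zero_sub, abs_neg]
      exact (G.lt_div h2 _).trans_le (le_abs_self _)
  top := fun ω l h => G.st_ge (by omega)

variable {T1 T2 l0 : ℕ} {hl0 : 1 ≤ l0}

theorem mem_Ev' {ω : Fin G.n × V} {l : ℕ} : l ∈ (G.tr T1 T2 l0 hl0).Ev ω ↔
    (ω.1 + l + 1 < G.n ∧ G.ctr (ω.1 + l + 1) ω.2 ≠ G.ctr (ω.1 + l) ω.2) ∨ ω.1 + l + 1 = G.n := by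
  rw [Tr.mem_Ev]
  change G.st ω (l + 1) ≠ G.st ω l ↔ _
  rcases lt_trichotomy (ω.1 + l + 1) G.n with h | h | h
  · rw [G.st_lt (l := l + 1) h, G.st_lt (ω := ω) (l := l) (by omega)]
    simp [h, h.ne, ← add_assoc]
  · rw [G.st_ge (l := l + 1) h.ge, G.st_lt (ω := ω) (l := l) (by omega)]
    simp [h]
  · rw [G.st_ge (l := l + 1) h.le, G.st_ge (ω := ω) (l := l) (by omega)]
    simp [h.ne', h.le]

theorem mem_pr {T τ l : ℕ} {v : V} :
    l ∈ G.pr T (some (τ, v)) ↔ τ + l + 1 < G.n ∧ G.Loss T (τ + l) v := by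
  simp only [pr, Option.elim_some, mem_filter, mem_range, and_iff_right_iff_imp]
  omega

theorem pr_mono {T T' : ℕ} (h : T ≤ T') (y : Option (ℕ × V)) : G.pr T y ⊆ G.pr T' y := by
  rcases y with _ | ⟨τ, v⟩
  · exact empty_subset _
  · intro l hl
    rw [mem_pr] at hl ⊢
    exact ⟨hl.1, hl.2.mono G.toHier h⟩

theorem card_shift (τ : ℕ) (A B : Finset ℕ) (h : ∀ l ∈ A, τ + l ∈ B) : A.card ≤ B.card :=
  card_le_card_of_injOn (τ + ·) h fun _ _ _ _ e => Nat.add_left_cancel e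

open Classical in
/-- Heights at which the centre changes. -/
noncomputable def Ch (v : V) : Finset ℕ := (range G.n).filter fun d => G.ctr (d + 1) v ≠ G.ctr d v

open Classical in
/-- All the heights which matter for the point `v`. -/
noncomputable def Rel (T : ℕ) (v : V) : Finset ℕ :=
  insert (G.n - 1) (G.Ch v) ∪ (insert v ((G.Ch v).image fun d => G.ctr (d + 1) v)).biUnion
    fun y => (range G.n).filter fun d => G.Loss T d y

theorem card_Ch {E : ℕ} (hE : Fintype.card V ≤ 2 ^ E) (v : V) : (G.Ch v).card ≤ E := by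
  classical
  exact G.card_ev v hE _ fun d hd => (mem_filter.1 hd).2

theorem card_Rel {E T : ℕ} (hE : Fintype.card V ≤ 2 ^ E) (hT : 1 ≤ T) (v : V) :
    (G.Rel T v).card ≤ E + 1 + (E + 1) * (T * (E + 1)) := by
  classical
  have h1 := G.card_Ch hE v
  refine (card_union_le _ _).trans (add_le_add ((card_insert_le _ _).trans (by omega)) ?_)
  refine (card_biUnion_le_card_mul _ _ (T * (E + 1)) fun y _ =>
    G.card_loss y hE hT _ fun d hd => (mem_filter.1 hd).2).trans (Nat.mul_le_mul_right _ ?_)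
  exact (card_insert_le _ _).trans (by have := card_image_le (s := G.Ch v)
                                          (f := fun d => G.ctr (d + 1) v); omega)

open Classical in
theorem ctr_mem (v : V) {d : ℕ} (hd : d ≤ G.n) :
    G.ctr d v ∈ insert v ((G.Ch v).image fun d => G.ctr (d + 1) v) := by
  induction d with
  | zero => exact mem_insert_self _ _
  | succ d ih =>
    by_cases h : G.ctr (d + 1) v = G.ctr d v
    · rw [h]; exact ih (by omega)
    · exact mem_insert_of_mem (mem_image.2 ⟨d, mem_filter.2 ⟨mem_range.2 (by omega), h⟩, rfl⟩)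

theorem Ev_sub {ω : Fin G.n × V} {l : ℕ} (h : l ∈ (G.tr T1 T2 l0 hl0).Ev ω) :
    ω.1 + l ∈ insert (G.n - 1) (G.Ch ω.2) := by
  classical
  rcases G.mem_Ev'.1 h with h | h
  · exact mem_insert_of_mem (mem_filter.2 ⟨mem_range.2 (by omega), h.2⟩)
  · exact mem_insert.2 (Or.inl (by omega))

theorem Own_sub {ω : Fin G.n × V} {l : ℕ} (h : l ∈ (G.tr T1 T2 l0 hl0).Own ω) :
    ω.1 + l ∈ G.Rel T1 ω.2 := by
  classical
  rcases mem_union.1 h with h | h
  · exact mem_union_left _ (G.Ev_sub h)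
  · obtain ⟨m, -, hm⟩ := mem_biUnion.1 h
    change l ∈ G.pr T1 (G.st ω m) at hm
    rcases lt_or_ge (ω.1 + m) G.n with h1 | h1
    · rw [G.st_lt h1, mem_pr] at hm
      refine mem_union_right _ (mem_biUnion.2 ⟨_, ?_, mem_filter.2 ⟨mem_range.2 (by omega), hm.2⟩⟩)
      convert G.ctr_mem ω.2 h1.le
    · rw [G.st_ge h1] at hm
      simp [pr] at hm

theorem card_Ev {E : ℕ} (hE : Fintype.card V ≤ 2 ^ E) (ω : Fin G.n × V) :
    ((G.tr T1 T2 l0 hl0).Ev ω).card ≤ E + 1 :=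
  (card_shift ω.1 _ _ fun _ h => G.Ev_sub h).trans
    ((card_insert_le _ _).trans (by have := G.card_Ch hE ω.2; omega))

theorem card_Own {E : ℕ} (hE : Fintype.card V ≤ 2 ^ E) (hT : 1 ≤ T1) (ω : Fin G.n × V) :
    ((G.tr T1 T2 l0 hl0).Own ω).card ≤ E + 1 + (E + 1) * (T1 * (E + 1)) :=
  (card_shift ω.1 _ _ fun _ h => G.Own_sub h).trans (G.card_Rel hE hT _)

theorem card_Dif {D : ℕ} (hD : Fintype.card V < T1 ^ D) (hT : 1 ≤ T1) (ω : Fin G.n × V) :
    ((G.tr T1 T2 l0 hl0).Dif ω).card ≤ D := by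
  classical
  have h1 := G.card_dif ω.2 hD hT ((range G.n).filter fun d => G.ctr (d + 1) ω.2 ≠ G.ctr d ω.2 ∧
    ¬ G.Loss T1 d (G.ctr (d + 1) ω.2)) fun d hd => (mem_filter.1 hd).2
  refine (card_shift ω.1 _ (insert (G.n - 1) _) fun l hl => ?_).trans
    ((card_insert_le _ _).trans h1)
  obtain ⟨h2, h3⟩ := (Tr.mem_Dif _).1 hl
  rcases G.mem_Ev'.1 h2 with h | h
  · change l ∉ G.pr T1 (G.st ω (l + 1)) at h3
    rw [G.st_lt (l := l + 1) h.1, mem_pr] at h3
    exact mem_insert_of_mem (mem_filter.2 ⟨mem_range.2 (by omega), h.2, fun h4 => h3 ⟨h.1, h4⟩⟩)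
  · exact mem_insert.2 (Or.inl (by omega))

theorem spread {E : ℕ} (hE : Fintype.card V ≤ 2 ^ E) (hT : 1 ≤ T1) (s : ℕ) :
    cn (fun ω => s ∈ (G.tr T1 T2 l0 hl0).Own ω) ≤
      (E + 1 + (E + 1) * (T1 * (E + 1)) : ℕ) * Fintype.card V := by
  classical
  rw [cn_eq]
  norm_cast
  refine (card_le_mul_card_image (f := Prod.snd) _ _ fun v _ => ?_).trans
    (Nat.mul_le_mul_left _ (card_le_univ _))
  refine le_trans (card_le_card_of_injOn (fun ω => ω.1 + s) (fun ω hω => ?_) ?_)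
    (G.card_Rel hE hT v)
  · simp only [coe_filter, mem_filter, mem_univ, true_and, Set.mem_ofPred_eq] at hω
    rw [← hω.2]
    exact G.Own_sub hω.1
  · intro ω hω ω' hω' e
    simp only [coe_filter, mem_filter, mem_univ, true_and, Set.mem_ofPred_eq] at hω hω'
    exact Prod.ext (Fin.ext (Nat.add_right_cancel e)) (hω.2.trans hω'.2.symm)

theorem diffuse (hT : 1 ≤ T2) (hl : T2 ≤ l0) {l : ℕ} (h : l0 ≤ l) (y : Option (ℕ × V)) :
    cn (fun ω => (G.tr T1 T2 l0 hl0).st ω (l + 1) = y ∧ (l ∈ (G.tr T1 T2 l0 hl0).Ev ω ∧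
      l ∉ (G.tr T1 T2 l0 hl0).pr2 ((G.tr T1 T2 l0 hl0).st ω (l + 1)))) ≤
      1 / T2 * cn (fun ω => (G.tr T1 T2 l0 hl0).st ω (l + 1) = y) := by
  classical
  have hT' : (0 : ℝ) < T2 := by exact_mod_cast hT
  change cn (fun ω => G.st ω (l + 1) = y ∧ (l ∈ (G.tr T1 T2 l0 hl0).Ev ω ∧
      l ∉ G.pr T2 (G.st ω (l + 1)))) ≤ 1 / T2 * cn (fun ω => G.st ω (l + 1) = y)
  rw [one_div, ← div_eq_inv_mul, le_div_iff₀ hT', cn_eq, cn_eq]
  norm_cast
  rcases (univ.filter fun ω => G.st ω (l + 1) = y ∧ (l ∈ (G.tr T1 T2 l0 hl0).Ev ω ∧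
      l ∉ G.pr T2 (G.st ω (l + 1)))).eq_empty_or_nonempty with h0 | ⟨ω0, h0⟩
  · simp [h0]
  obtain ⟨h1, h2, h3⟩ := (mem_filter.1 h0).2
  rcases G.mem_Ev'.1 h2 with h4 | h4
  · rw [G.st_lt (l := l + 1) h4.1] at h1 h3
    rw [mem_pr] at h3
    set τ := ω0.1 with hτ
    set z := G.ctr (τ + (l + 1)) ω0.2 with hz
    have h5 := G.card_out (τ + l) z
    have h6 := G.w_le_card_ctr (d := τ + (l + 1)) (y := z) (G.ctr_ctr _ _)
    have h7 : ¬ G.Loss T2 (τ + l) z := fun h => h3 ⟨h4.1, h⟩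
    unfold Hier.Loss at h7
    have h8 : (univ.filter fun ω => G.st ω (l + 1) = y ∧ (l ∈ (G.tr T1 T2 l0 hl0).Ev ω ∧
        l ∉ G.pr T2 (G.st ω (l + 1)))).card ≤ (univ.filter fun v => G.ctr (τ + l + 1) v = z ∧
        G.ctr (τ + l + 1) v ≠ G.ctr (τ + l) v).card := by
      have key : ∀ ω : Fin G.n × V, G.st ω (l + 1) = y → ω.1 = τ ∧ G.ctr (τ + l + 1) ω.2 = z := by
        intro ω hω
        rw [← h1] at hω
        rcases lt_or_ge (ω.1 + (l + 1)) G.n with h9 | h9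
        · rw [G.st_lt h9] at hω
          simp only [Option.some.injEq, Prod.mk.injEq] at hω
          exact ⟨Fin.ext hω.1, by rw [← hω.2, hω.1, add_assoc]⟩
        · rw [G.st_ge h9] at hω; cases hω
      refine card_le_card_of_injOn Prod.snd (fun ω hω => ?_) fun ω hω ω' hω' e => ?_
      · simp only [coe_filter, mem_univ, true_and, Set.mem_ofPred_eq] at hω ⊢
        obtain ⟨e1, e2⟩ := key ω hω.1
        refine ⟨e2, ?_⟩
        rcases G.mem_Ev'.1 hω.2.1 with h9 | h9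
        · rw [e1] at h9; exact h9.2
        · rw [e1] at h9; omega
      · simp only [coe_filter, mem_univ, true_and, Set.mem_ofPred_eq] at hω hω'
        exact Prod.ext ((key ω hω.1).1.trans (key ω' hω'.1).1.symm) e
    have h9 : (univ.filter fun v => G.ctr (τ + (l + 1)) v = z).card ≤
        (univ.filter fun ω => G.st ω (l + 1) = y).card := by
      refine card_le_card_of_injOn (fun v => (τ, v)) (fun v hv => ?_)
        fun v _ v' _ e => congrArg Prod.snd e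
      simp only [coe_filter, mem_univ, true_and, Set.mem_ofPred_eq] at hv ⊢
      rw [G.st_lt (ω := (τ, v)) (l := l + 1) h4.1, ← h1, hv]
    refine (Nat.mul_le_mul_right _ h8).trans (le_trans ?_ (h6.trans h9))
    have h10 := Nat.mul_le_mul_left T2 h5
    rw [mul_add] at h10
    rw [mul_comm, ← add_assoc]
    omega
  · rw [G.st_ge (l := l + 1) h4.ge] at h1
    subst h1
    have h8 : (univ.filter fun ω => G.st ω (l + 1) = none ∧ (l ∈ (G.tr T1 T2 l0 hl0).Ev ω ∧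
        l ∉ G.pr T2 (G.st ω (l + 1)))).card ≤ Fintype.card V := by
      have key : ∀ ω : Fin G.n × V, G.st ω (l + 1) = none → l ∈ (G.tr T1 T2 l0 hl0).Ev ω →
          ω.1 + l + 1 = G.n := by
        intro ω h1 h2
        rcases G.mem_Ev'.1 h2 with h9 | h9
        · rw [G.st_lt (l := l + 1) h9.1] at h1; cases h1
        · exact h9
      refine card_le_card_of_injOn Prod.snd (fun ω _ => mem_univ _) fun ω hω ω' hω' e => ?_
      simp only [coe_filter, mem_univ, true_and, Set.mem_ofPred_eq] at hω hω'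
      have e1 := key ω hω.1 hω.2.1
      have e2 := key ω' hω'.1 hω'.2.1
      exact Prod.ext (Fin.ext (by omega)) e
    have h9 : ((range T2) ×ˢ (univ : Finset V)).card ≤
        (univ.filter fun ω => G.st ω (l + 1) = none).card := by
      have hn : 0 < G.n := by omega
      refine card_le_card_of_injOn (fun x => (⟨G.n - 1 - x.1, by omega⟩, x.2)) (fun x hx => ?_)
        fun x hx x' hx' e => ?_
      · simp only [coe_filter, mem_univ, true_and, Set.mem_ofPred_eq, coe_product, coe_range,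
          Set.mem_prod, Set.mem_Iio] at hx ⊢
        exact G.st_ge (by simp only; omega)
      · simp only [coe_product, coe_range, Set.mem_prod, Set.mem_Iio, Prod.mk.injEq,
          Fin.mk.injEq] at hx hx' e
        exact Prod.ext (by omega) e.2
    rw [card_product, card_range, card_univ, mul_comm] at h9
    exact (Nat.mul_le_mul_right _ h8).trans h9

theorem exists_med {U : Type} [Fintype U] (f : U → Fin G.n × V) (T : ℕ → ℕ) (hT : Monotone T)
    (hT0 : 1 ≤ T 0) {D R : ℕ} (hR : 0 < R) (hD : Fintype.card V < T 0 ^ D) : ∃ i < R,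
    cn (fun u => ∃ l ∈ (G.tr (T i) (T (i + 1)) l0 hl0).Dif (f u),
      l ∈ (G.tr (T i) (T (i + 1)) l0 hl0).pr2 ((G.tr (T i) (T (i + 1)) l0 hl0).st (f u) (l + 1))) ≤
      D / R * Fintype.card U := by
  classical
  by_contra hcon
  push Not at hcon
  have hR' : (0 : ℝ) < R := by exact_mod_cast hR
  have h1 := sum_lt_sum_of_nonempty (s := range R) ⟨0, mem_range.2 hR⟩
    fun i hi => hcon i (mem_range.1 hi)
  simp only [sum_const, card_range, nsmul_eq_mul, cn_sum] at h1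
  rw [sum_comm, ← mul_assoc, mul_div_cancel₀ _ hR'.ne'] at h1
  refine absurd h1 (not_lt.2 ((sum_le_card_nsmul _ _ (D : ℝ) fun u _ => ?_).trans (by
    simp [mul_comm])))
  rw [sum_boole]
  refine Nat.cast_le.2 (le_trans ?_ (G.card_Dif (T2 := 0) (hl0 := hl0) hD hT0 (f u)))
  have hex : ∀ i ∈ (range R).filter (fun i => ∃ l ∈ (G.tr (T i) (T (i + 1)) l0 hl0).Dif (f u),
      l ∈ (G.tr (T i) (T (i + 1)) l0 hl0).pr2 ((G.tr (T i) (T (i + 1)) l0 hl0).st (f u) (l + 1))),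
      ∃ l ∈ (G.tr (T 0) 0 l0 hl0).Dif (f u), l ∉ G.pr (T i) (G.st (f u) (l + 1)) ∧
        l ∈ G.pr (T (i + 1)) (G.st (f u) (l + 1)) := by
    intro i hi
    obtain ⟨l, hl, h2⟩ := (mem_filter.1 hi).2
    obtain ⟨h3, h4⟩ := (Tr.mem_Dif _).1 hl
    exact ⟨l, (Tr.mem_Dif _).2 ⟨G.mem_Ev'.2 (G.mem_Ev'.1 h3),
      fun h5 => h4 (G.pr_mono (hT (Nat.zero_le i)) _ h5)⟩, h4, h2⟩
  choose! g hg1 hg2 hg3 using hex
  refine card_le_card_of_injOn g hg1 fun i hi i' hi' e => ?_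
  rcases lt_trichotomy i i' with h | h | h
  · exact absurd (G.pr_mono (hT h) _ (e ▸ hg3 i hi)) (hg2 i' hi')
  · exact h
  · exact absurd (G.pr_mono (hT h) _ (e ▸ hg3 i' hi')) (hg2 i hi)

end Geo

/-- Bound for the number of levels owned by a point. -/
def Ob (E T : ℕ) : ℕ := E + 1 + (E + 1) * (T * (E + 1))

theorem geo_false (K : Type) [Field K] [Finite K] (e D : ℕ) (he : 2 ≤ e)
    (hp : ∀ m : ℕ, 0 < m → m ≤ Tr.Rmax e D → (m : K) ≠ 0) : ∃ j : ℕ, 1 ≤ j ∧
    ∀ (V Λ U : Type) [Fintype V] [Fintype U] (G : Geo V Λ) (f : U → Fin G.n × V) (val : U → K)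
      (T : ℕ → ℕ) (R l0 E : ℕ) (Z K2 ν : ℝ), Function.Injective f →
      (∀ u, G.ctr (f u).1 (f u).2 = (f u).2) → (∀ u, val u ≠ 0) →
      Monotone T → 1 ≤ T 0 → T R ≤ l0 → 0 < R → Fintype.card V ≤ 2 ^ E →
      Fintype.card V < T 0 ^ D → (G.n : ℝ) * Fintype.card V ≤ K2 * Fintype.card U →
      0 < ν → ν ≤ Fintype.card U → ν ≤ G.n → 0 ≤ Z → 0 ≤ K2 →
      8 * (2 * j * G.K + 1) ≤ G.M → 8 * ((j : ℝ) ^ 2 * Z) ≤ G.ρ * G.M ^ l0 →
      (∀ x : ℝ, x ≤ G.ρ * G.M ^ G.n / 2 → ∃ R1 R2 : ℝ, x - Z ≤ R1 ∧ R1 < x ∧ x ≤ R2 ∧ R2 ≤ x + Z ∧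
        ((∀ β : Fin e → Option U, (∃ c, β c = none) →
          ¬ (R1 < ∑ c, (β c).elim 0 (fun u => G.X (f u).2 / G.M ^ ((f u).1 : ℕ)) ∧
            ∑ c, (β c).elim 0 (fun u => G.X (f u).2 / G.M ^ ((f u).1 : ℕ)) ≤ R2)) →
        ∀ B : Finset (Fin e → U),
          (∀ β, β ∈ B ↔ R1 < ∑ c, G.X (f (β c)).2 / G.M ^ ((f (β c)).1 : ℕ) ∧
            ∑ c, G.X (f (β c)).2 / G.M ^ ((f (β c)).1 : ℕ) ≤ R2) →
          ∑ β ∈ B, ∏ c, val (β c) = 0)) →
      (∀ i < R, (Tr.Rmax j D + 1) * (K2 ^ j *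
        (j * ((j * ((E + 1) * 7) + l0 + 3 + Tr.Bc j D (E + 1) (Ob E (T i)) : ℕ) *
          ((Ob E (T i) : ℝ) / ν)) + j * (1 / T (i + 1) * (Tr.Bc j D (E + 1) (Ob E (T i)) : ℝ))) +
        j * (D / R) + j * 2 ^ j / ν) < 1) → False := by
  obtain ⟨j, hj1, hj⟩ := tree_false K e D he hp
  refine ⟨j, hj1, ?_⟩
  intro V Λ U _ _ G f val T R l0 E Z K2 ν hf hctr hval hT hT0 hTR hR hE hD hK2 hν hνU hνn hZ hK20
    hM hZr hid hsmall
  have hTi : ∀ i, 1 ≤ T i := fun i => hT0.trans (hT (Nat.zero_le i))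
  have hl0 : 1 ≤ l0 := (hTi R).trans hTR
  obtain ⟨i, hi, hmed⟩ := G.exists_med (hl0 := hl0) f T hT hT0 hR hD
  have hpos : ∀ u, (G.tr (T i) (T (i + 1)) l0 hl0).pos (f u) =
      G.X (f u).2 / G.M ^ ((f u).1 : ℕ) := by
    intro u
    change G.cp (G.st (f u) 0) = _
    rw [G.st_zero, hctr]
    rfl
  have hcard : (Fintype.card (Fin G.n × V) : ℝ) = G.n * Fintype.card V := by simp
  refine hj _ _ U (G.tr (T i) (T (i + 1)) l0 hl0) f val Z (Ob E (T i) / ν) (1 / T (i + 1)) (D / R)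
    K2 (E + 1) (Ob E (T i)) ?_ hval hZ (by positivity) (by positivity)
    (G.card_Dif (hD.trans_le (Nat.pow_le_pow_left (hT (Nat.zero_le i)) _)) (hTi i))
    (G.card_Ev hE) (G.card_Own hE (hTi i)) (fun s => (G.spread hE (hTi i) s).trans ?_)
    (fun l hl y => G.diffuse (hTi _) ((hT hi).trans hTR) hl y) hmed (by rwa [hcard])
    (by exact_mod_cast hν.trans_le hνU) hM hZr (by simp only [hpos]; exact hid)
    (lt_of_le_of_lt ?_ (hsmall i hi))
  · intro u u' h
    change G.st (f u) 0 = G.st (f u') 0 at h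
    rw [G.st_zero, G.st_zero, hctr, hctr] at h
    simp only [Option.some.injEq, Prod.mk.injEq] at h
    exact hf (Prod.ext (Fin.ext h.1) h.2)
  · rw [hcard, ← mul_assoc (Ob E (T i) / ν : ℝ)]
    refine mul_le_mul_of_nonneg_right ?_ (Nat.cast_nonneg (α := ℝ) _)
    rw [div_mul_eq_mul_div, le_div_iff₀ hν]
    exact mul_le_mul_of_nonneg_left hνn (Nat.cast_nonneg (α := ℝ) _)
  · change _ * (_ * (_ * (((j * ((E + 1) * 7) + l0 + 3 + _ : ℕ) : ℝ) * _) + _) + _ + _) ≤ _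
    gcongr

end Pool.Agent.Lib.MP_f2f914_nt.DC
end

-- part Pool.Agent.Lib.MP_f2f914_nt.DCSlice
section

/-!
The hierarchy of clusters of a slice of a sparse polynomial.
-/

namespace Pool.Agent.Lib.MP_f2f914_nt.DC

open Finset Polynomial

theorem Sp_merge {K Λ ι : Type} [CommRing K] [DecidableEq Λ] (N r : ℕ) (Θ : Finset ℕ) (c : ℕ → K)
    (lab : ℕ → Λ) (pos : ℕ → ℕ) (H : Finset ι) (i : ι → ℕ) (hi : ∀ x ∈ H, i x ∈ Θ)
    (hinj : ∀ x ∈ H, ∀ y ∈ H, lab (i x) = lab (i y) → x = y)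
    (hsurj : ∀ θ ∈ Θ, ∑ θ' ∈ Θ.filter (fun θ' => lab θ' = lab θ), c θ' ≠ 0 →
      ∃ x ∈ H, lab (i x) = lab θ)
    (hnear : ∀ θ ∈ Θ, ∀ θ' ∈ Θ, lab θ = lab θ' → pos θ ≤ pos θ' + r) :
    Sp N (Θ.card * r) (∑ x ∈ H, C (∑ θ' ∈ Θ.filter (fun θ' => lab θ' = lab (i x)), c θ') *
      X ^ pos (i x) - ∑ θ ∈ Θ, C (c θ) * X ^ pos θ) := by
  classical
  obtain ⟨z, hz1, hz2⟩ : ∃ z : Λ → ℕ, (∀ θ ∈ Θ, z (lab θ) ∈ Θ ∧ lab (z (lab θ)) = lab θ) ∧
      ∀ x ∈ H, z (lab (i x)) = i x := by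
    have : ∀ a : Λ, ∃ y : ℕ, ((∃ θ ∈ Θ, lab θ = a) → y ∈ Θ ∧ lab y = a) ∧
        ∀ x ∈ H, lab (i x) = a → y = i x := by
      intro a
      by_cases h1 : ∃ x ∈ H, lab (i x) = a
      · obtain ⟨x, hx, e⟩ := h1
        exact ⟨i x, fun _ => ⟨hi x hx, e⟩, fun y hy e' => by rw [hinj x hx y hy (e.trans e'.symm)]⟩
      · by_cases h2 : ∃ θ ∈ Θ, lab θ = a
        · obtain ⟨θ, hθ, e⟩ := h2
          exact ⟨θ, fun _ => ⟨hθ, e⟩, fun y hy e' => absurd ⟨y, hy, e'⟩ h1⟩
        · exact ⟨0, fun h => absurd h h2, fun y hy e' => absurd ⟨y, hy, e'⟩ h1⟩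
    choose z hz1 hz2 using this
    exact ⟨z, fun θ hθ => hz1 _ ⟨θ, hθ, rfl⟩, fun x hx => hz2 _ x hx rfl⟩
  have e : ∑ x ∈ H, C (∑ θ' ∈ Θ.filter (fun θ' => lab θ' = lab (i x)), c θ') * X ^ pos (i x) =
      ∑ θ ∈ Θ, C (c θ) * (X : K[X]) ^ pos (z (lab θ)) := by
    rw [← sum_fiberwise_of_maps_to (s := Θ) (t := Θ.image lab) (g := lab)
      (fun θ hθ => mem_image_of_mem _ hθ)]
    have e1 : ∀ a ∈ Θ.image lab, ∑ θ ∈ Θ.filter (fun θ => lab θ = a),
        C (c θ) * (X : K[X]) ^ pos (z (lab θ)) =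
        C (∑ θ ∈ Θ.filter (fun θ => lab θ = a), c θ) * X ^ pos (z a) := by
      intro a _
      rw [map_sum, sum_mul]
      exact sum_congr rfl fun θ hθ => by rw [(mem_filter.1 hθ).2]
    rw [sum_congr rfl e1, ← sum_subset (s₁ := H.image fun x => lab (i x)), sum_image hinj]
    · exact sum_congr rfl fun x hx => by rw [hz2 x hx]
    · intro a ha
      obtain ⟨x, hx, rfl⟩ := mem_image.1 ha
      exact mem_image_of_mem _ (hi x hx)
    · intro a ha ha'
      obtain ⟨θ, hθ, rfl⟩ := mem_image.1 ha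
      by_cases h0 : ∑ θ' ∈ Θ.filter (fun θ' => lab θ' = lab θ), c θ' = 0
      · rw [h0, map_zero, zero_mul]
      · obtain ⟨x, hx, e⟩ := hsurj θ hθ h0
        exact absurd (mem_image.2 ⟨x, hx, e⟩) ha'
  rw [e, ← sum_sub_distrib]
  refine Sp.sum _ fun θ hθ => ?_
  rw [← mul_sub]
  exact (Sp_X_pow_sub N (hnear _ (hz1 θ hθ).1 _ hθ (hz1 θ hθ).2)
    (hnear _ hθ _ (hz1 θ hθ).1 (hz1 θ hθ).2.symm)).C_mul _

theorem exists_small_pos {K U : Type} [Field K] [Fintype U] {P : K[X]} {c0 : K}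
    (hP : P.eval c0 ≠ 0) (val : U → K) (pos : U → ℕ) {N Z : ℕ}
    (h : Sp N Z (P.comp (C c0 + ∑ u, C (val u) * X ^ pos u))) (hZ : Z < N) : ∃ u, pos u ≤ Z := by
  by_contra hcon
  push Not at hcon
  obtain ⟨R, -, hR, h0⟩ := h.exists_zero (a := 0) (by omega)
  have h1 : X ^ (Z + 1) ∣ ∑ u, C (val u) * (X : K[X]) ^ pos u :=
    dvd_sum fun u _ => (pow_dvd_pow _ (hcon u)).mul_left _
  have h2 := sub_dvd_eval_sub (C c0 + ∑ u, C (val u) * X ^ pos u) (C c0) (P.map C)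
  rw [add_sub_cancel_left, eval_map, eval_map, eval₂_at_apply] at h2
  have h3 := X_pow_dvd_iff.1 (h1.trans h2)
  refine hP ?_
  rw [← ps_C (P.eval c0) R, ← h0]
  refine ps_congr fun i hi => ?_
  have := h3 i (by omega)
  rw [coeff_sub, sub_eq_zero] at this
  exact this.symm

/-- A slice: a polynomial supported in the interval `(u, M (u - g)]`. -/
structure Sl (K : Type) [Field K] where
  Θ : K[X]
  g : ℕ
  u : ℕ
  M : ℕ
  Kn : ℕ
  hg : 1 ≤ g
  hgu : g ≤ u
  huK : u ≤ Kn * g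
  hM : 4 ≤ M
  hcard : Θ.support.card ≤ Kn
  lo : ∀ θ ∈ Θ.support, u < θ
  hi : ∀ θ ∈ Θ.support, θ + M * g ≤ M * u

namespace Sl

variable {K : Type} [Field K] (S : Sl K)

/-- Left ends of the clusters at resolution `s`. -/
def Lf (s : ℕ) : Finset ℕ :=
  S.Θ.support.filter fun θ => ∀ θ' ∈ S.Θ.support, θ' < θ → S.g * S.M < S.M ^ s * (θ - θ')

/-- Label of the cluster of `θ` at resolution `s`. -/
def lb (s θ : ℕ) : Finset ℕ := (S.Lf s).filter (· ≤ θ)

theorem Lf_mono {s s' : ℕ} (h : s ≤ s') : S.Lf s ⊆ S.Lf s' := by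
  intro θ hθ
  rw [Lf, mem_filter] at hθ ⊢
  exact ⟨hθ.1, fun θ' h1 h2 => (hθ.2 θ' h1 h2).trans_le
    (Nat.mul_le_mul_right _ (Nat.pow_le_pow_right (by linarith [S.hM]) h))⟩

theorem lb_nest {s s' θ θ' : ℕ} (h : s ≤ s') (e : S.lb s' θ = S.lb s' θ') :
    S.lb s θ = S.lb s θ' := by
  ext x
  have := congrArg (x ∈ ·) e
  simp only [lb, mem_filter, eq_iff_iff, and_congr_right_iff] at this ⊢
  exact fun hx => this (S.Lf_mono h hx)

theorem lb_sep {s θ θ' : ℕ} (hθ : θ ∈ S.Θ.support) (h : θ ≤ θ') (ne : S.lb s θ ≠ S.lb s θ') :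
    S.g * S.M < S.M ^ s * (θ' - θ) := by
  by_contra hcon
  refine ne (filter_congr fun x hx => ⟨fun h1 => h1.trans h, fun h1 => ?_⟩)
  by_contra h2
  exact hcon (((mem_filter.1 hx).2 θ hθ (not_le.1 h2)).trans_le (Nat.mul_le_mul_left _ (by omega)))

theorem lb_near {s θ : ℕ} (θ' : ℕ) (hθ' : θ' ∈ S.Θ.support) (h : θ ≤ θ')
    (e : ∀ x ∈ S.Lf s, x ≤ θ' → x ≤ θ) : S.M ^ s * (θ' - θ) ≤
      (S.Θ.support.filter fun x => θ < x ∧ x ≤ θ').card * (S.g * S.M) := by
  induction θ' using Nat.strong_induction_on with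
  | _ θ' ih =>
    rcases h.eq_or_lt with rfl | h
    · simp
    have h1 : θ' ∉ S.Lf s := fun h1 => absurd (e _ h1 le_rfl) (not_le.2 h)
    simp only [Lf, mem_filter, hθ', true_and, not_forall, not_lt] at h1
    obtain ⟨y, hy, h2, h3⟩ := h1
    rcases le_or_gt y θ with h4 | h4
    · refine le_trans (le_trans (Nat.mul_le_mul_left _ (by omega)) h3) (Nat.le_mul_of_pos_left _ ?_)
      exact card_pos.2 ⟨θ', mem_filter.2 ⟨hθ', h, le_rfl⟩⟩
    · have h5 := ih y h2 hy h4.le fun x hx hxy => e x hx (by omega)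
      have h6 : (S.Θ.support.filter fun x => θ < x ∧ x ≤ y).card <
          (S.Θ.support.filter fun x => θ < x ∧ x ≤ θ').card := by
        refine card_lt_card ⟨fun x hx => ?_, fun h7 => ?_⟩
        · simp only [mem_filter] at hx ⊢
          exact ⟨hx.1, hx.2.1, by omega⟩
        · have := (mem_filter.1 (h7 (mem_filter.2 ⟨hθ', h, le_rfl⟩))).2
          omega
      have h7 : θ' - θ = (θ' - y) + (y - θ) := by omega
      have h8 := Nat.mul_le_mul_right (S.g * S.M) (Nat.succ_le_of_lt h6)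
      rw [Nat.succ_mul] at h8
      rw [h7, mul_add]
      omega

theorem pos_near {s θ θ' : ℕ} (hθ : θ ∈ S.Θ.support) (e : S.lb s θ = S.lb s θ') :
    S.M ^ s * θ ≤ S.M ^ s * θ' + S.Kn * (S.g * S.M) := by
  rcases le_or_gt θ θ' with h | h
  · exact (Nat.mul_le_mul_left _ h).trans (Nat.le_add_right _ _)
  · have h1 := S.lb_near (s := s) θ hθ h.le fun x hx hxθ => by
      have : x ∈ S.lb s θ := mem_filter.2 ⟨hx, hxθ⟩
      rw [e] at this
      exact (mem_filter.1 this).2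
    have h2 := Nat.mul_le_mul_right (S.g * S.M)
      ((card_filter_le S.Θ.support fun x => θ' < x ∧ x ≤ θ).trans S.hcard)
    obtain ⟨d, rfl⟩ := Nat.exists_eq_add_of_le h.le
    rw [Nat.add_sub_cancel_left] at h1
    rw [mul_add]
    omega

theorem lb_inj {s θ θ' : ℕ} (h : θ ∈ S.Lf s) (h' : θ' ∈ S.Lf s) (e : S.lb s θ = S.lb s θ') :
    θ = θ' := by
  have h1 : θ ∈ S.lb s θ' := e ▸ mem_filter.2 ⟨h, le_rfl⟩
  have h2 : θ' ∈ S.lb s θ := e ▸ mem_filter.2 ⟨h', le_rfl⟩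
  exact le_antisymm (mem_filter.1 h1).2 (mem_filter.1 h2).2

theorem exists_rep (s : ℕ) {θ : ℕ} (h : θ ∈ S.Θ.support) :
    ∃ y ∈ S.Lf s, S.lb s y = S.lb s θ := by
  have hne : (S.lb s θ).Nonempty := by
    refine ⟨S.Θ.support.min' ⟨θ, h⟩, mem_filter.2 ⟨mem_filter.2 ⟨min'_mem _ _, fun y hy h1 => ?_⟩,
      min'_le _ _ h⟩⟩
    exact absurd (min'_le _ _ hy) (not_le.2 h1)
  have h1 := mem_filter.1 (max'_mem _ hne)
  refine ⟨(S.lb s θ).max' hne, h1.1, filter_congr fun x hx => ⟨fun h2 => h2.trans h1.2,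
    fun h2 => le_max' _ _ (mem_filter.2 ⟨hx, h2⟩)⟩⟩

/-- Total value of a cluster. -/
def vl (s : ℕ) (a : Finset ℕ) : K := ∑ θ ∈ S.Θ.support.filter (fun θ => S.lb s θ = a), S.Θ.coeff θ

theorem exists_child {s s' : ℕ} (h : s ≤ s') {a : Finset ℕ} (ha : S.vl s a ≠ 0) :
    ∃ y ∈ S.Lf s', S.lb s y = a ∧ S.vl s' (S.lb s' y) ≠ 0 := by
  unfold vl at ha
  rw [← sum_fiberwise_of_maps_to (t := (S.Θ.support.filter (fun θ => S.lb s θ = a)).image (S.lb s'))
    (g := S.lb s') (fun θ hθ => mem_image_of_mem _ hθ)] at ha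
  obtain ⟨b, hb, h1⟩ := exists_ne_zero_of_sum_ne_zero ha
  obtain ⟨θ, hθ, rfl⟩ := mem_image.1 hb
  obtain ⟨hθ1, hθ2⟩ := mem_filter.1 hθ
  obtain ⟨y, hy, e⟩ := S.exists_rep s' hθ1
  refine ⟨y, hy, (S.lb_nest h e).trans hθ2, ?_⟩
  rw [e]
  convert h1 using 1
  refine sum_congr ?_ fun _ _ => rfl
  rw [filter_filter]
  exact filter_congr fun x _ => ⟨fun h2 => ⟨(S.lb_nest h h2).trans hθ2, h2⟩, fun h2 => h2.2⟩

open Classical in
/-- Representatives of the visible clusters. -/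
noncomputable def Vis (s : ℕ) : Finset ℕ := (S.Lf s).filter fun θ => S.vl s (S.lb s θ) ≠ 0

theorem mem_Vis {s θ : ℕ} : θ ∈ S.Vis s ↔ θ ∈ S.Lf s ∧ S.vl s (S.lb s θ) ≠ 0 := by
  classical
  exact mem_filter

theorem Vis_sub {s θ : ℕ} (h : θ ∈ S.Vis s) : θ ∈ S.Θ.support :=
  (mem_filter.1 (S.mem_Vis.1 h).1).1

theorem card_Vis_le (s : ℕ) : (S.Vis s).card ≤ S.Θ.support.card :=
  card_le_card fun _ h => S.Vis_sub h

theorem one_le_Kn : 1 ≤ S.Kn := by
  have h1 := S.huK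
  have h2 := S.hg
  have h3 := S.hgu
  by_contra h
  rw [show S.Kn = 0 by omega] at h1
  omega

/-- The geometric hierarchy. -/
noncomputable def geo (n : ℕ) : Geo (S.Vis n) (Finset ℕ) where
  lab d v := S.lb (n - d) v
  inj v v' e := Subtype.ext (S.lb_inj (S.mem_Vis.1 v.2).1 (S.mem_Vis.1 v'.2).1 e)
  nest d v v' e := S.lb_nest (by omega) e
  X v := (S.M : ℝ) ^ n * (v : ℕ)
  ρ := S.g * S.M
  M := S.M
  K := S.Kn
  W := S.u * (S.M : ℝ) ^ n
  n := n
  hρ := by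
    have h1 : 0 < S.g * S.M := Nat.mul_pos S.hg (by linarith [S.hM])
    exact_mod_cast h1
  hK := by exact_mod_cast S.one_le_Kn
  hM := by exact_mod_cast S.hM
  sepV := by
    have key : ∀ d (v v' : S.Vis n), d < n → S.lb (n - d) v ≠ S.lb (n - d) v' → (v : ℕ) ≤ v' →
        (S.g * S.M : ℝ) * S.M ^ d < S.M ^ n * (v' : ℕ) - S.M ^ n * (v : ℕ) := by
      intro d v v' hd ne h
      have h1 := Nat.mul_lt_mul_of_pos_right (S.lb_sep (S.Vis_sub v.2) h ne)
        (Nat.pow_pos (n := d) (show 0 < S.M by linarith [S.hM]))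
      rw [mul_right_comm (S.M ^ _), ← pow_add, Nat.sub_add_cancel hd.le] at h1
      rw [← mul_sub, ← Nat.cast_sub h]
      exact_mod_cast h1
    intro d v v' hd ne
    rcases le_total (v : ℕ) v' with h | h
    · rw [abs_sub_comm]; exact (key d v v' hd ne h).trans_le (le_abs_self _)
    · exact (key d v' v hd ne.symm h).trans_le (le_abs_self _)
  nearV := by
    have key : ∀ d (v v' : S.Vis n), d < n → S.lb (n - d) v = S.lb (n - d) v' →
        (S.M : ℝ) ^ n * (v : ℕ) - S.M ^ n * (v' : ℕ) ≤ S.Kn * (S.g * S.M * S.M ^ d) := by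
      intro d v v' hd e
      have h1 := Nat.mul_le_mul_right (S.M ^ d) (S.pos_near (S.Vis_sub v.2) e)
      rw [add_mul, mul_right_comm _ (v : ℕ), mul_right_comm _ (v' : ℕ), ← pow_add,
        Nat.sub_add_cancel hd.le, mul_assoc] at h1
      rw [sub_le_iff_le_add']
      exact_mod_cast h1
    intro d v v' hd e
    rw [abs_sub_le_iff]
    exact ⟨key d v v' hd e, key d v' v hd e.symm⟩
  lo v := by
    have h1 := Nat.mul_lt_mul_of_pos_right (S.lo _ (S.Vis_sub v.2))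
      (Nat.pow_pos (n := n) (show 0 < S.M by linarith [S.hM]))
    rw [mul_comm _ ((v : ℕ) : ℝ)]
    exact_mod_cast h1
  hi v := by
    have h1 := Nat.mul_le_mul_right (S.M ^ n) (S.hi _ (S.Vis_sub v.2))
    have h2 : (((v : ℕ) : ℝ) + S.M * S.g) * S.M ^ n ≤ S.M * S.u * S.M ^ n := by exact_mod_cast h1
    linarith
  hW1 := by
    have h1 : (S.g : ℝ) ≤ S.u := by exact_mod_cast S.hgu
    calc _ = S.M * (S.g * (S.M : ℝ) ^ n) := by ring
      _ ≤ _ := by gcongr
  hW2 := by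
    have h1 : (S.u : ℝ) ≤ S.Kn * S.g := by exact_mod_cast S.huK
    calc _ ≤ S.M * ((S.Kn * S.g) * (S.M : ℝ) ^ n) := by gcongr
      _ = _ := by ring

/-- The points which carry a nonzero value. -/
def UU (n : ℕ) : Type := {ω : Fin n × S.Vis n //
  (S.geo n).ctr ω.1 ω.2 = ω.2 ∧ S.vl (n - ω.1) (S.lb (n - ω.1) ω.2) ≠ 0}

noncomputable instance (n : ℕ) : Fintype (S.UU n) := by
  classical
  unfold UU
  infer_instance

/-- Value of a point. -/
def val {n : ℕ} (x : S.UU n) : K := S.vl (n - x.1.1) (S.lb (n - x.1.1) x.1.2)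

/-- Position of a point. -/
def pos {n : ℕ} (x : S.UU n) : ℕ := S.M ^ (n - x.1.1) * x.1.2

theorem exists_UU {n : ℕ} (τ : Fin n) {a : Finset ℕ} (h : S.vl (n - τ) a ≠ 0) :
    ∃ v : S.Vis n, S.lb (n - τ) v = a ∧ (S.geo n).ctr τ v = v := by
  obtain ⟨y, hy, e, h1⟩ := S.exists_child (Nat.sub_le n τ) h
  exact ⟨(S.geo n).ctr τ ⟨y, S.mem_Vis.2 ⟨hy, h1⟩⟩, ((S.geo n).lab_ctr τ _).trans e,
    (S.geo n).ctr_ctr _ _⟩

theorem card_UU (n : ℕ) : n * (S.Vis n).card ≤ Fintype.card (S.UU (2 * n)) := by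
  classical
  rw [← card_range n, ← card_product, card_range, ← card_image_of_injOn
    (f := fun x : ℕ × ℕ => (x.1, S.lb n x.2))]
  · refine le_trans (card_le_card (t := univ.image fun x : S.UU (2 * n) =>
      ((x.1.1 : ℕ), S.lb n x.1.2)) fun y hy => ?_) card_image_le
    obtain ⟨⟨τ, θ⟩, h, rfl⟩ := mem_image.1 hy
    obtain ⟨h1, h2⟩ := mem_product.1 h
    have h3 : τ < n := mem_range.1 h1
    obtain ⟨y, -, e, h4⟩ := S.exists_child (s' := 2 * n - τ) (by omega) (S.mem_Vis.1 h2).2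
    obtain ⟨v, e1, e2⟩ := S.exists_UU (n := 2 * n) ⟨τ, by omega⟩ h4
    refine mem_image.2 ⟨⟨(⟨τ, by omega⟩, v), e2, e1 ▸ h4⟩, mem_univ _, ?_⟩
    simp only [Prod.mk.injEq, true_and]
    exact (S.lb_nest (by simp only; omega) e1).trans e
  · intro x hx y hy e
    simp only [coe_product, Set.mem_prod, mem_coe, Prod.mk.injEq] at hx hy e
    exact Prod.ext e.1 (S.lb_inj (S.mem_Vis.1 hx.2).1 (S.mem_Vis.1 hy.2).1 e.2)

theorem Vis_nonempty {n s : ℕ} (x : S.UU n) (h : S.pos x ≤ S.g * S.M ^ s) : 0 < (S.Vis s).card := by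
  have h1 : n - x.1.1 ≤ s := by
    by_contra h1
    have h2 := Nat.pow_le_pow_right (show 0 < S.M by linarith [S.hM]) (not_le.1 h1).le
    have h3 := S.lo _ (S.Vis_sub x.1.2.2)
    have h4 := S.hgu
    have h5 : S.M ^ s * S.g < S.M ^ (n - x.1.1) * x.1.2 := Nat.mul_lt_mul_of_le_of_lt h2 (by omega)
      (Nat.pow_pos (by linarith [S.hM]))
    unfold pos at h
    rw [mul_comm S.g] at h
    omega
  obtain ⟨y, hy, -, h2⟩ := S.exists_child h1 x.2.2
  exact card_pos.2 ⟨y, S.mem_Vis.2 ⟨hy, h2⟩⟩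

theorem Sp_UU (N n : ℕ) : Sp N (n * (S.Kn * (S.Kn * (S.g * S.M))))
    (∑ x : S.UU n, C (S.val x) * X ^ S.pos x - ∑ t ∈ range n, expand K (S.M ^ (t + 1)) S.Θ) := by
  classical
  have e1 : ∑ x : S.UU n, C (S.val x) * X ^ S.pos x = ∑ τ : Fin n, ∑ v ∈ univ.filter
      (fun v : S.Vis n => (S.geo n).ctr τ v = v ∧ S.vl (n - τ) (S.lb (n - τ) v) ≠ 0),
      C (S.vl (n - τ) (S.lb (n - τ) v)) * X ^ (S.M ^ (n - τ) * v) := by
    simp only [sum_filter]
    rw [← Fintype.sum_prod_type', ← sum_filter]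
    exact (sum_subtype _ (by simp) fun ω : Fin n × S.Vis n =>
      C (S.vl (n - ω.1) (S.lb (n - ω.1) ω.2)) * X ^ (S.M ^ (n - ω.1) * ω.2)).symm
  have e2 : ∑ t ∈ range n, expand K (S.M ^ (t + 1)) S.Θ = ∑ τ : Fin n,
      ∑ θ ∈ S.Θ.support, C (S.Θ.coeff θ) * X ^ (S.M ^ (n - τ) * θ) := by
    rw [← sum_range_reflect, ← Fin.sum_univ_eq_sum_range]
    refine sum_congr rfl fun τ _ => ?_
    conv_lhs => rw [S.Θ.as_sum_support_C_mul_X_pow]
    rw [show n - 1 - τ + 1 = n - τ by have := τ.2; omega]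
    simp [← pow_mul]
  rw [e1, e2, ← sum_sub_distrib]
  refine (Sp.sum _ fun τ _ => ?_).mono le_rfl (by rw [card_univ, Fintype.card_fin])
  refine (Sp_merge N (S.Kn * (S.g * S.M)) S.Θ.support S.Θ.coeff (S.lb (n - τ))
    (fun θ => S.M ^ (n - τ) * θ) _ Subtype.val (fun v _ => S.Vis_sub v.2) ?_ ?_
    fun θ hθ θ' _ e => S.pos_near hθ e).mono le_rfl (Nat.mul_le_mul_right _ S.hcard)
  · intro v hv v' hv' e
    rw [← (mem_filter.1 hv).2.1, ← (mem_filter.1 hv').2.1]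
    exact (S.geo n).ctr_congr e
  · intro θ _ h
    obtain ⟨v, e1, e2⟩ := S.exists_UU τ h
    exact ⟨v, mem_filter.2 ⟨mem_univ _, e2, e1 ▸ h⟩, e1⟩

theorem card_UU_le (n : ℕ) : Fintype.card (S.UU n) ≤ n * S.Kn := by
  refine (Fintype.card_le_of_injective (fun x : S.UU n => x.1) fun _ _ h => Subtype.ext h).trans ?_
  rw [Fintype.card_prod, Fintype.card_fin, Fintype.card_coe]
  exact Nat.mul_le_mul_left _ ((S.card_Vis_le n).trans S.hcard)

theorem Sp_comp_UU {P : K[X]} {c0 : K} {N Z n : ℕ}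
    (h : Sp N Z (P.comp (C c0 + ∑ t ∈ range n, expand K (S.M ^ (t + 1)) S.Θ))) :
    Sp N (Z + (P.natDegree + 1) * ((2 * (1 + n * S.Kn)) ^ P.natDegree *
      (n * (S.Kn * (S.Kn * (S.g * S.M))))))
      (P.comp (C c0 + ∑ x : S.UU n, C (S.val x) * X ^ S.pos x)) := by
  have hC : (C c0).support.card ≤ 1 := by
    simpa using card_support_C_mul_X_pow_le_one (c := c0) (n := 0)
  refine h.comp (by simpa using S.Sp_UU N n) ((card_support_add_le _ _).trans (add_le_add hC ?_))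
    ((card_support_add_le _ _).trans (add_le_add hC ?_)) (by omega)
  · refine (card_support_sum_le _ fun x _ => card_support_C_mul_X_pow_le_one).trans ?_
    simpa using S.card_UU_le n
  · refine (card_support_sum_le _ fun t _ => (card_support_expand_le
      (Nat.pow_pos (by linarith [S.hM])) _).trans S.hcard).trans (by rw [card_range])

end Sl

end Pool.Agent.Lib.MP_f2f914_nt.DC
end
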