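import Mathlib
import Pool.Agent.Lib.MP_f2f914_nt.DCSlice
import Pool.Agent.Lib.MP_f2f914_nt.DCPrime

-- part Pool.Agent.Lib.MP_f2f914_nt.DCSliceFalse
section

/-!
A self-similar sparse polynomial cannot almost satisfy an equation without roots.
-/

namespace Pool.Agent.Lib.MP_f2f914_nt.DC

open Finset Polynomial Filter

theorem eventually_pow_le (c : ℕ) : ∀ᶠ Y : ℕ in atTop, 2 * Y ^ c ≤ 2 ^ Y := by
  have h := (tendsto_pow_const_div_const_pow_of_one_lt c (r := 2) (by norm_num)).eventually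
    (gt_mem_nhds (show (0 : ℝ) < 1 / 2 by norm_num))
  filter_upwards [h] with Y hY
  rw [div_lt_iff₀ (by positivity)] at hY
  have : (2 : ℝ) * Y ^ c ≤ 2 ^ Y := by linarith
  exact_mod_cast this

theorem exists_slow (f : ℕ → ℕ) (Y R : ℕ) (h0 : 1 ≤ f 0) (hR : f R < Y ^ R) :
    ∃ i < R, Y ^ i ≤ f i ∧ f (i + 1) ≤ Y * f i := by
  by_contra hcon
  push Not at hcon
  have : ∀ i ≤ R, Y ^ i ≤ f i := by
    intro i hi
    induction i with
    | zero => simpa using h0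
    | succ i ih =>
      have h1 := ih (by omega)
      have h2 := hcon i (by omega) h1
      rw [pow_succ']
      exact (Nat.mul_le_mul_left _ h1).trans h2.le
  exact absurd (this R le_rfl) (not_le.2 hR)

theorem small_ineq {j D E Y T T' l0 R ν : ℕ} (hE : E + 1 = Y) (hY : 5 ≤ Y)
    (hRm : Tr.Rmax j D + 1 ≤ Y) (h2 : 2 ^ j ≤ Y) (hj : 7 * j + 1 ≤ Y) (hT : 1 ≤ T) (hTl : T ≤ l0)
    (hT' : T' = T * Y ^ (j + 15)) (hν : Y ^ (j + 15) * l0 ^ 2 ≤ ν)
    (hR : 4 * ((Tr.Rmax j D + 1) * (j * D)) < R) :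
    ((Tr.Rmax j D : ℝ) + 1) * ((2 * Y) ^ j *
        (j * ((j * ((E + 1) * 7) + l0 + 3 + Tr.Bc j D (E + 1) (Ob E T) : ℕ) *
          ((Ob E T : ℝ) / ν)) + j * (1 / T' * (Tr.Bc j D (E + 1) (Ob E T) : ℝ))) +
        j * (D / R) + j * 2 ^ j / ν) < 1 := by
  have hY1 : 1 ≤ Y := by omega
  have p : ∀ a b, a ≤ b → Y ^ a ≤ Y ^ b := fun a b h => Nat.pow_le_pow_right hY1 h
  have hO : Ob E T ≤ Y ^ 3 * T := by
    unfold Ob
    rw [hE]
    have h1 : Y ≤ Y * (T * Y) := Nat.le_mul_of_pos_right _ (Nat.mul_pos hT hY1)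
    calc _ ≤ 2 * (Y * (T * Y)) := by omega
      _ ≤ Y * (Y * (T * Y)) := Nat.mul_le_mul_right _ (by omega)
      _ = _ := by ring
  have hB : Tr.Bc j D (E + 1) (Ob E T) ≤ Y ^ 7 * T := by
    unfold Tr.Bc
    rw [hE]
    have h1 : j * Y + 1 ≤ Y ^ 2 := by nlinarith
    have h3 : (j * Y + 1) ^ 2 * 4 ≤ Y ^ 5 * T :=
      calc _ ≤ (Y ^ 2) ^ 2 * Y := Nat.mul_le_mul (Nat.pow_le_pow_left h1 2) (by omega)
        _ = Y ^ 5 := by ring
        _ ≤ _ := Nat.le_mul_of_pos_right _ hT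
    have h4 : j * Ob E T * 3 ≤ Y ^ 5 * T :=
      calc _ = 3 * j * Ob E T := by ring
        _ ≤ Y * (Y ^ 3 * T) := Nat.mul_le_mul (by omega) hO
        _ = Y ^ 4 * T := by ring
        _ ≤ _ := Nat.mul_le_mul_right _ (p _ _ (by norm_num))
    calc _ ≤ Y * (2 * (Y ^ 5 * T)) := Nat.mul_le_mul (by omega) (by omega)
      _ ≤ Y * (Y * (Y ^ 5 * T)) := Nat.mul_le_mul_left _ (Nat.mul_le_mul_right _ (by omega))
      _ = _ := by ring
  have hS : j * ((E + 1) * 7) + l0 + 3 + Tr.Bc j D (E + 1) (Ob E T) ≤ Y ^ 8 * l0 := by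
    have h1 : Y ^ 7 ≤ Y ^ 7 * l0 := Nat.le_mul_of_pos_right _ (by omega)
    have h3 : j * ((E + 1) * 7) ≤ Y ^ 7 :=
      calc _ = 7 * j * Y := by rw [hE]; ring
        _ ≤ Y * Y := Nat.mul_le_mul_right _ (by omega)
        _ = Y ^ 2 := by ring
        _ ≤ _ := p _ _ (by norm_num)
    have h4 : l0 ≤ Y ^ 7 * l0 := Nat.le_mul_of_pos_left _ (Nat.pow_pos hY1)
    have h5 : Y ≤ Y ^ 7 := by simpa using p 1 7 (by norm_num)
    have h6 := hB.trans (Nat.mul_le_mul_left _ hTl)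
    calc _ ≤ 4 * (Y ^ 7 * l0) := by omega
      _ ≤ Y * (Y ^ 7 * l0) := Nat.mul_le_mul_right _ (by omega)
      _ = _ := by ring
  have hl0 : 1 ≤ l0 := hT.trans hTl
  generalize j * ((E + 1) * 7) + l0 + 3 + Tr.Bc j D (E + 1) (Ob E T) = S at hS
  generalize Tr.Bc j D (E + 1) (Ob E T) = B at hB
  have hO' := hO.trans (Nat.mul_le_mul_left _ hTl)
  generalize Ob E T = O at hO'
  generalize Tr.Rmax j D = Rm at hRm hR
  have hjY : j ≤ Y := by omega
  have hK : (2 * Y : ℝ) ^ j ≤ Y ^ (j + 1) := by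
    have : (2 : ℝ) ^ j ≤ Y := by exact_mod_cast h2
    rw [mul_pow, pow_succ']
    gcongr
  have hYr : (5 : ℝ) ≤ Y := by exact_mod_cast hY
  have hY0 : (0 : ℝ) < Y := by linarith
  have hl0r : (1 : ℝ) ≤ l0 := by exact_mod_cast hl0
  have hTr : (1 : ℝ) ≤ T := by exact_mod_cast hT
  have hνr : (Y : ℝ) ^ (j + 15) * l0 ^ 2 ≤ ν := by exact_mod_cast hν
  have hν0 : (0 : ℝ) < Y ^ (j + 15) * l0 ^ 2 := by positivity
  have hRr : (Rm : ℝ) + 1 ≤ Y := by exact_mod_cast hRm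
  have hjr : (j : ℝ) ≤ Y := by exact_mod_cast hjY
  have hSr : (S : ℝ) ≤ Y ^ 8 * l0 := by exact_mod_cast hS
  have hOr : (O : ℝ) ≤ Y ^ 3 * l0 := by exact_mod_cast hO'
  have hBr : (B : ℝ) ≤ Y ^ 7 * T := by exact_mod_cast hB
  have h2r : (2 : ℝ) ^ j ≤ Y := by exact_mod_cast h2
  have hinv : 1 / (Y : ℝ) ≤ 1 / 5 := by gcongr
  have t1 : ((Rm : ℝ) + 1) * ((2 * Y) ^ j * (j * (S * ((O : ℝ) / ν)))) ≤ 1 / Y := by
    calc _ ≤ (Y : ℝ) * (Y ^ (j + 1) * (Y * (Y ^ 8 * l0 *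
          (Y ^ 3 * l0 / (Y ^ (j + 15) * l0 ^ 2))))) := by gcongr
      _ = _ := by field_simp; ring
  have t2 : ((Rm : ℝ) + 1) * ((2 * Y) ^ j * (j * (1 / T' * (B : ℝ)))) ≤ 1 / Y := by
    rw [hT']
    push_cast
    calc _ ≤ (Y : ℝ) * (Y ^ (j + 1) * (Y * (1 / (T * Y ^ (j + 15)) * (Y ^ 7 * T)))) := by gcongr
      _ = 1 / Y ^ 5 := by field_simp; ring
      _ ≤ _ := by
        gcongr
        exact le_self_pow₀ (by linarith) (by norm_num)
  have t3 : ((Rm : ℝ) + 1) * (j * (D / R)) ≤ 1 / 4 := by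
    have h1 : (4 : ℝ) * ((Rm + 1) * (j * D)) < R := by exact_mod_cast hR
    have h3 : (0 : ℝ) < R := lt_of_le_of_lt (by positivity) h1
    rw [← mul_div_assoc, ← mul_div_assoc, div_le_iff₀ h3]
    linarith
  have t4 : ((Rm : ℝ) + 1) * (j * 2 ^ j / ν) ≤ 1 / Y := by
    have h1 : (Y : ℝ) ^ 4 ≤ ν := by
      refine le_trans ?_ hνr
      exact (pow_le_pow_right₀ (by linarith) (by omega)).trans
        (le_mul_of_one_le_right (by positivity) (one_le_pow₀ hl0r))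
    calc _ ≤ (Y : ℝ) * (Y * Y / Y ^ 4) := by gcongr
      _ = _ := by field_simp
  rw [mul_add, mul_add, mul_add ((2 * Y : ℝ) ^ j), mul_add]
  linarith

theorem slice_false (K : Type) [Field K] [Finite K] (P : K[X]) (hP : P.Monic)
    (he : 2 ≤ P.natDegree) (hroot : ∀ x, P.eval x ≠ 0) (c : ℕ)
    (hp : ∀ m : ℕ, 0 < m → m ≤ Tr.Rmax P.natDegree (5 * c + 1) → (m : K) ≠ 0) :
    ∃ A : ℕ, 1 ≤ A ∧ ∀ᶠ Y : ℕ in atTop, ∀ (S : Sl K) (c0 : K) (Z1 : ℕ),
      S.Θ.support.card ≤ Y ^ (c * A) → Y ^ (A + 1) ≤ S.Kn → Y * S.Kn ≤ S.M →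
      Z1 ≤ S.g * S.M ^ Y → (∀ n ≤ Y ^ (A + 1), Sp (S.M ^ (n + 1) * S.u) Z1
        (P.comp (C c0 + ∑ t ∈ range n, expand K (S.M ^ (t + 1)) S.Θ))) → False := by
  obtain ⟨j, hj1, hj⟩ := geo_false K P.natDegree (5 * c + 1) he hp
  set e := P.natDegree with hedef
  set D := 5 * c + 1 with hD
  set R := 4 * ((Tr.Rmax j D + 1) * (j * D)) + 1 with hR
  set B := (j + 15) * R with hB
  have hB1 : j + 15 ≤ B := Nat.le_mul_of_pos_right _ (by omega)
  refine ⟨5 * B, by omega, ?_⟩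
  set A := 5 * B with hA
  filter_upwards [eventually_pow_le (c * A), eventually_ge_atTop (Tr.Rmax j D + 1),
    eventually_ge_atTop (2 ^ j), eventually_ge_atTop (24 * j), eventually_ge_atTop (8 * j ^ 2),
    eventually_ge_atTop (2 ^ (c * A + 1)), eventually_ge_atTop (2 * e + 5)]
    with Y y1 y2 y3 y4 y5 y6 y7 S c0 Z1 hΘ hKn hM hZ1 hSp
  have hY1 : 1 ≤ Y := by omega
  have p : ∀ a b, a ≤ b → Y ^ a ≤ Y ^ b := fun a b h => Nat.pow_le_pow_right hY1 h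
  have hM4 := S.hM
  have pM : ∀ a b, a ≤ b → S.g * S.M ^ a ≤ S.g * S.M ^ b := fun a b h =>
    Nat.mul_le_mul_left _ (Nat.pow_le_pow_right (by omega) h)
  have hK1 := S.one_le_Kn
  have hg := S.hg
  have hKM : S.Kn ≤ S.M := (Nat.le_mul_of_pos_left _ hY1).trans hM
  have hYM : Y ≤ S.M := (Nat.le_mul_of_pos_right _ hK1).trans hM
  have hY2 : Y + 1 ≤ Y ^ 2 := by nlinarith
  set Z := 2 * (S.g * S.M ^ Y) with hZ
  have hZ2 : Z + 2 ≤ S.g * S.M ^ (Y + 1) := by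
    have h1 : 1 ≤ S.g * S.M ^ Y := Nat.mul_pos hg (Nat.pow_pos (by omega))
    calc _ ≤ 4 * (S.g * S.M ^ Y) := by omega
      _ ≤ S.M * (S.g * S.M ^ Y) := Nat.mul_le_mul_right _ hM4
      _ = _ := by ring
  have hSp' : ∀ n ≤ Y ^ (A + 1), Sp (S.M ^ (n + 1) * S.u) Z
      (P.comp (C c0 + ∑ x : S.UU n, C (S.val x) * X ^ S.pos x)) := by
    intro n hn
    refine (S.Sp_comp_UU (hSp n hn)).mono le_rfl ?_
    have h1 : n ≤ S.Kn := hn.trans hKn
    have h2 : 2 * (1 + n * S.Kn) ≤ S.M ^ 2 := by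
      have h3 : 2 * S.Kn ≤ S.M := (Nat.mul_le_mul_right _ (by omega)).trans hM
      have h4 := Nat.mul_le_mul h3 h3
      have h5 := Nat.mul_le_mul_right S.Kn h1
      nlinarith
    have h3 : (e + 1) * ((2 * (1 + n * S.Kn)) ^ e * (n * (S.Kn * (S.Kn * (S.g * S.M))))) ≤
        S.g * S.M ^ Y :=
      calc _ ≤ S.M * ((S.M ^ 2) ^ e * (S.M * (S.M * (S.M * (S.g * S.M))))) := by
            gcongr <;> omega
        _ = S.g * S.M ^ (2 * e + 5) := by ring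
        _ ≤ _ := pM _ _ y7
    rw [← hedef]
    omega
  have hν : Y + 1 ≤ Y ^ A := hY2.trans (p _ _ (by omega))
  have hN : ∀ n, S.g * S.M ^ (n + 1) ≤ S.M ^ (n + 1) * S.u := fun n => by
    rw [mul_comm]; exact Nat.mul_le_mul_left _ S.hgu
  obtain ⟨x0, hx0⟩ := exists_small_pos (hroot c0) _ _ (hSp' (Y ^ A) (p _ _ (by omega)))
    (lt_of_lt_of_le (by have := pM (Y + 1) (Y ^ A + 1) (by omega); omega) (hN _))
  have h0 := S.Vis_nonempty (s := Y ^ A) x0 (by have := pM _ _ hν; omega)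
  have hV : ∀ s, (S.Vis s).card ≤ Y ^ (c * A) := fun s => (S.card_Vis_le s).trans hΘ
  obtain ⟨i, hi, f1, f2⟩ := exists_slow (fun i => (S.Vis (2 ^ i * Y ^ A)).card) Y (c * A + 1)
    (by simpa using h0) ((hV _).trans_lt (Nat.pow_lt_pow_right (by omega) (by omega)))
  simp only [pow_succ' 2 i, mul_assoc] at f1 f2
  set n := 2 ^ i * Y ^ A with hn
  have hn1 : Y ^ A ≤ n := Nat.le_mul_of_pos_left _ (by positivity)
  have hn2 : 2 * n ≤ Y ^ (A + 1) := by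
    rw [hn, ← mul_assoc, ← pow_succ', pow_succ' Y]
    exact Nat.mul_le_mul_right _ ((Nat.pow_le_pow_right (by norm_num) hi).trans y6)
  have hU := S.card_UU n
  have hf : 1 ≤ (S.Vis n).card := le_trans (Nat.pow_pos hY1) f1
  have hMr : (0 : ℝ) < S.M := by exact_mod_cast (show 0 < S.M by omega)
  have hpos : ∀ x : S.UU (2 * n), (S.geo (2 * n)).X x.1.2 / (S.geo (2 * n)).M ^ (x.1.1 : ℕ) =
      (S.pos x : ℝ) := by
    intro x
    change (S.M : ℝ) ^ (2 * n) * _ / (S.M : ℝ) ^ _ = _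
    rw [Sl.pos, div_eq_iff (by positivity)]
    push_cast
    rw [mul_right_comm, ← pow_add, Nat.sub_add_cancel x.1.1.2.le]
  obtain ⟨E, hE⟩ : ∃ E, E + 1 = Y := ⟨Y - 1, by omega⟩
  refine hj _ _ (S.UU (2 * n)) (S.geo (2 * n)) (fun x => x.1) S.val
    (fun i => Y ^ (B + (j + 15) * i)) R (Y ^ (2 * B)) E (Z + 2) (2 * Y) (Y ^ A : ℕ)
    (fun _ _ h => Subtype.ext h) (fun x => x.2.1) (fun x => x.2.2)
    (fun a b h => p _ _ (by gcongr)) (Nat.pow_pos hY1) (p _ _ (by omega)) (by omega) ?_ ?_ ?_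
    (by positivity) ?_ ?_ (by positivity) (by positivity) ?_ ?_ ?_ fun i hi => ?_
  · rw [Fintype.card_coe]
    have := hV (2 * n)
    rw [← hE, pow_succ 2] at y1
    rw [← hE] at this
    omega
  · rw [Fintype.card_coe, ← pow_mul]
    refine (hV _).trans_lt (Nat.pow_lt_pow_right (by omega) ?_)
    rw [hA, hD]
    nlinarith
  · rw [Fintype.card_coe]
    have h1 : 2 * n * (S.Vis (2 * n)).card ≤ 2 * Y * Fintype.card (S.UU (2 * n)) :=
      calc _ ≤ 2 * n * (Y * (S.Vis n).card) := Nat.mul_le_mul_left _ f2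
        _ = 2 * Y * (n * (S.Vis n).card) := by ring
        _ ≤ _ := Nat.mul_le_mul_left _ hU
    exact_mod_cast h1
  · exact_mod_cast hn1.trans ((Nat.le_mul_of_pos_right _ hf).trans hU)
  · exact Nat.cast_le.2 (show Y ^ A ≤ 2 * n by omega)
  · have h1 : 8 * (2 * j * S.Kn + 1) ≤ S.M := by
      have h2 := Nat.mul_le_mul_right S.Kn y4
      have h3 : 1 ≤ j * S.Kn := Nat.mul_pos hj1 hK1
      nlinarith
    change 8 * (2 * j * (S.Kn : ℝ) + 1) ≤ S.M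
    exact_mod_cast h1
  · have h1 : 8 * (j ^ 2 * (Z + 2)) ≤ S.g * S.M * S.M ^ Y ^ (2 * B) :=
      calc _ = 8 * j ^ 2 * (Z + 2) := by ring
        _ ≤ S.M * (S.g * S.M ^ (Y + 1)) := Nat.mul_le_mul (y5.trans hYM) hZ2
        _ ≤ S.M * (S.g * S.M ^ Y ^ (2 * B)) :=
          Nat.mul_le_mul_left _ (pM _ _ (hY2.trans (p _ _ (by omega))))
        _ = _ := by ring
    change _ ≤ (S.g * S.M : ℝ) * (S.M : ℝ) ^ _
    exact_mod_cast h1
  · intro x hx
    simp only [hpos]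
    refine window hP rfl c0 S.val S.pos (hSp' _ hn2) x ?_
    have h1 : 2 * (Z + 2) ≤ S.g * S.M * S.M ^ (2 * n) :=
      calc _ ≤ S.M * (S.g * S.M ^ (2 * n)) :=
            Nat.mul_le_mul (by omega) (hZ2.trans (pM _ _ (by omega)))
        _ = _ := by ring
    have h2 : S.g * S.M * S.M ^ (2 * n) ≤ S.M ^ (2 * n + 1) * S.u :=
      le_trans (le_of_eq (by ring)) (hN _)
    change x ≤ (S.g * S.M : ℝ) * (S.M : ℝ) ^ (2 * n) / 2 at hx
    have h1' : (2 : ℝ) * (Z + 2) ≤ S.g * S.M * S.M ^ (2 * n) := by exact_mod_cast h1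
    have h2' : (S.g * S.M * S.M ^ (2 * n) : ℝ) ≤ (S.M ^ (2 * n + 1) * S.u : ℕ) := by
      exact_mod_cast h2
    linarith
  · refine small_ineq hE (by omega) y2 y3 (by omega) (Nat.pow_pos hY1) (p _ _ ?_) ?_ ?_ (by omega)
    · have : (j + 15) * i ≤ B := Nat.mul_le_mul_left _ hi.le
      omega
    · rw [← pow_add, mul_add, mul_one, add_assoc]
    · rw [← pow_mul, ← pow_add]
      exact p _ _ (by omega)

end Pool.Agent.Lib.MP_f2f914_nt.DC
end

-- part Pool.Agent.Lib.MP_f2f914_nt.DCMain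
section

/-!
The asymptotic choice of the parameters.
-/

namespace Pool.Agent.Lib.MP_f2f914_nt.DC

open Finset Polynomial Filter

theorem sparse_false (K : Type) [Field K] [Fintype K] (P : K[X]) (hP : P.Monic)
    (he : 2 ≤ P.natDegree) (hroot : ∀ x, P.eval x ≠ 0) (c : ℕ)
    (hp : ∀ m : ℕ, 0 < m → m ≤ Tr.Rmax P.natDegree (5 * (c + 1) + 1) → (m : K) ≠ 0) :
    ∃ A : ℕ, 1 ≤ A ∧ ∀ᶠ Y : ℕ in atTop, ∀ F : K[X], F.support.card ≤ Y ^ (c * A) →
      ¬ Sp (2 ^ Y ^ (A + 3)) (Y * ((P.natDegree + 1) * (Y ^ (c * A)) ^ P.natDegree + 1))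
        (P.comp F) := by
  obtain ⟨A, hA, h1⟩ := slice_false K P hP he hroot (c + 1) hp
  obtain ⟨q, q1, d, hq, h2⟩ := exists_slice K P hP
  refine ⟨A, hA, ?_⟩
  set e := P.natDegree with hedef
  set κ := c * A with hκ
  filter_upwards [h1, eventually_pow_le (3 + κ * (d + e) + A + κ), eventually_ge_atTop (e + 6),
    eventually_ge_atTop (d + 1), eventually_ge_atTop (2 * q), eventually_ge_atTop q1]
    with Y h1 y1 y2 y3 y4 y5 F hF hSp
  have hY1 : 1 ≤ Y := by omega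
  have p : ∀ a b, a ≤ b → Y ^ a ≤ Y ^ b := fun a b h => Nat.pow_le_pow_right hY1 h
  set M := q ^ Y with hM
  have pM : ∀ a, a ≤ 3 + κ * (d + e) + A + κ → Y ^ a ≤ M := fun a ha =>
    (p _ _ ha).trans (le_trans (by omega) (Nat.pow_le_pow_left hq Y))
  have hYM : Y ≤ M := by simpa using pM 1 (by omega)
  set k := Y ^ κ with hk
  have hk1 : 1 ≤ k := Nat.pow_pos hY1
  have hke : 1 ≤ k ^ e := Nat.pow_pos hk1
  set l := Y * ((e + 1) * k ^ e + 1) with hl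
  have hl1 : l ≤ Y ^ (2 + κ * e) :=
    calc l ≤ Y * (Y * k ^ e) := Nat.mul_le_mul_left _ (by nlinarith)
      _ = _ := by rw [hk]; ring
  have hl2 : (d + 1) * k ^ d * l ≤ M :=
    calc _ ≤ Y * k ^ d * Y ^ (2 + κ * e) := by gcongr
      _ = Y ^ (3 + κ * (d + e)) := by rw [hk]; ring
      _ ≤ M := pM _ (by omega)
  have hlM : l ≤ M := hl1.trans (pM _ (by rw [mul_add]; omega))
  set g := M ^ (Y ^ (A + 1) + 2) with hg
  have hM1 : 1 ≤ M := by omega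
  have hMg : M ≤ g := Nat.le_self_pow (by omega) _
  set Kn := Y ^ (κ + A + 1) with hKn
  have hKM : Y * Kn ≤ M := by rw [hKn, ← pow_succ']; exact pM _ (by omega)
  have hKM' : Kn ≤ M := (Nat.le_mul_of_pos_left _ hY1).trans hKM
  have hkK : Y * k ≤ Kn := by rw [hk, ← pow_succ']; exact p _ _ (by omega)
  have hU : 2 * (M + k * (g + 1)) ≤ Kn * g :=
    calc _ ≤ 6 * k * g := by nlinarith
      _ ≤ Y * k * g := by gcongr; omega
      _ ≤ _ := by gcongr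
  have hN : M * (q * (2 * (M + k * (g + 1))) + 1) ≤ 2 ^ Y ^ (A + 3) := by
    have h3 : 1 ≤ M * (M * g) := Nat.mul_pos hM1 (Nat.mul_pos hM1 (by omega))
    have h4 : q * (2 * (M + k * (g + 1))) ≤ M * (M * g) :=
      Nat.mul_le_mul (by omega) (hU.trans (Nat.mul_le_mul_right _ hKM'))
    have h5 : q * (Y * (Y ^ (A + 1) + 6)) ≤ Y ^ (A + 3) := by
      have h6 : Y ≤ Y ^ (A + 1) := Nat.le_self_pow (by omega) _
      calc _ ≤ q * (Y * (2 * Y ^ (A + 1))) := by gcongr; omega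
        _ = 2 * q * (Y * Y ^ (A + 1)) := by ring
        _ ≤ Y * (Y * Y ^ (A + 1)) := by gcongr
        _ = _ := by ring
    calc _ ≤ M * (2 * (M * (M * g))) := Nat.mul_le_mul_left _ (by omega)
      _ ≤ M * (M * (M * (M * g))) := by gcongr; omega
      _ = q ^ (Y * (Y ^ (A + 1) + 6)) := by rw [hg, pow_mul, ← hM]; ring
      _ ≤ (2 ^ q) ^ (Y * (Y ^ (A + 1) + 6)) := Nat.pow_le_pow_left Nat.lt_two_pow_self.le _
      _ ≤ _ := by rw [← pow_mul]; exact Nat.pow_le_pow_right (by norm_num) h5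
  obtain ⟨u, Θ, c0, u1, u2, u3, u4, u5⟩ := h2 F _ k l M g Y hF hk1 hY1 hSp hl2
    (le_trans (Nat.mul_le_mul_right _ (by omega)) hN)
    (le_trans (Nat.le_mul_of_pos_left _ hM1) hN)
  refine h1 ⟨Θ, g, u, M, Kn, by omega, u1, u2.trans hU, by omega, u3.trans hkK,
    fun θ hθ => (u4 θ hθ).1, fun θ hθ => (u4 θ hθ).2⟩ c0 (g * M ^ Y) (u3.trans ?_)
    (p _ _ (by omega)) hKM le_rfl fun n hn => (u5 n).mono le_rfl ?_
  · rw [hk, ← pow_succ']
    exact p _ _ (by rw [add_mul]; omega)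
  · rw [← hM]
    have h3 : M ^ (n + 1) * M ≤ g := by
      rw [← pow_succ]; exact Nat.pow_le_pow_right hM1 (by omega)
    have h4 : 2 * (1 + (n * Y + 1) * k) ≤ M := by
      have h5 : n * Y ≤ Y ^ (A + 2) := by rw [pow_succ]; exact Nat.mul_le_mul_right _ hn
      have h6 : 1 ≤ Y ^ (A + 2) := Nat.pow_pos hY1
      calc _ ≤ 6 * (Y ^ (A + 2) * k) := by nlinarith
        _ ≤ Y * (Y ^ (A + 2) * k) := by gcongr; omega
        _ = Y ^ (3 + A + κ) := by rw [hk]; ring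
        _ ≤ M := pM _ (by omega)
    have h5 : M * u ≤ M * (M * g) :=
      Nat.mul_le_mul_left _ (u2.trans (hU.trans (Nat.mul_le_mul_right _ hKM')))
    have h6 : g ≤ M * (M * g) :=
      (Nat.le_mul_of_pos_left _ hM1).trans (Nat.le_mul_of_pos_left _ hM1)
    have h7 : g ≤ M * (M ^ e * (M * (M * g))) := h6.trans
      ((Nat.le_mul_of_pos_left _ (Nat.pow_pos hM1)).trans (Nat.le_mul_of_pos_left _ hM1))
    calc _ ≤ M ^ (n + 1) * M + M * (M ^ e * (M * (M * g) + M ^ (n + 1) * M)) := by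
          gcongr; omega
      _ ≤ g + M * (M ^ e * (M * (M * g) + M * (M * g))) := add_le_add h3 (Nat.mul_le_mul_left _
          (Nat.mul_le_mul_left _ (add_le_add le_rfl (h3.trans h6))))
      _ = g + 2 * (M * (M ^ e * (M * (M * g)))) := by ring
      _ ≤ 3 * (M * (M ^ e * (M * (M * g)))) := by omega
      _ ≤ M * (M * (M ^ e * (M * (M * g)))) := Nat.mul_le_mul_right _ (by omega)
      _ = g * M ^ (e + 4) := by ring
      _ ≤ _ := Nat.mul_le_mul_left _ (Nat.pow_le_pow_right hM1 (by omega))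

theorem core (b : ℕ) (hb : 2 ≤ b) (ξ : ℝ) (P : ℤ[X]) (hm : P.Monic) (hd : 2 ≤ P.natDegree)
    (hP : aeval ξ P = 0) (hprime : ∀ B : ℕ, ∃ p : ℕ, p.Prime ∧ B < p ∧
      ∀ x : ZMod p, (P.map (Int.castRingHom (ZMod p))).eval x ≠ 0)
    (s : ℕ → ℤ) (S : ℝ) (hs : ∀ n, |(s n : ℝ)| ≤ S) (hsum : HasSum (fun n => (s n : ℝ) / b ^ n) ξ)
    (c : ℕ) : ∃ A : ℕ, 1 ≤ A ∧ ∀ᶠ Y : ℕ in atTop,
      Y ^ (c * A) < ((range (2 ^ Y ^ (A + 3))).filter fun n => s n ≠ 0).card := by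
  obtain ⟨p, hp, hB, hroot⟩ := hprime (b + Tr.Rmax P.natDegree (5 * (c + 1) + 1))
  have : Fact p.Prime := ⟨hp⟩
  have hcast : ∀ m : ℕ, 0 < m → m < p → (m : ZMod p) ≠ 0 := fun m h1 h2 h3 =>
    absurd (Nat.le_of_dvd h1 ((ZMod.natCast_eq_zero_iff _ _).1 h3)) (not_le.2 h2)
  have hdeg : (P.map (Int.castRingHom (ZMod p))).natDegree = P.natDegree := hm.natDegree_map _
  obtain ⟨A, hA, h1⟩ := sparse_false (ZMod p) _ (hm.map _) (by rwa [hdeg]) hroot c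
    fun m h1 h2 => hcast m h1 (by rw [hdeg] at h2; omega)
  obtain ⟨c', h2⟩ := exists_head b hb ξ P hP s S hs hsum
  refine ⟨A, hA, ?_⟩
  filter_upwards [h1, eventually_pow_le (c * A * P.natDegree + 1), eventually_ge_atTop (c' + 1)]
    with Y h1 y1 y2
  by_contra hcon
  have hY1 : 1 ≤ Y := by omega
  rw [hdeg] at h1
  refine h1 _ ?_ (h2 (ZMod p) (b : ZMod p)⁻¹ (inv_mul_cancel₀ (hcast b (by omega) (by omega))) _ _
    Y (not_lt.1 hcon) (Nat.pow_pos hY1) ?_)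
  · refine le_trans (card_le_card fun n hn => ?_) (not_lt.1 hcon)
    rw [mem_support_iff] at hn
    simp only [finsetSum_coeff, coeff_C_mul, coeff_X_pow, mul_ite, mul_one, mul_zero, sum_ite_eq]
      at hn
    split_ifs at hn with h
    · exact mem_filter.2 ⟨h, fun h0 => hn (by simp [h0])⟩
    · exact absurd rfl hn
  · have h3 : 0 < Y ^ (c * A * P.natDegree) := Nat.pow_pos hY1
    rw [← pow_mul]
    rw [pow_succ'] at y1
    nlinarith

theorem log_pow_le (f : ℕ → ℕ) (hf : Monotone f)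
    (h : ∀ c, ∃ A : ℕ, 1 ≤ A ∧ ∀ᶠ Y : ℕ in atTop, Y ^ (c * A) < f (2 ^ Y ^ (A + 3))) (C : ℝ) :
    ∀ᶠ N : ℕ in atTop, Real.log N ^ C ≤ f N := by
  obtain ⟨c, hc⟩ := exists_nat_ge C
  obtain ⟨A, hA, h⟩ := h (8 * c)
  obtain ⟨Y0, h⟩ := eventually_atTop.1 (h.and (eventually_ge_atTop 2))
  filter_upwards [eventually_ge_atTop (2 ^ Y0 ^ (A + 3)), eventually_ge_atTop 3] with N hN hN3
  have hex : ∃ Y, N < 2 ^ (Y + 1) ^ (A + 3) := ⟨N, lt_of_lt_of_le Nat.lt_two_pow_self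
    (Nat.pow_le_pow_right (by norm_num) ((Nat.le_succ N).trans (Nat.le_self_pow (by omega) _)))⟩
  obtain ⟨Y, y1, y2, y3⟩ : ∃ Y, Y0 ≤ Y ∧ 2 ^ Y ^ (A + 3) ≤ N ∧ N < 2 ^ (Y + 1) ^ (A + 3) := by
    classical
    have h1 := Nat.find_spec hex
    have h2 : Y0 ≤ Nat.find hex := by
      by_contra h2
      exact absurd (hN.trans_lt h1) (not_lt.2 (Nat.pow_le_pow_right (by norm_num)
        (Nat.pow_le_pow_left (by omega) _)))
    refine ⟨_, h2, ?_, h1⟩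
    have h3 := (h _ h2).2
    have h4 := Nat.find_min hex (show Nat.find hex - 1 < Nat.find hex by omega)
    rwa [not_lt, Nat.sub_add_cancel (by omega)] at h4
  obtain ⟨h1, h2⟩ := h Y y1
  have hN' : (3 : ℝ) ≤ N := by exact_mod_cast hN3
  have h3 : 1 ≤ Real.log N := by
    rw [Real.le_log_iff_exp_le (by linarith)]
    exact Real.exp_one_lt_three.le.trans hN'
  have h4 : Real.log N ≤ (Y ^ (8 * A) : ℕ) := by
    have h5 : (N : ℝ) ≤ 2 ^ ((Y + 1) ^ (A + 3)) := by exact_mod_cast y3.le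
    have h6 : (Y + 1) ^ (A + 3) ≤ Y ^ (8 * A) :=
      calc _ ≤ (Y ^ 2) ^ (A + 3) := Nat.pow_le_pow_left (by nlinarith) _
        _ ≤ _ := by rw [← pow_mul]; exact Nat.pow_le_pow_right (by omega) (by omega)
    refine (Real.log_le_log (by linarith) h5).trans ?_
    rw [Real.log_pow]
    have h7 : Real.log 2 ≤ 1 := by linarith [Real.log_two_lt_d9]
    exact (mul_le_of_le_one_right (Nat.cast_nonneg _) h7).trans (Nat.cast_le.2 h6)
  refine (Real.rpow_le_rpow_of_exponent_le h3 hc).trans ?_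
  rw [Real.rpow_natCast]
  refine (pow_le_pow_left₀ (by linarith) h4 c).trans ?_
  have h5 : (Y ^ (8 * A)) ^ c ≤ f N := by
    rw [← pow_mul, mul_right_comm]
    exact h1.le.trans (hf y2)
  exact_mod_cast h5

end Pool.Agent.Lib.MP_f2f914_nt.DC
end

-- part Pool.Agent.Lib.MP_f2f914_nt.DCFinal
section

/-!
Nonzero digits of signed expansions and digit changes of algebraic irrationals.
-/

namespace Pool.Agent.Lib.MP_f2f914_nt.DC

open Finset Polynomial Filter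

theorem nonzero_digits (b : ℕ) (hb : 2 ≤ b) (ξ : ℝ) (hirr : Irrational ξ) (halg : IsAlgebraic ℚ ξ)
    (s : ℕ → ℤ) (S : ℤ) (hs : ∀ n, |s n| ≤ S) (hsum : HasSum (fun n => (s n : ℝ) / b ^ n) ξ)
    (C : ℝ) : ∀ᶠ N : ℕ in atTop, Real.log N ^ C ≤ ((range N).filter fun n => s n ≠ 0).card := by
  obtain ⟨y, hy, hint⟩ := ((IsFractionRing.isAlgebraic_iff ℤ ℚ ℝ).2 halg).exists_integral_multiple
  have hd : 2 ≤ (minpoly ℤ (y • ξ)).natDegree := by
    rw [minpoly.two_le_natDegree_iff hint]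
    rintro ⟨z, hz⟩
    refine (hirr.intCast_mul hy).ne_int z ?_
    rw [← zsmul_eq_mul, ← hz]
    rfl
  refine log_pow_le (fun N => ((range N).filter fun n => s n ≠ 0).card)
    (fun a b h => card_le_card (filter_subset_filter _ (range_mono h))) (fun c => ?_) C
  have := core b hb (y • ξ) _ (minpoly.monic hint) hd (minpoly.aeval _ _)
    (exists_prime_no_root hint hd) (fun n => y * s n) (|(y : ℝ)| * S) (fun n => by
      push_cast
      rw [abs_mul]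
      exact mul_le_mul_of_nonneg_left (by exact_mod_cast hs n) (abs_nonneg _))
    (by simpa [mul_div_assoc] using hsum.mul_left (y : ℝ)) c
  simpa [hy] using this

theorem digit_changes (b : ℕ) (hb : 2 ≤ b) (ξ : ℝ) (hirr : Irrational ξ) (halg : IsAlgebraic ℚ ξ)
    (a : ℕ → ℤ) (S : ℤ) (ha : ∀ n, |a n| ≤ S) (hsum : HasSum (fun n => (a n : ℝ) / b ^ n) ξ)
    (h : ℕ) (hh : 1 ≤ h) (C : ℝ) : ∀ᶠ N : ℕ in atTop,
      Real.log N ^ C ≤ ((range N).filter fun n => a (n + h) ≠ a n).card := by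
  have hb0 : (b : ℝ) ≠ 0 := by positivity
  have h1 := (((hasSum_nat_add_iff' h).2 hsum).mul_left ((b : ℝ) ^ h)).sub hsum
  have e : (b : ℝ) ^ h * (ξ - ∑ i ∈ range h, (a i : ℝ) / b ^ i) - ξ =
      ((b ^ h - 1 : ℤ) : ℝ) * ξ - ((b ^ h * ∑ i ∈ range h, (a i : ℚ) / b ^ i : ℚ) : ℝ) := by
    push_cast; ring
  have h2 : (b ^ h - 1 : ℤ) ≠ 0 := by
    have : (1 : ℤ) < b ^ h := one_lt_pow₀ (by exact_mod_cast hb) (by omega)
    omega
  rw [e] at h1
  have := nonzero_digits b hb _ ((hirr.intCast_mul h2).sub_ratCast _)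
    (((isAlgebraic_intCast _).mul halg).sub (isAlgebraic_ratCast ℚ _)) (fun n => a (n + h) - a n) (2 * S)
    (fun n => (abs_sub _ _).trans (by linarith [ha n, ha (n + h)]))
    (by
      refine h1.congr_fun fun n => ?_
      rw [pow_add, Int.cast_sub, sub_div, mul_div_assoc', mul_comm ((b : ℝ) ^ n),
        mul_div_mul_left _ _ (pow_ne_zero h hb0)]) C
  simpa [sub_eq_zero] using this

end Pool.Agent.Lib.MP_f2f914_nt.DC
end
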