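import Pool.Agent.Lib.MP_f2f914_nt.WTab

set_option autoImplicit false

namespace Pool.Agent.Lib.MP_f2f914_nt

theorem leaf1 : Refutes [⟨240, -6, -19, 30950⟩, ⟨210, 8, 18, -6113⟩, ⟨155, 20, -2, -76022⟩, ⟨133, 1, 0, 0⟩, ⟨86, 1, 20, -88836⟩, ⟨155, 1, 0, 0⟩] :=
  leaf_sound Wl Wl_ok _ [
    ⟨32, 16384, 4091, -11124, -1841, 149067220, 3250107572914⟩,
    ⟨50, 670, -16093, -2199, 16384, 57120406, 9013733275⟩,
    ⟨86, 151, 13086, 15765, -1238, -50838537, 1448701204850⟩,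
    ⟨155, -11717, -3967, -16279, -6867, 30622002, 985067202721⟩,
    ⟨175, 11152, -2716, 11863, -4037, 17035993, -950479729015⟩,
    ⟨210, -699, 4994, 10975, 3617, -19990818, 226454613444⟩,
    ⟨240, -1096, -1718, 5102, 2540, -10669274, -35270131958⟩] (by decide +kernel)

theorem leaf6 : Refutes [⟨210, -15, -14, -28944⟩, ⟨190, -7, -19, -2253⟩, ⟨116, -10, 17, -57031⟩, ⟨210, -8, -18, 6113⟩, ⟨155, 20, -2, -76022⟩, ⟨133, 1, 0, 0⟩, ⟨86, 1, 20, -88836⟩, ⟨155, 1, 0, 0⟩] :=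
  leaf_sound Wl Wl_ok _ [
    ⟨24, -10594, 16384, 5927, -9629, 185327657, -2380437482085⟩,
    ⟨32, 2731, 5671, -1925, -3686, 149067220, 538033343363⟩,
    ⟨50, -3950, -14890, 4006, 16384, 57120406, -559059109269⟩,
    ⟨116, 4367, 1816, 271, -5644, -19113517, 88086269380⟩,
    ⟨155, -3109, 185, -4420, -344, 30622002, 259889766815⟩,
    ⟨210, 1161, -744, 947, 2372, -19990818, 37525046271⟩,
    ⟨240, -403, 373, -120, -474, -10669274, -37645645423⟩] (by decide +kernel)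

theorem leaf10 : Refutes [⟨86, -1, -20, 88836⟩, ⟨155, 1, 0, 0⟩] :=
  leaf_sound Wl Wl_ok _ [
    ⟨32, -8192, 16384, 4444, -10334, 149067220, -1669878561359⟩,
    ⟨86, -535, -11858, 14317, 166, -50838537, 1282377988847⟩] (by decide +kernel)

theorem leaf11 : Refutes [⟨155, -1, 0, 0⟩] :=
  leaf_sound Wl Wl_ok _ [
    ⟨42, 14088, 5746, -11329, -6560, 98080847, 2241208106971⟩,
    ⟨64, -13836, -1693, 10973, 3237, -4352692, -839707204804⟩,
    ⟨133, -1652, -5182, -2199, 3530, 12868535, -293890571705⟩,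
    ⟨155, 8708, -1767, -16384, -309, 30622002, 610546880404⟩,
    ⟨175, -3392, 6038, 428, -7694, 17035993, -371511392740⟩,
    ⟨210, -732, -313, 512, 2106, -19990818, -72847990651⟩,
    ⟨240, -415, -475, -324, 658, -10669274, -42733262647⟩] (by decide +kernel)


end Pool.Agent.Lib.MP_f2f914_nt
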