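import Mathlib

-- part Pool.Agent.Lib.MP_f2f914_nt.PC1
section

set_option autoImplicit false

namespace Pool.Agent.Lib.MP_f2f914_nt.PC

open Filter
open scoped Pointwise

/-- functions of size `N ^ o(1)` along a filter -/
def Tiny (l : Filter ℕ) (f : ℕ → ℕ) : Prop := ∀ k : ℕ, ∀ᶠ N in l, f N ^ k ≤ N

variable {l : Filter ℕ}

theorem Tiny.mono {f g : ℕ → ℕ} (hf : Tiny l f) (h : ∀ᶠ N in l, g N ≤ f N) : Tiny l g := by
  intro k
  filter_upwards [hf k, h] with N h1 h2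
  exact le_trans (Nat.pow_le_pow_left h2 k) h1

theorem Tiny.mul {f g : ℕ → ℕ} (hf : Tiny l f) (hg : Tiny l g) :
    Tiny l (fun N => f N * g N) := by
  intro k
  filter_upwards [hf (2 * k), hg (2 * k)] with N h1 h2
  have h3 : ((f N * g N) ^ k) ^ 2 ≤ N ^ 2 := by
    calc ((f N * g N) ^ k) ^ 2 = f N ^ (2 * k) * g N ^ (2 * k) := by ring
      _ ≤ N * N := Nat.mul_le_mul h1 h2
      _ = N ^ 2 := by ring
  exact (Nat.pow_le_pow_iff_left (by norm_num)).mp h3

theorem tiny_const (hl : l ≤ atTop) (c : ℕ) : Tiny l (fun _ => c) :=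
  fun k => hl (eventually_ge_atTop (c ^ k))

theorem Tiny.add (hl : l ≤ atTop) {f g : ℕ → ℕ} (hf : Tiny l f) (hg : Tiny l g) :
    Tiny l (fun N => f N + g N) := by
  have h1 : Tiny l (fun N => max (f N) (g N)) := by
    intro k
    filter_upwards [hf k, hg k] with N h1 h2
    rcases le_total (f N) (g N) with h | h
    · rwa [max_eq_right h]
    · rwa [max_eq_left h]
  refine ((tiny_const hl 2).mul h1).mono (Eventually.of_forall fun N => ?_)
  have := le_max_left (f N) (g N)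
  have := le_max_right (f N) (g N)
  omega

theorem tiny_log (hl : l ≤ atTop) : Tiny l (fun N => Nat.log 2 N) := by
  intro k
  apply hl
  have h1 := tendsto_pow_const_div_const_pow_of_one_lt k (r := (2 : ℝ)) (by norm_num)
  have h2 : ∀ᶠ m : ℕ in atTop, m ^ k ≤ 2 ^ m := by
    filter_upwards [h1.eventually (gt_mem_nhds (show (0 : ℝ) < 1 by norm_num))] with m hm
    rw [div_lt_one (by positivity)] at hm
    exact_mod_cast hm.le
  obtain ⟨m₀, hm₀⟩ := eventually_atTop.mp h2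
  change ∀ᶠ N in atTop, _
  filter_upwards [eventually_ge_atTop (2 ^ m₀)] with N hN
  have hN0 : N ≠ 0 := by have := Nat.two_pow_pos m₀; omega
  exact le_trans (hm₀ _ (Nat.le_log_of_pow_le (by norm_num) hN)) (Nat.pow_log_le_self 2 hN0)

/-- number of elements of `X` below `M` -/
noncomputable def ct (X : Set ℕ) (M : ℕ) : ℕ := (X ∩ Set.Iio M).ncard

theorem fin_ct (X : Set ℕ) (M : ℕ) : (X ∩ Set.Iio M).Finite :=
  (Set.finite_Iio M).subset Set.inter_subset_right

theorem ct_mono {X Y : Set ℕ} {M M' : ℕ} (h : X ⊆ Y) (h' : M ≤ M') : ct X M ≤ ct Y M' :=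
  Set.ncard_le_ncard (Set.inter_subset_inter h (Set.Iio_subset_Iio h')) (fin_ct _ _)

theorem ct_union (X Y : Set ℕ) (M : ℕ) : ct (X ∪ Y) M ≤ ct X M + ct Y M := by
  unfold ct
  rw [Set.union_inter_distrib_right]
  exact Set.ncard_union_le _ _

theorem ct_add (X Y : Set ℕ) (M : ℕ) : ct (X + Y) M ≤ ct X M * ct Y M := by
  unfold ct
  refine le_trans (Set.ncard_le_ncard (t := (X ∩ Set.Iio M) + (Y ∩ Set.Iio M)) ?_
    ((fin_ct _ _).add (fin_ct _ _))) Set.natCard_add_le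
  rintro z ⟨⟨x, hx, y, hy, rfl⟩, hz⟩
  simp only [Set.mem_Iio] at hz
  exact ⟨x, ⟨hx, by simp only [Set.mem_Iio]; omega⟩, y, ⟨hy, by simp only [Set.mem_Iio]; omega⟩, rfl⟩

theorem ct_pre (X : Set ℕ) (p M : ℕ) (hp : 0 < p) : ct {m | p * m ∈ X} M ≤ ct X (p * M) := by
  unfold ct
  refine Set.ncard_le_ncard_of_injOn (fun m => p * m) ?_ ?_ (fin_ct _ _)
  · rintro m ⟨h1, h2⟩
    exact ⟨h1, Nat.mul_lt_mul_of_pos_left h2 hp⟩
  · intro a _ b _ h
    exact Nat.eq_of_mul_eq_mul_left hp h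

/-- sets with `N ^ o(1)` elements below `N / C` -/
def Small (l : Filter ℕ) (X : Set ℕ) : Prop := ∃ C : ℕ, 0 < C ∧ Tiny l (fun N => ct X (N / C))

theorem Small.mono {X Y : Set ℕ} (hX : Small l X) (h : Y ⊆ X) : Small l Y := by
  obtain ⟨C, hC, h1⟩ := hX
  exact ⟨C, hC, h1.mono (Eventually.of_forall fun N => ct_mono h le_rfl)⟩

theorem Small.both {X Y : Set ℕ} (hX : Small l X) (hY : Small l Y) :
    ∃ C : ℕ, 0 < C ∧ Tiny l (fun N => ct X (N / C)) ∧ Tiny l (fun N => ct Y (N / C)) := by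
  obtain ⟨C, hC, h1⟩ := hX
  obtain ⟨D, hD, h2⟩ := hY
  refine ⟨C + D, by omega, h1.mono (Eventually.of_forall fun N => ct_mono le_rfl ?_),
    h2.mono (Eventually.of_forall fun N => ct_mono le_rfl ?_)⟩
  · exact Nat.div_le_div_left (by omega) hC
  · exact Nat.div_le_div_left (by omega) hD

theorem Small.union (hl : l ≤ atTop) {X Y : Set ℕ} (hX : Small l X) (hY : Small l Y) :
    Small l (X ∪ Y) := by
  obtain ⟨C, hC, h1, h2⟩ := hX.both hY
  exact ⟨C, hC, (h1.add hl h2).mono (Eventually.of_forall fun N => ct_union _ _ _)⟩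

theorem Small.add {X Y : Set ℕ} (hX : Small l X) (hY : Small l Y) : Small l (X + Y) := by
  obtain ⟨C, hC, h1, h2⟩ := hX.both hY
  exact ⟨C, hC, (h1.mul h2).mono (Eventually.of_forall fun N => ct_add _ _ _)⟩

theorem small_finite (hl : l ≤ atTop) {X : Set ℕ} (hX : X.Finite) : Small l X :=
  ⟨1, one_pos, (tiny_const hl X.ncard).mono (Eventually.of_forall fun _ =>
    Set.ncard_le_ncard Set.inter_subset_left hX)⟩

theorem Small.pre {X : Set ℕ} (hX : Small l X) (p : ℕ) (hp : 0 < p) :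
    Small l {m | p * m ∈ X} := by
  obtain ⟨C, hC, h1⟩ := hX
  refine ⟨C * p, by positivity, h1.mono (Eventually.of_forall fun N => ?_)⟩
  refine le_trans (ct_pre X p _ hp) (ct_mono le_rfl ?_)
  rw [← Nat.div_div_eq_div_mul]
  exact Nat.mul_div_le _ _

theorem not_small_univ (hl : l ≤ atTop) [l.NeBot] : ¬ Small l Set.univ := by
  rintro ⟨C, hC, h1⟩
  have h2 : ∀ᶠ N in l, 4 * C ^ 2 + 2 * C < N := hl (eventually_gt_atTop _)
  obtain ⟨N, h3, h4⟩ := ((h1 2).and h2).exists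
  have h5 : ct Set.univ (N / C) = N / C := by simp [ct]
  simp only [h5] at h3
  have h6 := Nat.lt_div_mul_add (a := N) hC
  have h7 : 2 * C < N / C := by
    by_contra h
    have : N / C * C ≤ 2 * C * C := Nat.mul_le_mul_right C (by omega)
    nlinarith
  nlinarith

end Pool.Agent.Lib.MP_f2f914_nt.PC
end

-- part Pool.Agent.Lib.MP_f2f914_nt.PC2
section

set_option autoImplicit false

namespace Pool.Agent.Lib.MP_f2f914_nt.PC

open Filter hiding mk map
open PowerSeries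
open scoped Pointwise

variable {l : Filter ℕ} {R : Type} [CommRing R]

/-- support of a power series -/
def sp (F : R⟦X⟧) : Set ℕ := {n | coeff n F ≠ 0}

theorem sp_add (F G : R⟦X⟧) : sp (F + G) ⊆ sp F ∪ sp G := by
  intro n hn
  by_contra h
  simp only [sp, Set.mem_union, Set.mem_ofPred_eq, not_or, not_not] at h hn
  exact hn (by rw [map_add, h.1, h.2, add_zero])

theorem sp_mul (F G : R⟦X⟧) : sp (F * G) ⊆ sp F + sp G := by
  intro n hn
  simp only [sp, Set.mem_ofPred_eq, coeff_mul] at hn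
  obtain ⟨q, hq, h⟩ := Finset.exists_ne_zero_of_sum_ne_zero hn
  exact ⟨q.1, left_ne_zero_of_mul h, q.2, right_ne_zero_of_mul h, by simpa using hq⟩

theorem sp_C (c : R) : sp (C c : R⟦X⟧) ⊆ {0} := by
  intro n hn
  by_contra h
  exact hn (by rw [coeff_C, if_neg (by simpa using h)])

theorem sp_map {S : Type} [CommRing S] (f : R →+* S) (F : R⟦X⟧) : sp (map f F) ⊆ sp F := by
  intro n hn h
  exact hn (by rw [coeff_map, h, map_zero])

theorem sp_map_inj {S : Type} [CommRing S] (f : R →+* S) (hf : Function.Injective f) (F : R⟦X⟧) :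
    sp F ⊆ sp (map f F) := by
  intro n hn h
  rw [coeff_map] at h
  exact hn (hf (by rw [h, map_zero]))

/-- the ring of series with small support -/
def sparse (hl : l ≤ atTop) (S R : Type) [CommRing S] [CommRing R] [Algebra S R] :
    Subalgebra S R⟦X⟧ where
  carrier := {F | Small l (sp F)}
  mul_mem' := fun {F G} hF hG => (Small.add hF hG).mono (sp_mul F G)
  add_mem' := fun {F G} hF hG => (Small.union hl hF hG).mono (sp_add F G)
  algebraMap_mem' := fun c => (small_finite hl (Set.finite_singleton 0)).mono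
    (by rw [PowerSeries.algebraMap_apply]; exact sp_C _)

/-- series of partial sums -/
noncomputable def ps (F : R⟦X⟧) : R⟦X⟧ := F * mk 1

theorem coeff_ps (F : R⟦X⟧) (n : ℕ) :
    coeff n (ps F) = ∑ i ∈ Finset.range (n + 1), coeff i F := by
  rw [ps, coeff_mul, Finset.Nat.sum_antidiagonal_eq_sum_range_succ
    (fun i j => coeff i F * coeff j (mk 1 : R⟦X⟧))]
  simp

theorem ps_succ (F : R⟦X⟧) (n : ℕ) :
    coeff (n + 1) (ps F) = coeff n (ps F) + coeff (n + 1) F := by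
  rw [coeff_ps, coeff_ps, Finset.sum_range_succ]

theorem map_ps {S : Type} [CommRing S] (f : R →+* S) (F : R⟦X⟧) :
    map f (ps F) = ps (map f F) := by
  ext n
  simp [coeff_ps]

theorem ps_one_sub (B : R⟦X⟧) : ps (B * (1 - X)) = B := by
  rw [ps, mul_assoc, mul_comm (1 - X), mk_one_mul_one_sub_eq_one, mul_one]

theorem ps_expand (p : ℕ) (hp : p ≠ 0) (F : R⟦X⟧) (m : ℕ) :
    coeff (p * m) (ps (expand p hp F)) = coeff m (ps F) := by
  induction m with
  | zero =>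
    simp [coeff_ps]
  | succ m ih =>
    have h : ∀ j, j < p → coeff (p * m + j) (ps (expand p hp F)) = coeff m (ps F) := by
      intro j
      induction j with
      | zero => intro _; exact ih
      | succ j ihj =>
        intro hj
        rw [← add_assoc, ps_succ, ihj (by omega), coeff_expand_of_not_dvd, add_zero]
        intro hd
        rw [add_assoc] at hd
        have := Nat.le_of_dvd (by omega) ((Nat.dvd_add_right (Dvd.intro m rfl)).mp hd)
        omega
    have e : p * (m + 1) = p * m + (p - 1) + 1 := by rw [mul_add]; omega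
    rw [ps_succ F, ← coeff_expand_mul p hp F (m + 1), e, ps_succ, h _ (by omega)]

theorem pow_eq_expand (p : ℕ) [hp : Fact p.Prime] (F : (ZMod p)⟦X⟧) :
    F ^ p = expand p hp.out.ne_zero F := by
  have h := MvPowerSeries.map_frobenius_expand p hp.out.ne_zero (f := F)
  rw [ZMod.frobenius_zmod, MvPowerSeries.map_id] at h
  exact h.symm

theorem toZMod_eq_zero (p : ℕ) [Fact p.Prime] (x : ℤ_[p]) :
    PadicInt.toZMod x = 0 ↔ (p : ℤ_[p]) ∣ x := by
  rw [← RingHom.mem_ker, PadicInt.ker_toZMod, PadicInt.maximalIdeal_eq_span_p,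
    Ideal.mem_span_singleton]

/-- reducedness modulo `p` -/
theorem reduced (hl : l ≤ atTop) (p : ℕ) [hp : Fact p.Prime] (F G : ℤ_[p]⟦X⟧)
    (hF : Small l (sp F)) (h : Small l (sp (ps (F ^ p - C (p : ℤ_[p]) * G)))) :
    ∃ H : ℤ_[p]⟦X⟧, Small l (sp H) ∧ Small l (sp (ps (F - C (p : ℤ_[p]) * H))) := by
  classical
  have h1 : {m | ¬ (p : ℤ_[p]) ∣ coeff m (ps F)} ⊆
      {m | p * m ∈ sp (ps (F ^ p - C (p : ℤ_[p]) * G))} := by
    intro m hm
    apply sp_map PadicInt.toZMod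
    rw [map_ps, map_sub, map_mul, map_pow, map_C, map_natCast, ZMod.natCast_self, map_zero,
      zero_mul, sub_zero, pow_eq_expand]
    intro h0
    rw [ps_expand, ← map_ps, coeff_map, toZMod_eq_zero] at h0
    exact hm h0
  let φ : ℤ_[p] → ℤ_[p] := fun x => if h : (p : ℤ_[p]) ∣ x then h.choose else 0
  refine ⟨mk (fun n => φ (coeff n (ps F))) * (1 - X), ?_, ?_⟩
  · refine (hF.union hl (small_finite hl (Set.finite_singleton 0))).mono fun n hn => ?_
    by_contra hc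
    simp only [sp, Set.mem_union, Set.mem_ofPred_eq, not_or, not_not, Set.mem_singleton_iff] at hc
    obtain ⟨m, rfl⟩ := Nat.exists_eq_succ_of_ne_zero hc.2
    apply hn
    rw [mul_sub, mul_one, map_sub, coeff_succ_mul_X, coeff_mk, coeff_mk, ps_succ, hc.1, add_zero,
      sub_self]
  · refine ((h.pre p hp.out.pos).mono h1).mono fun n hn hd => hn ?_
    have e : ps (F - C (p : ℤ_[p]) * (mk (fun n => φ (coeff n (ps F))) * (1 - X))) =
        ps F - C (p : ℤ_[p]) * mk (fun n => φ (coeff n (ps F))) := by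
      conv_rhs => rw [← ps_one_sub (mk _)]
      simp only [ps]
      ring
    rw [e, map_sub, coeff_C_mul, coeff_mk]
    simp only [φ, dif_pos hd]
    rw [← hd.choose_spec, sub_self]

theorem not_unit (hl : l ≤ atTop) [l.NeBot] (p : ℕ) [hp : Fact p.Prime] (G : ℤ_[p]⟦X⟧) :
    ¬ Small l (sp (ps (1 - C (p : ℤ_[p]) * G))) := by
  intro h
  apply not_small_univ hl
  refine h.mono fun n _ => ?_
  apply sp_map PadicInt.toZMod
  rw [map_ps, map_sub, map_mul, map_C, map_natCast, ZMod.natCast_self, map_zero,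
    zero_mul, sub_zero, map_one]
  intro h0
  rw [ps, one_mul, coeff_mk] at h0
  exact one_ne_zero h0

end Pool.Agent.Lib.MP_f2f914_nt.PC
end

-- part Pool.Agent.Lib.MP_f2f914_nt.PC3
section

set_option autoImplicit false

namespace Pool.Agent.Lib.MP_f2f914_nt.PC

open NumberField

theorem exists_unram {K : Type*} [Field K] [NumberField K] (p : ℕ) (hp : p.Prime) (O : Subring K)
    (h1 : (p : K)⁻¹ ∉ O) (h2 : ∀ z ∈ O, z ^ p / p ∈ O → z / p ∈ O)
    (h3 : ∀ z : K, ∃ k : ℕ, (p : K) ^ k * z ∈ O) :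
    ∃ P : Ideal (𝓞 K), P.IsPrime ∧ (p : 𝓞 K) ∈ P ∧ (p : 𝓞 K) ∉ P ^ 2 ∧
      ∀ z ∈ O, ∃ a b : 𝓞 K, (b : K) * z = a ∧ b ∉ P := by
  have hp0 : (p : K) ≠ 0 := Nat.cast_ne_zero.mpr hp.ne_zero
  have hpO : (p : K) ∈ O := natCast_mem O p
  have ha : ∀ j : ℕ, ∀ z ∈ O, z ^ (p ^ j) / p ∈ O → z / p ∈ O := by
    intro j
    induction j with
    | zero => intro z _ h; simpa using h
    | succ j ih =>
      intro z hz h
      rw [pow_succ, pow_mul] at h
      exact ih z hz (h2 _ (pow_mem hz _) h)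
  have hb : ∀ n : ℕ, ∀ z ∈ O, z ^ n / p ∈ O → z / p ∈ O := by
    intro n z hz h
    apply ha n z hz
    obtain ⟨d, hd⟩ := Nat.exists_eq_add_of_le (Nat.lt_pow_self (n := n) hp.one_lt).le
    rw [hd, pow_add, mul_comm, mul_div_assoc]
    exact mul_mem (pow_mem hz _) h
  obtain ⟨k₀, hk₀⟩ : ∃ k₀ : ℕ, ∀ x : 𝓞 K, (p : K) ^ k₀ * x ∈ O := by
    obtain ⟨S, hS⟩ := Module.Finite.fg_top (R := ℤ) (M := 𝓞 K)
    choose k hk using h3
    refine ⟨S.sup fun x => k x, fun x => ?_⟩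
    have hx : x ∈ Submodule.span ℤ (S : Set (𝓞 K)) := hS ▸ Submodule.mem_top
    induction hx using Submodule.span_induction with
    | mem x hx =>
      obtain ⟨d, hd⟩ := Nat.exists_eq_add_of_le (Finset.le_sup (f := fun x : 𝓞 K => k x) hx)
      rw [hd, add_comm, pow_add, mul_assoc]
      exact mul_mem (pow_mem hpO _) (hk _)
    | zero => simp
    | add x y _ _ hx hy => push_cast; rw [mul_add]; exact add_mem hx hy
    | smul a x _ hx =>
      rw [zsmul_eq_mul]
      push_cast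
      rw [mul_left_comm]
      exact mul_mem (intCast_mem O a) hx
  have hc : ∀ x : 𝓞 K, (x : K) ∈ O := by
    intro x
    have : ∀ k : ℕ, (p : K) ^ k * x ∈ O → (x : K) ∈ O := by
      intro k
      induction k with
      | zero => intro h; simpa using h
      | succ k ih =>
        intro h
        apply ih
        have e : (p : K) ^ k * x = (p : K) ^ (k + 1) * x / p := by field_simp; ring
        rw [e]
        apply hb (k₀ + 1) _ h
        have e2 : ((p : K) ^ (k + 1) * x) ^ (k₀ + 1) / p =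
            (p : K) ^ (k * (k₀ + 1)) * ((p : K) ^ k₀ * ((x ^ (k₀ + 1) : 𝓞 K) : K)) := by
          push_cast; field_simp; ring
        rw [e2]
        exact mul_mem (pow_mem hpO _) (hk₀ _)
    exact this k₀ (hk₀ x)
  obtain ⟨M, hM, hpM⟩ : ∃ M : Ideal O, M.IsMaximal ∧ Ideal.span {(p : O)} ≤ M := by
    apply Ideal.exists_le_maximal
    rw [Ne, Ideal.span_singleton_eq_top]
    intro hu
    obtain ⟨a, ha⟩ := hu.exists_right_inv
    have : (p : K) * (a : K) = 1 := by exact_mod_cast congrArg Subtype.val ha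
    exact h1 (by rw [← eq_inv_of_mul_eq_one_right this]; exact a.2)
  let f : 𝓞 K →+* O := (algebraMap (𝓞 K) K).codRestrict O hc
  have hprime : (M.comap f).IsPrime := Ideal.comap_isPrime f M
  have hpP : (p : 𝓞 K) ∈ M.comap f := by
    rw [Ideal.mem_comap, map_natCast]
    exact hpM (Ideal.mem_span_singleton_self _)
  have hp1 : (p : 𝓞 K) ≠ 0 := Nat.cast_ne_zero.mpr hp.ne_zero
  have hbot : M.comap f ≠ ⊥ := fun h => hp1 (by rwa [h] at hpP)
  have hloc : ∀ z ∈ O, ∃ a b : 𝓞 K, (b : K) * z = a ∧ b ∉ M.comap f := by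
    intro z hz
    obtain ⟨n, d, h | h⟩ := IsDedekindDomain.HeightOneSpectrum.exists_primeCompl_mul_eq_or_mul_eq
      (K := K) ⟨M.comap f, hprime, hbot⟩ z
    · exact ⟨n, d, by rw [mul_comm]; exact h, d.2⟩
    · refine ⟨d, n, by rw [mul_comm]; exact h, fun hn => d.2 ?_⟩
      have e : f d = ⟨z, hz⟩ * f n := Subtype.ext h.symm
      change f d ∈ M
      rw [e]
      exact M.mul_mem_left _ hn
  refine ⟨M.comap f, hprime, hpP, fun hp2 => ?_, hloc⟩
  obtain ⟨π, hπ1, hπ2⟩ := Ideal.exists_mem_pow_notMem_pow_succ (M.comap f) hbot hprime.ne_top 1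
  rw [pow_one] at hπ1
  have : Finite (𝓞 K ⧸ Ideal.span {(p : 𝓞 K)}) :=
    Ideal.finiteQuotientOfFreeOfNeBot _ (by rwa [Ne, Ideal.span_singleton_eq_bot])
  obtain ⟨n, m, hnm, he⟩ : ∃ n m : ℕ, n < m ∧
      Ideal.Quotient.mk (Ideal.span {(p : 𝓞 K)}) (π ^ n) = Ideal.Quotient.mk _ (π ^ m) := by
    obtain ⟨n, m, hne, he⟩ := Finite.exists_ne_map_eq_of_infinite
      (fun n : ℕ => Ideal.Quotient.mk (Ideal.span {(p : 𝓞 K)}) (π ^ n))
    rcases lt_or_gt_of_ne hne with h | h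
    · exact ⟨n, m, h, he⟩
    · exact ⟨m, n, h, he.symm⟩
  obtain ⟨d, rfl⟩ := Nat.exists_eq_add_of_lt hnm
  rw [Ideal.Quotient.eq, Ideal.mem_span_singleton] at he
  obtain ⟨c, hc'⟩ := he
  set s : 𝓞 K := 1 - π ^ (d + 1) with hs
  have hsP : s ∉ M.comap f := by
    intro h
    apply hprime.ne_top
    rw [Ideal.eq_top_iff_one]
    have : (1 : 𝓞 K) = s + π ^ d * π := by rw [hs]; ring
    rw [this]
    exact add_mem h (Ideal.mul_mem_left _ _ hπ1)
  have h4 : ((s * π : 𝓞 K) : K) / p ∈ O := by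
    apply hb (n + 1) _ (hc _)
    have e : (s * π) ^ (n + 1) = (p : 𝓞 K) * (c * s ^ n * π) := by
      have e0 : π ^ n * s = p * c := by rw [← hc', hs]; ring
      rw [← mul_assoc, ← mul_assoc, ← e0]; ring
    have e2 : ((s * π : 𝓞 K) : K) ^ (n + 1) / p = ((c * s ^ n * π : 𝓞 K) : K) := by
      rw [div_eq_iff hp0, mul_comm _ (p : K)]
      exact_mod_cast congrArg (fun x : 𝓞 K => (x : K)) e
    rw [e2]
    exact hc _
  obtain ⟨a, b, hab, hb'⟩ := hloc _ h4
  have e : (b * s) * π = a * p := by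
    have h6 : (b : K) * ((s * π : 𝓞 K) : K) = (a : K) * p := by rw [← hab]; field_simp
    apply RingOfIntegers.ext
    rw [mul_assoc]
    exact_mod_cast h6
  have h5 : (b * s) * π ∈ M.comap f ^ 2 := e ▸ Ideal.mul_mem_left _ _ hp2
  rcases Ideal.IsPrime.mul_mem_pow _ h5 with h | h
  · rcases hprime.mem_or_mem h with h | h
    · exact hb' h
    · exact hsP h
  · exact hπ2 h

end Pool.Agent.Lib.MP_f2f914_nt.PC
end

-- part Pool.Agent.Lib.MP_f2f914_nt.PC4
section

set_option autoImplicit false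

namespace Pool.Agent.Lib.MP_f2f914_nt.PC

open Filter hiding mk map
open PowerSeries NumberField

variable {l : Filter ℕ}

/-- the ideal of sparse series whose partial sums are sparse -/
def negl (hl : l ≤ atTop) (S R : Type) [CommRing S] [CommRing R] [Algebra S R] :
    Ideal (sparse hl S R) where
  carrier := {F | Small l (sp (ps F.1))}
  add_mem' := fun {F G} hF hG => (Small.union hl hF hG).mono (by
    rw [show ps (F + G).1 = ps F.1 + ps G.1 from add_mul _ _ _]; exact sp_add _ _)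
  zero_mem' := (small_finite hl Set.finite_empty).mono fun n hn => hn (by simp [ps])
  smul_mem' := fun G F hF => (Small.add G.2 hF).mono (by
    rw [show ps (G • F).1 = G.1 * ps F.1 from mul_assoc _ _ _]; exact sp_mul _ _)

/-- value of an integer polynomial -/
noncomputable def ev {A : Type*} [CommRing A] (x : A) (P : Polynomial ℤ) : A :=
  P.eval₂ (Int.castRingHom A) x

theorem hom_ev {A B : Type*} [CommRing A] [CommRing B] (g : A →+* B) (x : A) (P : Polynomial ℤ) :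
    g (ev x P) = ev (g x) P := by
  rw [ev, ev, Polynomial.hom_eval₂]
  congr 1
  exact RingHom.ext_int _ _

theorem root_minpoly {K B : Type*} [Field K] [NumberField K] [CommRing B] [Algebra ℚ B] (θ : K)
    (x : B) (h : ∀ P, ev θ P = 0 → ev x P = 0) : Polynomial.aeval x (minpoly ℚ θ) = 0 := by
  obtain ⟨b, hb0, hb⟩ :=
    IsLocalization.integerNormalization_spec (nonZeroDivisors ℤ) (minpoly ℚ θ)
  set P := IsLocalization.integerNormalization (nonZeroDivisors ℤ) (minpoly ℚ θ)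
  have h1 : Polynomial.aeval θ P = 0 := by
    rw [← Polynomial.aeval_map_algebraMap ℚ, hb, map_zsmul, minpoly.aeval, smul_zero]
  have h3 : Polynomial.aeval x P = 0 := h P h1
  rw [← Polynomial.aeval_map_algebraMap ℚ, hb, map_zsmul, ← Int.cast_smul_eq_zsmul ℚ] at h3
  have hb1 : (b : ℚ) ≠ 0 := by exact_mod_cast nonZeroDivisors.ne_zero hb0
  exact (smul_eq_zero_iff_right hb1).mp h3

theorem exists_pow_mul (p : ℕ) [hp : Fact p.Prime] (x : ℚ_[p]) :
    ∃ (k : ℕ) (c : ℤ_[p]), (c : ℚ_[p]) = (p : ℚ_[p]) ^ k * x := by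
  have h1 : (1 : ℝ) < p := by exact_mod_cast hp.out.one_lt
  obtain ⟨k, hk⟩ := pow_unbounded_of_one_lt ‖x‖ h1
  refine ⟨k, ⟨(p : ℚ_[p]) ^ k * x, ?_⟩, rfl⟩
  rw [norm_mul, norm_pow, Padic.norm_p, inv_pow, inv_mul_le_iff₀ (by positivity), mul_one]
  exact hk.le

theorem unram_of_sparse (hl : l ≤ atTop) [l.NeBot] {K : Type*} [Field K] [NumberField K]
    (θ : K) (hθ : Algebra.adjoin ℚ {θ} = ⊤) (p : ℕ) [hp : Fact p.Prime] (F : ℤ_[p]⟦X⟧)
    (hF : Small l (sp F))
    (h : ∀ P : Polynomial ℤ, ev θ P = 0 → Small l (sp (ps (ev F P)))) :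
    ∃ P : Ideal (𝓞 K), P.IsPrime ∧ (p : 𝓞 K) ∈ P ∧ (p : 𝓞 K) ∉ P ^ 2 ∧
      ∃ a b : 𝓞 K, (b : K) * θ = a ∧ b ∉ P := by
  let ι : ℤ_[p] →+* ℚ_[p] := PadicInt.Coe.ringHom
  have hι : Function.Injective ι := Subtype.val_injective
  let j : sparse hl ℤ ℤ_[p] →+* sparse hl ℚ ℚ_[p] :=
    ((map ι).comp (sparse hl ℤ ℤ_[p]).val.toRingHom).codRestrict (sparse hl ℚ ℚ_[p])
      fun G => Small.mono G.2 (sp_map ι G.1)
  let π : sparse hl ℤ ℤ_[p] →+* sparse hl ℚ ℚ_[p] ⧸ negl hl ℚ ℚ_[p] :=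
    (Ideal.Quotient.mk _).comp j
  have hπ : ∀ G, π G = 0 ↔ Small l (sp (ps G.1)) := by
    intro G
    refine Ideal.Quotient.eq_zero_iff_mem.trans ?_
    change Small l (sp (ps (map ι G.1))) ↔ _
    rw [← map_ps]
    exact ⟨fun h => h.mono (sp_map_inj ι hι _), fun h => h.mono (sp_map ι _)⟩
  have hint : IsIntegral ℚ θ := Algebra.IsIntegral.isIntegral θ
  have hroot : Polynomial.aeval (π ⟨F, hF⟩) (minpoly ℚ θ) = 0 := by
    refine root_minpoly θ (π ⟨F, hF⟩) fun P hP => ?_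
    rw [← hom_ev, hπ]
    have : (ev (⟨F, hF⟩ : sparse hl ℤ ℤ_[p]) P).1 = ev F P :=
      hom_ev (sparse hl ℤ ℤ_[p]).val.toRingHom ⟨F, hF⟩ P
    rw [this]
    exact h P hP
  let ψ := (PowerBasis.ofAdjoinEqTop hint hθ).lift (π ⟨F, hF⟩) hroot
  have hψ : ψ θ = π ⟨F, hF⟩ := (PowerBasis.ofAdjoinEqTop hint hθ).lift_gen _ hroot
  have hp0 : (p : K) ≠ 0 := Nat.cast_ne_zero.mpr hp.out.ne_zero
  have hC : ∀ G : sparse hl ℤ ℤ_[p], ((p : sparse hl ℤ ℤ_[p]) * G).1 = C (p : ℤ_[p]) * G.1 := by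
    intro G; simp
  let O : Subring K := π.range.comap ψ.toRingHom
  have hO : ∀ z, z ∈ O ↔ ∃ G, π G = ψ z := fun z => Iff.rfl
  have hθO : θ ∈ O := (hO θ).mpr ⟨_, hψ.symm⟩
  refine (exists_unram p hp.out O ?_ ?_ ?_).imp fun P h => ⟨h.1, h.2.1, h.2.2.1, h.2.2.2 θ hθO⟩
  · rw [hO]
    rintro ⟨G, hG⟩
    apply not_unit hl p G.1
    rw [← hC]
    apply (hπ (1 - p * G)).mp
    rw [map_sub, map_mul, map_one, map_natCast, hG, ← map_natCast ψ, ← map_mul,
      mul_inv_cancel₀ hp0, map_one, sub_self]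
  · intro z hz hz'
    obtain ⟨G, hG⟩ := (hO _).mp hz
    obtain ⟨G', hG'⟩ := (hO _).mp hz'
    obtain ⟨H, hH, hH'⟩ := reduced hl p G.1 G'.1 G.2 (by
      rw [← hC]
      apply (hπ (G ^ p - p * G')).mp
      rw [map_sub, map_mul, map_pow, map_natCast, hG, hG', ← map_natCast ψ, ← map_mul,
        mul_div_cancel₀ _ hp0, map_pow, sub_self])
    refine (hO _).mpr ⟨⟨H, hH⟩, ?_⟩
    have h5 : π (G - p * ⟨H, hH⟩) = 0 := (hπ _).mpr (by rw [← hC ⟨H, hH⟩] at hH'; exact hH')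
    rw [map_sub, map_mul, map_natCast, hG, sub_eq_zero] at h5
    rw [div_eq_inv_mul, map_mul, h5, ← mul_assoc, ← map_natCast ψ, ← map_mul,
      inv_mul_cancel₀ hp0, map_one, one_mul]
  · intro z
    have hz : z ∈ Algebra.adjoin ℚ {θ} := hθ ▸ Algebra.mem_top
    have hpO : (p : K) ∈ O := natCast_mem O p
    induction hz using Algebra.adjoin_induction with
    | mem x hx => exact ⟨0, by rw [hx]; simpa using hθO⟩
    | algebraMap q =>
      obtain ⟨k, c, hc⟩ := exists_pow_mul p (q : ℚ_[p])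
      refine ⟨k, (hO _).mpr ⟨⟨C c, (small_finite hl (Set.finite_singleton 0)).mono (sp_C _)⟩, ?_⟩⟩
      rw [← map_natCast (algebraMap ℚ K), ← map_pow, ← map_mul, AlgHom.commutes]
      refine congrArg (Ideal.Quotient.mk _) (Subtype.ext ?_)
      change map ι (C c) = algebraMap ℚ ℚ_[p]⟦X⟧ _
      rw [map_C, PowerSeries.algebraMap_apply]
      exact congrArg C (hc.trans (by simp))
    | add x y _ _ hx hy =>
      obtain ⟨a, ha⟩ := hx
      obtain ⟨b, hb⟩ := hy
      refine ⟨a + b, ?_⟩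
      rw [show (p : K) ^ (a + b) * (x + y) = p ^ b * (p ^ a * x) + p ^ a * (p ^ b * y) by ring]
      exact add_mem (mul_mem (pow_mem hpO _) ha) (mul_mem (pow_mem hpO _) hb)
    | mul x y _ _ hx hy =>
      obtain ⟨a, ha⟩ := hx
      obtain ⟨b, hb⟩ := hy
      refine ⟨a + b, ?_⟩
      rw [show (p : K) ^ (a + b) * (x * y) = (p ^ a * x) * (p ^ b * y) by ring]
      exact mul_mem ha hb

end Pool.Agent.Lib.MP_f2f914_nt.PC
end

-- part Pool.Agent.Lib.MP_f2f914_nt.PC5
section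

set_option autoImplicit false

namespace Pool.Agent.Lib.MP_f2f914_nt.PC

open Filter hiding mk map
open PowerSeries

variable {l : Filter ℕ}

theorem small_back (hl : l ≤ atTop) {X T : Set ℕ} (hX : Small l X) (L : ℕ → ℕ) (hL : Tiny l L)
    (h : ∀ N n, n ∈ T → n + L N < N → ∃ j, j ≤ L N ∧ n + j ∈ X) : Small l T := by
  obtain ⟨C, hC, h1⟩ := hX
  refine ⟨2 * C, by omega, (h1.mul (hL.add hl (tiny_const hl 1))).mono ?_⟩
  filter_upwards [hL 2, hl (eventually_ge_atTop (4 * C ^ 2))] with N h2 h3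
  have h4 : L N ≤ N / (2 * C) := by
    rw [Nat.le_div_iff_mul_le (by omega)]
    by_contra hc
    have : N * N < (L N * (2 * C)) * (L N * (2 * C)) := Nat.mul_self_lt_mul_self (by omega)
    nlinarith
  have h5 : N / (2 * C) + N / (2 * C) ≤ N / C := by
    rw [mul_comm 2 C, ← Nat.div_div_eq_div_mul]; omega
  have h6 : N / C ≤ N := Nat.div_le_self _ _
  have h7 : T ∩ Set.Iio (N / (2 * C)) ⊆
      (fun q : ℕ × ℕ => q.1 - q.2) '' ((X ∩ Set.Iio (N / C)) ×ˢ Set.Iio (L N + 1)) := by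
    rintro n ⟨hn, hn'⟩
    simp only [Set.mem_Iio] at hn'
    obtain ⟨j, hj, hj'⟩ := h N n hn (by omega)
    exact ⟨(n + j, j), ⟨⟨hj', by simp only [Set.mem_Iio]; omega⟩,
      by simp only [Set.mem_Iio]; omega⟩, by simp⟩
  have hfin := (fin_ct X (N / C)).prod (Set.finite_Iio (L N + 1))
  refine le_trans (Set.ncard_le_ncard h7 (hfin.image _)) (le_trans (Set.ncard_image_le hfin) ?_)
  rw [Set.ncard_prod]
  simp [ct]

/-- real series with polynomially bounded coefficients -/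
def pbdd : Subring ℝ⟦X⟧ where
  carrier := {G | ∃ (c : ℝ) (d : ℕ), 0 ≤ c ∧ ∀ n : ℕ, |coeff n G| ≤ c * (n + 1) ^ d}
  mul_mem' := by
    rintro F G ⟨c, d, hc, h⟩ ⟨c', d', hc', h'⟩
    refine ⟨c * c', d + d' + 1, by positivity, fun n => ?_⟩
    rw [coeff_mul]
    refine le_trans (Finset.abs_sum_le_sum_abs _ _) (le_trans (Finset.sum_le_card_nsmul _ _
      (c * (n + 1) ^ d * (c' * (n + 1) ^ d')) fun q hq => ?_) ?_)
    · have hq' : q.1 + q.2 = n := by simpa using hq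
      have a1 : (q.1 : ℝ) ≤ n := by exact_mod_cast (by omega : q.1 ≤ n)
      have a2 : (q.2 : ℝ) ≤ n := by exact_mod_cast (by omega : q.2 ≤ n)
      rw [abs_mul]
      refine mul_le_mul (le_trans (h _) ?_) (le_trans (h' _) ?_) (abs_nonneg _) (by positivity)
      · gcongr
      · gcongr
    · rw [Finset.Nat.card_antidiagonal, nsmul_eq_mul]
      push_cast
      exact le_of_eq (by ring)
  one_mem' := ⟨1, 0, zero_le_one, fun n => by rw [coeff_one]; split_ifs <;> simp⟩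
  add_mem' := by
    rintro F G ⟨c, d, hc, h⟩ ⟨c', d', hc', h'⟩
    refine ⟨c + c', d + d', by positivity, fun n => ?_⟩
    have a : (1 : ℝ) ≤ n + 1 := by simp
    rw [map_add, add_mul]
    refine le_trans (abs_add_le _ _) (add_le_add (le_trans (h _) ?_) (le_trans (h' _) ?_))
    · gcongr; omega
    · gcongr; omega
  zero_mem' := ⟨0, 0, le_rfl, fun n => by simp⟩
  neg_mem' := by
    rintro F ⟨c, d, hc, h⟩
    exact ⟨c, d, hc, fun n => by rw [map_neg, abs_neg]; exact h n⟩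

theorem C_mem_pbdd (c : ℝ) : C c ∈ pbdd :=
  ⟨|c|, 0, abs_nonneg _, fun n => by rw [coeff_C]; split_ifs <;> simp⟩

theorem X_mem_pbdd : X ∈ pbdd :=
  ⟨1, 0, zero_le_one, fun n => by rw [coeff_X]; split_ifs <;> simp⟩

theorem geo_mul {R : Type} [CommRing R] (a : R) :
    (mk fun n => a ^ n) * (1 - C a * X) = 1 := by
  ext n
  rw [mul_sub, mul_one, mul_left_comm, map_sub, coeff_C_mul]
  cases n with
  | zero => simp
  | succ n => simp [coeff_succ_mul_X, coeff_one, pow_succ']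

theorem carry_bdd (y : ℝ) (r : ℕ) (I : ℕ → ℤ) (c : ℝ) (hI : ∀ n, |y * r ^ n - I n| ≤ c)
    (P : Polynomial ℤ) (hP : ev y P = 0) :
    map (Int.castRingHom ℝ) (ev (mk I * (1 - C (r : ℤ) * X)) P * mk fun n => (r : ℤ) ^ n)
      ∈ pbdd := by
  set E : ℝ⟦X⟧ := mk fun n => (r : ℝ) ^ n with hE
  set f : ℝ⟦X⟧ := (mk fun n => (I n : ℝ)) * (1 - C (r : ℝ) * X) with hf
  have h1 : map (Int.castRingHom ℝ) (mk fun n => (r : ℤ) ^ n) = E := by ext n; simp [hE]
  have h2 : map (Int.castRingHom ℝ) (mk I * (1 - C (r : ℤ) * X)) = f := by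
    rw [hf, map_mul, map_sub, map_one, map_mul, map_C, map_X]
    congr 1
  have hg := geo_mul (r : ℝ)
  rw [← hE] at hg
  have h3 : (f - C y) * E ∈ pbdd := by
    refine ⟨c, 0, le_trans (abs_nonneg _) (hI 0), fun n => ?_⟩
    rw [sub_mul, hf, mul_assoc, mul_comm _ E, hg, mul_one, map_sub, coeff_C_mul, hE, coeff_mk,
      coeff_mk, abs_sub_comm, pow_zero, mul_one]
    exact hI n
  have h4 : f ∈ pbdd := by
    have : f = C y + (f - C y) * E * (1 - C (r : ℝ) * X) := by rw [mul_assoc, hg]; ring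
    rw [this]
    exact add_mem (C_mem_pbdd _) (mul_mem h3 (sub_mem (one_mem _)
      (mul_mem (C_mem_pbdd _) X_mem_pbdd)))
  obtain ⟨Q, hQ⟩ := Polynomial.sub_dvd_eval_sub (⟨f, h4⟩ : pbdd) ⟨C y, C_mem_pbdd y⟩
    (P.map (Int.castRingHom pbdd))
  rw [Polynomial.eval_map, Polynomial.eval_map] at hQ
  have h5 : ev f P - ev (C y) P = (f - C y) * Q.1 := by
    have := congrArg pbdd.subtype hQ
    rw [map_sub, map_mul, map_sub] at this
    exact (congrArg₂ (· - ·) (hom_ev pbdd.subtype ⟨f, h4⟩ P)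
      (hom_ev pbdd.subtype ⟨C y, C_mem_pbdd y⟩ P)).symm.trans this
  rw [← hom_ev C y P, hP, map_zero, sub_zero] at h5
  rw [map_mul, hom_ev, h1, h2, h5, mul_right_comm]
  exact mul_mem h3 Q.2

theorem small_carry (hl : l ≤ atTop) (r : ℕ) (hr : 2 ≤ r) (h : ℤ⟦X⟧) (hh : Small l (sp h))
    (hb : map (Int.castRingHom ℝ) (h * mk fun n => (r : ℤ) ^ n) ∈ pbdd) :
    Small l (sp (h * mk fun n => (r : ℤ) ^ n)) := by
  set T := h * mk fun n => (r : ℤ) ^ n with hT
  have hrec : ∀ n, coeff (n + 1) T = r * coeff n T + coeff (n + 1) h := by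
    intro n
    have : T * (1 - C (r : ℤ) * X) = h := by rw [hT, mul_assoc, geo_mul, mul_one]
    rw [← this, mul_sub, mul_one, mul_left_comm, map_sub, coeff_C_mul, coeff_succ_mul_X]
    ring
  obtain ⟨c, d, hc, hb⟩ := hb
  obtain ⟨m, hm⟩ := pow_unbounded_of_one_lt c (one_lt_two (α := ℝ))
  refine small_back hl hh (fun N => d * (Nat.log 2 N + 1) + m)
    (((tiny_const hl d).mul ((tiny_log hl).add hl (tiny_const hl 1))).add hl (tiny_const hl m)) ?_
  intro N n hn hN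
  by_contra hc'
  set L := d * (Nat.log 2 N + 1) + m with hL
  have h1 : ∀ j, j ≤ L → coeff (n + j) T = r ^ j * coeff n T := by
    intro j
    induction j with
    | zero => simp
    | succ j ih =>
      intro hj
      have : coeff (n + j + 1) h = 0 := by
        by_contra h0
        exact hc' ⟨j + 1, hj, h0⟩
      rw [← add_assoc, hrec, ih (by omega), this]
      ring
  have h2 := hb (n + L)
  rw [coeff_map, h1 L le_rfl, eq_intCast] at h2
  push_cast at h2
  have h3 : (1 : ℝ) ≤ |((coeff n T : ℤ) : ℝ)| := by exact_mod_cast Int.one_le_abs hn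
  have h4 : (n : ℝ) + L + 1 ≤ 2 ^ (Nat.log 2 N + 1) := by
    have := Nat.lt_pow_succ_log_self (b := 2) (by norm_num) N
    exact_mod_cast (by omega : n + L + 1 ≤ 2 ^ (Nat.log 2 N + 1))
  have h5 : (2 : ℝ) ^ L ≤ r ^ L := by gcongr; exact_mod_cast hr
  rw [abs_mul, abs_of_nonneg (by positivity)] at h2
  have h6 : c * ((n : ℝ) + L + 1) ^ d < 2 ^ L := by
    calc c * ((n : ℝ) + L + 1) ^ d ≤ c * (2 ^ (Nat.log 2 N + 1)) ^ d := by gcongr
      _ < 2 ^ m * (2 ^ (Nat.log 2 N + 1)) ^ d := by gcongr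
      _ = 2 ^ L := by rw [hL]; ring
  have h7 : (r : ℝ) ^ L * 1 ≤ r ^ L * |((coeff n T : ℤ) : ℝ)| := by gcongr
  linarith

end Pool.Agent.Lib.MP_f2f914_nt.PC
end

-- part Pool.Agent.Lib.MP_f2f914_nt.PC6
section

set_option autoImplicit false

namespace Pool.Agent.Lib.MP_f2f914_nt.PC

open Filter hiding mk map
open PowerSeries NumberField
open scoped Pointwise

theorem exists_filter (f : ℕ → ℕ) (h : ∀ k : ℕ, ∃ᶠ N in atTop, f N ^ k ≤ N) :
    ∃ l : Filter ℕ, l ≤ atTop ∧ l.NeBot ∧ Tiny l f := by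
  choose g hg using fun k : ℕ => frequently_atTop.mp (h k) k
  have h1 : Tendsto g atTop atTop := tendsto_atTop_mono (fun k => (hg k).1) tendsto_id
  refine ⟨Filter.map g atTop, h1, inferInstance, fun k => ?_⟩
  rw [eventually_map]
  filter_upwards [eventually_ge_atTop k, eventually_ge_atTop 1] with j hj hj1
  rcases Nat.eq_zero_or_pos (f (g j)) with h0 | h0
  · rw [h0]
    exact le_trans (pow_le_one₀ le_rfl zero_le_one) (le_trans hj1 (hg j).1)
  · exact le_trans (Nat.pow_le_pow_right h0 hj) (hg j).2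

theorem signed {K : Type*} [Field K] [NumberField K] (σ : K →+* ℝ) (θ : K)
    (hθ : Algebra.adjoin ℚ {θ} = ⊤) (r : ℕ) (hr : 2 ≤ r) (p : ℕ) (hp : p.Prime) (hpr : ¬ p ∣ r)
    (hram : ∀ P : Ideal (𝓞 K), P.IsPrime → (p : 𝓞 K) ∈ P →
      (p : 𝓞 K) ∈ P ^ 2 ∨ ∀ a b : 𝓞 K, (b : K) * θ = a → b ∈ P)
    (I : ℕ → ℤ) (c : ℝ) (hI : ∀ n, |σ θ * r ^ n - I n| ≤ c) :
    ∃ k : ℕ, ∀ᶠ N in atTop, N < ct {n | I (n + 1) ≠ r * I n} N ^ k := by
  by_contra hc
  push Not at hc
  obtain ⟨l, hl, hne, ht⟩ := exists_filter (fun N => ct {n | I (n + 1) ≠ r * I n} N) hc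
  have : Fact p.Prime := ⟨hp⟩
  have hs : Small l {n | I (n + 1) ≠ r * I n} := ⟨1, one_pos, by simpa using ht⟩
  set f : ℤ⟦X⟧ := mk I * (1 - C (r : ℤ) * X) with hf
  have hfs : Small l (sp f) := by
    refine ((small_finite hl (Set.finite_singleton 0)).union hl
      (hs.add (small_finite hl (Set.finite_singleton 1)))).mono fun n hn => ?_
    cases n with
    | zero => exact Or.inl rfl
    | succ n =>
      refine Or.inr ⟨n, fun h0 => hn ?_, 1, rfl, rfl⟩
      rw [hf, mul_sub, mul_one, mul_left_comm, map_sub, coeff_C_mul, coeff_succ_mul_X, coeff_mk,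
        coeff_mk, h0, sub_self]
  have hu : IsUnit (r : ℤ_[p]) := by
    rw [PadicInt.isUnit_iff, PadicInt.norm_natCast_eq_one_iff]
    exact (Nat.Prime.coprime_iff_not_dvd hp).mpr hpr
  obtain ⟨u, hu⟩ := hu.exists_left_inv
  let g : ℤ⟦X⟧ →+* ℤ_[p]⟦X⟧ := (rescale u).comp (map (Int.castRingHom ℤ_[p]))
  have hg : ∀ G, sp (g G) ⊆ sp G := by
    intro G n hn h0
    apply hn
    simp [g, coeff_rescale, h0]
  have hE : g (mk fun n => (r : ℤ) ^ n) = mk 1 := by
    ext n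
    simp [g, coeff_rescale, ← mul_pow, hu]
  obtain ⟨P, h1, h2, h3, a, b, h4, h5⟩ := unram_of_sparse hl θ hθ p (g f) (hfs.mono (hg _)) (by
    intro P hP
    rw [← hom_ev, ps, ← hE, ← map_mul]
    refine Small.mono (small_carry hl r hr _ ?_ (carry_bdd (σ θ) r I c hI P ?_)) (hg _)
    · have : (ev (⟨f, hfs⟩ : sparse hl ℤ ℤ) P).1 = ev f P :=
        hom_ev (sparse hl ℤ ℤ).val.toRingHom ⟨f, hfs⟩ P
      rw [← this]
      exact (ev (⟨f, hfs⟩ : sparse hl ℤ ℤ) P).2
    · rw [← hom_ev, hP, map_zero])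
  rcases hram P h1 h2 with h | h
  · exact h3 h
  · exact h5 (h a b h4)

theorem exists_approx (x : ℝ) (b : ℕ) (hb : 2 ≤ b) (a : ℕ → ℤ) (S : ℤ) (hS : ∀ n, |a n| ≤ S)
    (hsum : HasSum (fun n : ℕ => (a n : ℝ) / (b : ℝ) ^ n) x) :
    ∃ J : ℕ → ℤ, (∀ n, J (n + 1) = b * J n + a (n + 1)) ∧ ∀ n, |x * b ^ n - J n| ≤ S := by
  have hb2 : (2 : ℝ) ≤ b := by exact_mod_cast hb
  have hS0 : (0 : ℝ) ≤ S := by exact_mod_cast le_trans (abs_nonneg _) (hS 0)
  refine ⟨fun n => ∑ m ∈ Finset.range (n + 1), a m * b ^ (n - m), fun n => ?_, fun n => ?_⟩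
  · simp only
    rw [Finset.sum_range_succ, Finset.mul_sum, Nat.sub_self, pow_zero, mul_one]
    congr 1
    refine Finset.sum_congr rfl fun m hm => ?_
    rw [Finset.mem_range] at hm
    rw [show n + 1 - m = n - m + 1 by omega]
    ring
  · have h1 := (hasSum_nat_add_iff' (n + 1)).mpr hsum
    have h0 := hasSum_geometric_two.mul_left ((S : ℝ) / (2 * b ^ n))
    have h2 := HasSum.norm_le_of_bounded h1 h0 (by
      intro m
      have h3 : |(a (m + (n + 1)) : ℝ)| ≤ S := by exact_mod_cast hS _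
      rw [Real.norm_eq_abs, abs_div, abs_of_pos (a := (b : ℝ) ^ _) (by positivity), one_div,
        inv_pow, ← div_eq_mul_inv, div_div]
      have h4 : 2 * (b : ℝ) ^ n * 2 ^ m ≤ b ^ (m + (n + 1)) := by
        rw [show (b : ℝ) ^ (m + (n + 1)) = b * b ^ n * b ^ m by ring]
        gcongr
      gcongr)
    have e : x * b ^ n - ((∑ m ∈ Finset.range (n + 1), a m * b ^ (n - m) : ℤ) : ℝ) =
        (x - ∑ m ∈ Finset.range (n + 1), (a m : ℝ) / b ^ m) * b ^ n := by
      push_cast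
      rw [sub_mul, Finset.sum_mul]
      congr 1
      refine Finset.sum_congr rfl fun m hm => ?_
      rw [Finset.mem_range] at hm
      rw [pow_sub₀ _ (by positivity) (by omega)]
      field_simp
    rw [e, abs_mul, abs_of_pos (a := (b : ℝ) ^ n) (by positivity), ← le_div_iff₀ (by positivity)]
    refine le_trans h2 (le_of_eq ?_)
    field_simp

theorem changes {K : Type*} [Field K] [NumberField K] (σ : K →+* ℝ) (θ : K)
    (hθ : Algebra.adjoin ℚ {θ} = ⊤) (b h p : ℕ) (hb : 2 ≤ b) (hh : 1 ≤ h) (hp : p.Prime)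
    (hpb : ¬ p ∣ b)
    (hram : ∀ P : Ideal (𝓞 K), P.IsPrime → (p : 𝓞 K) ∈ P →
      (p : 𝓞 K) ∈ P ^ 2 ∨ ∀ u v : 𝓞 K, (v : K) * (((b : K) ^ h - 1) * θ) = u → v ∈ P)
    (a : ℕ → ℤ) (S : ℤ) (hS : ∀ n, |a n| ≤ S)
    (hsum : HasSum (fun n : ℕ => (a n : ℝ) / (b : ℝ) ^ n) (σ θ)) :
    ∃ c : ℝ, 0 < c ∧ ∀ᶠ N : ℕ in atTop, (N : ℝ) ^ c ≤
      (((Finset.range N).filter fun n => a (n + h) ≠ a n).card : ℝ) := by
  obtain ⟨J, hJ1, hJ2⟩ := exists_approx (σ θ) b hb a S hS hsum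
  have hne : (b : ℚ) ^ h - 1 ≠ 0 := by
    have : 1 < b ^ h := Nat.one_lt_pow (by omega) (by omega)
    have : (1 : ℚ) < b ^ h := by exact_mod_cast this
    linarith
  have hθ' : Algebra.adjoin ℚ {((b : K) ^ h - 1) * θ} = ⊤ := by
    rw [eq_top_iff, ← hθ, Algebra.adjoin_le_iff, Set.singleton_subset_iff]
    have h1 := Subalgebra.smul_mem _ (Algebra.self_mem_adjoin_singleton ℚ (((b : K) ^ h - 1) * θ))
      ((b : ℚ) ^ h - 1)⁻¹
    have e : (b : K) ^ h - 1 = algebraMap ℚ K ((b : ℚ) ^ h - 1) := by simp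
    rwa [e, ← Algebra.smul_def, smul_smul, inv_mul_cancel₀ hne, one_smul, Algebra.smul_def,
      ← e] at h1
  obtain ⟨k, hk⟩ := signed σ _ hθ' b hb p hp hpb hram (fun n => J (n + h) - J n) (S + S) (by
    intro n
    have e : σ (((b : K) ^ h - 1) * θ) * b ^ n - ((J (n + h) - J n : ℤ) : ℝ) =
        (σ θ * b ^ (n + h) - J (n + h)) - (σ θ * b ^ n - J n) := by
      simp only [map_mul, map_sub, map_pow, map_natCast, map_one]
      push_cast
      ring
    rw [e]
    exact le_trans (abs_sub _ _) (add_le_add (hJ2 _) (hJ2 _)))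
  refine ⟨((k + 1 : ℕ) : ℝ)⁻¹, by positivity, ?_⟩
  obtain ⟨N₀, hN₀⟩ := eventually_atTop.mp hk
  filter_upwards [eventually_ge_atTop (N₀ + 2)] with N hN
  obtain ⟨M, rfl⟩ : ∃ M, N = M + 1 := ⟨N - 1, by omega⟩
  set m := ((Finset.range (M + 1)).filter fun n => a (n + h) ≠ a n).card with hm
  have h1 : ct {n | J (n + 1 + h) - J (n + 1) ≠ b * (J (n + h) - J n)} M ≤ m := by
    rw [hm, ← Set.ncard_coe_finset]
    refine Set.ncard_le_ncard_of_injOn (fun n => n + 1) ?_ (fun _ _ _ _ h => by simpa using h)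
    rintro n ⟨h1, h2⟩
    simp only [Finset.coe_filter, Finset.mem_range, Set.mem_ofPred_eq, Set.mem_Iio] at h1 h2 ⊢
    refine ⟨by omega, fun h0 => h1 ?_⟩
    rw [show n + 1 + h = n + h + 1 by ring] at h0 ⊢
    rw [hJ1, hJ1, h0]
    ring
  have h2 : M + 1 ≤ m ^ k := le_trans (hN₀ M (by omega)) (Nat.pow_le_pow_left h1 k)
  have h3 : M + 1 ≤ m ^ (k + 1) := by
    rcases Nat.eq_zero_or_pos m with h0 | h0
    · rw [h0] at h2
      have : 0 ^ k ≤ 1 := pow_le_one₀ le_rfl zero_le_one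
      omega
    · exact le_trans h2 (Nat.pow_le_pow_right h0 (by omega))
  rw [Real.rpow_inv_le_iff_of_pos (by positivity) (by positivity) (by positivity),
    Real.rpow_natCast]
  exact_mod_cast h3

end Pool.Agent.Lib.MP_f2f914_nt.PC
end
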