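import Pool.Agent.Lib.MP_f2f914_nt.SumWords

/-!
An irrational algebraic number is not a rational combination of one expansion with an early long
repetition and finitely many expansions of linear complexity.
-/

namespace Pool.Agent.Lib.MP_f2f914_nt.Stammer

open Finset Filter Topology Pool.Agent.Lib.MP_f2f914_nt.Words Pool.Agent.Subspace
  Pool.Agent.Lib.MP_f2f914_nt.SumWords

theorem indexed_lower (b : ℕ) (hb : 2 ≤ b) (r : ℕ) (A : Finset ℝ)
    (hA : ∀ a ∈ A, IsAlgebraic ℚ a) {ε : ℝ} (hε : 0 < ε) :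
    ∃ κ : ℝ, 0 < κ ∧ ∀ (s : Finset (ℕ × Bool)) (c : ℕ × Bool → ℝ) (e : ℕ × Bool → ℕ) (T : ℕ)
      (P : ℤ), s.card ≤ r → (∀ t ∈ s, c t ∈ A) → (∀ t ∈ s, e t ≤ T) →
      ∑ t ∈ s, c t * (b : ℝ) ^ e t - P ≠ 0 →
      κ ≤ |∑ t ∈ s, c t * (b : ℝ) ^ e t - P| * (b : ℝ) ^ (ε * T) := by
  have key : ∀ᶠ κ in 𝓝[>] (0 : ℝ), ∀ q : Fin (r + 1), ∀ a : Fin q → A,
      ∀ (t : Fin q → ℕ) (T : ℕ) (P : ℤ), (∀ j, t j ≤ T) →
      ∑ j, (a j : ℝ) * (b : ℝ) ^ t j - P ≠ 0 →
      κ ≤ |∑ j, (a j : ℝ) * (b : ℝ) ^ t j - P| * (b : ℝ) ^ (ε * T) :=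
    eventually_all.mpr fun q => eventually_all.mpr fun a =>
      sum_pow_lower_ev b hb hε q (fun j => (a j : ℝ)) fun j => hA _ (a j).2
  obtain ⟨κ, h1, h2⟩ := (key.and self_mem_nhdsWithin).exists
  refine ⟨κ, h2, fun s c e T P hs hc hT hne => ?_⟩
  have e1 : ∑ t ∈ s, c t * (b : ℝ) ^ e t =
      ∑ j : Fin s.card, c (s.equivFin.symm j) * (b : ℝ) ^ e (s.equivFin.symm j) := by
    rw [← Finset.sum_coe_sort s, ← Equiv.sum_comp s.equivFin.symm]
  rw [e1] at hne ⊢
  exact h1 ⟨s.card, by omega⟩ (fun j => ⟨c (s.equivFin.symm j), hc _ (s.equivFin.symm j).2⟩)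
    (fun j => e (s.equivFin.symm j)) T P (fun j => hT _ (s.equivFin.symm j).2) hne

/-- Number of distinct blocks of length `n` of `u` starting at a position in `[s, s + L)`. -/
noncomputable def blocks (u : ℕ → ℤ) (n s L : ℕ) : ℕ :=
  Set.ncard {w : Fin n → ℤ | ∃ a < L, ∀ j : Fin n, w j = u (s + a + j)}

/-- The window of length `L` of `u` at `s`, followed by zeros. -/
def window (u : ℕ → ℤ) (s L : ℕ) : ℕ → ℤ := fun j => if j < L then u (s + j) else 0

theorem window_finite (u : ℕ → ℤ) (s L : ℕ) : (Set.range (window u s L)).Finite := by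
  refine (((Set.finite_Iio L).image fun j => u (s + j)).insert 0).subset ?_
  rintro _ ⟨j, rfl⟩
  unfold window
  split_ifs with h
  · exact Or.inr ⟨j, h, rfl⟩
  · exact Or.inl rfl

theorem complexity_window_le (u : ℕ → ℤ) (s L : ℕ) {n : ℕ} (hn : 1 ≤ n) :
    complexity (window u s L) n ≤ blocks u n s L + 2 * n := by
  classical
  have hfin : {w : Fin n → ℤ | ∃ a < L, ∀ j : Fin n, w j = u (s + a + j)}.Finite := by
    refine ((Set.finite_Iio L).image fun a => fun j : Fin n => u (s + a + j)).subset ?_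
    rintro w ⟨a, ha, hw⟩
    exact ⟨a, ha, (funext hw).symm⟩
  rw [complexity_eq, blocks]
  calc (Set.range (W (window u s L) n)).ncard
      ≤ ({w : Fin n → ℤ | ∃ a < L, ∀ j : Fin n, w j = u (s + a + j)} ∪
          ↑((Finset.Icc (L - n) L).image (W (window u s L) n))).ncard := by
        refine Set.ncard_le_ncard ?_ (hfin.union (Finset.finite_toSet _))
        rintro _ ⟨a, rfl⟩
        by_cases h1 : a + n ≤ L
        · refine Or.inl ⟨a, by omega, fun j => ?_⟩
          have := j.2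
          simp only [W, window]
          rw [if_pos (by omega), add_assoc]
        · refine Or.inr (Finset.mem_coe.mpr (Finset.mem_image.mpr ⟨min a L, ?_, ?_⟩))
          · rw [Finset.mem_Icc]; omega
          · rcases le_total a L with h2 | h2
            · rw [min_eq_left h2]
            · rw [min_eq_right h2]
              funext j
              simp only [W, window]
              rw [if_neg (by omega), if_neg (by omega)]
    _ ≤ _ := by
        refine (Set.ncard_union_le _ _).trans (Nat.add_le_add_left ?_ _)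
        rw [Set.ncard_coe_finset]
        refine Finset.card_image_le.trans ?_
        rw [Nat.card_Icc]
        omega

theorem core_rep (k C : ℕ) : ∃ K : ℕ, ∀ (b : ℕ), 2 ≤ b → ∀ (u : Fin k → ℕ → ℤ)
    (v : ℕ → ℤ) (c₀ : ℤ) (c : Fin k → ℤ) (τ : ℕ → ℝ) (E : ℝ),
    (∀ t, |τ t| ≤ E) → (∀ t, τ (t + 1) = b * τ t - (c₀ * v t + ∑ i, (c i : ℝ) * u i t)) →
    IsAlgebraic ℚ (τ 0) → Irrational (τ 0) → ∀ C' : ℕ, ∃ N, ∀ n ≥ N,
      ∀ s t : ℕ, s < t → t ≤ C' * n → (∀ j < K * n, v (s + j) = v (t + j)) →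
        ∃ i, C * n < blocks (u i) n s (K * n) ∨ C * n < blocks (u i) n t (K * n) := by
  classical
  obtain ⟨K, r, hKr⟩ := sign_relation (k + k) (C + 2)
  refine ⟨K + 1, fun b hb u v c₀ c τ E hE hτ halg hirr C' => ?_⟩
  have hb1 : (1 : ℝ) < b := by exact_mod_cast (by omega : 1 < b)
  have hb0 : (0 : ℝ) < b := by linarith
  have hε : (0 : ℝ) < 1 / (8 * (C' + K + 1)) := by positivity
  obtain ⟨κ, hκ, hlow⟩ := indexed_lower b hb (4 * r) {τ 0, -τ 0, 0} (by
    intro a ha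
    simp only [mem_insert, mem_singleton] at ha
    rcases ha with rfl | rfl | rfl
    · exact halg
    · exact halg.neg
    · exact isAlgebraic_zero) hε
  obtain ⟨g, hg⟩ := pow_unbounded_of_one_lt (4 * r * E / κ) hb1
  rw [div_lt_iff₀ hκ] at hg
  refine ⟨8 * (g + 1), fun n hn s t hst htn hv => ?_⟩
  by_contra hc
  push Not at hc
  obtain ⟨S₁, S₂, hne, h1, h2, hT, hrel⟩ := hKr
    (Fin.append (fun i => window (u i) s ((K + 1) * n)) fun i => window (u i) t ((K + 1) * n))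
    (fun i => by
      refine Fin.addCases (fun i => ?_) (fun i => ?_) i
      · rw [Fin.append_left]
        exact window_finite _ _ _
      · rw [Fin.append_right]
        exact window_finite _ _ _) n (by omega)
    (fun i => by
      refine Fin.addCases (fun i => ?_) (fun i => ?_) i
      · rw [Fin.append_left]
        refine (complexity_window_le _ _ _ (by omega)).trans ?_
        rw [add_mul C]
        exact Nat.add_le_add_right (hc i).1 _
      · rw [Fin.append_right]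
        refine (complexity_window_le _ _ _ (by omega)).trans ?_
        rw [add_mul C]
        exact Nat.add_le_add_right (hc i).2 _)
  have hwin : ∀ (i : Fin k) (w j : ℕ), 4 * j < n → ∀ S ⊆ S₁ ∪ S₂,
      ∑ a ∈ S, window (u i) w ((K + 1) * n) (a + j) = ∑ a ∈ S, u i (w + (a + j)) := by
    intro i w j hj S hS
    refine sum_congr rfl fun a ha => ?_
    have := hT a (hS ha)
    simp only [window]
    rw [if_pos (by rw [add_mul]; omega)]
  have hrs : ∀ i j, 4 * j < n → ∑ a ∈ S₁, (u i (s + (a + j)) : ℝ) = ∑ a ∈ S₂, u i (s + (a + j)) := by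
    intro i j hj
    have := hrel (Fin.castAdd k i) j hj
    simp only [Fin.append_left] at this
    rw [hwin i s j hj _ subset_union_left, hwin i s j hj _ subset_union_right] at this
    exact_mod_cast this
  have hrt : ∀ i j, 4 * j < n → ∑ a ∈ S₁, (u i (t + (a + j)) : ℝ) = ∑ a ∈ S₂, u i (t + (a + j)) := by
    intro i j hj
    have := hrel (Fin.natAdd k i) j hj
    simp only [Fin.append_right] at this
    rw [hwin i t j hj _ subset_union_left, hwin i t j hj _ subset_union_right] at this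
    exact_mod_cast this
  have hP : ∀ t, ∃ P : ℤ, τ t = τ 0 * (b : ℝ) ^ t - P := by
    intro t
    induction t with
    | zero => exact ⟨0, by simp⟩
    | succ t ih =>
      obtain ⟨P, hP⟩ := ih
      refine ⟨b * P + (c₀ * v t + ∑ i, c i * u i t), ?_⟩
      rw [hτ, hP]; push_cast; ring
  choose P hP using hP
  set ρ : ℕ → ℝ := fun a => τ (t + a) - τ (s + a) with hρ
  set σ : ℕ → ℝ := fun j => ∑ a ∈ S₁, ρ (a + j) - ∑ a ∈ S₂, ρ (a + j) with hσ
  have hσ1 : ∀ j ≤ n / 4, σ j = (b : ℝ) ^ j * σ 0 := by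
    intro j
    induction j with
    | zero => simp
    | succ j ih =>
      intro hj
      rw [pow_succ', mul_assoc, ← ih (by omega)]
      have hstep : ∀ a ∈ S₁ ∪ S₂, ρ (a + (j + 1)) = b * ρ (a + j) -
          (∑ i, (c i : ℝ) * u i (t + (a + j)) - ∑ i, (c i : ℝ) * u i (s + (a + j))) := by
        intro a ha
        have h3 := hv (a + j) (by have := hT a ha; rw [add_mul]; omega)
        simp only [hρ, ← add_assoc a j 1, ← add_assoc _ (a + j) 1, hτ, h3]
        ring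
      simp only [hσ]
      rw [sum_congr rfl fun a ha => hstep a (mem_union_left _ ha),
        sum_congr (s₁ := S₂) rfl fun a ha => hstep a (mem_union_right _ ha)]
      simp only [sum_sub_distrib, ← mul_sum]
      have e1 : ∀ w, (∀ i, ∑ a ∈ S₁, (u i (w + (a + j)) : ℝ) = ∑ a ∈ S₂, u i (w + (a + j))) →
          ∑ a ∈ S₁, ∑ i, (c i : ℝ) * u i (w + (a + j)) =
          ∑ a ∈ S₂, ∑ i, (c i : ℝ) * u i (w + (a + j)) := by
        intro w hw
        rw [sum_comm, sum_comm (s := S₂)]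
        refine sum_congr rfl fun i _ => ?_
        rw [← mul_sum, ← mul_sum, hw i]
        push_cast
        rfl
      rw [e1 s fun i => hrs i j (by omega), e1 t fun i => hrt i j (by omega)]
      ring
  have hE0 : 0 ≤ E := (abs_nonneg _).trans (hE 0)
  have hσ2 : ∀ j, |σ j| ≤ 4 * r * E := by
    intro j
    have hρE : ∀ a, |ρ a| ≤ 2 * E := fun a => by
      have := abs_sub (τ (t + a)) (τ (s + a))
      linarith [hE (t + a), hE (s + a)]
    have hS : ∀ S : Finset ℕ, S.card ≤ r → |∑ a ∈ S, ρ (a + j)| ≤ r * (2 * E) := by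
      intro S hS
      refine (abs_sum_le_sum_abs _ _).trans
        ((sum_le_card_nsmul _ _ (2 * E) fun t _ => hρE _).trans ?_)
      rw [nsmul_eq_mul]
      exact mul_le_mul_of_nonneg_right (by exact_mod_cast hS) (by linarith)
    have := abs_sub (∑ a ∈ S₁, ρ (a + j)) (∑ a ∈ S₂, ρ (a + j))
    have := hS S₁ h1
    have := hS S₂ h2
    simp only [hσ]
    linarith
  set co : ℕ → ℝ := fun a => (if a ∈ S₁ then τ 0 else 0) - (if a ∈ S₂ then τ 0 else 0) with hco
  set Q : ℤ := ∑ a ∈ S₁, (P (t + a) - P (s + a)) - ∑ a ∈ S₂, (P (t + a) - P (s + a)) with hQ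
  have hρ0 : ∀ a, ρ a = τ 0 * ((b : ℝ) ^ t - (b : ℝ) ^ s) * (b : ℝ) ^ a -
      ((P (t + a) - P (s + a) : ℤ) : ℝ) := by
    intro a
    simp only [hρ]
    rw [hP (t + a), hP (s + a)]
    push_cast
    ring
  have hs0 : σ 0 = τ 0 * (((b : ℝ) ^ t - (b : ℝ) ^ s) *
      (∑ a ∈ S₁, (b : ℝ) ^ a - ∑ a ∈ S₂, (b : ℝ) ^ a)) - Q := by
    simp only [hσ, add_zero, hQ, hρ0, sum_sub_distrib, ← mul_sum]
    push_cast
    simp only [sum_sub_distrib]
    ring
  have hs1 : ∑ p ∈ (S₁ ∪ S₂) ×ˢ (univ : Finset Bool),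
      (if p.2 then co p.1 else -co p.1) * (b : ℝ) ^ (if p.2 then t + p.1 else s + p.1) - Q =
      σ 0 := by
    rw [hs0, sum_product]
    have e1 : ∀ a, ∑ y : Bool, (if y then co a else -co a) *
        (b : ℝ) ^ (if y then t + a else s + a) =
        ((b : ℝ) ^ t - (b : ℝ) ^ s) * (co a * (b : ℝ) ^ a) := by
      intro a
      simp [pow_add]
      ring
    simp only [e1, ← mul_sum]
    simp only [hco, sub_mul, ite_mul, zero_mul, sum_sub_distrib, sum_ite_mem,
      union_inter_cancel_left, union_inter_cancel_right, ← mul_sum]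
    ring
  have hne0 : σ 0 ≠ 0 := by
    have hM : ((∑ a ∈ S₁, b ^ a : ℕ) : ℤ) - ((∑ a ∈ S₂, b ^ a : ℕ) : ℤ) ≠ 0 := by
      intro h
      exact hne (Finset.geomSum_injective hb (by exact_mod_cast sub_eq_zero.mp h))
    have hM' : (b : ℤ) ^ t - (b : ℤ) ^ s ≠ 0 := by
      have : (b : ℤ) ^ s < (b : ℤ) ^ t := pow_lt_pow_right₀ (by omega) hst
      omega
    have := ((hirr.mul_intCast (mul_ne_zero hM' hM)).sub_intCast Q).ne_zero
    rw [hs0]
    push_cast at this
    exact this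
  have hmain := hlow ((S₁ ∪ S₂) ×ˢ (univ : Finset Bool))
    (fun p => if p.2 then co p.1 else -co p.1) (fun p => if p.2 then t + p.1 else s + p.1)
    ((C' + K) * n) Q (by
      rw [card_product]
      have := card_union_le S₁ S₂
      simp only [card_univ, Fintype.card_bool]
      omega) (by
      intro p _
      simp only [hco]
      split_ifs <;> simp) (by
      intro p hp
      have := hT p.1 (mem_product.mp hp).1
      rw [add_mul]
      split_ifs <;> omega) (by rwa [hs1])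
  rw [hs1] at hmain
  have hexp : (b : ℝ) ^ (1 / (8 * ((C' : ℝ) + K + 1)) * (((C' + K) * n : ℕ) : ℝ)) ≤
      (b : ℝ) ^ (n / 4 - g) := by
    rw [← Real.rpow_natCast]
    refine Real.rpow_le_rpow_of_exponent_le hb1.le ?_
    have h3 : n ≤ 8 * (n / 4 - g) := by omega
    have h4 : (n : ℝ) ≤ 8 * ((n / 4 - g : ℕ) : ℝ) := by exact_mod_cast h3
    rw [one_div, inv_mul_le_iff₀ (by positivity)]
    push_cast
    have h5 : (0 : ℝ) ≤ n := by positivity
    have h6 : (0 : ℝ) ≤ (C' : ℝ) + K := by positivity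
    nlinarith
  have h7 := hσ2 (n / 4)
  rw [hσ1 _ le_rfl, abs_mul, abs_of_pos (by positivity), show n / 4 = n / 4 - g + g by omega,
    pow_add] at h7
  have h8 : κ ≤ |σ 0| * (b : ℝ) ^ (n / 4 - g) :=
    hmain.trans (mul_le_mul_of_nonneg_left hexp (abs_nonneg _))
  have h9 : (0 : ℝ) < (b : ℝ) ^ g := by positivity
  nlinarith

theorem combination (k C : ℕ) : ∃ K : ℕ, ∀ (b : ℕ), 2 ≤ b → ∀ (x : ℝ), IsAlgebraic ℚ x →
    Irrational x → ∀ (v : ℕ → ℤ) (u : Fin k → ℕ → ℤ), (Set.range v).Finite →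
    (∀ i, (Set.range (u i)).Finite) → ∀ (q₀ q₁ : ℚ) (q : Fin k → ℚ),
    x = q₀ + q₁ * ∑' t, (v t : ℝ) / (b : ℝ) ^ (t + 1) +
      ∑ i, (q i : ℝ) * ∑' t, (u i t : ℝ) / (b : ℝ) ^ (t + 1) →
    ∀ C' : ℕ, ∃ N, ∀ n ≥ N,
      ∀ s t : ℕ, s < t → t ≤ C' * n → (∀ j < K * n, v (s + j) = v (t + j)) →
        ∃ i, C * n < blocks (u i) n s (K * n) ∨ C * n < blocks (u i) n t (K * n) := by
  obtain ⟨K, hK⟩ := core_rep k C
  refine ⟨K, fun b hb x halg hirr v u hv hu q₀ q₁ q hx => ?_⟩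
  obtain ⟨D, hD, c, hc⟩ : ∃ D : ℤ, D ≠ 0 ∧ ∃ c : Fin k → ℤ, ∀ i, (c i : ℚ) = D * q i := by
    refine ⟨∏ i, ((q i).den : ℤ), prod_ne_zero_iff.mpr fun i _ => by exact_mod_cast (q i).den_ne_zero,
      fun i => (∏ j ∈ univ.erase i, ((q j).den : ℤ)) * (q i).num, fun i => ?_⟩
    rw [← prod_erase_mul _ _ (mem_univ i)]
    push_cast
    rw [mul_assoc, Rat.den_mul_eq_num]
  have hc' : ∀ i, (c i : ℝ) = D * q i := fun i => by exact_mod_cast hc i
  have hq₁ : (q₁.num : ℝ) = q₁.den * q₁ := by exact_mod_cast (Rat.den_mul_eq_num q₁).symm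
  have hD' : D * q₁.den ≠ 0 := mul_ne_zero hD (by exact_mod_cast q₁.den_ne_zero)
  choose E hE using fun i => tail_facts b hb (hu i)
  obtain ⟨E₀, hE₀⟩ := tail_facts b hb hv
  have h0 : ((D * q₁.num : ℤ) : ℝ) * ∑' j, (v (0 + j) : ℝ) / (b : ℝ) ^ (j + 1) +
      ∑ i, ((q₁.den * c i : ℤ) : ℝ) * ∑' j, (u i (0 + j) : ℝ) / (b : ℝ) ^ (j + 1) =
      ((D * q₁.den : ℤ) : ℝ) * (x - q₀) := by
    rw [hx, add_assoc, add_sub_cancel_left, mul_add, mul_sum]
    push_cast
    simp only [zero_add, hc', hq₁]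
    congr 1
    · ring
    · exact sum_congr rfl fun i _ => by ring
  refine hK b hb u v (D * q₁.num) (fun i => q₁.den * c i)
    (fun t => ((D * q₁.num : ℤ) : ℝ) * ∑' j, (v (t + j) : ℝ) / (b : ℝ) ^ (j + 1) +
      ∑ i, ((q₁.den * c i : ℤ) : ℝ) * ∑' j, (u i (t + j) : ℝ) / (b : ℝ) ^ (j + 1))
    (|((D * q₁.num : ℤ) : ℝ)| * E₀ + ∑ i, |((q₁.den * c i : ℤ) : ℝ)| * E i) ?_ ?_ ?_ ?_
  · intro t
    refine (abs_add_le _ _).trans (add_le_add ?_ ?_)
    · rw [abs_mul]
      exact mul_le_mul_of_nonneg_left (hE₀ t).1 (abs_nonneg _)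
    · refine (abs_sum_le_sum_abs _ _).trans (sum_le_sum fun i _ => ?_)
      rw [abs_mul]
      exact mul_le_mul_of_nonneg_left (hE i t).1 (abs_nonneg _)
  · intro t
    simp only [(hE₀ t).2, fun i => (hE i t).2, mul_sub, sum_sub_distrib, mul_add, mul_sum]
    have : ∑ i, ((q₁.den * c i : ℤ) : ℝ) * (b * ∑' j, (u i (t + j) : ℝ) / (b : ℝ) ^ (j + 1)) =
        ∑ i, b * (((q₁.den * c i : ℤ) : ℝ) * ∑' j, (u i (t + j) : ℝ) / (b : ℝ) ^ (j + 1)) :=
      sum_congr rfl fun i _ => by ring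
    rw [this]
    ring
  · simp only [h0]
    exact (isAlgebraic_intCast _).mul (halg.sub (isAlgebraic_ratCast ℚ q₀))
  · simp only [h0]
    exact (hirr.sub_ratCast q₀).intCast_mul hD'

end Pool.Agent.Lib.MP_f2f914_nt.Stammer
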