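import Mathlib

/-!
Combinatorics on words: finitely many words of linear complexity satisfy a common
bounded-length relation with signs.
-/

namespace Pool.Agent.Lib.MP_f2f914_nt.Words

open Finset

/-- Number of distinct blocks of length `n` occurring in the sequence `u`. -/
noncomputable def complexity (u : ℕ → ℤ) (n : ℕ) : ℕ :=
  Set.ncard {w : Fin n → ℤ | ∃ t : ℕ, ∀ j : Fin n, w j = u (t + j)}

/-- The block of length `m` at position `t`. -/
def W (u : ℕ → ℤ) (m t : ℕ) : Fin m → ℤ := fun j => u (t + j)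

theorem complexity_eq (u : ℕ → ℤ) (m : ℕ) : complexity u m = (Set.range (W u m)).ncard := by
  unfold complexity
  congr 1
  ext w
  constructor
  · rintro ⟨t, ht⟩; exact ⟨t, funext fun j => (ht j).symm⟩
  · rintro ⟨t, rfl⟩; exact ⟨t, fun j => rfl⟩

theorem finite_range_W {u : ℕ → ℤ} (hu : (Set.range u).Finite) (m : ℕ) :
    (Set.range (W u m)).Finite := by
  refine (Set.Finite.pi' (fun _ : Fin m => hu)).subset ?_
  rintro _ ⟨t, rfl⟩ j
  exact ⟨_, rfl⟩

/-- Right special blocks. -/
def RS (u : ℕ → ℤ) (m : ℕ) : Set (Fin m → ℤ) :=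
  {w | ∃ t t', W u m t = w ∧ W u m t' = w ∧ u (t + m) ≠ u (t' + m)}

theorem RS_subset (u : ℕ → ℤ) (m : ℕ) : RS u m ⊆ Set.range (W u m) := by
  rintro w ⟨t, _, h, _⟩; exact ⟨t, h⟩

theorem init_W (u : ℕ → ℤ) (m t : ℕ) : Fin.init (W u (m + 1) t) = W u m t := by
  funext j; simp [Fin.init, W]

theorem complexity_succ {u : ℕ → ℤ} (hu : (Set.range u).Finite) (m : ℕ) :
    complexity u m + (RS u m).ncard ≤ complexity u (m + 1) := by
  classical
  have hRS : (RS u m).Finite := (finite_range_W hu m).subset (RS_subset u m)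
  rw [complexity_eq, complexity_eq, Set.ncard_eq_toFinset_card _ (finite_range_W hu m),
    Set.ncard_eq_toFinset_card _ (finite_range_W hu (m + 1)), Set.ncard_eq_toFinset_card _ hRS]
  set A := (finite_range_W hu m).toFinset
  set B := (finite_range_W hu (m + 1)).toFinset
  have hmap : ∀ w ∈ B, Fin.init w ∈ A := by
    intro w hw
    obtain ⟨t, rfl⟩ := (Set.Finite.mem_toFinset _).mp hw
    exact (Set.Finite.mem_toFinset _).mpr ⟨t, (init_W u m t).symm⟩
  rw [card_eq_sum_card_fiberwise (f := fun w : Fin (m + 1) → ℤ => (Fin.init w : Fin m → ℤ))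
    (s := B) (t := A) hmap]
  have h1 : hRS.toFinset = A.filter fun w => w ∈ RS u m := by
    ext w
    simp only [Set.Finite.mem_toFinset, mem_filter, A]
    exact ⟨fun h => ⟨RS_subset u m h, h⟩, fun h => h.2⟩
  rw [h1, card_filter, card_eq_sum_ones A, ← sum_add_distrib]
  refine sum_le_sum fun w hw => ?_
  split_ifs with h
  · obtain ⟨t, t', h1, h2, h3⟩ := h
    refine one_lt_card.mpr ⟨W u (m + 1) t, ?_, W u (m + 1) t', ?_, fun h => h3 ?_⟩
    · exact mem_filter.mpr ⟨(Set.Finite.mem_toFinset _).mpr ⟨t, rfl⟩, by rw [init_W, h1]⟩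
    · exact mem_filter.mpr ⟨(Set.Finite.mem_toFinset _).mpr ⟨t', rfl⟩, by rw [init_W, h2]⟩
    · simpa [W] using congrFun h (Fin.last m)
  · obtain ⟨t, rfl⟩ := (Set.Finite.mem_toFinset _).mp hw
    exact card_pos.mpr ⟨W u (m + 1) t,
      mem_filter.mpr ⟨(Set.Finite.mem_toFinset _).mpr ⟨t, rfl⟩, init_W u m t⟩⟩

theorem complexity_sum {u : ℕ → ℤ} (hu : (Set.range u).Finite) (m d : ℕ) :
    complexity u m + ∑ i ∈ range d, (RS u (m + i)).ncard ≤ complexity u (m + d) := by
  induction d with
  | zero => simp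
  | succ d ih =>
    rw [sum_range_succ, ← add_assoc, ← add_assoc]
    have := complexity_succ hu (m + d)
    omega

theorem exists_good_length {u : ℕ → ℤ} (hu : (Set.range u).Finite) {C n : ℕ} (hn : 1 ≤ n)
    (h : complexity u n ≤ C * n) :
    ∃ m, n / 2 ≤ m ∧ m < n ∧ (RS u m).ncard ≤ 2 * C ∧ complexity u m ≤ C * n := by
  have h1 := complexity_sum hu (n / 2) (n - n / 2)
  rw [show n / 2 + (n - n / 2) = n by omega] at h1
  have : ∃ i ∈ range (n - n / 2), (RS u (n / 2 + i)).ncard ≤ 2 * C := by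
    by_contra hc
    push Not at hc
    have h2 : ∑ _i ∈ range (n - n / 2), (2 * C + 1) ≤
        ∑ i ∈ range (n - n / 2), (RS u (n / 2 + i)).ncard := sum_le_sum fun i hi => hc i hi
    rw [sum_const, card_range, smul_eq_mul] at h2
    have h3 : n ≤ 2 * (n - n / 2) := by omega
    have h4 : 1 ≤ n - n / 2 := by omega
    nlinarith
  obtain ⟨i, hi, h2⟩ := this
  rw [mem_range] at hi
  refine ⟨n / 2 + i, by omega, by omega, h2, ?_⟩
  have h3 := complexity_sum hu (n / 2 + i) (n - (n / 2 + i))
  rw [show n / 2 + i + (n - (n / 2 + i)) = n by omega] at h3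
  omega

theorem W_succ_of_not_RS {u : ℕ → ℤ} {m t t' : ℕ} (h : W u m t = W u m t')
    (hn : W u m t ∉ RS u m) : W u m (t + 1) = W u m (t' + 1) := by
  have h1 : u (t + m) = u (t' + m) := by
    by_contra hc
    exact hn ⟨t, t', rfl, h.symm, hc⟩
  funext j
  by_cases hj : (j : ℕ) + 1 < m
  · have := congrFun h ⟨j + 1, hj⟩
    simp only [W] at this ⊢
    rw [show t + 1 + j = t + (j + 1) by ring, show t' + 1 + j = t' + (j + 1) by ring]
    exact this
  · have hj' : (j : ℕ) + 1 = m := by have := j.2; omega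
    simp only [W]
    rw [show t + 1 + j = t + m by omega, show t' + 1 + j = t' + m by omega]
    exact h1

theorem card_image_le_of_factor {α β γ : Type*} [DecidableEq β] [DecidableEq γ] (s : Finset α)
    (f : α → β) (g : α → γ) (h : ∀ x ∈ s, ∀ y ∈ s, g x = g y → f x = f y) :
    (s.image f).card ≤ (s.image g).card := by
  classical
  rcases s.eq_empty_or_nonempty with rfl | ⟨x₀, _⟩
  · simp
  let φ : γ → β := fun c => if hc : ∃ x ∈ s, g x = c then f hc.choose else f x₀
  refine le_trans (card_le_card ?_) (card_image_le (f := φ))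
  intro y hy
  obtain ⟨x, hx, rfl⟩ := mem_image.mp hy
  refine mem_image.mpr ⟨g x, mem_image_of_mem g hx, ?_⟩
  have hc : ∃ x' ∈ s, g x' = g x := ⟨x, hx, rfl⟩
  simp only [φ, dif_pos hc]
  exact h _ hc.choose_spec.1 _ hx hc.choose_spec.2

/-- The truncated block used as a label. -/
def V (u : ℕ → ℤ) (n t : ℕ) : ℕ → ℤ := fun j => if 4 * j < n then u (t + j) else 0

open Classical in
theorem exists_anchors {u : ℕ → ℤ} (hu : (Set.range u).Finite) {C n : ℕ} (K : ℕ) (hn : 8 ≤ n)
    (hC : complexity u n ≤ C * n) :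
    ∃ a : ℕ → ℕ, ((range (K * n + 1)).image a).card ≤ (16 * K + 1) * (2 * C + 1) ∧
      ((range (K * n + 1)).image fun t => (V u n t, (t : ℤ) - a t)).card ≤ (3 * C + 1) * n := by
  classical
  obtain ⟨m, hm1, hm2, hRS, hm⟩ := exists_good_length hu (by omega) hC
  set T := K * n with hT
  set h := n / 8 with hh
  have hRSf : (RS u m).Finite := (finite_range_W hu m).subset (RS_subset u m)
  set Sp : Finset (Fin m → ℤ) := insert (W u m T) hRSf.toFinset with hSp
  have hSpc : Sp.card ≤ 2 * C + 1 := by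
    refine (card_insert_le _ _).trans ?_
    rw [← Set.ncard_eq_toFinset_card _ hRSf]; omega
  have hex : ∀ t, ∃ r, W u m (t + r) ∈ Sp ∨ T < t := by
    intro t
    by_cases ht : T < t
    · exact ⟨0, Or.inr ht⟩
    · exact ⟨T - t, Or.inl (by rw [show t + (T - t) = T by omega]; exact mem_insert_self _ _)⟩
  let r : ℕ → ℕ := fun t => Nat.find (hex t)
  have hr1 : ∀ t ≤ T, W u m (t + r t) ∈ Sp := fun t ht =>
    (Nat.find_spec (hex t)).resolve_right (by omega)
  have hr2 : ∀ t, ∀ i < r t, W u m (t + i) ∉ Sp := fun t i hi hc =>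
    Nat.find_min (hex t) hi (Or.inl hc)
  have hr3 : ∀ t ≤ T, t + r t ≤ T := by
    intro t ht
    have : r t ≤ T - t := Nat.find_min' (hex t)
      (Or.inl (by rw [show t + (T - t) = T by omega]; exact mem_insert_self _ _))
    omega
  have hr4 : ∀ t t', W u m t = W u m t' → ∀ i ≤ r t, W u m (t + i) = W u m (t' + i) := by
    intro t t' hW i
    induction i with
    | zero => intro _; simpa using hW
    | succ i ih =>
      intro hi
      exact W_succ_of_not_RS (ih (by omega)) fun hc =>
        hr2 t i (by omega) (mem_insert_of_mem ((Set.Finite.mem_toFinset _).mpr hc))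
  have hr5 : ∀ t ≤ T, ∀ t', W u m t = W u m t' → r t' ≤ r t := by
    intro t ht t' hW
    exact Nat.find_min' (hex t') (Or.inl (by rw [← hr4 t t' hW _ le_rfl]; exact hr1 t ht))
  have hex2 : ∀ τ, ∃ a, a / h = τ / h ∧ W u m a = W u m τ := fun τ => ⟨τ, rfl, rfl⟩
  let anc : ℕ → ℕ := fun τ => Nat.find (hex2 τ)
  have ha1 : ∀ τ, anc τ / h = τ / h ∧ W u m (anc τ) = W u m τ := fun τ => Nat.find_spec (hex2 τ)
  have ha2 : ∀ τ, anc τ ≤ τ := fun τ => Nat.find_min' (hex2 τ) ⟨rfl, rfl⟩
  have ha3 : ∀ τ τ', τ / h = τ' / h → W u m τ = W u m τ' → anc τ ≤ anc τ' := fun τ τ' h1 h2 =>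
    Nat.find_min' (hex2 τ) ⟨by rw [(ha1 τ').1, h1], by rw [(ha1 τ').2, h2]⟩
  have hpos : 0 < h := by omega
  refine ⟨fun t => anc (t + r t), ?_, ?_⟩
  · refine (card_image_le_of_factor _ _ (fun t => ((t + r t) / h, W u m (t + r t))) ?_).trans ?_
    · intro x _ y _ hxy
      simp only [Prod.mk.injEq] at hxy
      exact le_antisymm (ha3 _ _ hxy.1 hxy.2) (ha3 _ _ hxy.1.symm hxy.2.symm)
    · refine (card_le_card (t := range (16 * K + 1) ×ˢ Sp) ?_).trans ?_
      · intro p hp
        obtain ⟨t, ht, rfl⟩ := mem_image.mp hp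
        have ht' : t ≤ T := by rw [mem_range] at ht; omega
        refine mem_product.mpr ⟨mem_range.mpr ?_, hr1 t ht'⟩
        have h1 : n ≤ 16 * h := by omega
        have h2 : t + r t ≤ 16 * K * h := (hr3 t ht').trans (by rw [hT]; nlinarith)
        have := Nat.div_le_div_right (c := h) h2
        rw [Nat.mul_div_cancel _ hpos] at this
        simp only
        omega
      · rw [card_product, card_range]
        exact Nat.mul_le_mul_left _ hSpc
  · set s := range (T + 1) with hs
    set p : ℕ → Prop := fun t => t ≤ anc (t + r t) with hp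
    have hsplit : s = s.filter p ∪ s.filter fun t => ¬ p t := (filter_union_filter_not_eq p s).symm
    rw [hsplit, image_union]
    refine (card_union_le _ _).trans ?_
    have hle : ∀ t ∈ s, t ≤ T := fun t ht => by rw [hs, mem_range] at ht; omega
    have hfix : ∀ t ∈ s.filter p, anc (t + r t) = t + r t := by
      intro t ht
      obtain ⟨ht1, ht2⟩ := mem_filter.mp ht
      simp only [hp] at ht2
      by_contra hc
      have h1 := ha2 (t + r t)
      refine hr2 t (anc (t + r t) - t) (by omega) ?_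
      rw [show t + (anc (t + r t) - t) = anc (t + r t) by omega, (ha1 _).2]
      exact hr1 t (hle t ht1)
    have hA : ((s.filter p).image fun t => (V u n t, (t : ℤ) - (anc (t + r t) : ℕ))).card ≤
        C * n := by
      refine (card_image_le_of_factor _ _ (W u m) ?_).trans ?_
      · intro x hx y hy hxy
        have hx' := hle x (mem_filter.mp hx).1
        have hy' := hle y (mem_filter.mp hy).1
        have : r x = r y := le_antisymm (hr5 y hy' x hxy.symm) (hr5 x hx' y hxy)
        rw [hfix x hx, hfix y hy]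
        refine Prod.ext ?_ (by simp only; push_cast; rw [this]; ring)
        funext j
        simp only [V]
        split_ifs with hj
        · exact congrFun hxy ⟨j, by omega⟩
        · rfl
      · refine le_trans ?_ hm
        rw [complexity_eq, Set.ncard_eq_toFinset_card _ (finite_range_W hu m)]
        refine card_le_card fun w hw => ?_
        obtain ⟨t, _, rfl⟩ := mem_image.mp hw
        exact (Set.Finite.mem_toFinset _).mpr ⟨t, rfl⟩
    have hlt : ∀ t, t + r t < anc (t + r t) + h := by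
      intro t
      have h1 := (ha1 (t + r t)).1
      have h2 := Nat.div_add_mod (t + r t) h
      have h3 := Nat.div_add_mod (anc (t + r t)) h
      have h4 := Nat.mod_lt (t + r t) hpos
      rw [h1] at h3
      omega
    have hB : ((s.filter fun t => ¬ p t).image
        fun t => (V u n t, (t : ℤ) - (anc (t + r t) : ℕ))).card ≤ (2 * C + 1) * n := by
      refine (card_image_le_of_factor _ _
        (fun t => (W u m (anc (t + r t)), t - anc (t + r t))) ?_).trans ?_
      · intro x hx y hy hxy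
        have hx' := (mem_filter.mp hx).2
        have hy' := (mem_filter.mp hy).2
        simp only [hp, not_le] at hx' hy'
        simp only [Prod.mk.injEq] at hxy
        obtain ⟨h1, h2⟩ := hxy
        refine Prod.ext ?_ (by simp only; omega)
        funext j
        simp only [V]
        split_ifs with hj
        · have h3 := hlt x
          have := congrFun h1 ⟨x - anc (x + r x) + j, by omega⟩
          simp only [W] at this
          rw [show anc (x + r x) + (x - anc (x + r x) + j) = x + j by omega,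
            show anc (y + r y) + (x - anc (x + r x) + j) = y + j by omega] at this
          exact this
        · rfl
      · refine (card_le_card (t := Sp ×ˢ range h) ?_).trans ?_
        · intro q hq
          obtain ⟨t, ht, rfl⟩ := mem_image.mp hq
          refine mem_product.mpr ⟨?_, mem_range.mpr ?_⟩
          · simp only [(ha1 _).2]
            exact hr1 t (hle t (mem_filter.mp ht).1)
          · have := hlt t
            simp only
            omega
        · rw [card_product, card_range]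
          exact Nat.mul_le_mul hSpc (by omega)
    calc _ ≤ C * n + (2 * C + 1) * n := add_le_add hA hB
      _ = (3 * C + 1) * n := by ring

theorem exists_pow_lt (G : ℕ) : ∃ e, (e + 1) ^ G < 2 ^ e := by
  have h := tendsto_pow_const_div_const_pow_of_one_lt G (r := 2) one_lt_two
  have h2 := (h.comp (Filter.tendsto_add_atTop_nat 1)).eventually
    (gt_mem_nhds (show (0 : ℝ) < 1 / 2 by norm_num))
  obtain ⟨e, he⟩ := h2.exists
  refine ⟨e, ?_⟩
  simp only [Function.comp] at he
  rw [div_lt_iff₀ (by positivity), pow_succ] at he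
  have : (((e + 1) ^ G : ℕ) : ℝ) < ((2 ^ e : ℕ) : ℝ) := by push_cast at he ⊢; linarith
  exact_mod_cast this

/-- A bounded almost invariant set. -/
theorem folner (G : ℕ) : ∃ R : ℕ, ∀ X : Finset ℤ, X.card ≤ G → ∃ P Q : Finset ℤ,
    P.Nonempty ∧ P.card ≤ R ∧ Q.card ≤ 2 * P.card ∧ ∀ p ∈ P, ∀ x ∈ X, p + x ∈ Q := by
  classical
  obtain ⟨e₀, he₀⟩ := exists_pow_lt G
  refine ⟨(e₀ + 1) ^ G, fun X hX => ?_⟩
  let P : ℕ → Finset ℤ := fun e =>
    (Fintype.piFinset fun _ : X => range (e + 1)).image fun a => ∑ x : X, (a x : ℤ) * x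
  have hne : ∀ e, (P e).Nonempty := fun e =>
    ⟨_, mem_image_of_mem _ (show (fun _ => 0) ∈ Fintype.piFinset fun _ : X => range (e + 1) by
      simp)⟩
  have hcard : ∀ e ≤ e₀, (P e).card ≤ (e₀ + 1) ^ G := by
    intro e he
    refine card_image_le.trans ?_
    rw [Fintype.card_piFinset, prod_const, card_range, card_univ, Fintype.card_coe]
    exact (Nat.pow_le_pow_left (by omega) _).trans (Nat.pow_le_pow_right (by omega) hX)
  have hadd : ∀ e, ∀ p ∈ P e, ∀ x ∈ X, p + x ∈ P (e + 1) := by
    intro e p hp x hx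
    obtain ⟨a, ha, rfl⟩ := mem_image.mp hp
    refine mem_image.mpr ⟨a + Pi.single ⟨x, hx⟩ 1, ?_, ?_⟩
    · rw [Fintype.mem_piFinset] at ha ⊢
      intro y
      have := mem_range.mp (ha y)
      rw [mem_range, Pi.add_apply, Pi.single_apply]
      split_ifs <;> omega
    · simp only [Pi.add_apply, Nat.cast_add, add_mul, sum_add_distrib]
      congr 1
      rw [sum_eq_single ⟨x, hx⟩]
      · simp
      · intro y _ hy; simp [hy]
      · simp
  have : ∃ e < e₀, (P (e + 1)).card ≤ 2 * (P e).card := by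
    by_contra hc
    push Not at hc
    have h1 : ∀ e ≤ e₀, 2 ^ e ≤ (P e).card := by
      intro e
      induction e with
      | zero => intro _; exact card_pos.mpr (hne 0)
      | succ e ih =>
        intro he
        have := hc e (by omega)
        have := ih (by omega)
        rw [pow_succ]; omega
    have := h1 e₀ le_rfl
    have := hcard e₀ le_rfl
    omega
  obtain ⟨e, he, h⟩ := this
  exact ⟨P e, P (e + 1), hne e, hcard e he.le, h, hadd e⟩

/-- Averaging over translates. -/
theorem averaging {L : Type*} [DecidableEq L] {k : ℕ} (I : Finset ℕ) (lab : Fin k → ℕ → L)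
    (δ : L → ℤ) (X P Q : Finset ℤ) (hX : ∀ i, ∀ t ∈ I, (t : ℤ) - δ (lab i t) ∈ X)
    (hP : P.Nonempty) (hQ : Q.card ≤ 2 * P.card) (hadd : ∀ p ∈ P, ∀ x ∈ X, p + x ∈ Q)
    (N Λ : ℕ) (hN : ∀ i, (I.image (lab i)).card ≤ N) (hI : Λ * (k * N * 2) < I.card) :
    ∃ F ⊆ I, F.card ≤ P.card ∧ Λ * ∑ i, (F.image (lab i)).card < F.card := by
  classical
  set S : Finset ℤ := (I ×ˢ P).image fun z => (z.1 : ℤ) + z.2 with hS
  let F : ℤ → Finset ℕ := fun s => I.filter fun t => s - t ∈ P
  have h1 : I.card * P.card ≤ ∑ s ∈ S, (F s).card := by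
    simp only [F, card_filter]
    rw [sum_comm, ← smul_eq_mul, ← sum_const]
    refine sum_le_sum fun t ht => ?_
    rw [← card_filter]
    refine card_le_card_of_injOn (fun p => (t : ℤ) + p) ?_ ?_
    · intro p hp
      simp only [coe_filter, Set.mem_ofPred_eq, add_sub_cancel_left]
      exact ⟨mem_image.mpr ⟨(t, p), mem_product.mpr ⟨ht, hp⟩, rfl⟩, hp⟩
    · intro p _ q _ hpq
      simpa using hpq
  have h2 : ∀ i, ∑ s ∈ S, ((F s).image (lab i)).card ≤ N * (2 * P.card) := by
    intro i
    have h3 : ∀ s, ((F s).image (lab i)).card ≤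
        ((I.image (lab i)).filter fun l => s - δ l ∈ Q).card := by
      intro s
      refine card_le_card fun l hl => ?_
      obtain ⟨t, ht, rfl⟩ := mem_image.mp hl
      obtain ⟨ht1, ht2⟩ := mem_filter.mp ht
      refine mem_filter.mpr ⟨mem_image_of_mem _ ht1, ?_⟩
      have := hadd _ ht2 _ (hX i t ht1)
      rwa [show s - t + (t - δ (lab i t)) = s - δ (lab i t) by ring] at this
    refine (sum_le_sum fun s _ => h3 s).trans ?_
    simp only [card_filter]
    rw [sum_comm]
    refine le_trans (sum_le_card_nsmul _ _ (2 * P.card) fun l _ => ?_) ?_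
    · rw [← card_filter]
      refine le_trans (card_le_card_of_injOn (fun s => s - δ l) ?_ ?_) hQ
      · intro s hs
        exact (mem_filter.mp hs).2
      · intro p _ q _ hpq
        simpa using hpq
    · rw [smul_eq_mul]
      exact Nat.mul_le_mul_right _ (hN i)
  have h4 : ∑ s ∈ S, Λ * ∑ i, ((F s).image (lab i)).card < ∑ s ∈ S, (F s).card := by
    rw [← mul_sum, sum_comm]
    refine lt_of_lt_of_le ?_ h1
    have h5 : ∑ i : Fin k, ∑ s ∈ S, ((F s).image (lab i)).card ≤ k * (N * (2 * P.card)) := by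
      refine (sum_le_card_nsmul _ _ _ fun i _ => h2 i).trans ?_
      simp
    have h6 := card_pos.mpr hP
    calc _ ≤ Λ * (k * (N * (2 * P.card))) := Nat.mul_le_mul_left _ h5
      _ = Λ * (k * N * 2) * P.card := by ring
      _ < _ := Nat.mul_lt_mul_of_pos_right hI h6
  obtain ⟨s, _, hs⟩ := exists_lt_of_sum_lt h4
  refine ⟨F s, filter_subset _ _, ?_, hs⟩
  refine card_le_card_of_injOn (fun t => s - (t : ℤ)) ?_ ?_
  · intro t ht
    exact (mem_filter.mp ht).2
  · intro p _ q _ hpq
    simpa using hpq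

theorem exists_pow_le (k : ℕ) : ∃ Λ, ∀ c : ℕ, (c + 1) ^ k ≤ 2 ^ Λ * 2 ^ c := by
  have h := tendsto_pow_const_div_const_pow_of_one_lt k (r := 2) one_lt_two
  obtain ⟨M, hM⟩ := h.bddAbove_range
  obtain ⟨Λ, hΛ⟩ := pow_unbounded_of_one_lt (2 * M) (one_lt_two (α := ℝ))
  refine ⟨Λ, fun c => ?_⟩
  have h1 := hM ⟨c + 1, rfl⟩
  simp only at h1
  rw [div_le_iff₀ (by positivity), pow_succ] at h1
  have h2 : (0 : ℝ) < 2 ^ c := by positivity
  have : (((c + 1) ^ k : ℕ) : ℝ) ≤ ((2 ^ Λ * 2 ^ c : ℕ) : ℝ) := by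
    push_cast at h1 ⊢; nlinarith
  exact_mod_cast this

/-- Pigeonhole on label counts. -/
theorem pigeon (k : ℕ) : ∃ Λ : ℕ, ∀ {L : Type} [DecidableEq L] (lab : Fin k → ℕ → L)
    (F : Finset ℕ), Λ * ∑ i, (F.image (lab i)).card < F.card →
    ∃ S₁ ⊆ F, ∃ S₂ ⊆ F, S₁ ≠ S₂ ∧ ∀ i, S₁.val.map (lab i) = S₂.val.map (lab i) := by
  classical
  obtain ⟨Λ, hΛ⟩ := exists_pow_le (k + 1)
  refine ⟨Λ, fun {L} _ lab F hF => ?_⟩
  set B := Fintype.piFinset fun i : Fin k => Finset.Icc (0 : Multiset L) (F.val.map (lab i))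
    with hB
  have hc : B.card < F.powerset.card := by
    rw [card_powerset]
    refine lt_of_pow_lt_pow_left₀ (k + 1) (Nat.zero_le _) ?_
    rw [hB, Fintype.card_piFinset, ← prod_pow]
    have h1 : ∀ i : Fin k, (Finset.Icc (0 : Multiset L) (F.val.map (lab i))).card ^ (k + 1) ≤
        2 ^ (Λ * (F.image (lab i)).card + F.card) := by
      intro i
      rw [Multiset.card_Icc, ← prod_pow]
      simp only [Multiset.toFinset_zero, empty_union, Multiset.count_zero, Nat.sub_zero]
      refine (prod_le_prod' fun l _ => hΛ _).trans ?_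
      rw [prod_mul_distrib, prod_const, prod_pow_eq_pow_sum, Multiset.toFinset_sum_count_eq,
        Multiset.card_map, ← pow_mul, ← pow_add]
      rfl
    refine (prod_le_prod' fun i _ => h1 i).trans_lt ?_
    rw [prod_pow_eq_pow_sum, ← pow_mul, sum_add_distrib, ← mul_sum, sum_const, card_univ,
      Fintype.card_fin, smul_eq_mul]
    refine Nat.pow_lt_pow_right (by norm_num) ?_
    nlinarith
  obtain ⟨S₁, h1, S₂, h2, hne, heq⟩ := exists_ne_map_eq_of_card_lt_of_maps_to hc
    (f := fun S i => S.val.map (lab i)) (by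
      intro S hS
      simp only [hB, Fintype.coe_piFinset, Set.mem_pi, Set.mem_univ, true_imp_iff, coe_Icc,
        Set.mem_Icc]
      intro i
      exact ⟨Multiset.zero_le _, Multiset.map_le_map (val_le_iff.mpr (mem_powerset.mp hS))⟩)
  exact ⟨S₁, mem_powerset.mp h1, S₂, mem_powerset.mp h2, hne, fun i => congrFun heq i⟩

/-- Words of linear complexity satisfy a common bounded-length relation with signs. -/
theorem sign_relation (k C : ℕ) : ∃ K r : ℕ, ∀ (u : Fin k → ℕ → ℤ),
    (∀ i, (Set.range (u i)).Finite) → ∀ n : ℕ, 8 ≤ n → (∀ i, complexity (u i) n ≤ C * n) →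
    ∃ S₁ S₂ : Finset ℕ, S₁ ≠ S₂ ∧ S₁.card ≤ r ∧ S₂.card ≤ r ∧ (∀ t ∈ S₁ ∪ S₂, t ≤ K * n) ∧
      ∀ i, ∀ j : ℕ, 4 * j < n → ∑ t ∈ S₁, u i (t + j) = ∑ t ∈ S₂, u i (t + j) := by
  classical
  obtain ⟨Λ, hΛ⟩ := pigeon k
  set K := Λ * (k * (3 * C + 1) * 2) with hK
  obtain ⟨R, hR⟩ := folner (k * ((16 * K + 1) * (2 * C + 1)))
  refine ⟨K, R, fun u hu n hn hC => ?_⟩
  choose a ha1 ha2 using fun i => exists_anchors (hu i) K hn (hC i)
  set I := range (K * n + 1) with hI
  set X : Finset ℤ := univ.biUnion fun i => (I.image (a i)).image fun x : ℕ => (x : ℤ) with hX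
  have hXc : X.card ≤ k * ((16 * K + 1) * (2 * C + 1)) := by
    refine card_biUnion_le.trans ?_
    refine (sum_le_card_nsmul _ _ _ fun i _ => card_image_le.trans (ha1 i)).trans ?_
    simp
  obtain ⟨P, Q, hP, hPc, hQ, hadd⟩ := hR X hXc
  obtain ⟨F, hF, hFc, hlt⟩ := averaging I (fun i t => (V (u i) n t, (t : ℤ) - a i t)) Prod.snd
    X P Q (by
      intro i t ht
      simp only [sub_sub_cancel]
      exact mem_biUnion.mpr ⟨i, mem_univ _, mem_image_of_mem _ (mem_image_of_mem _ ht)⟩)
    hP hQ hadd ((3 * C + 1) * n) Λ ha2 (by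
      rw [hI, card_range, hK]
      exact Nat.lt_succ_of_le (le_of_eq (by ring)))
  obtain ⟨S₁, h1, S₂, h2, hne, heq⟩ := hΛ _ F hlt
  refine ⟨S₁, S₂, hne, (card_le_card h1).trans (hFc.trans hPc),
    (card_le_card h2).trans (hFc.trans hPc), ?_, ?_⟩
  · intro t ht
    have := hF (union_subset h1 h2 ht)
    rw [hI, mem_range] at this
    omega
  · intro i j hj
    have := congrArg (fun M => (Multiset.map (fun l : (ℕ → ℤ) × ℤ => l.1 j) M).sum) (heq i)
    simp only [Multiset.map_map, Function.comp_def, V, if_pos hj] at this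
    exact this

end Pool.Agent.Lib.MP_f2f914_nt.Words
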