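import Pool.Agent.Shared.Subspace.SumPow
import Pool.Agent.Lib.MP_f2f914_nt.Words

/-!
An irrational algebraic number is not a rational combination of finitely many expansions of
linear complexity.
-/

namespace Pool.Agent.Lib.MP_f2f914_nt.SumWords

open Finset Pool.Agent.Lib.MP_f2f914_nt.Words Pool.Agent.Subspace

theorem core_fin (b : ℕ) (hb : 2 ≤ b) {k : ℕ} (u : Fin k → ℕ → ℤ)
    (hu : ∀ i, (Set.range (u i)).Finite) (c : Fin k → ℤ) (τ : ℕ → ℝ) (E : ℝ)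
    (hE : ∀ t, |τ t| ≤ E) (hτ : ∀ t, τ (t + 1) = b * τ t - ∑ i, (c i : ℝ) * u i t)
    (halg : IsAlgebraic ℚ (τ 0)) (hirr : Irrational (τ 0)) (C : ℕ) :
    ∃ N, ∀ n ≥ N, ∃ i, C * n < complexity (u i) n := by
  classical
  have hb1 : (1 : ℝ) < b := by exact_mod_cast (by omega : 1 < b)
  have hb0 : (0 : ℝ) < b := by linarith
  obtain ⟨K, r, hKr⟩ := sign_relation k C
  have hε : (0 : ℝ) < 1 / (8 * (K + 1)) := by positivity
  obtain ⟨κ, hκ, hlow⟩ := finset_sum_pow_lower b hb (2 * r) {τ 0, -τ 0, 0} (by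
    intro a ha
    simp only [mem_insert, mem_singleton] at ha
    rcases ha with rfl | rfl | rfl
    · exact halg
    · exact halg.neg
    · exact isAlgebraic_zero) hε
  obtain ⟨g, hg⟩ := pow_unbounded_of_one_lt (2 * r * E / κ) hb1
  rw [div_lt_iff₀ hκ] at hg
  refine ⟨8 * (g + 1), fun n hn => ?_⟩
  by_contra hc
  push Not at hc
  obtain ⟨S₁, S₂, hne, h1, h2, hT, hrel⟩ := hKr u hu n (by omega) hc
  have hP : ∀ t, ∃ P : ℤ, τ t = τ 0 * (b : ℝ) ^ t - P := by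
    intro t
    induction t with
    | zero => exact ⟨0, by simp⟩
    | succ t ih =>
      obtain ⟨P, hP⟩ := ih
      refine ⟨b * P + ∑ i, c i * u i t, ?_⟩
      rw [hτ, hP]; push_cast; ring
  choose P hP using hP
  set σ : ℕ → ℝ := fun j => ∑ t ∈ S₁, τ (t + j) - ∑ t ∈ S₂, τ (t + j) with hσ
  have hσ1 : ∀ j ≤ n / 4, σ j = (b : ℝ) ^ j * σ 0 := by
    intro j
    induction j with
    | zero => simp
    | succ j ih =>
      intro hj
      rw [pow_succ', mul_assoc, ← ih (by omega)]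
      simp only [hσ, ← add_assoc, hτ, sum_sub_distrib, ← mul_sum]
      have : ∑ t ∈ S₁, ∑ i, (c i : ℝ) * u i (t + j) = ∑ t ∈ S₂, ∑ i, (c i : ℝ) * u i (t + j) := by
        rw [sum_comm, sum_comm (s := S₂)]
        refine sum_congr rfl fun i _ => ?_
        rw [← mul_sum, ← mul_sum]
        congr 1
        exact_mod_cast hrel i j (by omega)
      rw [this]; ring
  have hE0 : 0 ≤ E := (abs_nonneg _).trans (hE 0)
  have hσ2 : ∀ j, |σ j| ≤ 2 * r * E := by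
    intro j
    have hS : ∀ S : Finset ℕ, S.card ≤ r → |∑ t ∈ S, τ (t + j)| ≤ r * E := by
      intro S hS
      refine (abs_sum_le_sum_abs _ _).trans ((sum_le_card_nsmul _ _ E fun t _ => hE _).trans ?_)
      rw [nsmul_eq_mul]
      exact mul_le_mul_of_nonneg_right (by exact_mod_cast hS) hE0
    have := abs_sub (∑ t ∈ S₁, τ (t + j)) (∑ t ∈ S₂, τ (t + j))
    have := hS S₁ h1
    have := hS S₂ h2
    simp only [hσ]
    linarith
  set co : ℕ → ℝ := fun t => (if t ∈ S₁ then τ 0 else 0) - (if t ∈ S₂ then τ 0 else 0) with hco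
  set Q : ℤ := ∑ t ∈ S₁, P t - ∑ t ∈ S₂, P t with hQ
  have hs0 : σ 0 = τ 0 * (∑ t ∈ S₁, (b : ℝ) ^ t - ∑ t ∈ S₂, (b : ℝ) ^ t) - Q := by
    simp only [hσ, add_zero, hQ]
    rw [sum_congr rfl fun t _ => hP t, sum_congr (s₁ := S₂) rfl fun t _ => hP t]
    simp only [sum_sub_distrib, ← mul_sum]
    push_cast
    ring
  have hs1 : ∑ t ∈ S₁ ∪ S₂, co t * (b : ℝ) ^ t - Q = σ 0 := by
    rw [hs0]
    simp only [hco, sub_mul, ite_mul, zero_mul, sum_sub_distrib, sum_ite_mem,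
      union_inter_cancel_left, union_inter_cancel_right, ← mul_sum]
    ring
  have hne0 : σ 0 ≠ 0 := by
    have hM : ((∑ t ∈ S₁, b ^ t : ℕ) : ℤ) - ((∑ t ∈ S₂, b ^ t : ℕ) : ℤ) ≠ 0 := by
      intro h
      exact hne (Finset.geomSum_injective hb (by exact_mod_cast sub_eq_zero.mp h))
    have := ((hirr.mul_intCast hM).sub_intCast Q).ne_zero
    rw [hs0]
    push_cast at this
    exact this
  have hmain := hlow (S₁ ∪ S₂) co (K * n) Q ((card_union_le _ _).trans (by omega)) (by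
    intro t _
    simp only [hco]
    split_ifs <;> simp) hT (by rwa [hs1])
  rw [hs1] at hmain
  have hexp : (b : ℝ) ^ (1 / (8 * ((K : ℝ) + 1)) * ((K * n : ℕ) : ℝ)) ≤ (b : ℝ) ^ (n / 4 - g) := by
    rw [← Real.rpow_natCast]
    refine Real.rpow_le_rpow_of_exponent_le hb1.le ?_
    have h3 : n ≤ 8 * (n / 4 - g) := by omega
    have h4 : (n : ℝ) ≤ 8 * ((n / 4 - g : ℕ) : ℝ) := by exact_mod_cast h3
    rw [one_div, inv_mul_le_iff₀ (by positivity)]
    push_cast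
    have h5 : (0 : ℝ) ≤ n := by positivity
    have h6 : (0 : ℝ) ≤ K := by positivity
    nlinarith
  have h7 := hσ2 (n / 4)
  rw [hσ1 _ le_rfl, abs_mul, abs_of_pos (by positivity), show n / 4 = n / 4 - g + g by omega,
    pow_add] at h7
  have h8 : κ ≤ |σ 0| * (b : ℝ) ^ (n / 4 - g) :=
    hmain.trans (mul_le_mul_of_nonneg_left hexp (abs_nonneg _))
  have h9 : (0 : ℝ) < (b : ℝ) ^ g := by positivity
  nlinarith

theorem core (b : ℕ) (hb : 2 ≤ b) {ι : Type*} [Fintype ι] (u : ι → ℕ → ℤ)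
    (hu : ∀ i, (Set.range (u i)).Finite) (c : ι → ℤ) (τ : ℕ → ℝ) (E : ℝ)
    (hE : ∀ t, |τ t| ≤ E) (hτ : ∀ t, τ (t + 1) = b * τ t - ∑ i, (c i : ℝ) * u i t)
    (halg : IsAlgebraic ℚ (τ 0)) (hirr : Irrational (τ 0)) (C : ℕ) :
    ∃ N, ∀ n ≥ N, ∃ i, C * n < complexity (u i) n := by
  let e := (Fintype.equivFin ι).symm
  obtain ⟨N, hN⟩ := core_fin b hb (fun i => u (e i)) (fun i => hu _) (fun i => c (e i)) τ E hE
    (fun t => by rw [hτ, ← Equiv.sum_comp e]) halg hirr C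
  exact ⟨N, fun n hn => let ⟨i, hi⟩ := hN n hn; ⟨e i, hi⟩⟩

theorem tail_facts (b : ℕ) (hb : 2 ≤ b) {u : ℕ → ℤ} (hu : (Set.range u).Finite) :
    ∃ E : ℝ, ∀ t, |∑' j, (u (t + j) : ℝ) / (b : ℝ) ^ (j + 1)| ≤ E ∧
      ∑' j, (u (t + 1 + j) : ℝ) / (b : ℝ) ^ (j + 1) =
        b * ∑' j, (u (t + j) : ℝ) / (b : ℝ) ^ (j + 1) - u t := by
  have hb1 : (1 : ℝ) < b := by exact_mod_cast (by omega : 1 < b)
  have hb0 : (0 : ℝ) < b := by linarith
  obtain ⟨B, hB⟩ := (hu.image fun z : ℤ => |(z : ℝ)|).bddAbove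
  have hB' : ∀ t, |(u t : ℝ)| ≤ B := fun t => hB ⟨_, ⟨t, rfl⟩, rfl⟩
  have hB0 : 0 ≤ B := (abs_nonneg _).trans (hB' 0)
  have hg : Summable fun j : ℕ => B * ((b : ℝ)⁻¹) ^ j :=
    (summable_geometric_of_lt_one (by positivity) (inv_lt_one_of_one_lt₀ hb1)).mul_left B
  have hle : ∀ t j, ‖(u (t + j) : ℝ) / (b : ℝ) ^ (j + 1)‖ ≤ B * ((b : ℝ)⁻¹) ^ j := by
    intro t j
    rw [Real.norm_eq_abs, abs_div, abs_of_pos (by positivity : (0 : ℝ) < (b : ℝ) ^ (j + 1)),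
      inv_pow, ← div_eq_mul_inv]
    exact div_le_div₀ hB0 (hB' _) (by positivity) (pow_le_pow_right₀ hb1.le (by omega))
  have hs : ∀ t, Summable fun j => (u (t + j) : ℝ) / (b : ℝ) ^ (j + 1) := fun t =>
    Summable.of_norm_bounded hg (hle t)
  refine ⟨∑' j : ℕ, B * ((b : ℝ)⁻¹) ^ j, fun t => ⟨?_, ?_⟩⟩
  · exact tsum_of_norm_bounded hg.hasSum (hle t)
  · rw [(hs t).tsum_eq_zero_add, mul_add, ← tsum_mul_left]
    have : ∀ j, (b : ℝ) * ((u (t + (j + 1)) : ℝ) / (b : ℝ) ^ (j + 1 + 1)) =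
        (u (t + 1 + j) : ℝ) / (b : ℝ) ^ (j + 1) := by
      intro j
      rw [show t + (j + 1) = t + 1 + j by ring]
      field_simp
      ring
    simp only [this]
    field_simp
    simp

/-- Rational combinations of expansions. -/
theorem combination (b : ℕ) (hb : 2 ≤ b) {k : ℕ} (u : Fin k → ℕ → ℤ)
    (hu : ∀ i, (Set.range (u i)).Finite) (q₀ : ℚ) (q : Fin k → ℚ) (x : ℝ)
    (hx : x = q₀ + ∑ i, (q i : ℝ) * ∑' t, (u i t : ℝ) / (b : ℝ) ^ (t + 1))
    (halg : IsAlgebraic ℚ x) (hirr : Irrational x) (C : ℕ) :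
    ∃ N, ∀ n ≥ N, ∃ i, C * n < complexity (u i) n := by
  obtain ⟨D, hD, c, hc⟩ : ∃ D : ℤ, D ≠ 0 ∧ ∃ c : Fin k → ℤ, ∀ i, (c i : ℚ) = D * q i := by
    refine ⟨∏ i, ((q i).den : ℤ), prod_ne_zero_iff.mpr fun i _ => by exact_mod_cast (q i).den_ne_zero,
      fun i => (∏ j ∈ univ.erase i, ((q j).den : ℤ)) * (q i).num, fun i => ?_⟩
    rw [← prod_erase_mul _ _ (mem_univ i)]
    push_cast
    rw [mul_assoc, Rat.den_mul_eq_num]
  have hc' : ∀ i, (c i : ℝ) = D * q i := fun i => by exact_mod_cast hc i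
  choose E hE using fun i => tail_facts b hb (hu i)
  have h0 : ∑ i, (c i : ℝ) * ∑' j, (u i (0 + j) : ℝ) / (b : ℝ) ^ (j + 1) = D * (x - q₀) := by
    rw [hx, add_sub_cancel_left, mul_sum]
    refine sum_congr rfl fun i _ => ?_
    simp only [zero_add, hc', mul_assoc]
  refine core_fin b hb u hu c
    (fun t => ∑ i, (c i : ℝ) * ∑' j, (u i (t + j) : ℝ) / (b : ℝ) ^ (j + 1))
    (∑ i, |(c i : ℝ)| * E i) ?_ ?_ ?_ ?_ C
  · intro t
    refine (abs_sum_le_sum_abs _ _).trans (sum_le_sum fun i _ => ?_)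
    rw [abs_mul]
    exact mul_le_mul_of_nonneg_left (hE i t).1 (abs_nonneg _)
  · intro t
    rw [mul_sum, ← sum_sub_distrib]
    refine sum_congr rfl fun i _ => ?_
    rw [(hE i t).2]; ring
  · simp only [h0]
    exact (isAlgebraic_intCast D).mul (halg.sub (isAlgebraic_ratCast ℚ q₀))
  · simp only [h0]
    exact (hirr.sub_ratCast q₀).intCast_mul hD

/-- The digit of index `t` (starting from `0`) after the point in base `b`. -/
noncomputable def digit (b : ℕ) (x : ℝ) (t : ℕ) : ℤ := ⌊(b : ℝ) * Int.fract (x * (b : ℝ) ^ t)⌋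

theorem fract_succ (b : ℕ) (x : ℝ) (t : ℕ) :
    Int.fract (x * (b : ℝ) ^ (t + 1)) = b * Int.fract (x * (b : ℝ) ^ t) - digit b x t := by
  have : x * (b : ℝ) ^ (t + 1) =
      b * Int.fract (x * (b : ℝ) ^ t) + ((b * ⌊x * (b : ℝ) ^ t⌋ : ℤ) : ℝ) := by
    rw [Int.fract]; push_cast; ring
  rw [this, Int.fract_add_intCast]
  rfl

theorem fract_add (b : ℕ) (x : ℝ) (t q : ℕ) :
    Int.fract (x * (b : ℝ) ^ (t + q)) = (b : ℝ) ^ q * Int.fract (x * (b : ℝ) ^ t) -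
      ∑ i ∈ range q, (b : ℝ) ^ (q - 1 - i) * digit b x (t + i) := by
  induction q with
  | zero => simp
  | succ q ih =>
    rw [← add_assoc, fract_succ, ih, sum_range_succ, mul_sub, mul_sum]
    have : ∑ i ∈ range q, (b : ℝ) * ((b : ℝ) ^ (q - 1 - i) * digit b x (t + i)) =
        ∑ i ∈ range q, (b : ℝ) ^ (q + 1 - 1 - i) * digit b x (t + i) := by
      refine sum_congr rfl fun i hi => ?_
      rw [mem_range] at hi
      rw [show q + 1 - 1 - i = q - 1 - i + 1 by omega]; ring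
    rw [this]
    simp only [add_tsub_cancel_right, tsub_self, pow_zero]
    ring

theorem digit_mem (b : ℕ) (hb : 2 ≤ b) (x : ℝ) (t : ℕ) : digit b x t ∈ Finset.Ico (0 : ℤ) b := by
  have hb0 : (0 : ℝ) < b := by exact_mod_cast (by omega : 0 < b)
  have h1 := Int.fract_nonneg (x * (b : ℝ) ^ t)
  have h2 := Int.fract_lt_one (x * (b : ℝ) ^ t)
  rw [mem_Ico, digit, Int.le_floor, Int.floor_lt]
  push_cast
  constructor <;> nlinarith

/-- Marker words of digits along arithmetic progressions. -/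
theorem markers (b : ℕ) (hb : 2 ≤ b) (x : ℝ) (halg : IsAlgebraic ℚ x) (hirr : Irrational x)
    (q : ℕ) (hq : 1 ≤ q) (d₀ : ℕ → ℤ) (C : ℕ) :
    ∃ N, ∀ n ≥ N, ∃ i < q, ∃ d : ℤ, 0 ≤ d ∧ d < b ∧ d ≠ d₀ i ∧
      C * n < complexity (fun t => if digit b x (q * t + i) = d then 1 else 0) n := by
  classical
  have hB : 2 ≤ b ^ q := le_trans hb (Nat.le_self_pow (by omega) b)
  set I : Finset (Σ _ : ℕ, ℤ) := (range q).sigma fun i => (Finset.Ico (0 : ℤ) b).erase (d₀ i)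
    with hI
  set κ : ℤ := ∑ i ∈ range q, (b : ℤ) ^ (q - 1 - i) * d₀ i with hκ
  have hB1 : ((b : ℤ) ^ q - 1) ≠ 0 := by
    have : (2 : ℤ) ≤ (b : ℤ) ^ q := by exact_mod_cast hB
    omega
  obtain ⟨N, hN⟩ := core (b ^ q) hB (ι := I)
    (fun p t => if digit b x (q * t + p.1.1) = p.1.2 then 1 else 0)
    (fun p => (Set.toFinite ({0, 1} : Set ℤ)).subset (by
      rintro _ ⟨t, rfl⟩
      simp only
      split_ifs <;> simp))
    (fun p => ((b : ℤ) ^ q - 1) * ((b : ℤ) ^ (q - 1 - p.1.1) * (p.1.2 - d₀ p.1.1)))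
    (fun t => ((b : ℝ) ^ q - 1) * Int.fract (x * (b : ℝ) ^ (q * t)) - κ)
    (|(b : ℝ) ^ q - 1| + |(κ : ℝ)|) (by
      intro t
      refine (abs_sub _ _).trans ?_
      rw [abs_mul, abs_of_nonneg (Int.fract_nonneg (x * (b : ℝ) ^ (q * t)))]
      have := Int.fract_lt_one (x * (b : ℝ) ^ (q * t))
      nlinarith [abs_nonneg ((b : ℝ) ^ q - 1)]) (by
      intro t
      rw [mul_add, mul_one, fract_add]
      rw [sum_coe_sort I (fun p : (Σ _ : ℕ, ℤ) =>
        ((((b : ℤ) ^ q - 1) * ((b : ℤ) ^ (q - 1 - p.1) * (p.2 - d₀ p.1)) : ℤ) : ℝ) *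
          ((if digit b x (q * t + p.1) = p.2 then 1 else 0 : ℤ) : ℝ)), hI, sum_sigma]
      have : ∀ i ∈ range q, ∑ d ∈ (Finset.Ico (0 : ℤ) b).erase (d₀ i),
          ((((b : ℤ) ^ q - 1) * ((b : ℤ) ^ (q - 1 - i) * (d - d₀ i)) : ℤ) : ℝ) *
          ((if digit b x (q * t + i) = d then 1 else 0 : ℤ) : ℝ) =
          ((b : ℝ) ^ q - 1) * ((b : ℝ) ^ (q - 1 - i) * digit b x (q * t + i) -
            (b : ℝ) ^ (q - 1 - i) * d₀ i) := by
        intro i _
        rw [sum_erase _ (by simp), sum_eq_single (digit b x (q * t + i))]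
        · simp only [if_true]; push_cast; ring
        · intro d _ hd; simp [Ne.symm hd]
        · intro h; exact absurd (digit_mem b hb x _) h
      rw [sum_congr rfl this, ← mul_sum, sum_sub_distrib, hκ]
      push_cast
      ring) (by
      simp only [mul_zero, pow_zero, mul_one, Int.fract]
      have h1 : IsAlgebraic ℚ ((((b : ℤ) ^ q - 1 : ℤ) : ℝ)) := isAlgebraic_intCast _
      push_cast at h1
      exact (h1.mul (halg.sub (isAlgebraic_intCast _))).sub (isAlgebraic_intCast _)) (by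
      simp only [mul_zero, pow_zero, mul_one, Int.fract]
      have := ((hirr.sub_intCast ⌊x⌋).intCast_mul hB1).sub_intCast κ
      push_cast at this ⊢
      exact this) C
  refine ⟨N, fun n hn => ?_⟩
  obtain ⟨⟨⟨i, d⟩, hp⟩, h⟩ := hN n hn
  simp only [hI, mem_sigma, mem_range, mem_erase, mem_Ico] at hp
  exact ⟨i, hp.1, d, hp.2.2.1, hp.2.2.2, hp.2.1, h⟩

end Pool.Agent.Lib.MP_f2f914_nt.SumWords
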