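import Pool.Agent.Lib.MP_f2f914_nt.Box

set_option autoImplicit false

namespace Pool.Agent.Lib.MP_f2f914_nt

open Complex

noncomputable def St.val (t : St) : ℂ :=
  ((((t.s1 : ℝ) - 2 ^ 52) / 2 ^ 50 : ℝ) : ℂ) + ((((t.s2 : ℝ) - 2 ^ 52) / 2 ^ 50 : ℝ) : ℂ) * I

noncomputable def St.om (t : St) : ℂ :=
  (((t.w1 : ℝ) / 2 ^ 50 : ℝ) : ℂ) + (((t.w2 : ℝ) / 2 ^ 50 : ℝ) : ℂ) * I

def St.Good (t : St) : Prop :=
  (t.c1 : ℝ) = 2 ^ 52 * (t.w2 + 2 ^ 50 - t.w1) ∧ (t.c2 : ℝ) = 2 ^ 52 * (t.w1 + t.w2 - 2 ^ 50)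

theorem St.val_re (t : St) : t.val.re = ((t.s1 : ℝ) - 2 ^ 52) / 2 ^ 50 := by
  simp only [St.val, add_re, ofReal_re, mul_re, I_re, I_im, ofReal_im]; ring

theorem St.val_im (t : St) : t.val.im = ((t.s2 : ℝ) - 2 ^ 52) / 2 ^ 50 := by
  simp only [St.val, add_im, ofReal_re, mul_im, I_re, I_im, ofReal_im]; ring

theorem St.om_re (t : St) : t.om.re = (t.w1 : ℝ) / 2 ^ 50 := by
  simp only [St.om, add_re, ofReal_re, mul_re, I_re, I_im, ofReal_im]; ring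

theorem St.om_im (t : St) : t.om.im = (t.w2 : ℝ) / 2 ^ 50 := by
  simp only [St.om, add_im, ofReal_re, mul_im, I_re, I_im, ofReal_im]; ring

theorem St.next_approx (t : St) (hg : t.Good) (h : ‖t.val * t.om‖ ≤ 4) :
    ‖t.next.val - t.val * t.om‖ ≤ 2 / 2 ^ 50 := by
  obtain ⟨g1, g2⟩ := hg
  have hre := (abs_le.mp (le_trans (Complex.abs_re_le_norm _) h)).1
  have him := (abs_le.mp (le_trans (Complex.abs_im_le_norm _) h)).1
  rw [mul_re, St.val_re, St.val_im, St.om_re, St.om_im] at hre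
  rw [mul_im, St.val_re, St.val_im, St.om_re, St.om_im] at him
  have k1 : (t.s1 : ℝ) * t.w1 + t.c1 - t.s2 * t.w2 = 2 ^ 100 *
      (((t.s1 : ℝ) - 2 ^ 52) / 2 ^ 50 * (t.w1 / 2 ^ 50) -
        ((t.s2 : ℝ) - 2 ^ 52) / 2 ^ 50 * (t.w2 / 2 ^ 50) + 4) := by
    rw [g1]; field_simp; ring
  have k2 : (t.s1 : ℝ) * t.w2 + t.s2 * t.w1 - t.c2 = 2 ^ 100 *
      (((t.s1 : ℝ) - 2 ^ 52) / 2 ^ 50 * (t.w2 / 2 ^ 50) +
        ((t.s2 : ℝ) - 2 ^ 52) / 2 ^ 50 * (t.w1 / 2 ^ 50) + 4) := by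
    rw [g2]; field_simp; ring
  have l1 : t.s2 * t.w2 ≤ t.s1 * t.w1 + t.c1 := by
    have : (0 : ℝ) ≤ (t.s1 : ℝ) * t.w1 + t.c1 - t.s2 * t.w2 := by
      rw [k1]; exact mul_nonneg (by positivity) (by linarith)
    have h2 : ((t.s2 * t.w2 : ℕ) : ℝ) ≤ ((t.s1 * t.w1 + t.c1 : ℕ) : ℝ) := by push_cast; linarith
    exact_mod_cast h2
  have l2 : t.c2 ≤ t.s1 * t.w2 + t.s2 * t.w1 := by
    have : (0 : ℝ) ≤ (t.s1 : ℝ) * t.w2 + t.s2 * t.w1 - t.c2 := by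
      rw [k2]; exact mul_nonneg (by positivity) (by linarith)
    have h2 : ((t.c2 : ℕ) : ℝ) ≤ ((t.s1 * t.w2 + t.s2 * t.w1 : ℕ) : ℝ) := by push_cast; linarith
    exact_mod_cast h2
  have e1 := natdiv_approx (t.s1 * t.w1 + t.c1 - t.s2 * t.w2) (2 ^ 50) (by norm_num)
  have e2 := natdiv_approx (t.s1 * t.w2 + t.s2 * t.w1 - t.c2) (2 ^ 50) (by norm_num)
  change |(t.next.s1 : ℝ) - _| ≤ 1 at e1
  change |(t.next.s2 : ℝ) - _| ≤ 1 at e2
  rw [Nat.cast_sub l1] at e1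
  rw [Nat.cast_sub l2] at e2
  push_cast at e1 e2
  rw [k1] at e1
  rw [k2] at e2
  refine le_trans (Complex.norm_le_abs_re_add_abs_im _) ?_
  rw [sub_re, sub_im, mul_re, mul_im, St.val_re, St.val_im, St.val_re, St.val_im, St.om_re,
    St.om_im]
  rw [abs_le] at e1 e2
  have a1 : |((t.next.s1 : ℝ) - 2 ^ 52) / 2 ^ 50 -
      (((t.s1 : ℝ) - 2 ^ 52) / 2 ^ 50 * (t.w1 / 2 ^ 50) -
        ((t.s2 : ℝ) - 2 ^ 52) / 2 ^ 50 * (t.w2 / 2 ^ 50))| ≤ 1 / 2 ^ 50 := by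
    rw [abs_le]; constructor <;> linarith [e1.1, e1.2]
  have a2 : |((t.next.s2 : ℝ) - 2 ^ 52) / 2 ^ 50 -
      (((t.s1 : ℝ) - 2 ^ 52) / 2 ^ 50 * (t.w2 / 2 ^ 50) +
        ((t.s2 : ℝ) - 2 ^ 52) / 2 ^ 50 * (t.w1 / 2 ^ 50))| ≤ 1 / 2 ^ 50 := by
    rw [abs_le]; constructor <;> linarith [e2.1, e2.2]
  linarith

def mkSt (p : Nat × Int × Int) : St :=
  ⟨p.1, om1 p.1, om2 p.1, 2 ^ 52 * (om2 p.1 + 2 ^ 50 - om1 p.1),
    2 ^ 52 * (om1 p.1 + om2 p.1 - 2 ^ 50), (2 ^ 52 + p.2.1 * 2 ^ 36).toNat,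
    (2 ^ 52 + p.2.2 * 2 ^ 36).toNat⟩

theorem om_ok : ∀ n < 321, 1 ≤ n → om1 n ≤ om2 n + 2 ^ 50 ∧ 2 ^ 50 ≤ om1 n + om2 n := by
  decide +kernel

/-- admissible coefficient triple -/
def Adm (p : Nat × Int × Int) : Prop :=
  1 ≤ p.1 ∧ p.1 ≤ 320 ∧ |p.2.1| ≤ 16384 ∧ |p.2.2| ≤ 16384

/-- the complex coefficient encoded by a triple -/
noncomputable def coef (p : Nat × Int × Int) : ℂ :=
  (((p.2.1 : ℝ) / 16384 : ℝ) : ℂ) + (((p.2.2 : ℝ) / 16384 : ℝ) : ℂ) * I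

theorem coef_re (p : Nat × Int × Int) : (coef p).re = (p.2.1 : ℝ) / 16384 := by
  simp only [coef, add_re, ofReal_re, mul_re, I_re, I_im, ofReal_im]; ring

theorem coef_im (p : Nat × Int × Int) : (coef p).im = (p.2.2 : ℝ) / 16384 := by
  simp only [coef, add_im, ofReal_re, mul_im, I_re, I_im, ofReal_im]; ring

theorem coef_norm_le (p : Nat × Int × Int) :
    ‖coef p‖ ≤ ((p.2.1.natAbs + p.2.2.natAbs : ℕ) : ℝ) / 16384 := by
  refine le_trans (Complex.norm_le_abs_re_add_abs_im _) ?_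
  rw [coef_re, coef_im, abs_div, abs_div, Nat.cast_add, Nat.cast_natAbs, Nat.cast_natAbs]
  push_cast
  rw [abs_of_pos (by norm_num : (0 : ℝ) < 16384)]
  linarith

theorem coef_norm_le_two (p : Nat × Int × Int) (hp : Adm p) : ‖coef p‖ ≤ 2 := by
  refine le_trans (coef_norm_le p) ?_
  obtain ⟨_, _, h1, h2⟩ := hp
  have : p.2.1.natAbs + p.2.2.natAbs ≤ 32768 := by
    rw [abs_le] at h1 h2; omega
  have h3 : ((p.2.1.natAbs + p.2.2.natAbs : ℕ) : ℝ) ≤ 32768 := by exact_mod_cast this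
  rw [div_le_iff₀ (by norm_num)]; linarith

theorem mkSt_good (p : Nat × Int × Int) (hp : Adm p) : (mkSt p).Good := by
  obtain ⟨h1, h2⟩ := om_ok p.1 (by have := hp.2.1; omega) hp.1
  constructor
  · simp only [mkSt]; rw [Nat.cast_mul, Nat.cast_sub h1]; push_cast; ring
  · simp only [mkSt]; rw [Nat.cast_mul, Nat.cast_sub h2]; push_cast; ring

theorem mkSt_val (p : Nat × Int × Int) (hp : Adm p) : (mkSt p).val = coef p := by
  obtain ⟨_, _, h1, h2⟩ := hp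
  rw [abs_le] at h1 h2
  have e1 : (((2 ^ 52 + p.2.1 * 2 ^ 36).toNat : ℕ) : ℝ) = 2 ^ 52 + p.2.1 * 2 ^ 36 := by
    have : (((2 ^ 52 + p.2.1 * 2 ^ 36).toNat : ℕ) : ℤ) = 2 ^ 52 + p.2.1 * 2 ^ 36 :=
      Int.toNat_of_nonneg (by omega)
    exact_mod_cast this
  have e2 : (((2 ^ 52 + p.2.2 * 2 ^ 36).toNat : ℕ) : ℝ) = 2 ^ 52 + p.2.2 * 2 ^ 36 := by
    have : (((2 ^ 52 + p.2.2 * 2 ^ 36).toNat : ℕ) : ℤ) = 2 ^ 52 + p.2.2 * 2 ^ 36 :=
      Int.toNat_of_nonneg (by omega)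
    exact_mod_cast this
  apply Complex.ext
  · rw [St.val_re, coef_re]; simp only [mkSt]; rw [e1]; field_simp; ring
  · rw [St.val_im, coef_im]; simp only [mkSt]; rw [e2]; field_simp; ring

theorem iter_fields (t : St) (j : Nat) : (St.next^[j] t).n = t.n ∧ (St.next^[j] t).om = t.om ∧
    (t.Good → (St.next^[j] t).Good) := by
  induction j with
  | zero => exact ⟨rfl, rfl, id⟩
  | succ j ih =>
    rw [Function.iterate_succ_apply']
    exact ⟨ih.1, ih.2.1, fun h => ih.2.2 h⟩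

theorem iter_approx (p : Nat × Int × Int) (hp : Adm p) (j : Nat) (hj : j ≤ 1000) :
    ‖(St.next^[j] (mkSt p)).val - coef p * exp (I * ((j : ℝ) * ((p.1 : ℝ) / 5120) : ℝ))‖
      ≤ j / 10 ^ 13 := by
  induction j with
  | zero => simp [mkSt_val p hp]
  | succ j ih =>
    have ih := ih (by omega)
    rw [Function.iterate_succ_apply']
    set t := St.next^[j] (mkSt p) with ht
    obtain ⟨_, f2, f3⟩ := iter_fields (mkSt p) j
    have hg : t.Good := f3 (mkSt_good p hp)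
    have hom : ‖t.om - exp (I * ((p.1 : ℝ) / 5120 : ℝ))‖ ≤ 1 / 10 ^ 14 := by
      rw [ht, f2]
      have := om_approx p.1 hp.2.1
      convert this using 3
      simp [St.om, mkSt]
    set z := coef p * exp (I * ((j : ℝ) * ((p.1 : ℝ) / 5120) : ℝ)) with hz
    set w := exp (I * ((p.1 : ℝ) / 5120 : ℝ)) with hw
    have hzn : ‖z‖ ≤ 2 := by
      rw [hz, norm_mul, norm_exp_I_mul_ofReal, mul_one]; exact coef_norm_le_two p hp
    have hwn : ‖w‖ = 1 := norm_exp_I_mul_ofReal _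
    have hj' : (j : ℝ) ≤ 1000 := by exact_mod_cast (by omega : j ≤ 1000)
    have hj0 : (0 : ℝ) ≤ j := Nat.cast_nonneg j
    have homn : ‖t.om‖ ≤ 1 + 1 / 10 ^ 14 := by
      calc ‖t.om‖ = ‖w + (t.om - w)‖ := by congr 1; ring
        _ ≤ ‖w‖ + ‖t.om - w‖ := norm_add_le _ _
        _ ≤ _ := by rw [hwn]; linarith
    have hvn : ‖t.val‖ ≤ 3 := by
      calc ‖t.val‖ = ‖z + (t.val - z)‖ := by congr 1; ring
        _ ≤ ‖z‖ + ‖t.val - z‖ := norm_add_le _ _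
        _ ≤ _ := by
          have : (j : ℝ) / 10 ^ 13 ≤ 1 := by rw [div_le_one (by norm_num)]; linarith
          linarith
    have h4 : ‖t.val * t.om‖ ≤ 4 := by
      rw [norm_mul]
      calc ‖t.val‖ * ‖t.om‖ ≤ 3 * (1 + 1 / 10 ^ 14) :=
            mul_le_mul hvn homn (norm_nonneg _) (by norm_num)
        _ ≤ 4 := by norm_num
    have hn := St.next_approx t hg h4
    have hexp : coef p * exp (I * ((((j + 1 : ℕ) : ℝ) * ((p.1 : ℝ) / 5120) : ℝ) : ℂ)) = z * w := by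
      rw [hz, hw, mul_assoc, ← Complex.exp_add]; congr 2; push_cast; ring
    rw [hexp]
    calc ‖t.next.val - z * w‖
        = ‖(t.next.val - t.val * t.om) + ((t.val - z) * w + t.val * (t.om - w))‖ := by
          congr 1; ring
      _ ≤ ‖t.next.val - t.val * t.om‖ + (‖(t.val - z) * w‖ + ‖t.val * (t.om - w)‖) :=
          le_trans (norm_add_le _ _) (add_le_add le_rfl (norm_add_le _ _))
      _ ≤ 2 / 2 ^ 50 + ((j : ℝ) / 10 ^ 13 + 3 * (1 / 10 ^ 14)) := by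
          refine add_le_add hn (add_le_add ?_ ?_)
          · rw [norm_mul, hwn, mul_one]; exact ih
          · rw [norm_mul]; exact mul_le_mul hvn hom (norm_nonneg _) (by norm_num)
      _ ≤ _ := by push_cast; norm_num; linarith

/-- per term estimate on one grid cell -/
theorem term_cell (p : Nat × Int × Int) (hp : Adm p) (j : Nat) (hj : j ≤ 1000) (u : ℝ)
    (hu0 : 0 ≤ u) (hu1 : u ≤ 1) :
    (coef p * exp (I * ((p.1 : ℝ) / 10 * (((j : ℝ) + u) / 512) : ℝ))).re ≤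
      (((St.next^[j] (mkSt p)).s1 : ℝ) - 2 ^ 52) / 2 ^ 50
        + u * (((p.1 : ℝ) * 2 ^ 52 - p.1 * (St.next^[j] (mkSt p)).s2) / (5120 * 2 ^ 50))
        + 2 / 10 ^ 10
        + 3 / 4 * (((p.2.1.natAbs + p.2.2.natAbs) * p.1 ^ 2 : ℕ) : ℝ) / (16384 * 5120 ^ 2) := by
  have h := iter_approx p hp j hj
  set t := St.next^[j] (mkSt p) with ht
  set z := coef p * exp (I * ((j : ℝ) * ((p.1 : ℝ) / 5120) : ℝ)) with hz
  set θ : ℝ := (p.1 : ℝ) / 5120 with hθ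
  have hn' : (p.1 : ℝ) ≤ 320 := by exact_mod_cast hp.2.1
  have hn0 : (0 : ℝ) ≤ p.1 := Nat.cast_nonneg _
  have hθ0 : 0 ≤ θ := by positivity
  have hθ1 : θ ≤ 1 / 16 := by rw [hθ]; linarith
  have hj' : (j : ℝ) ≤ 1000 := by exact_mod_cast hj
  have he : ‖t.val - z‖ ≤ 1 / 10 ^ 10 := by
    refine le_trans h ?_
    rw [div_le_div_iff₀ (by norm_num) (by norm_num)]; linarith
  have hsplit : coef p * exp (I * ((p.1 : ℝ) / 10 * (((j : ℝ) + u) / 512) : ℝ)) =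
      z * exp (I * ((u * θ : ℝ) : ℂ)) := by
    rw [hz, mul_assoc, ← Complex.exp_add]; congr 2; rw [hθ]; push_cast; ring
  rw [hsplit]
  have huθ0 : 0 ≤ u * θ := mul_nonneg hu0 hθ0
  have huθ1 : u * θ ≤ θ := by nlinarith
  have hnorm : ‖I * ((u * θ : ℝ) : ℂ)‖ = u * θ := by
    rw [norm_mul, norm_I, one_mul, Complex.norm_real, Real.norm_eq_abs, abs_of_nonneg huθ0]
  have hb := Complex.exp_bound (x := I * ((u * θ : ℝ) : ℂ)) (by rw [hnorm]; linarith)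
    (n := 2) (by norm_num)
  rw [hnorm] at hb
  simp only [Finset.sum_range_succ, Finset.sum_range_zero, Nat.factorial] at hb
  set R := exp (I * ((u * θ : ℝ) : ℂ)) - (1 + I * ((u * θ : ℝ) : ℂ)) with hR
  have hRn : ‖R‖ ≤ 3 / 4 * θ ^ 2 := by
    have e : R = exp (I * ((u * θ : ℝ) : ℂ)) - (0 + (I * ((u * θ : ℝ) : ℂ)) ^ 0 / ((1 : ℕ) : ℂ) +
      (I * ((u * θ : ℝ) : ℂ)) ^ 1 / ((Nat.succ 0 * 1 : ℕ) : ℂ)) := by
      rw [hR]; simp
    rw [e]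
    refine le_trans hb ?_
    have : (u * θ) ^ 2 ≤ θ ^ 2 := pow_le_pow_left₀ huθ0 huθ1 2
    norm_num
    linarith
  have hzn : ‖z‖ ≤ ((p.2.1.natAbs + p.2.2.natAbs : ℕ) : ℝ) / 16384 := by
    rw [hz, norm_mul, norm_exp_I_mul_ofReal, mul_one]; exact coef_norm_le p
  have hdec : z * exp (I * ((u * θ : ℝ) : ℂ)) = z + z * (I * ((u * θ : ℝ) : ℂ)) + z * R := by
    rw [hR]; ring
  rw [hdec, add_re, add_re]
  have a1 : (z * (I * ((u * θ : ℝ) : ℂ))).re = -(u * θ * z.im) := by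
    simp only [mul_re, mul_im, I_re, I_im, ofReal_re, ofReal_im]; ring
  have a2 : (z * R).re ≤ ((p.2.1.natAbs + p.2.2.natAbs : ℕ) : ℝ) / 16384 * (3 / 4 * θ ^ 2) := by
    refine le_trans (Complex.re_le_norm _) ?_
    rw [norm_mul]
    exact mul_le_mul hzn hRn (norm_nonneg _) (by positivity)
  have a3 := (abs_le.mp (le_trans (Complex.abs_re_le_norm _) he))
  have a4 := (abs_le.mp (le_trans (Complex.abs_im_le_norm _) he))
  rw [sub_re, St.val_re] at a3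
  rw [sub_im, St.val_im] at a4
  have a5 : -(u * θ * z.im) ≤ u * (((p.1 : ℝ) * 2 ^ 52 - p.1 * t.s2) / (5120 * 2 ^ 50))
      + 1 / 10 ^ 10 := by
    have e : u * (((p.1 : ℝ) * 2 ^ 52 - p.1 * t.s2) / (5120 * 2 ^ 50)) =
        -(u * θ * (((t.s2 : ℝ) - 2 ^ 52) / 2 ^ 50)) := by rw [hθ]; field_simp; ring
    rw [e]
    have : u * θ * (((t.s2 : ℝ) - 2 ^ 52) / 2 ^ 50 - z.im) ≤ u * θ * (1 / 10 ^ 10) :=
      mul_le_mul_of_nonneg_left a4.2 huθ0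
    nlinarith
  have a6 : ((p.2.1.natAbs + p.2.2.natAbs : ℕ) : ℝ) / 16384 * (3 / 4 * θ ^ 2) =
      3 / 4 * (((p.2.1.natAbs + p.2.2.natAbs) * p.1 ^ 2 : ℕ) : ℝ) / (16384 * 5120 ^ 2) := by
    rw [hθ, Nat.cast_mul, Nat.cast_pow]; field_simp
  rw [a1, ← a6]
  linarith [a3.1]

end Pool.Agent.Lib.MP_f2f914_nt
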