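import Pool.Agent.Lib.MP_f2f914_nt.Digits

set_option autoImplicit false

namespace Pool.Agent.Lib.MP_f2f914_nt

def Wl : List (Nat × Int) := [
  (14, 219594754),
  (24, 185327657),
  (32, 149067220),
  (42, 98080847),
  (50, 57120406),
  (55, 33115585),
  (64, -4352692),
  (86, -50838537),
  (116, -19113517),
  (133, 12868535),
  (155, 30622002),
  (175, 17035993),
  (190, -1887553),
  (210, -19990818),
  (240, -10669274)]

theorem Wl_ok : Wl.all wchk = true := by decide +kernel

end Pool.Agent.Lib.MP_f2f914_nt
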